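import Pool.Agent.Lib.MP_42948a_nt.OM.Defs
import Pool.Agent.Lib.MP_42948a_nt.OA.SO
import Pool.Agent.Lib.MP_42948a_nt.OA.EG

/-!
# The upper bound sieve (job C1)

`BP_expand` is `SJ_A` of `OA/SJ.lean` (unfold `BP`, `lp`). `lp_abs_le`: every factor has absolute value `≤ 1` (`SK_cc_abs`,
`SK_prod_abs`). `lp_level`: if `lp z b0 T ≠ 0` then every `cc (b0+j) |T ∩ Pj z j| ≠ 0` (`Finset.prod_ne_zero_iff`), so
`|T ∩ Pj z j| ≤ 2 (b0 + j)` (`SK_cc_zero`) and `level` applies. `BP_ge`: `prod_PP` and `bon_ge` blockwise (`Finset.prod_le_prod`, all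
`∏ (1 - g) ≥ 0`). `wp_nonneg`, `wp_rough`: `BP_ge` for `g p = if p ∣ n then 1 else 0` and `SO_one`: the product `∏ (1 - g)` is
`1` if no `p ∈ PP z` divides `n` and `0` otherwise. `wp_expand`: `BP_expand`, `SO_all`, and `(∀ p ∈ T, p ∣ n) ↔ ∏ p ∈ T, p ∣ n` for a set
of primes (`EG_dvd_iff` in `OA/EG.lean`, or copy it).
-/

namespace Pool.Agent.Lib.MP_42948a_nt.OM

open Finset Pool.Agent.Lib.MP_42948a_nt.OA

theorem BP_expand (z b0 : ℕ) (g : ℕ → ℝ) :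
    BP z b0 g = ∑ T ∈ (PP z).powerset, lp z b0 T * ∏ p ∈ T, g p := by
  unfold BP lp
  exact SJ_A z b0 g

theorem lp_abs_le (z b0 : ℕ) (T : Finset ℕ) : |lp z b0 T| ≤ 1 := by
  unfold lp
  exact SK_prod_abs _ fun j _ => SK_cc_abs _ _

theorem lp_level (z b0 : ℕ) (hz : 1 ≤ z) (T : Finset ℕ) (hT : T ⊆ PP z) (h : lp z b0 T ≠ 0) :
    ∏ p ∈ T, p ≤ z ^ (4 * b0 + 6) := by
  refine level z b0 hz T hT fun j hj => ?_
  by_contra hc
  apply h
  unfold lp
  exact Finset.prod_eq_zero (Finset.mem_range.2 hj) (SK_cc_zero _ _ (by omega))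

theorem BP_ge (z b0 : ℕ) (g : ℕ → ℝ) (h0 : ∀ p ∈ PP z, 0 ≤ g p) (h1 : ∀ p ∈ PP z, g p ≤ 1) :
    ∏ p ∈ PP z, (1 - g p) ≤ BP z b0 g := by
  have hsub : ∀ j, Pj z j ⊆ PP z := fun j => Finset.filter_subset _ _
  rw [prod_PP z (fun p => 1 - g p)]
  unfold BP
  refine Finset.prod_le_prod (fun j _ => ?_) fun j _ => ?_
  · exact Finset.prod_nonneg fun p hp => sub_nonneg.mpr (h1 p (hsub j hp))
  · exact bon_ge (Pj z j) g (fun p hp => h0 p (hsub j hp)) (fun p hp => h1 p (hsub j hp)) (b0 + j)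

theorem wp_nonneg (z b0 n : ℕ) : 0 ≤ wp z b0 n := by
  have h := BP_ge z b0 (fun p => if p ∣ n then (1 : ℝ) else 0)
    (fun p _ => by split_ifs <;> norm_num) (fun p _ => by split_ifs <;> norm_num)
  rw [SO_one] at h
  refine le_trans ?_ h
  split_ifs <;> norm_num

theorem wp_rough (z b0 n : ℕ) (hn : Rough z n) : 1 ≤ wp z b0 n := by
  have h := BP_ge z b0 (fun p => if p ∣ n then (1 : ℝ) else 0)
    (fun p _ => by split_ifs <;> norm_num) (fun p _ => by split_ifs <;> norm_num)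
  rw [SO_one, if_pos] at h
  · exact h
  · intro p hp hpn
    unfold PP at hp
    rw [Finset.mem_filter, Finset.mem_Icc] at hp
    exact absurd (hn.2 p hp.2 hpn) (not_lt.2 hp.1.2)

theorem wp_expand (z b0 n : ℕ) :
    wp z b0 n = ∑ T ∈ (PP z).powerset, lp z b0 T * (if (∏ p ∈ T, p) ∣ n then (1 : ℝ) else 0) := by
  unfold wp
  rw [BP_expand]
  refine Finset.sum_congr rfl fun T hT => ?_
  rw [SO_all]
  have hT' : ∀ p ∈ T, p.Prime := by
    intro p hp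
    have h := Finset.mem_powerset.1 hT hp
    unfold PP at h
    exact (Finset.mem_filter.1 h).2
  have h2 := EG_dvd_iff T hT' n
  by_cases h3 : ∀ p ∈ T, p ∣ n
  · rw [if_pos h3, if_pos (h2.1 h3)]
  · rw [if_neg h3, if_neg (fun h4 => h3 (h2.2 h4))]

end Pool.Agent.Lib.MP_42948a_nt.OM
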