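import Pool.Agent.Lib.MP_42948a_nt.OM.Defs
import Pool.Agent.Lib.MP_42948a_nt.OA.SH

/-!
# The lower bound functional is almost the upper bound functional (job C2)

Adapt the proof of `FF_ge` in `OA/SH.lean`. `L` from `block_recip` (so `∑_{p ∈ Pj z l} g p ≤ ∑ 1/p ≤ L`),
`ν b = exp(2 L) ∑' l, L^(2(b+l)+1)/(2(b+l)+1)!`. With `V l = ∏_{Pj z l} (1 - g) ≥ exp(-2 L)` (`exp_le_prod`; `g p ≤ 1/p ≤ 1/2 ≤ 3/4` for
`p ∈ PP z`), `U l = bon .. ≥ V l > 0`, `E l = esy .. ≤ L^{..}/(..)!`: `FF = ∏ U - ∑_l E l ∏_{erase l} U ≥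
(∏ U)(1 - exp(2L) ∑_{l < z} E l) ≥ (∏ U)(1 - ν b0)`, and `∏ U = BP z b0 g` by definition.
Decay: `b^A ν b → 0`: `b^A L^k/k! ≤ k^A L^k/k!` for `k ≥ b`, and `∑_k k^A L^k/k!` converges (e.g. `k^A ≤ A! e^k` (from
`Real.pow_div_factorial_le_exp`), so the terms are at most `A! (e L)^k/k!`, `Real.summable_pow_div_factorial (exp 1 * L)`), so
`b^A ν b ≤ exp(2L) A! ∑' l, (e L)^(2(b+l)+1)/(2(b+l)+1)!`, a tail of a convergent series, tends to `0` (see `exp_tail` in `OA/SG.lean`).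
-/

namespace Pool.Agent.Lib.MP_42948a_nt.OM

open Finset Pool.Agent.Lib.MP_42948a_nt.OA

private noncomputable def C2_f (L : ℝ) (b : ℕ) : ℝ := L ^ (2 * b + 1) / ((2 * b + 1).factorial : ℝ)

private theorem C2_summable (L : ℝ) : Summable (C2_f L) := by
  have hinj : Function.Injective (fun b : ℕ => 2 * b + 1) := by
    intro a b h
    have h' : 2 * a + 1 = 2 * b + 1 := h
    omega
  exact (Real.summable_pow_div_factorial L).comp_injective hinj

private theorem C2_nonneg {L : ℝ} (hL : 0 ≤ L) (b : ℕ) : 0 ≤ C2_f L b := by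
  unfold C2_f
  positivity

private theorem C2_decay {L : ℝ} (hL : 0 ≤ L) (A : ℕ) : ∃ B : ℕ, ∀ b : ℕ, B ≤ b →
    (Real.exp (2 * L) * ∑' l, C2_f L (l + b)) * (b : ℝ) ^ A ≤ 1 := by
  have he : 0 < Real.exp 1 := Real.exp_pos 1
  have hc : 0 < Real.exp (2 * L) * (A.factorial : ℝ) :=
    mul_pos (Real.exp_pos _) (by exact_mod_cast Nat.factorial_pos A)
  have ht := tendsto_sum_nat_add (C2_f (Real.exp 1 * L))
  have hev := ht.eventually (gt_mem_nhds (div_pos one_pos hc))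
  obtain ⟨B, hB⟩ := Filter.eventually_atTop.1 hev
  refine ⟨B, fun b hb => ?_⟩
  have hterm : ∀ l : ℕ, C2_f L (l + b) * (b : ℝ) ^ A ≤ (A.factorial : ℝ) * C2_f (Real.exp 1 * L) (l + b) := by
    intro l
    unfold C2_f
    set k : ℕ := 2 * (l + b) + 1 with hk
    have hk0 : (0 : ℝ) < (k.factorial : ℝ) := by exact_mod_cast Nat.factorial_pos k
    have hA0 : (0 : ℝ) < (A.factorial : ℝ) := by exact_mod_cast Nat.factorial_pos A
    have hbk : (b : ℝ) ≤ (k : ℝ) := by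
      have : b ≤ k := by omega
      exact_mod_cast this
    have h1 : (b : ℝ) ^ A ≤ (k : ℝ) ^ A := pow_le_pow_left₀ (Nat.cast_nonneg b) hbk A
    have h2 : (k : ℝ) ^ A / (A.factorial : ℝ) ≤ Real.exp k :=
      Real.pow_div_factorial_le_exp (k : ℝ) (Nat.cast_nonneg k) A
    rw [div_le_iff₀ hA0] at h2
    have h3 : Real.exp (k : ℝ) = Real.exp 1 ^ k := by
      rw [← Real.exp_nat_mul, mul_one]
    rw [h3] at h2
    have h4 : 0 ≤ L ^ k / (k.factorial : ℝ) := by positivity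
    calc L ^ k / (k.factorial : ℝ) * (b : ℝ) ^ A
        ≤ L ^ k / (k.factorial : ℝ) * (Real.exp 1 ^ k * (A.factorial : ℝ)) :=
          mul_le_mul_of_nonneg_left (h1.trans h2) h4
      _ = (A.factorial : ℝ) * ((Real.exp 1 * L) ^ k / (k.factorial : ℝ)) := by
          rw [mul_pow]
          ring
  have hs1 : Summable (fun l => C2_f L (l + b)) := (summable_nat_add_iff b).mpr (C2_summable L)
  have hs2 : Summable (fun l => C2_f (Real.exp 1 * L) (l + b)) :=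
    (summable_nat_add_iff b).mpr (C2_summable (Real.exp 1 * L))
  have h5 : (∑' l, C2_f L (l + b)) * (b : ℝ) ^ A ≤
      (A.factorial : ℝ) * ∑' l, C2_f (Real.exp 1 * L) (l + b) := by
    rw [← tsum_mul_right, ← tsum_mul_left]
    exact (hs1.mul_right _).tsum_le_tsum hterm (hs2.mul_left _)
  have h6 : ∑' l, C2_f (Real.exp 1 * L) (l + b) ≤ 1 / (Real.exp (2 * L) * (A.factorial : ℝ)) := (hB b hb).le
  have h7 : (A.factorial : ℝ) * ∑' l, C2_f (Real.exp 1 * L) (l + b) ≤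
      (A.factorial : ℝ) * (1 / (Real.exp (2 * L) * (A.factorial : ℝ))) :=
    mul_le_mul_of_nonneg_left h6 (Nat.cast_nonneg _)
  rw [mul_assoc]
  refine (mul_le_mul_of_nonneg_left (h5.trans h7) (Real.exp_pos _).le).trans (le_of_eq ?_)
  rw [← mul_assoc]
  field_simp

theorem FF_near : ∃ ν : ℕ → ℝ, (∀ b, 0 ≤ ν b) ∧ (∀ A : ℕ, ∃ B : ℕ, ∀ b : ℕ, B ≤ b → ν b * (b : ℝ) ^ A ≤ 1) ∧
    ∀ (z b0 : ℕ) (g : ℕ → ℝ), (∀ p ∈ PP z, 0 ≤ g p ∧ g p ≤ 1 / (p : ℝ)) →
      (1 - ν b0) * BP z b0 g ≤ FF z b0 g := by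
  obtain ⟨L, hLpos, hrec⟩ := block_recip
  have hL : 0 ≤ L := by linarith
  refine ⟨fun b => Real.exp (2 * L) * ∑' l, C2_f L (l + b), fun b => ?_, C2_decay hL, ?_⟩
  · exact mul_nonneg (Real.exp_pos _).le (tsum_nonneg fun l => C2_nonneg hL _)
  intro z b0 g hg
  have hsub : ∀ l, ∀ p ∈ Pj z l, p ∈ PP z := fun l p hp => (mem_filter.mp hp).1
  have hg0 : ∀ l, ∀ p ∈ Pj z l, 0 ≤ g p := fun l p hp => (hg p (hsub l p hp)).1
  have hg34 : ∀ l, ∀ p ∈ Pj z l, g p ≤ 3 / 4 := by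
    intro l p hp
    have h1 := hg p (hsub l p hp)
    have h2 : p.Prime := (mem_filter.mp (hsub l p hp)).2
    have h3 : (2 : ℝ) ≤ (p : ℝ) := by exact_mod_cast h2.two_le
    have h4 : 1 / (p : ℝ) ≤ 1 / 2 := one_div_le_one_div_of_le (by norm_num) h3
    linarith [h1.2]
  have hg1 : ∀ l, ∀ p ∈ Pj z l, g p ≤ 1 := fun l p hp => (hg34 l p hp).trans (by norm_num)
  have hS0 : ∀ l, 0 ≤ ∑ p ∈ Pj z l, g p := fun l => sum_nonneg (hg0 l)
  have hS : ∀ l, ∑ p ∈ Pj z l, g p ≤ L := fun l =>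
    (sum_le_sum fun p hp => (hg p (hsub l p hp)).2).trans (hrec z l)
  have hV : ∀ l, Real.exp (-(2 * L)) ≤ ∏ p ∈ Pj z l, (1 - g p) := by
    intro l
    refine le_trans ?_ (exp_le_prod (Pj z l) g (hg0 l) (hg34 l))
    apply Real.exp_le_exp.mpr
    linarith [hS l]
  have hU : ∀ l, ∏ p ∈ Pj z l, (1 - g p) ≤ bon (Pj z l) g (2 * (b0 + l)) :=
    fun l => bon_ge (Pj z l) g (hg0 l) (hg1 l) (b0 + l)
  have hU0 : ∀ l, 0 < bon (Pj z l) g (2 * (b0 + l)) :=
    fun l => lt_of_lt_of_le (Real.exp_pos _) ((hV l).trans (hU l))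
  have hE : ∀ l, esy (Pj z l) g (2 * (b0 + l) + 1) ≤ C2_f L (b0 + l) := by
    intro l
    refine (esy_le (Pj z l) g (hg0 l) _).trans ?_
    have h1 : (∑ p ∈ Pj z l, g p) ^ (2 * (b0 + l) + 1) ≤ L ^ (2 * (b0 + l) + 1) :=
      pow_le_pow_left₀ (hS0 l) (hS l) _
    have h2 : (0 : ℝ) < ((2 * (b0 + l) + 1).factorial : ℝ) := by exact_mod_cast Nat.factorial_pos _
    exact div_le_div_of_nonneg_right h1 h2.le
  set PU : ℝ := ∏ j ∈ range z, bon (Pj z j) g (2 * (b0 + j)) with hPU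
  have hPU0 : 0 ≤ PU := prod_nonneg fun j _ => (hU0 j).le
  have hterm : ∀ l ∈ range z, esy (Pj z l) g (2 * (b0 + l) + 1) *
      ∏ j ∈ (range z).erase l, bon (Pj z j) g (2 * (b0 + j)) ≤
      C2_f L (b0 + l) * (Real.exp (2 * L) * PU) := by
    intro l hl
    have hX0 : 0 ≤ ∏ j ∈ (range z).erase l, bon (Pj z j) g (2 * (b0 + j)) :=
      prod_nonneg fun j _ => (hU0 j).le
    have hX : ∏ j ∈ (range z).erase l, bon (Pj z j) g (2 * (b0 + j)) ≤ Real.exp (2 * L) * PU := by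
      rw [hPU, ← mul_prod_erase (range z) (fun j => bon (Pj z j) g (2 * (b0 + j))) hl, ← mul_assoc]
      have h1 : 1 ≤ Real.exp (2 * L) * bon (Pj z l) g (2 * (b0 + l)) := by
        calc (1 : ℝ) = Real.exp (2 * L) * Real.exp (-(2 * L)) := by
              rw [← Real.exp_add, add_neg_cancel, Real.exp_zero]
          _ ≤ Real.exp (2 * L) * bon (Pj z l) g (2 * (b0 + l)) :=
              mul_le_mul_of_nonneg_left ((hV l).trans (hU l)) (Real.exp_pos _).le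
      exact le_mul_of_one_le_left hX0 h1
    exact (mul_le_mul_of_nonneg_right (hE l) hX0).trans (mul_le_mul_of_nonneg_left hX (C2_nonneg hL _))
  have hs1 : Summable (fun l => C2_f L (l + b0)) := (summable_nat_add_iff b0).mpr (C2_summable L)
  have htail : ∑ l ∈ range z, C2_f L (b0 + l) ≤ ∑' l, C2_f L (l + b0) := by
    have h1 : ∑ l ∈ range z, C2_f L (b0 + l) = ∑ l ∈ range z, C2_f L (l + b0) :=
      sum_congr rfl fun l _ => by rw [Nat.add_comm]
    rw [h1]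
    exact hs1.sum_le_tsum _ fun l _ => C2_nonneg hL _
  have hsum : ∑ l ∈ range z, esy (Pj z l) g (2 * (b0 + l) + 1) *
      ∏ j ∈ (range z).erase l, bon (Pj z j) g (2 * (b0 + j)) ≤
      (Real.exp (2 * L) * ∑' l, C2_f L (l + b0)) * PU := by
    refine (sum_le_sum hterm).trans ?_
    rw [← sum_mul]
    have h1 : (0 : ℝ) ≤ Real.exp (2 * L) * PU := mul_nonneg (Real.exp_pos _).le hPU0
    refine (mul_le_mul_of_nonneg_right htail h1).trans (le_of_eq ?_)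
    ring
  have hBP : BP z b0 g = PU := rfl
  have hFF : FF z b0 g = PU - ∑ l ∈ range z, esy (Pj z l) g (2 * (b0 + l) + 1) *
      ∏ j ∈ (range z).erase l, bon (Pj z j) g (2 * (b0 + j)) := rfl
  rw [hBP, hFF, sub_mul, one_mul]
  linarith

end Pool.Agent.Lib.MP_42948a_nt.OM
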