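import Pool.Agent.Lib.MP_42948a_nt.OM.Defs

/-!
# Sums of `m`-th roots of unity (job I1)

`ze m` is a primitive `m`-th root of unity (`Complex.isPrimitiveRoot_exp`). `tau_ne_zero`: if the sum over `A` vanishes, the polynomial
`P = ∑_{x ∈ A} X^(x.val)` over `ℚ` (degree `< m`) has the root `ze m`, so it is divisible by its minimal polynomial
`cyclotomic m ℚ = ∑_{i < m} X^i` (`Polynomial.cyclotomic_eq_minpoly_rat`, `minpoly.dvd`, `Polynomial.cyclotomic_prime`), of degree `m - 1`: so
`P = a * ∑_{i<m} X^i` with a constant `a` (degree count), and all coefficients of `P` (`0` or `1`, according to `i ∈ A`) are equal: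
`A = ∅` or `A = univ`. `tau_shift`: `(x + s).val ≡ x.val + s.val mod m` (`ZMod.val_add`), `ze m ^ m = 1`, `x ↦ x + s` is injective.
`ze_pow_cast`: `ze m ^ ((n : ZMod m)).val = ze m ^ n` (`ZMod.val_natCast`, `pow_eq_pow_mod`).
`ze_re`: `Re = cos(2π/m) ≥ cos(2π/3) = -1/2` for `m ≥ 3` (`Real.cos_le_cos_of_nonneg_of_le_pi`).
-/

namespace Pool.Agent.Lib.MP_42948a_nt.OM

open Finset Pool.Agent.Lib.MP_42948a_nt.OA

theorem ze_prim (m : ℕ) (hm : m ≠ 0) : IsPrimitiveRoot (ze m) m := by
  unfold ze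
  exact Complex.isPrimitiveRoot_exp m hm

private theorem I1_ze_eq (m : ℕ) : ze m = Complex.exp (((2 * Real.pi / m : ℝ) : ℂ) * Complex.I) := by
  unfold ze
  congr 1
  push_cast
  ring

theorem ze_norm (m : ℕ) : ‖ze m‖ = 1 := by
  rw [I1_ze_eq, Complex.norm_exp_ofReal_mul_I]

theorem ze_re (m : ℕ) (hm : 3 ≤ m) : -(1 / 2) ≤ (ze m).re := by
  rw [I1_ze_eq, Complex.exp_ofReal_mul_I_re]
  have hm' : (3 : ℝ) ≤ m := by exact_mod_cast hm
  have hpi := Real.pi_pos
  have h1 : Real.cos (2 * Real.pi / 3) = -(1 / 2) := by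
    have : 2 * Real.pi / 3 = Real.pi - Real.pi / 3 := by ring
    rw [this, Real.cos_pi_sub, Real.cos_pi_div_three]
  rw [← h1]
  apply Real.cos_le_cos_of_nonneg_of_le_pi
  · positivity
  · linarith
  · exact div_le_div_of_nonneg_left (by positivity) (by norm_num) hm'

private theorem I1_ze_pow (m : ℕ) [NeZero m] : ze m ^ m = 1 :=
  (ze_prim m (NeZero.ne m)).pow_eq_one

theorem ze_pow_cast (m n : ℕ) [NeZero m] : ze m ^ ((n : ZMod m)).val = ze m ^ n := by
  rw [ZMod.val_natCast, ← pow_eq_pow_mod n (I1_ze_pow m)]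

theorem tau_ne_zero (m : ℕ) (hm : m.Prime) (A : Finset (ZMod m)) (hA : A.Nonempty) (hA' : A.card < m) :
    ∑ x ∈ A, ze m ^ x.val ≠ 0 := by
  intro h0
  have : Fact m.Prime := ⟨hm⟩
  have : NeZero m := ⟨hm.ne_zero⟩
  set P : Polynomial ℚ := ∑ x ∈ A, Polynomial.X ^ x.val with hP
  have hcoef : ∀ i : ℕ, i < m → P.coeff i = if ((i : ℕ) : ZMod m) ∈ A then 1 else 0 := by
    intro i hi
    rw [hP, Polynomial.finsetSum_coeff]
    simp only [Polynomial.coeff_X_pow]
    have : ∀ x ∈ A, (if i = x.val then (1 : ℚ) else 0) = if (i : ZMod m) = x then 1 else 0 := by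
      intro x _
      congr 1
      apply propext
      constructor
      · intro h; rw [h]; simp
      · intro h; rw [← h, ZMod.val_natCast, Nat.mod_eq_of_lt hi]
    rw [Finset.sum_congr rfl this, Finset.sum_ite_eq]
  have hroot : Polynomial.aeval (ze m) P = 0 := by
    rw [hP, map_sum]
    simpa using h0
  have hdvd : Polynomial.cyclotomic m ℚ ∣ P := by
    rw [Polynomial.cyclotomic_eq_minpoly_rat (ze_prim m hm.ne_zero) hm.pos]
    exact minpoly.dvd _ _ hroot
  obtain ⟨Q, hQ⟩ := hdvd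
  have hPne : P ≠ 0 := by
    intro h
    obtain ⟨x, hx⟩ := hA
    have := hcoef x.val (ZMod.val_lt x)
    rw [h] at this
    simp [hx] at this
  have hQne : Q ≠ 0 := by
    rintro rfl
    exact hPne (by rw [hQ, mul_zero])
  have hPdeg : P.natDegree ≤ m - 1 := by
    rw [hP]
    apply Polynomial.natDegree_sum_le_of_forall_le
    intro x _
    rw [Polynomial.natDegree_X_pow]
    have := ZMod.val_lt x
    omega
  have hQdeg : Q.natDegree = 0 := by
    have h1 : P.natDegree = (Polynomial.cyclotomic m ℚ).natDegree + Q.natDegree := by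
      rw [hQ]
      exact Polynomial.natDegree_mul (Polynomial.cyclotomic_ne_zero m ℚ) hQne
    rw [Polynomial.natDegree_cyclotomic, Nat.totient_prime hm] at h1
    omega
  obtain ⟨a, ha⟩ := Polynomial.natDegree_eq_zero.mp hQdeg
  have hPa : ∀ i : ℕ, i < m → P.coeff i = a := by
    intro i hi
    rw [hQ, ← ha, Polynomial.coeff_mul_C, Polynomial.cyclotomic_prime, Polynomial.finsetSum_coeff]
    simp only [Polynomial.coeff_X_pow]
    rw [Finset.sum_ite_eq]
    simp [hi]
  obtain ⟨x, hx⟩ := hA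
  have ha1 : a = 1 := by
    rw [← hPa x.val (ZMod.val_lt x), hcoef x.val (ZMod.val_lt x)]
    simp [hx]
  have hall : A = Finset.univ := by
    apply Finset.eq_univ_of_forall
    intro y
    by_contra hy
    have h1 := hPa y.val (ZMod.val_lt y)
    rw [hcoef y.val (ZMod.val_lt y), ha1] at h1
    simp [hy] at h1
  rw [hall, Finset.card_univ, ZMod.card] at hA'
  exact lt_irrefl _ hA'

theorem tau_shift (m : ℕ) [NeZero m] (A : Finset (ZMod m)) (s : ZMod m) :
    ∑ x ∈ A.image (fun x => x + s), ze m ^ x.val = ze m ^ s.val * ∑ x ∈ A, ze m ^ x.val := by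
  rw [Finset.sum_image (fun x _ y _ h => add_right_cancel h), Finset.mul_sum]
  apply Finset.sum_congr rfl
  intro x _
  rw [ZMod.val_add, ← pow_eq_pow_mod _ (I1_ze_pow m), pow_add, mul_comm]

end Pool.Agent.Lib.MP_42948a_nt.OM
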