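import Pool.Agent.Lib.MP_42948a_nt.OM.A1

/-!
# Parseval on the dual side, and counting (job A2)

`parseval_char`: expand the square; `conj (χ'(b⁻¹)) = χ'(b)` (`conj_char_unit`), so
`∑ b, ‖∑ χ, k χ * χ(b⁻¹)‖^2 = ∑ χ, ∑ χ', k χ * conj (k χ') * ∑ b, χ(b⁻¹) χ'(b)` and the inner sum is `∑ b, (χ⁻¹ * χ')(b)`, which is
`φ(d)` if `χ = χ'` and `0` otherwise: `MulChar.sum_eq_zero_of_ne_one` (sum over `ZMod d`; it vanishes at non-units,
`MulChar.map_nonunit`; pass to units) or: substitute `b ↦ b * b0` with `(χ⁻¹ χ')(b0) ≠ 1`. The number of units is `d.totient`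
(`ZMod.card_units_eq_totient`).

`inversion`: with `k χ = (∑ y, κ y * χ y) / φ(d)` (sum over units `y`): `∑ χ, k χ * χ(x⁻¹) = κ x` by `orth`;
`∑ χ, ‖k χ‖^2 = (∑ y, ‖κ y‖^2) / φ(d)` by `parseval_class` (`ι = (ZMod d)ˣ`, `S = univ`, `x` the coercion).

`card_large`: Markov: `#{b : t ≤ ‖F b‖} * t^2 ≤ ∑ b, ‖F b‖^2`.
-/

namespace Pool.Agent.Lib.MP_42948a_nt.OM

open Finset Pool.Agent.Lib.MP_42948a_nt.OA

private theorem A2_inner (d : ℕ) [NeZero d] (χ χ' : DirichletCharacter ℂ d) :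
    ∑ b : (ZMod d)ˣ, χ ((b⁻¹ : (ZMod d)ˣ) : ZMod d) * χ' (b : ZMod d) =
      if χ = χ' then (d.totient : ℂ) else 0 := by
  split_ifs with h
  · subst h
    have h1 : ∀ b : (ZMod d)ˣ, χ ((b⁻¹ : (ZMod d)ˣ) : ZMod d) * χ (b : ZMod d) = 1 := by
      intro b
      rw [← map_mul, Units.inv_mul, map_one]
    simp only [h1, Finset.sum_const, Finset.card_univ, ZMod.card_units_eq_totient, nsmul_eq_mul, mul_one]
  · obtain ⟨b0, hb0⟩ : ∃ b0 : (ZMod d)ˣ, χ (b0 : ZMod d) ≠ χ' (b0 : ZMod d) := by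
      by_contra hcon
      push Not at hcon
      exact h (MulChar.ext hcon)
    set S := ∑ b : (ZMod d)ˣ, χ ((b⁻¹ : (ZMod d)ˣ) : ZMod d) * χ' (b : ZMod d) with hS
    have h1 : S = (χ ((b0⁻¹ : (ZMod d)ˣ) : ZMod d) * χ' (b0 : ZMod d)) * S := by
      have h2 : ∑ b : (ZMod d)ˣ, χ (((b * b0)⁻¹ : (ZMod d)ˣ) : ZMod d) * χ' ((b * b0 : (ZMod d)ˣ) : ZMod d) = S :=
        Equiv.sum_comp (Equiv.mulRight b0) (fun b : (ZMod d)ˣ => χ ((b⁻¹ : (ZMod d)ˣ) : ZMod d) * χ' (b : ZMod d))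
      conv_lhs => rw [← h2]
      rw [hS, Finset.mul_sum]
      refine Finset.sum_congr rfl fun b _ => ?_
      rw [mul_inv_rev, Units.val_mul, Units.val_mul, map_mul, map_mul]
      ring
    have h2 : χ ((b0⁻¹ : (ZMod d)ˣ) : ZMod d) * χ' (b0 : ZMod d) ≠ 1 := by
      intro h3
      apply hb0
      have h4 : χ ((b0 : ZMod d)) * χ ((b0⁻¹ : (ZMod d)ˣ) : ZMod d) = 1 := by
        rw [← map_mul, Units.mul_inv, map_one]
      calc χ (b0 : ZMod d) = χ (b0 : ZMod d) * (χ ((b0⁻¹ : (ZMod d)ˣ) : ZMod d) * χ' (b0 : ZMod d)) := by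
            rw [h3, mul_one]
        _ = (χ ((b0 : ZMod d)) * χ ((b0⁻¹ : (ZMod d)ˣ) : ZMod d)) * χ' (b0 : ZMod d) := by ring
        _ = χ' (b0 : ZMod d) := by rw [h4, one_mul]
    have h3 : (1 - χ ((b0⁻¹ : (ZMod d)ˣ) : ZMod d) * χ' (b0 : ZMod d)) * S = 0 := by
      rw [sub_mul, one_mul, ← h1, sub_self]
    rcases mul_eq_zero.mp h3 with h4 | h4
    · exact absurd (sub_eq_zero.mp h4).symm h2
    · exact h4

theorem parseval_char (d : ℕ) [NeZero d] (k : DirichletCharacter ℂ d → ℂ) :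
    ∑ b : (ZMod d)ˣ, ‖∑ χ : DirichletCharacter ℂ d, k χ * χ ((b⁻¹ : (ZMod d)ˣ) : ZMod d)‖ ^ 2 =
      (d.totient : ℝ) * ∑ χ : DirichletCharacter ℂ d, ‖k χ‖ ^ 2 := by
  have hsq : ∀ z : ℂ, ((‖z‖ ^ 2 : ℝ) : ℂ) = z * (starRingEnd ℂ) z := by
    intro z
    rw [Complex.mul_conj, Complex.normSq_eq_norm_sq]
  have key : ((∑ b : (ZMod d)ˣ, ‖∑ χ : DirichletCharacter ℂ d, k χ * χ ((b⁻¹ : (ZMod d)ˣ) : ZMod d)‖ ^ 2 : ℝ) : ℂ) =
      (((d.totient : ℝ) * ∑ χ : DirichletCharacter ℂ d, ‖k χ‖ ^ 2 : ℝ) : ℂ) := by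
    rw [Complex.ofReal_sum, Complex.ofReal_mul, Complex.ofReal_sum, Complex.ofReal_natCast]
    simp only [hsq]
    have h1 : ∀ b : (ZMod d)ˣ, (∑ χ : DirichletCharacter ℂ d, k χ * χ ((b⁻¹ : (ZMod d)ˣ) : ZMod d)) *
        (starRingEnd ℂ) (∑ χ : DirichletCharacter ℂ d, k χ * χ ((b⁻¹ : (ZMod d)ˣ) : ZMod d)) =
        ∑ χ : DirichletCharacter ℂ d, ∑ χ' : DirichletCharacter ℂ d,
          k χ * (starRingEnd ℂ) (k χ') * (χ ((b⁻¹ : (ZMod d)ˣ) : ZMod d) * χ' (b : ZMod d)) := by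
      intro b
      rw [map_sum, Finset.sum_mul_sum]
      refine Finset.sum_congr rfl fun χ _ => Finset.sum_congr rfl fun χ' _ => ?_
      rw [map_mul, conj_char_unit, inv_inv]
      ring
    simp only [h1]
    rw [Finset.sum_comm, Finset.mul_sum]
    refine Finset.sum_congr rfl fun χ _ => ?_
    rw [Finset.sum_comm]
    simp only [← Finset.mul_sum, A2_inner]
    rw [Finset.sum_eq_single χ]
    · rw [if_pos rfl]
      ring
    · intro χ' _ hne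
      rw [if_neg (fun h => hne h.symm), mul_zero]
    · intro h
      exact absurd (Finset.mem_univ χ) h
  exact_mod_cast key

theorem inversion (d : ℕ) [NeZero d] (κ : (ZMod d)ˣ → ℂ) :
    ∃ k : DirichletCharacter ℂ d → ℂ,
      (∀ x : (ZMod d)ˣ, κ x = ∑ χ : DirichletCharacter ℂ d, k χ * χ ((x⁻¹ : (ZMod d)ˣ) : ZMod d)) ∧
      (d.totient : ℝ) * ∑ χ : DirichletCharacter ℂ d, ‖k χ‖ ^ 2 = ∑ y : (ZMod d)ˣ, ‖κ y‖ ^ 2 := by
  have hφ : (d.totient : ℂ) ≠ 0 := by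
    exact_mod_cast (Nat.totient_pos.mpr (Nat.pos_of_ne_zero (NeZero.ne d))).ne'
  have hinv : ∀ x : (ZMod d)ˣ, κ x = ∑ χ : DirichletCharacter ℂ d,
      ((∑ y : (ZMod d)ˣ, κ y * χ (y : ZMod d)) / (d.totient : ℂ)) * χ ((x⁻¹ : (ZMod d)ˣ) : ZMod d) := by
    intro x
    have h1 : ∀ χ : DirichletCharacter ℂ d,
        ((∑ y : (ZMod d)ˣ, κ y * χ (y : ZMod d)) / (d.totient : ℂ)) * χ ((x⁻¹ : (ZMod d)ˣ) : ZMod d) =
        ∑ y : (ZMod d)ˣ, (κ y / (d.totient : ℂ)) * (χ ((x⁻¹ : (ZMod d)ˣ) : ZMod d) * χ (y : ZMod d)) := by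
      intro χ
      rw [Finset.sum_div, Finset.sum_mul]
      refine Finset.sum_congr rfl fun y _ => ?_
      ring
    simp only [h1]
    rw [Finset.sum_comm]
    simp only [← Finset.mul_sum, orth]
    rw [Finset.sum_eq_single x]
    · rw [if_pos rfl, div_mul_cancel₀ _ hφ]
    · intro y _ hne
      rw [if_neg (fun h => hne (Units.ext h)), mul_zero]
    · intro h
      exact absurd (Finset.mem_univ x) h
  refine ⟨fun χ => (∑ y : (ZMod d)ˣ, κ y * χ (y : ZMod d)) / (d.totient : ℂ), hinv, ?_⟩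
  rw [← parseval_char d]
  refine Finset.sum_congr rfl fun b _ => ?_
  rw [← hinv b]

open Classical in
theorem card_large {ι : Type*} [Fintype ι] (F : ι → ℂ) (t : ℝ) (ht : 0 < t) :
    ((univ.filter (fun b => t ≤ ‖F b‖)).card : ℝ) * t ^ 2 ≤ ∑ b, ‖F b‖ ^ 2 := by
  calc ((univ.filter (fun b => t ≤ ‖F b‖)).card : ℝ) * t ^ 2
      = ∑ _b ∈ univ.filter (fun b => t ≤ ‖F b‖), t ^ 2 := by
        rw [Finset.sum_const, nsmul_eq_mul]
    _ ≤ ∑ b ∈ univ.filter (fun b => t ≤ ‖F b‖), ‖F b‖ ^ 2 := by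
        refine Finset.sum_le_sum fun b hb => ?_
        exact pow_le_pow_left₀ ht.le (Finset.mem_filter.mp hb).2 2
    _ ≤ ∑ b, ‖F b‖ ^ 2 :=
        Finset.sum_le_sum_of_subset_of_nonneg (Finset.filter_subset _ _) (fun b _ _ => by positivity)

end Pool.Agent.Lib.MP_42948a_nt.OM
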