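import Pool.Agent.Lib.MP_42948a_nt.OM.B5
import Pool.Agent.Lib.MP_42948a_nt.OM.C1

/-!
# Total weights of the majorant and of the rough numbers (job C3)

Let `K = 4 b0 + 6`, `Λ = φ(d)/d * log(y'/y) ≥ 0`, `e_T = ∏ p ∈ T, p`. (a) For `T ⊆ PP z` with `e_T ≤ z^K`:
`|∑_{n ∈ II d y y', e_T ∣ n} 1/n - Λ ∏_{p ∈ T} gd d p| ≤ 4 BB d / y`: if `e_T` is coprime to `d` then `∏ gd = 1/e_T` and
`coprime_multiples` applies (`2 e_T ≤ 2 z^K ≤ y`); otherwise some `p ∈ T` divides `d`, `∏ gd = 0` and the sum is `0`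
(`noncoprime_multiples`). (b) `majorant_total`: by `wp_expand` and exchange of sums the left sum is
`∑_T lp T ∑_{n ∈ II, e_T | n} 1/n`; only `T` with `lp T ≠ 0`, hence `e_T ≤ z^K` (`lp_level`), contribute, `|lp T| ≤ 1`, and there are at most
`z^K` of them (`count_sets`); the main term is `Λ ∑_T lp T ∏ gd = Λ BP z b0 (gd d)` (`BP_expand`).
(c) `rough_total`: the same with `lam` (`FF_expand`, `lam_abs_le`, `lam_support` + `level`) and the inequality `SO_point`, multiplied by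
`1/n` and summed over `II d y y'`: `n ∈ II d y y'` with no `p ∈ PP z` dividing it is `z`-rough, hence in `NN z d y y'`; so
`WW (NN z d y y') ≥ ∑_T lam T ∑_{n ∈ II, e_T | n} 1/n ≥ Λ FF z b0 (gd d) - z^K * 4 BB d / y`.
-/

namespace Pool.Agent.Lib.MP_42948a_nt.OM

open Finset Pool.Agent.Lib.MP_42948a_nt.OA

private theorem C3_dvd_iff (T : Finset ℕ) (hT : ∀ p ∈ T, p.Prime) (n : ℕ) :
    (∀ p ∈ T, p ∣ n) ↔ (∏ p ∈ T, p) ∣ n := by
  constructor
  · intro h
    exact Finset.prod_primes_dvd n (fun p hp => (hT p hp).prime) h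
  · intro h p hp
    exact (Finset.dvd_prod_of_mem _ hp).trans h

private theorem C3_prime {z : ℕ} {T : Finset ℕ} (hT : T ⊆ PP z) : ∀ p ∈ T, p.Prime := by
  intro p hp
  exact (mem_filter.1 (hT hp)).2

private theorem C3_a (d : ℕ) [NeZero d] (z K y y' : ℕ) (T : Finset ℕ) (hT : T ⊆ PP z)
    (he : ∏ p ∈ T, p ≤ z ^ K) (hy : 2 * z ^ K ≤ y) (hyy : y ≤ y') :
    |∑ n ∈ (II d y y').filter (fun n => (∏ p ∈ T, p) ∣ n), (1 : ℝ) / n -
      (d.totient : ℝ) / d * Real.log ((y' : ℝ) / y) * ∏ p ∈ T, gd d p| ≤ 4 * BB d / y := by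
  have hpr := C3_prime hT
  have he1 : 1 ≤ ∏ p ∈ T, p := Nat.succ_le_of_lt (Finset.prod_pos fun p hp => (hpr p hp).pos)
  by_cases hc : (∏ p ∈ T, p).Coprime d
  · have h1 : ∏ p ∈ T, gd d p = 1 / ((∏ p ∈ T, p : ℕ) : ℝ) := by
      rw [Nat.cast_prod, one_div, ← Finset.prod_inv_distrib]
      refine Finset.prod_congr rfl fun p hp => ?_
      have h2 : ¬ p ∣ d := by
        intro h3
        have h4 : p ∣ 1 := by
          have h5 := Nat.dvd_gcd (Finset.dvd_prod_of_mem (fun p => p) hp) h3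
          rwa [Nat.Coprime.gcd_eq_one hc] at h5
        exact (hpr p hp).one_lt.ne' (Nat.dvd_one.1 h4)
      unfold gd
      rw [if_neg h2, one_div]
    rw [h1]
    exact coprime_multiples d _ y y' he1 hc (by omega) hyy
  · have h1 : ∏ p ∈ T, gd d p = 0 := by
      have h2 : ∃ p ∈ T, p ∣ d := by
        by_contra hcon
        push Not at hcon
        exact hc (Nat.Coprime.prod_left fun p hp => ((hpr p hp).coprime_iff_not_dvd).2 (hcon p hp))
      obtain ⟨p, hp, hpd⟩ := h2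
      refine Finset.prod_eq_zero hp ?_
      unfold gd
      rw [if_pos hpd]
    rw [h1, noncoprime_multiples d _ y y' hc, mul_zero, sub_zero, abs_zero]
    have h3 := BB_ge_one d
    positivity

private theorem C3_b (d : ℕ) [NeZero d] (z K y y' : ℕ) (a : Finset ℕ → ℝ) (ha : ∀ T, |a T| ≤ 1)
    (hl : ∀ T ⊆ PP z, a T ≠ 0 → ∏ p ∈ T, p ≤ z ^ K) (hy : 2 * z ^ K ≤ y) (hyy : y ≤ y') :
    |∑ T ∈ (PP z).powerset, a T * ∑ n ∈ (II d y y').filter (fun n => (∏ p ∈ T, p) ∣ n), (1 : ℝ) / n -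
      (d.totient : ℝ) / d * Real.log ((y' : ℝ) / y) * ∑ T ∈ (PP z).powerset, a T * ∏ p ∈ T, gd d p| ≤
      (z : ℝ) ^ K * (4 * BB d / y) := by
  have hR : 0 ≤ 4 * BB d / (y : ℝ) := by
    have h3 := BB_ge_one d
    positivity
  have h0 : ∑ T ∈ (PP z).powerset, a T * ∑ n ∈ (II d y y').filter (fun n => (∏ p ∈ T, p) ∣ n), (1 : ℝ) / n -
      (d.totient : ℝ) / d * Real.log ((y' : ℝ) / y) * ∑ T ∈ (PP z).powerset, a T * ∏ p ∈ T, gd d p =
      ∑ T ∈ (PP z).powerset, a T * (∑ n ∈ (II d y y').filter (fun n => (∏ p ∈ T, p) ∣ n), (1 : ℝ) / n -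
        (d.totient : ℝ) / d * Real.log ((y' : ℝ) / y) * ∏ p ∈ T, gd d p) := by
    rw [Finset.mul_sum, ← Finset.sum_sub_distrib]
    refine Finset.sum_congr rfl fun T _ => ?_
    ring
  rw [h0]
  have h6 : ∀ T ∈ (PP z).powerset, |a T * (∑ n ∈ (II d y y').filter (fun n => (∏ p ∈ T, p) ∣ n), (1 : ℝ) / n -
        (d.totient : ℝ) / d * Real.log ((y' : ℝ) / y) * ∏ p ∈ T, gd d p)| ≤
      if ∏ p ∈ T, p ≤ z ^ K then 4 * BB d / (y : ℝ) else 0 := by
    intro T hTm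
    rw [mem_powerset] at hTm
    by_cases h0 : a T = 0
    · rw [h0, zero_mul, abs_zero]
      split_ifs
      · exact hR
      · exact le_rfl
    · have h7 := hl T hTm h0
      rw [if_pos h7, abs_mul]
      have h8 := C3_a d z K y y' T hTm h7 hy hyy
      calc |a T| * _ ≤ 1 * (4 * BB d / (y : ℝ)) :=
            mul_le_mul (ha T) h8 (abs_nonneg _) zero_le_one
        _ = 4 * BB d / (y : ℝ) := one_mul _
  refine (Finset.abs_sum_le_sum_abs _ _).trans ((Finset.sum_le_sum h6).trans ?_)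
  rw [← Finset.sum_filter, Finset.sum_const, nsmul_eq_mul]
  refine mul_le_mul_of_nonneg_right ?_ hR
  have h8 := count_sets z (z ^ K)
  exact_mod_cast h8

theorem majorant_total (d : ℕ) [NeZero d] (z b0 y y' : ℕ) (hz : 1 ≤ z) (hy : 2 * z ^ (4 * b0 + 6) ≤ y)
    (hyy : y ≤ y') :
    ∑ n ∈ II d y y', wp z b0 n / n ≤
      (d.totient : ℝ) / d * Real.log ((y' : ℝ) / y) * BP z b0 (gd d) +
        (z : ℝ) ^ (4 * b0 + 6) * (4 * BB d / y) := by
  have h1 := C3_b d z (4 * b0 + 6) y y' (lp z b0) (lp_abs_le z b0) (fun T hT h => lp_level z b0 hz T hT h) hy hyy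
  rw [← BP_expand] at h1
  have h2 : ∑ n ∈ II d y y', wp z b0 n / n =
      ∑ T ∈ (PP z).powerset, lp z b0 T *
        ∑ n ∈ (II d y y').filter (fun n => (∏ p ∈ T, p) ∣ n), (1 : ℝ) / n := by
    have h3 : ∀ n ∈ II d y y', wp z b0 n / n =
        ∑ T ∈ (PP z).powerset, lp z b0 T * (if (∏ p ∈ T, p) ∣ n then (1 : ℝ) else 0) * (1 / n) := by
      intro n _
      rw [wp_expand, ← Finset.sum_mul]
      ring
    rw [Finset.sum_congr rfl h3, Finset.sum_comm]
    refine Finset.sum_congr rfl fun T _ => ?_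
    rw [Finset.sum_filter, Finset.mul_sum]
    refine Finset.sum_congr rfl fun n _ => ?_
    split_ifs <;> ring
  rw [h2]
  have h3 := (abs_le.1 h1).2
  linarith

theorem rough_total (d : ℕ) [NeZero d] (z b0 y y' : ℕ) (hz : 1 ≤ z) (hy : 2 * z ^ (4 * b0 + 6) ≤ y)
    (hyy : y ≤ y') :
    (d.totient : ℝ) / d * Real.log ((y' : ℝ) / y) * FF z b0 (gd d) -
        (z : ℝ) ^ (4 * b0 + 6) * (4 * BB d / y) ≤ WW (NN z d y y') := by
  have h1 := C3_b d z (4 * b0 + 6) y y' (lam z b0) (lam_abs_le z b0)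
    (fun T hT h => level z b0 hz T hT (lam_support z b0 T h)) hy hyy
  rw [← FF_expand] at h1
  have h2 : ∑ T ∈ (PP z).powerset, lam z b0 T *
        ∑ n ∈ (II d y y').filter (fun n => (∏ p ∈ T, p) ∣ n), (1 : ℝ) / n ≤ WW (NN z d y y') := by
    have h3 : ∀ n ∈ II d y y', (1 : ℝ) / n *
        ∑ T ∈ (PP z).powerset, lam z b0 T * (if (∏ p ∈ T, p) ∣ n then (1 : ℝ) else 0) ≤
        (1 : ℝ) / n * (if (∀ p ∈ PP z, ¬ p ∣ n) then (1 : ℝ) else 0) := by
      intro n _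
      refine mul_le_mul_of_nonneg_left ?_ (by positivity)
      refine le_trans (le_of_eq ?_) (SO_point z b0 n)
      refine Finset.sum_congr rfl fun T hT => ?_
      rw [mem_powerset] at hT
      have h4 := C3_dvd_iff T (C3_prime hT) n
      by_cases h5 : (∏ p ∈ T, p) ∣ n
      · rw [if_pos h5, if_pos (h4.2 h5)]
      · rw [if_neg h5, if_neg (fun h6 => h5 (h4.1 h6))]
    have h4 := Finset.sum_le_sum h3
    have h5 : ∑ n ∈ II d y y', (1 : ℝ) / n *
        ∑ T ∈ (PP z).powerset, lam z b0 T * (if (∏ p ∈ T, p) ∣ n then (1 : ℝ) else 0) =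
        ∑ T ∈ (PP z).powerset, lam z b0 T *
        ∑ n ∈ (II d y y').filter (fun n => (∏ p ∈ T, p) ∣ n), (1 : ℝ) / n := by
      simp only [Finset.mul_sum]
      rw [Finset.sum_comm]
      refine Finset.sum_congr rfl fun T _ => ?_
      rw [Finset.sum_filter]
      refine Finset.sum_congr rfl fun n _ => ?_
      split_ifs <;> ring
    have h6 : ∑ n ∈ II d y y', (1 : ℝ) / n * (if (∀ p ∈ PP z, ¬ p ∣ n) then (1 : ℝ) else 0) ≤
        WW (NN z d y y') := by
      unfold WW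
      have h7 : ∑ n ∈ II d y y', (1 : ℝ) / n * (if (∀ p ∈ PP z, ¬ p ∣ n) then (1 : ℝ) else 0) =
          ∑ n ∈ (II d y y').filter (fun n => ∀ p ∈ PP z, ¬ p ∣ n), (1 : ℝ) / n := by
        rw [Finset.sum_filter]
        refine Finset.sum_congr rfl fun n _ => ?_
        split_ifs <;> simp
      rw [h7]
      refine Finset.sum_le_sum_of_subset_of_nonneg ?_ (fun n _ _ => by positivity)
      intro n hn
      unfold II at hn
      rw [mem_filter, mem_filter, mem_Ioc] at hn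
      obtain ⟨⟨⟨hn1, hn2⟩, hn3⟩, hn4⟩ := hn
      classical
      unfold NN RR
      rw [mem_filter, mem_filter, mem_Ioc]
      refine ⟨⟨⟨hn1, hn2⟩, by omega, fun p hp hpn => ?_⟩, hn3⟩
      by_contra hcon
      refine hn4 p ?_ hpn
      unfold PP
      rw [mem_filter, mem_Icc]
      exact ⟨⟨hp.one_lt.le, not_lt.1 hcon⟩, hp⟩
    rw [h5] at h4
    exact h4.trans h6
  have h3 := (abs_le.1 h1).1
  linarith

end Pool.Agent.Lib.MP_42948a_nt.OM
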