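import Pool.Agent.Lib.MP_42948a_nt.OM.B4
import Pool.Agent.Lib.MP_42948a_nt.OM.C1

/-!
# Character sums with the majorant (job C4)

By `wp_expand` and exchange of sums, `∑_{n ∈ II} (wp n / n) χ n = ∑_T lp T ∑_{n ∈ II, e_T ∣ n} χ(n)/n`; a character vanishes at `n` not
coprime to `d` (`MulChar.map_nonunit`, `ZMod.isUnit_iff_coprime`), so the inner sum may be taken over `(Ioc y y').filter (e_T ∣ ·)` and is
`≤ 2 BB d / y` by `char_multiples`. Only `T` with `e_T ≤ z^K`, `K = 4 b0 + 6`, contribute (`lp_level`), at most `z^K` of them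
(`count_sets`), and `|lp T| ≤ 1`.
-/

namespace Pool.Agent.Lib.MP_42948a_nt.OM

open Finset Pool.Agent.Lib.MP_42948a_nt.OA

private theorem C4_BB_nonneg (d : ℕ) : 0 ≤ BB d := by
  unfold BB
  have h1 : 0 ≤ Real.log (d : ℝ) := Real.log_natCast_nonneg d
  positivity

private theorem C4_inner (d : ℕ) [NeZero d] (y y' e : ℕ) (χ : DirichletCharacter ℂ d) :
    ∑ n ∈ II d y y', (if e ∣ n then χ (n : ZMod d) / (n : ℂ) else 0) =
      ∑ n ∈ (Ioc y y').filter (fun n => e ∣ n), χ (n : ZMod d) / (n : ℂ) := by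
  unfold II
  rw [Finset.sum_filter, Finset.sum_filter]
  refine Finset.sum_congr rfl fun n _ => ?_
  by_cases hc : n.Coprime d
  · rw [if_pos hc]
  · rw [if_neg hc]
    have h1 : χ (n : ZMod d) = 0 := by
      apply MulChar.map_nonunit
      rwa [ZMod.isUnit_iff_coprime]
    rw [h1, zero_div]
    split_ifs <;> rfl

theorem majorant_char (d : ℕ) [NeZero d] (z b0 y y' : ℕ) (hz : 1 ≤ z) (hy : 1 ≤ y)
    (χ : DirichletCharacter ℂ d) (hχ : χ ≠ 1) :
    ‖∑ n ∈ II d y y', ((wp z b0 n / n : ℝ) : ℂ) * χ (n : ZMod d)‖ ≤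
      (z : ℝ) ^ (4 * b0 + 6) * (2 * BB d / y) := by
  have hBB := C4_BB_nonneg d
  have hR : 0 ≤ 2 * BB d / (y : ℝ) := by positivity
  have h2 : ∑ n ∈ II d y y', ((wp z b0 n / n : ℝ) : ℂ) * χ (n : ZMod d) =
      ∑ T ∈ (PP z).powerset, (lp z b0 T : ℂ) *
        ∑ n ∈ (Ioc y y').filter (fun n => (∏ p ∈ T, p) ∣ n), χ (n : ZMod d) / (n : ℂ) := by
    have h3 : ∀ n ∈ II d y y', ((wp z b0 n / n : ℝ) : ℂ) * χ (n : ZMod d) =
        ∑ T ∈ (PP z).powerset, (lp z b0 T : ℂ) *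
          (if (∏ p ∈ T, p) ∣ n then χ (n : ZMod d) / (n : ℂ) else 0) := by
      intro n _
      rw [wp_expand, Complex.ofReal_div, Complex.ofReal_sum, Finset.sum_div, Finset.sum_mul]
      refine Finset.sum_congr rfl fun T _ => ?_
      by_cases hT : (∏ p ∈ T, p) ∣ n
      · rw [if_pos hT, if_pos hT, mul_one, Complex.ofReal_natCast]
        ring
      · rw [if_neg hT, if_neg hT, mul_zero, mul_zero, Complex.ofReal_zero, zero_div, zero_mul]
    rw [Finset.sum_congr rfl h3, Finset.sum_comm]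
    refine Finset.sum_congr rfl fun T _ => ?_
    rw [← Finset.mul_sum, C4_inner]
  rw [h2]
  have h6 : ∀ T ∈ (PP z).powerset, ‖(lp z b0 T : ℂ) *
        ∑ n ∈ (Ioc y y').filter (fun n => (∏ p ∈ T, p) ∣ n), χ (n : ZMod d) / (n : ℂ)‖ ≤
      if ∏ p ∈ T, p ≤ z ^ (4 * b0 + 6) then 2 * BB d / (y : ℝ) else 0 := by
    intro T hTm
    rw [mem_powerset] at hTm
    by_cases h0 : lp z b0 T = 0
    · rw [h0, Complex.ofReal_zero, zero_mul, norm_zero]
      split_ifs
      · exact hR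
      · exact le_rfl
    · have h7 := lp_level z b0 hz T hTm h0
      have he1 : 1 ≤ ∏ p ∈ T, p :=
        Nat.succ_le_of_lt (Finset.prod_pos fun p hp => (mem_filter.1 (hTm hp)).2.pos)
      rw [if_pos h7, norm_mul, Complex.norm_real, Real.norm_eq_abs]
      have h8 := char_multiples d χ hχ (∏ p ∈ T, p) y y' he1 hy
      calc |lp z b0 T| * _ ≤ 1 * (2 * BB d / (y : ℝ)) :=
            mul_le_mul (lp_abs_le z b0 T) h8 (norm_nonneg _) zero_le_one
        _ = 2 * BB d / (y : ℝ) := one_mul _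
  refine (norm_sum_le _ _).trans ((Finset.sum_le_sum h6).trans ?_)
  rw [← Finset.sum_filter, Finset.sum_const, nsmul_eq_mul]
  refine mul_le_mul_of_nonneg_right ?_ hR
  have h8 := count_sets z (z ^ (4 * b0 + 6))
  exact_mod_cast h8

end Pool.Agent.Lib.MP_42948a_nt.OM
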