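import Pool.Agent.Lib.MP_42948a_nt.OM.A1

/-!
# The large sieve with a majorant (job D)

Let `a χ = ac N c χ` and `T = ∑_{χ ∈ X} ‖a χ‖^2`. Then `T = ∑_{χ ∈ X} conj (a χ) a χ = ∑_{n ∈ N} (c n / n) F n` with
`F n = ∑_{χ ∈ X} conj (a χ) χ n`. Cauchy-Schwarz with weights `1/n` (`Finset.inner_mul_le_norm_mul_norm` or
`Finset.sum_mul_sq_le_sq_mul_sq` for the real numbers `‖c n‖ /√n ≤ 1/√n` and `‖F n‖/√n`): `T^2 ≤ (∑_{n ∈ N} 1/n) (∑_{n ∈ N} ‖F n‖^2 / n)` and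
`∑_{n ∈ N} ‖F n‖^2 / n ≤ ∑_{n ∈ I} (w n / n) ‖F n‖^2 = ∑_{χ, χ' ∈ X} conj (a χ) a χ' ∑_{n ∈ I} (w n / n) χ n conj (χ' n)`. For `n ∈ I` (coprime
to `d`) `χ n * conj (χ' n) = (χ * χ'⁻¹) n`. The inner sum is `Wp` for `χ = χ'` (`‖χ n‖ = 1`) and has norm `≤ E` for `χ ≠ χ'` (`hE` with
`ψ = χ * χ'⁻¹ ≠ 1`). So it is `≤ Wp T + E (∑_{χ ∈ X} ‖a χ‖)^2 ≤ (Wp + #X E) T` (`sq_sum_le_card_mul_sum_sq`). Hence
`T^2 ≤ WW N (Wp + #X E) T`, and `T ≤ WW N (Wp + #X E)` (if `T = 0` the right side is `≥ 0` as `Wp ≥ 0`, `E ≥ 0`).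
-/

namespace Pool.Agent.Lib.MP_42948a_nt.OM

open Finset Pool.Agent.Lib.MP_42948a_nt.OA

private theorem D_conj (d : ℕ) [NeZero d] (χ χ' : DirichletCharacter ℂ d) (n : ℕ) (hn : n.Coprime d) :
    χ (n : ZMod d) * (starRingEnd ℂ) (χ' (n : ZMod d)) = (χ * χ'⁻¹) (n : ZMod d) := by
  obtain ⟨u, hu⟩ : ∃ u : (ZMod d)ˣ, (u : ZMod d) = n := ⟨ZMod.unitOfCoprime n hn, ZMod.coe_unitOfCoprime n hn⟩
  rw [← hu, MulChar.mul_apply]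
  congr 1
  have h1 : χ'⁻¹ (u : ZMod d) * χ' (u : ZMod d) = 1 := by
    rw [← MulChar.mul_apply, inv_mul_cancel, MulChar.one_apply_coe]
  have h2 : (starRingEnd ℂ) (χ' (u : ZMod d)) * χ' (u : ZMod d) = 1 := by
    rw [Complex.conj_mul', norm_char_unit]
    simp
  have h3 : χ' (u : ZMod d) ≠ 0 := by
    intro h
    rw [h, mul_zero] at h1
    exact zero_ne_one h1
  exact mul_right_cancel₀ h3 (h2.trans h1.symm)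

private theorem D_quad (d : ℕ) [NeZero d] (I : Finset ℕ) (hI : ∀ n ∈ I, 0 < n ∧ n.Coprime d)
    (w : ℕ → ℝ) (hw0 : ∀ n ∈ I, 0 ≤ w n) (E : ℝ) (hE0 : 0 ≤ E)
    (hE : ∀ ψ : DirichletCharacter ℂ d, ψ ≠ 1 →
      ‖∑ n ∈ I, ((w n / n : ℝ) : ℂ) * ψ (n : ZMod d)‖ ≤ E)
    (X : Finset (DirichletCharacter ℂ d)) (a : DirichletCharacter ℂ d → ℂ) :
    ∑ n ∈ I, (w n / n) * ‖∑ χ ∈ X, (starRingEnd ℂ) (a χ) * χ (n : ZMod d)‖ ^ 2 ≤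
      (∑ n ∈ I, w n / n + X.card * E) * ∑ χ ∈ X, ‖a χ‖ ^ 2 := by
  classical
  have hWp : 0 ≤ ∑ n ∈ I, w n / n := Finset.sum_nonneg fun n hn => div_nonneg (hw0 n hn) (Nat.cast_nonneg n)
  -- the expansion of the square
  have h1 : ((∑ n ∈ I, (w n / n) * ‖∑ χ ∈ X, (starRingEnd ℂ) (a χ) * χ (n : ZMod d)‖ ^ 2 : ℝ) : ℂ) =
      ∑ χ ∈ X, ∑ χ' ∈ X, (starRingEnd ℂ) (a χ) * a χ' *
        ∑ n ∈ I, ((w n / n : ℝ) : ℂ) * (χ * χ'⁻¹) (n : ZMod d) := by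
    have h2 : ∀ n ∈ I, (((w n / n) * ‖∑ χ ∈ X, (starRingEnd ℂ) (a χ) * χ (n : ZMod d)‖ ^ 2 : ℝ) : ℂ) =
        ∑ χ ∈ X, ∑ χ' ∈ X, (starRingEnd ℂ) (a χ) * a χ' *
          (((w n / n : ℝ) : ℂ) * (χ * χ'⁻¹) (n : ZMod d)) := by
      intro n hn
      rw [Complex.ofReal_mul, Complex.ofReal_pow, ← Complex.mul_conj', map_sum, Finset.sum_mul_sum, Finset.mul_sum]
      refine Finset.sum_congr rfl fun χ _ => ?_
      rw [Finset.mul_sum]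
      refine Finset.sum_congr rfl fun χ' _ => ?_
      rw [← D_conj d χ χ' n (hI n hn).2, map_mul, Complex.conj_conj]
      ring
    rw [Complex.ofReal_sum, Finset.sum_congr rfl h2, Finset.sum_comm]
    refine Finset.sum_congr rfl fun χ _ => ?_
    rw [Finset.sum_comm]
    refine Finset.sum_congr rfl fun χ' _ => ?_
    rw [Finset.mul_sum]
  -- the inner sums
  have h3 : ∀ χ ∈ X, ∀ χ' ∈ X, ‖(starRingEnd ℂ) (a χ) * a χ' *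
      ∑ n ∈ I, ((w n / n : ℝ) : ℂ) * (χ * χ'⁻¹) (n : ZMod d)‖ ≤
        (if χ = χ' then (∑ n ∈ I, w n / n) * ‖a χ‖ ^ 2 else 0) + E * (‖a χ‖ * ‖a χ'‖) := by
    intro χ _ χ' _
    rw [norm_mul, norm_mul, RCLike.norm_conj]
    by_cases h : χ = χ'
    · subst h
      rw [if_pos rfl, mul_inv_cancel]
      have h4 : ‖∑ n ∈ I, ((w n / n : ℝ) : ℂ) * (1 : DirichletCharacter ℂ d) (n : ZMod d)‖ ≤ ∑ n ∈ I, w n / n := by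
        refine (norm_sum_le _ _).trans (Finset.sum_le_sum fun n hn => ?_)
        rw [norm_mul, Complex.norm_real, Real.norm_eq_abs,
          abs_of_nonneg (div_nonneg (hw0 n hn) (Nat.cast_nonneg n))]
        calc w n / n * ‖(1 : DirichletCharacter ℂ d) (n : ZMod d)‖ ≤ w n / n * 1 :=
              mul_le_mul_of_nonneg_left (DirichletCharacter.norm_le_one _ _) (div_nonneg (hw0 n hn) (Nat.cast_nonneg n))
          _ = w n / n := mul_one _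
      have h5 : 0 ≤ E * (‖a χ‖ * ‖a χ‖) := by positivity
      have h6 : ‖a χ‖ * ‖a χ‖ * ‖∑ n ∈ I, ((w n / n : ℝ) : ℂ) * (1 : DirichletCharacter ℂ d) (n : ZMod d)‖ ≤
          ‖a χ‖ * ‖a χ‖ * ∑ n ∈ I, w n / n := mul_le_mul_of_nonneg_left h4 (by positivity)
      have h7 : (∑ n ∈ I, w n / n) * ‖a χ‖ ^ 2 = ‖a χ‖ * ‖a χ‖ * ∑ n ∈ I, w n / n := by ring
      rw [h7]
      linarith
    · rw [if_neg h, zero_add]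
      have h4 : χ * χ'⁻¹ ≠ 1 := fun h5 => h (mul_inv_eq_one.1 h5)
      calc ‖a χ‖ * ‖a χ'‖ * ‖∑ n ∈ I, ((w n / n : ℝ) : ℂ) * (χ * χ'⁻¹) (n : ZMod d)‖
          ≤ ‖a χ‖ * ‖a χ'‖ * E := mul_le_mul_of_nonneg_left (hE _ h4) (by positivity)
        _ = E * (‖a χ‖ * ‖a χ'‖) := by ring
  have h8 : ∑ n ∈ I, (w n / n) * ‖∑ χ ∈ X, (starRingEnd ℂ) (a χ) * χ (n : ZMod d)‖ ^ 2 ≤
      ∑ χ ∈ X, ∑ χ' ∈ X, ((if χ = χ' then (∑ n ∈ I, w n / n) * ‖a χ‖ ^ 2 else 0) + E * (‖a χ‖ * ‖a χ'‖)) := by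
    have h9 : ‖((∑ n ∈ I, (w n / n) * ‖∑ χ ∈ X, (starRingEnd ℂ) (a χ) * χ (n : ZMod d)‖ ^ 2 : ℝ) : ℂ)‖ ≤
        ∑ χ ∈ X, ∑ χ' ∈ X, ((if χ = χ' then (∑ n ∈ I, w n / n) * ‖a χ‖ ^ 2 else 0) + E * (‖a χ‖ * ‖a χ'‖)) := by
      rw [h1]
      refine (norm_sum_le _ _).trans (Finset.sum_le_sum fun χ hχ => ?_)
      exact (norm_sum_le _ _).trans (Finset.sum_le_sum fun χ' hχ' => h3 χ hχ χ' hχ')
    rw [Complex.norm_real, Real.norm_eq_abs] at h9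
    exact (le_abs_self _).trans h9
  refine h8.trans ?_
  have h10 : ∑ χ ∈ X, ∑ χ' ∈ X, ((if χ = χ' then (∑ n ∈ I, w n / n) * ‖a χ‖ ^ 2 else 0) + E * (‖a χ‖ * ‖a χ'‖)) =
      (∑ n ∈ I, w n / n) * (∑ χ ∈ X, ‖a χ‖ ^ 2) + E * (∑ χ ∈ X, ‖a χ‖) ^ 2 := by
    have h11 : ∀ χ ∈ X, ∑ χ' ∈ X, ((if χ = χ' then (∑ n ∈ I, w n / n) * ‖a χ‖ ^ 2 else 0) + E * (‖a χ‖ * ‖a χ'‖)) =
        (∑ n ∈ I, w n / n) * ‖a χ‖ ^ 2 + E * (‖a χ‖ * ∑ χ' ∈ X, ‖a χ'‖) := by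
      intro χ hχ
      rw [Finset.sum_add_distrib, Finset.sum_ite_eq, if_pos hχ, ← Finset.mul_sum, ← Finset.mul_sum]
    rw [Finset.sum_congr rfl h11, Finset.sum_add_distrib, ← Finset.mul_sum, ← Finset.mul_sum, ← Finset.sum_mul, sq]
  rw [h10]
  have h12 : (∑ χ ∈ X, ‖a χ‖) ^ 2 ≤ X.card * ∑ χ ∈ X, ‖a χ‖ ^ 2 := sq_sum_le_card_mul_sum_sq
  have h13 : E * (∑ χ ∈ X, ‖a χ‖) ^ 2 ≤ E * (X.card * ∑ χ ∈ X, ‖a χ‖ ^ 2) := mul_le_mul_of_nonneg_left h12 hE0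
  calc (∑ n ∈ I, w n / n) * (∑ χ ∈ X, ‖a χ‖ ^ 2) + E * (∑ χ ∈ X, ‖a χ‖) ^ 2
      ≤ (∑ n ∈ I, w n / n) * (∑ χ ∈ X, ‖a χ‖ ^ 2) + E * (X.card * ∑ χ ∈ X, ‖a χ‖ ^ 2) := by linarith
    _ = (∑ n ∈ I, w n / n + X.card * E) * ∑ χ ∈ X, ‖a χ‖ ^ 2 := by ring

theorem large_sieve (d : ℕ) [NeZero d] (I N : Finset ℕ) (hNI : N ⊆ I) (hI : ∀ n ∈ I, 0 < n ∧ n.Coprime d)
    (w : ℕ → ℝ) (hw0 : ∀ n ∈ I, 0 ≤ w n) (hw1 : ∀ n ∈ N, 1 ≤ w n) (E : ℝ) (hE0 : 0 ≤ E)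
    (hE : ∀ ψ : DirichletCharacter ℂ d, ψ ≠ 1 →
      ‖∑ n ∈ I, ((w n / n : ℝ) : ℂ) * ψ (n : ZMod d)‖ ≤ E)
    (X : Finset (DirichletCharacter ℂ d)) (c : ℕ → ℂ) (hc : ∀ n ∈ N, ‖c n‖ ≤ 1) :
    ∑ χ ∈ X, ‖ac N c χ‖ ^ 2 ≤ WW N * (∑ n ∈ I, w n / n + X.card * E) := by
  have hWp : 0 ≤ ∑ n ∈ I, w n / n := Finset.sum_nonneg fun n hn => div_nonneg (hw0 n hn) (Nat.cast_nonneg n)
  have hWW : 0 ≤ WW N := Finset.sum_nonneg fun n _ => by positivity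
  set F : ℕ → ℂ := fun n => ∑ χ ∈ X, (starRingEnd ℂ) (ac N c χ) * χ (n : ZMod d) with hF
  set T : ℝ := ∑ χ ∈ X, ‖ac N c χ‖ ^ 2 with hT
  have hT0 : 0 ≤ T := Finset.sum_nonneg fun χ _ => by positivity
  have h1 : (T : ℂ) = ∑ n ∈ N, c n / (n : ℂ) * F n := by
    rw [hT, Complex.ofReal_sum]
    have h2 : ∀ χ ∈ X, ((‖ac N c χ‖ ^ 2 : ℝ) : ℂ) =
        ∑ n ∈ N, c n / (n : ℂ) * ((starRingEnd ℂ) (ac N c χ) * χ (n : ZMod d)) := by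
      intro χ _
      have h3 : ((‖ac N c χ‖ ^ 2 : ℝ) : ℂ) = (starRingEnd ℂ) (ac N c χ) * ∑ n ∈ N, c n / (n : ℂ) * χ (n : ZMod d) := by
        rw [Complex.ofReal_pow, ← Complex.conj_mul']
        rfl
      rw [h3, Finset.mul_sum]
      refine Finset.sum_congr rfl fun n _ => ?_
      ring
    rw [Finset.sum_congr rfl h2, Finset.sum_comm]
    refine Finset.sum_congr rfl fun n _ => ?_
    rw [hF, Finset.mul_sum]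
  have h4 : T ≤ ∑ n ∈ N, (1 : ℝ) / n * ‖F n‖ := by
    have h5 : ‖(T : ℂ)‖ = T := by rw [Complex.norm_real, Real.norm_eq_abs, abs_of_nonneg hT0]
    rw [← h5, h1]
    refine (norm_sum_le _ _).trans (Finset.sum_le_sum fun n hn => ?_)
    rw [norm_mul, norm_div, Complex.norm_natCast]
    exact mul_le_mul_of_nonneg_right (div_le_div_of_nonneg_right (hc n hn) (Nat.cast_nonneg n)) (norm_nonneg _)
  have h5 : (∑ n ∈ N, (1 : ℝ) / n * ‖F n‖) ^ 2 ≤ (∑ n ∈ N, (1 : ℝ) / n) * ∑ n ∈ N, (1 : ℝ) / n * ‖F n‖ ^ 2 := by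
    refine Finset.sum_sq_le_sum_mul_sum_of_sq_eq_mul N (fun n _ => by positivity) (fun n _ => by positivity) ?_
    intro n _
    ring
  have h6 : ∑ n ∈ N, (1 : ℝ) / n * ‖F n‖ ^ 2 ≤ ∑ n ∈ I, (w n / n) * ‖F n‖ ^ 2 := by
    calc ∑ n ∈ N, (1 : ℝ) / n * ‖F n‖ ^ 2 ≤ ∑ n ∈ N, (w n / n) * ‖F n‖ ^ 2 := by
          refine Finset.sum_le_sum fun n hn => ?_
          exact mul_le_mul_of_nonneg_right (div_le_div_of_nonneg_right (hw1 n hn) (Nat.cast_nonneg n)) (by positivity)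
      _ ≤ _ := by
          refine Finset.sum_le_sum_of_subset_of_nonneg hNI fun n hn _ => ?_
          exact mul_nonneg (div_nonneg (hw0 n hn) (Nat.cast_nonneg n)) (by positivity)
  have h7 := D_quad d I hI w hw0 E hE0 hE X (fun χ => ac N c χ)
  have h8 : T ^ 2 ≤ WW N * ((∑ n ∈ I, w n / n + X.card * E) * T) := by
    calc T ^ 2 ≤ (∑ n ∈ N, (1 : ℝ) / n * ‖F n‖) ^ 2 := pow_le_pow_left₀ hT0 h4 2
      _ ≤ (∑ n ∈ N, (1 : ℝ) / n) * ∑ n ∈ N, (1 : ℝ) / n * ‖F n‖ ^ 2 := h5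
      _ ≤ WW N * ((∑ n ∈ I, w n / n + X.card * E) * T) := mul_le_mul_of_nonneg_left (h6.trans h7) hWW
  rcases hT0.eq_or_lt with h0 | h0
  · rw [← h0]
    positivity
  · have h9 : T * T ≤ (WW N * (∑ n ∈ I, w n / n + X.card * E)) * T := by
      calc T * T = T ^ 2 := (sq T).symm
        _ ≤ _ := h8
        _ = _ := by ring
    exact le_of_mul_le_mul_right h9 h0

end Pool.Agent.Lib.MP_42948a_nt.OM
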