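import Pool.Agent.Lib.MP_42948a_nt.OM.Defs

/-!
# Products of small primes (job F3)

(a) For every `k` there are a finite set `U k` of positive integers and weights `w k ≥ 0` on it with
`∑_{u ∈ U k} w k u * h u = ((∑_{q ∈ Q} h q) / #Q)^k` for every `h` with `h 1 = 1`, `h (a b) = h a h b` for `a, b > 0`: `U 0 = {1}`, `w 0 1 = 1`;
`U (k+1) = image (fun (u, q) => u q) (U k ×ˢ Q)`, `w (k+1) n = ∑_{(u, q) ∈ U k ×ˢ Q, u q = n} w k u / #Q` (`Finset.sum_fiberwise_of_maps_to`,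
`Finset.sum_image'`). Every `u ∈ U k` satisfies every property which holds for `1` and for `q ∈ Q` and is closed under products, and
`u ≤ Y^k` if all `q ≤ Y`. (b) Take `U` = union of the `U k`, `1 ≤ k ≤ m`, and `p u = (1/m) ∑_{1 ≤ k ≤ m} (w k u if u ∈ U k, else 0)`.
-/

namespace Pool.Agent.Lib.MP_42948a_nt.OM

open Finset Pool.Agent.Lib.MP_42948a_nt.OA

private theorem F3_power (Q : Finset ℕ) (hQ0 : ∀ q ∈ Q, 0 < q) (k : ℕ) :
    ∃ (U : Finset ℕ) (w : ℕ → ℝ), (∀ u, 0 ≤ w u) ∧ (∀ u ∈ U, 0 < u) ∧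
      (∀ P : ℕ → Prop, P 1 → (∀ a b, P a → P b → P (a * b)) → (∀ q ∈ Q, P q) → ∀ u ∈ U, P u) ∧
      (∀ Y : ℕ, 1 ≤ Y → (∀ q ∈ Q, q ≤ Y) → ∀ u ∈ U, u ≤ Y ^ k) ∧
      ∀ h : ℕ → ℂ, h 1 = 1 → (∀ a b : ℕ, 0 < a → 0 < b → h (a * b) = h a * h b) →
        ∑ u ∈ U, (w u : ℂ) * h u = ((∑ q ∈ Q, h q) / (Q.card : ℂ)) ^ k := by
  induction k with
  | zero =>
    refine ⟨{1}, fun _ => 1, fun _ => zero_le_one, ?_, ?_, ?_, ?_⟩
    · intro u hu
      rw [mem_singleton] at hu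
      omega
    · intro P h1 _ _ u hu
      rw [mem_singleton] at hu
      rw [hu]; exact h1
    · intro Y _ _ u hu
      rw [mem_singleton] at hu
      simp [hu]
    · intro h h1 _
      simp [h1]
  | succ k ih =>
    obtain ⟨U, w, hw, hU0, hP, hY, hsum⟩ := ih
    refine ⟨(U ×ˢ Q).image (fun x => x.1 * x.2),
      fun n => ∑ x ∈ (U ×ˢ Q).filter (fun x => x.1 * x.2 = n), w x.1 / (Q.card : ℝ), ?_, ?_, ?_, ?_, ?_⟩
    · intro u
      exact Finset.sum_nonneg fun x _ => div_nonneg (hw _) (Nat.cast_nonneg _)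
    · intro u hu
      obtain ⟨x, hx, rfl⟩ := mem_image.1 hu
      rw [mem_product] at hx
      exact Nat.mul_pos (hU0 _ hx.1) (hQ0 _ hx.2)
    · intro P h1 hmul hq u hu
      obtain ⟨x, hx, rfl⟩ := mem_image.1 hu
      rw [mem_product] at hx
      exact hmul _ _ (hP P h1 hmul hq _ hx.1) (hq _ hx.2)
    · intro Y h1 hq u hu
      obtain ⟨x, hx, rfl⟩ := mem_image.1 hu
      rw [mem_product] at hx
      rw [pow_succ]
      exact Nat.mul_le_mul (hY Y h1 hq _ hx.1) (hq _ hx.2)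
    · intro h h1 hmul
      have e1 : ∀ n : ℕ, (((∑ x ∈ (U ×ˢ Q).filter (fun x => x.1 * x.2 = n), w x.1 / (Q.card : ℝ) : ℝ)) : ℂ) * h n
          = ∑ x ∈ (U ×ˢ Q).filter (fun x => x.1 * x.2 = n), ((w x.1 : ℂ) * h x.1) * (h x.2 / (Q.card : ℂ)) := by
        intro n
        push_cast
        rw [Finset.sum_mul]
        apply Finset.sum_congr rfl
        intro x hx
        rw [mem_filter, mem_product] at hx
        rw [← hx.2, hmul _ _ (hU0 _ hx.1.1) (hQ0 _ hx.1.2)]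
        ring
      simp only [e1]
      rw [Finset.sum_fiberwise_of_maps_to (fun x hx => mem_image_of_mem _ hx), Finset.sum_product,
        pow_succ, ← hsum h h1 hmul, Finset.sum_mul]
      apply Finset.sum_congr rfl
      intro u _
      rw [Finset.sum_div, Finset.mul_sum]

theorem small_factor (Q : Finset ℕ) (hQ : Q.Nonempty) (hQ0 : ∀ q ∈ Q, 0 < q) (m : ℕ) (hm : 1 ≤ m) :
    ∃ (U : Finset ℕ) (p : ℕ → ℝ), (∀ u ∈ U, 0 ≤ p u) ∧
      (∀ P : ℕ → Prop, P 1 → (∀ a b, P a → P b → P (a * b)) → (∀ q ∈ Q, P q) → ∀ u ∈ U, P u) ∧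
      (∀ Y : ℕ, 1 ≤ Y → (∀ q ∈ Q, q ≤ Y) → ∀ u ∈ U, u ≤ Y ^ m) ∧
      ∀ h : ℕ → ℂ, h 1 = 1 → (∀ a b : ℕ, 0 < a → 0 < b → h (a * b) = h a * h b) →
        ∑ u ∈ U, (p u : ℂ) * h u =
          (1 / (m : ℂ)) * ∑ k ∈ Icc 1 m, ((∑ q ∈ Q, h q) / (Q.card : ℂ)) ^ k := by
  choose Uf w hw hU0 hP hY hsum using F3_power Q hQ0
  refine ⟨(Icc 1 m).biUnion Uf, fun u => (1 / (m : ℝ)) * ∑ k ∈ Icc 1 m, if u ∈ Uf k then w k u else 0,
    ?_, ?_, ?_, ?_⟩
  · intro u _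
    apply mul_nonneg (by positivity)
    apply Finset.sum_nonneg
    intro k _
    split_ifs
    · exact hw _ _
    · exact le_rfl
  · intro P h1 hmul hq u hu
    obtain ⟨k, _, hu⟩ := mem_biUnion.1 hu
    exact hP k P h1 hmul hq u hu
  · intro Y h1 hq u hu
    obtain ⟨k, hk, hu⟩ := mem_biUnion.1 hu
    rw [mem_Icc] at hk
    exact (hY k Y h1 hq u hu).trans (Nat.pow_le_pow_right h1 hk.2)
  · intro h h1 hmul
    have e1 : ∀ u : ℕ, (((1 / (m : ℝ)) * ∑ k ∈ Icc 1 m, (if u ∈ Uf k then w k u else 0) : ℝ) : ℂ) * h u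
        = (1 / (m : ℂ)) * ∑ k ∈ Icc 1 m, if u ∈ Uf k then (w k u : ℂ) * h u else 0 := by
      intro u
      push_cast
      rw [mul_assoc, Finset.sum_mul]
      congr 1
      apply Finset.sum_congr rfl
      intro k _
      split_ifs
      · rfl
      · simp
    simp only [e1]
    rw [← Finset.mul_sum, Finset.sum_comm]
    congr 1
    apply Finset.sum_congr rfl
    intro k hk
    rw [← hsum k h h1 hmul, ← Finset.sum_filter]
    apply Finset.sum_congr _ (fun _ _ => rfl)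
    ext u
    rw [mem_filter, mem_biUnion]
    exact ⟨fun hu => hu.2, fun hu => ⟨⟨k, hk, hu⟩, hu⟩⟩

end Pool.Agent.Lib.MP_42948a_nt.OM
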