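import Pool.Agent.Lib.MP_42948a_nt.OM.Defs
import Pool.Agent.Lib.MP_42948a_nt.OA.DV

/-!
# Products in one class (job G1)

For `x = (n1, n2)` in the sum put `M = n1 n2`: `M ≥ d` (`n1^2 n2^2 ≥ d^2`), `M ≤ d^4`, and a given `M` arises from at most `τ(M)` pairs
(`n1 ∣ M`), `τ(M) ≤ C M^(κ/8) ≤ C d^(κ/2)` (`divisor_bound` of `OA/DV.lean` with exponent `κ/8`). So the sum is at most
`C d^(κ/2) ∑_{M} 1/M` over the `M ≡ b` with `d ≤ M ≤ d^4`. With `j = M / d` (natural division, `1 ≤ j ≤ d^3`): `M ≥ d j`, and `j` determines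
`M` (`M = d j + b.val`), so `∑ 1/M ≤ (1/d) ∑_{j ≤ d^3} 1/j ≤ (1 + 3 log d)/d` (`harmonic_le_one_add_log`). For `d` large
`C d^(κ/2) (1 + 3 log d) ≤ d^κ`.
-/

namespace Pool.Agent.Lib.MP_42948a_nt.OM

open Finset Pool.Agent.Lib.MP_42948a_nt.OA

open Classical in
theorem G1_card_fiber (S : Finset (ℕ × ℕ)) (hS : ∀ x ∈ S, 0 < x.1 ∧ 0 < x.2) (M : ℕ) :
    (S.filter (fun x => x.1 * x.2 = M)).card ≤ M.divisors.card := by
  refine Finset.card_le_card_of_injOn (fun x => x.1) ?_ ?_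
  · intro x hx
    obtain ⟨hxS, hxM⟩ := Finset.mem_filter.1 (Finset.mem_coe.1 hx)
    obtain ⟨h1, h2⟩ := hS x hxS
    refine Finset.mem_coe.2 (Nat.mem_divisors.2 ⟨⟨x.2, hxM.symm⟩, ?_⟩)
    have h3 := Nat.mul_pos h1 h2
    omega
  · intro x hx y hy hxy
    obtain ⟨hxS, hxM⟩ := Finset.mem_filter.1 (Finset.mem_coe.1 hx)
    obtain ⟨hyS, hyM⟩ := Finset.mem_filter.1 (Finset.mem_coe.1 hy)
    obtain ⟨h1, h2⟩ := hS x hxS
    have h3 : x.1 = y.1 := hxy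
    refine Prod.ext h3 ?_
    rw [← h3, ← hxM] at hyM
    exact (Nat.eq_of_mul_eq_mul_left h1 hyM).symm

theorem G1_sum_inv (d : ℕ) (hd : 0 < d) (b : ZMod d) (T : Finset ℕ)
    (hT : ∀ M ∈ T, d ≤ M ∧ M ≤ d ^ 4 ∧ (M : ZMod d) = b) :
    ∑ M ∈ T, (1 : ℝ) / M ≤ (1 + 3 * Real.log d) / d := by
  have hdR : (0 : ℝ) < d := by exact_mod_cast hd
  have hinj : Set.InjOn (fun M : ℕ => M / d) (T : Set ℕ) := by
    intro M hM N hN hMN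
    obtain ⟨-, -, h1⟩ := hT M (Finset.mem_coe.1 hM)
    obtain ⟨-, -, h2⟩ := hT N (Finset.mem_coe.1 hN)
    have h3 : M % d = N % d := by
      have h4 : ((M : ZMod d)).val = ((N : ZMod d)).val := by rw [h1, h2]
      rwa [ZMod.val_natCast, ZMod.val_natCast] at h4
    have h5 : M / d = N / d := hMN
    rw [← Nat.div_add_mod M d, ← Nat.div_add_mod N d, h3, h5]
  have hj1 : ∀ M ∈ T, 1 ≤ M / d := fun M hM => (Nat.one_le_div_iff hd).2 (hT M hM).1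
  have hj2 : ∀ M ∈ T, M / d ≤ d ^ 3 := by
    intro M hM
    have h1 := (hT M hM).2.1
    calc M / d ≤ d ^ 4 / d := Nat.div_le_div_right h1
      _ = d ^ 3 := by
        rw [pow_succ, Nat.mul_div_cancel _ hd]
  have hstep : ∑ M ∈ T, (1 : ℝ) / M ≤ ∑ M ∈ T, (1 / (d : ℝ)) * (((M / d : ℕ) : ℝ))⁻¹ := by
    refine Finset.sum_le_sum fun M hM => ?_
    have h1 : (1 : ℝ) ≤ ((M / d : ℕ) : ℝ) := by exact_mod_cast hj1 M hM
    have h2 : (d : ℝ) * ((M / d : ℕ) : ℝ) ≤ M := by exact_mod_cast Nat.mul_div_le M d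
    have h3 : (1 / (d : ℝ)) * (((M / d : ℕ) : ℝ))⁻¹ = 1 / ((d : ℝ) * ((M / d : ℕ) : ℝ)) := by
      rw [one_div, one_div, mul_inv]
    rw [h3]
    exact one_div_le_one_div_of_le (by positivity) h2
  have hH : ∑ j ∈ Icc 1 (d ^ 3), (1 / (d : ℝ)) * ((j : ℝ))⁻¹ ≤ (1 + 3 * Real.log d) / d := by
    rw [← Finset.mul_sum]
    have h1 := harmonic_le_one_add_log (d ^ 3)
    rw [harmonic_eq_sum_Icc] at h1
    push_cast at h1
    rw [Real.log_pow] at h1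
    have h2 : (1 / (d : ℝ)) * ∑ j ∈ Icc 1 (d ^ 3), ((j : ℝ))⁻¹ ≤ (1 / (d : ℝ)) * (1 + 3 * Real.log d) := by
      refine mul_le_mul_of_nonneg_left ?_ (by positivity)
      refine h1.trans (le_of_eq ?_)
      push_cast
      ring
    refine h2.trans (le_of_eq ?_)
    ring
  calc ∑ M ∈ T, (1 : ℝ) / M ≤ ∑ M ∈ T, (1 / (d : ℝ)) * (((M / d : ℕ) : ℝ))⁻¹ := hstep
    _ = ∑ j ∈ T.image (fun M => M / d), (1 / (d : ℝ)) * ((j : ℝ))⁻¹ := by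
        rw [Finset.sum_image hinj]
    _ ≤ ∑ j ∈ Icc 1 (d ^ 3), (1 / (d : ℝ)) * ((j : ℝ))⁻¹ := by
        refine Finset.sum_le_sum_of_subset_of_nonneg ?_ (fun _ _ _ => by positivity)
        intro j hj
        obtain ⟨M, hM, rfl⟩ := Finset.mem_image.1 hj
        exact Finset.mem_Icc.2 ⟨hj1 M hM, hj2 M hM⟩
    _ ≤ (1 + 3 * Real.log d) / d := hH

theorem G1_large (κ : ℝ) (hκ : 0 < κ) (C : ℝ) (hC : 1 ≤ C) : ∃ d0 : ℕ, 1 ≤ d0 ∧ ∀ d : ℕ, d0 ≤ d →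
    C * (d : ℝ) ^ (κ / 2) * (1 + 3 * Real.log d) ≤ (d : ℝ) ^ κ := by
  set B : ℝ := C * (1 + 12 / κ) with hB
  have hB0 : 0 < B := by positivity
  refine ⟨⌈B ^ (4 / κ)⌉₊ + 1, by omega, ?_⟩
  intro d hd
  have hd1 : (1 : ℝ) ≤ d := by
    have : 1 ≤ d := by omega
    exact_mod_cast this
  have hd0 : (0 : ℝ) < d := by linarith
  have h1 : B ^ (4 / κ) ≤ d := by
    have h2 : ((⌈B ^ (4 / κ)⌉₊ : ℕ) : ℝ) ≤ d := by
      have : ⌈B ^ (4 / κ)⌉₊ ≤ d := by omega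
      exact_mod_cast this
    exact (Nat.le_ceil _).trans h2
  have h2 : B ≤ (d : ℝ) ^ (κ / 4) := by
    have h3 := Real.rpow_le_rpow (by positivity) h1 (show 0 ≤ κ / 4 by positivity)
    rw [← Real.rpow_mul hB0.le] at h3
    have h4 : 4 / κ * (κ / 4) = 1 := by
      field_simp
    rwa [h4, Real.rpow_one] at h3
  have h3 : Real.log d ≤ (d : ℝ) ^ (κ / 4) / (κ / 4) := Real.log_le_rpow_div hd0.le (by positivity)
  have h5 : (1 : ℝ) ≤ (d : ℝ) ^ (κ / 4) := Real.one_le_rpow hd1 (by positivity)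
  have h6 : 1 + 3 * Real.log d ≤ (d : ℝ) ^ (κ / 4) * (1 + 12 / κ) := by
    have h7 : (d : ℝ) ^ (κ / 4) / (κ / 4) = (d : ℝ) ^ (κ / 4) * (4 / κ) := by
      field_simp
    rw [h7] at h3
    have h8 : (d : ℝ) ^ (κ / 4) * (1 + 12 / κ) = (d : ℝ) ^ (κ / 4) + 3 * ((d : ℝ) ^ (κ / 4) * (4 / κ)) := by
      ring
    rw [h8]
    linarith
  have h9 : (d : ℝ) ^ κ = (d : ℝ) ^ (κ / 2) * ((d : ℝ) ^ (κ / 4) * (d : ℝ) ^ (κ / 4)) := by
    rw [← Real.rpow_add hd0, ← Real.rpow_add hd0]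
    congr 1; ring
  have h10 : (0 : ℝ) ≤ (d : ℝ) ^ (κ / 2) := (Real.rpow_pos_of_pos hd0 _).le
  calc C * (d : ℝ) ^ (κ / 2) * (1 + 3 * Real.log d)
      ≤ C * (d : ℝ) ^ (κ / 2) * ((d : ℝ) ^ (κ / 4) * (1 + 12 / κ)) :=
        mul_le_mul_of_nonneg_left h6 (by positivity)
    _ = (d : ℝ) ^ (κ / 2) * ((d : ℝ) ^ (κ / 4) * B) := by rw [hB]; ring
    _ ≤ (d : ℝ) ^ (κ / 2) * ((d : ℝ) ^ (κ / 4) * (d : ℝ) ^ (κ / 4)) :=
        mul_le_mul_of_nonneg_left (mul_le_mul_of_nonneg_left h2 (by linarith)) h10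
    _ = (d : ℝ) ^ κ := h9.symm

open Classical in
theorem pair_class (κ : ℝ) (hκ : 0 < κ) : ∃ d0 : ℕ, ∀ d : ℕ, d0 ≤ d → ∀ N : Finset ℕ,
    (∀ n ∈ N, 0 < n ∧ d ≤ n ^ 2 ∧ n ≤ d ^ 2) → ∀ b : (ZMod d)ˣ,
      ∑ x ∈ (N ×ˢ N).filter (fun x => ((x.1 * x.2 : ℕ) : ZMod d) = (b : ZMod d)),
        (1 : ℝ) / ((x.1 : ℝ) * x.2) ≤ (d : ℝ) ^ (κ - 1) := by
  obtain ⟨C, hC, hdiv⟩ := divisor_bound (κ / 8) (by positivity)
  obtain ⟨d0, hd0, hlarge⟩ := G1_large κ hκ C hC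
  refine ⟨d0, fun d hd N hN b => ?_⟩
  have hd1 : 0 < d := by omega
  have hdR : (0 : ℝ) < d := by exact_mod_cast hd1
  have hL := hlarge d hd
  set S : Finset (ℕ × ℕ) := (N ×ˢ N).filter (fun x => ((x.1 * x.2 : ℕ) : ZMod d) = (b : ZMod d)) with hS
  have hmem : ∀ x ∈ S, 0 < x.1 ∧ 0 < x.2 ∧ d ≤ x.1 * x.2 ∧ x.1 * x.2 ≤ d ^ 4 ∧
      ((x.1 * x.2 : ℕ) : ZMod d) = (b : ZMod d) := by
    intro x hx
    obtain ⟨h1, h2⟩ := Finset.mem_filter.1 hx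
    obtain ⟨h3, h4⟩ := Finset.mem_product.1 h1
    obtain ⟨h5, h6, h7⟩ := hN x.1 h3
    obtain ⟨h8, h9, h10⟩ := hN x.2 h4
    refine ⟨h5, h8, ?_, ?_, h2⟩
    · have h11 : d * d ≤ (x.1 * x.2) * (x.1 * x.2) := by
        calc d * d ≤ x.1 ^ 2 * x.2 ^ 2 := Nat.mul_le_mul h6 h9
          _ = (x.1 * x.2) * (x.1 * x.2) := by ring
      exact Nat.mul_self_le_mul_self_iff.1 h11
    · calc x.1 * x.2 ≤ d ^ 2 * d ^ 2 := Nat.mul_le_mul h7 h10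
        _ = d ^ 4 := by ring
  set T : Finset ℕ := S.image (fun x => x.1 * x.2) with hT
  have hTmem : ∀ M ∈ T, d ≤ M ∧ M ≤ d ^ 4 ∧ (M : ZMod d) = (b : ZMod d) := by
    intro M hM
    obtain ⟨x, hx, rfl⟩ := Finset.mem_image.1 hM
    obtain ⟨-, -, h3, h4, h5⟩ := hmem x hx
    exact ⟨h3, h4, h5⟩
  have hmaps : ∀ x ∈ S, x.1 * x.2 ∈ T := fun x hx => Finset.mem_image_of_mem (fun x : ℕ × ℕ => x.1 * x.2) hx
  have hfib : ∑ x ∈ S, (1 : ℝ) / ((x.1 : ℝ) * x.2) ≤ ∑ M ∈ T, (C * (d : ℝ) ^ (κ / 2)) * ((1 : ℝ) / M) := by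
    rw [← Finset.sum_fiberwise_of_maps_to hmaps]
    refine Finset.sum_le_sum fun M hM => ?_
    obtain ⟨h1, h2, -⟩ := hTmem M hM
    have hM0 : 0 < M := by omega
    have h3 : ∑ x ∈ S.filter (fun x => x.1 * x.2 = M), (1 : ℝ) / ((x.1 : ℝ) * x.2) =
        ((S.filter (fun x => x.1 * x.2 = M)).card : ℝ) * ((1 : ℝ) / M) := by
      rw [Finset.sum_congr rfl (g := fun _ => (1 : ℝ) / M) (fun x hx => by
        rw [← (Finset.mem_filter.1 hx).2]; push_cast; rfl), Finset.sum_const, nsmul_eq_mul]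
    rw [h3]
    refine mul_le_mul_of_nonneg_right ?_ (by positivity)
    have h4 := G1_card_fiber S (fun x hx => ⟨(hmem x hx).1, (hmem x hx).2.1⟩) M
    have h5 : ((S.filter (fun x => x.1 * x.2 = M)).card : ℝ) ≤ (M.divisors.card : ℝ) := by exact_mod_cast h4
    refine h5.trans ((hdiv M hM0).trans (mul_le_mul_of_nonneg_left ?_ (by linarith)))
    have h6 : (M : ℝ) ≤ (d : ℝ) ^ (4 : ℝ) := by
      have h7 : (M : ℝ) ≤ (d : ℝ) ^ 4 := by exact_mod_cast h2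
      refine h7.trans (le_of_eq ?_)
      rw [← Real.rpow_natCast]
      norm_num
    refine (Real.rpow_le_rpow (Nat.cast_nonneg M) h6 (by positivity)).trans (le_of_eq ?_)
    rw [← Real.rpow_mul hdR.le]
    congr 1; ring
  have hsum := G1_sum_inv d hd1 (b : ZMod d) T hTmem
  have hC0 : (0 : ℝ) ≤ C * (d : ℝ) ^ (κ / 2) := mul_nonneg (by linarith) (Real.rpow_pos_of_pos hdR _).le
  calc ∑ x ∈ S, (1 : ℝ) / ((x.1 : ℝ) * x.2) ≤ ∑ M ∈ T, (C * (d : ℝ) ^ (κ / 2)) * ((1 : ℝ) / M) := hfib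
    _ = (C * (d : ℝ) ^ (κ / 2)) * ∑ M ∈ T, (1 : ℝ) / M := by rw [← Finset.mul_sum]
    _ ≤ (C * (d : ℝ) ^ (κ / 2)) * ((1 + 3 * Real.log d) / d) := mul_le_mul_of_nonneg_left hsum hC0
    _ = (C * (d : ℝ) ^ (κ / 2) * (1 + 3 * Real.log d)) / d := by ring
    _ ≤ (d : ℝ) ^ κ / d := div_le_div_of_nonneg_right hL hdR.le
    _ = (d : ℝ) ^ (κ - 1) := by rw [Real.rpow_sub_one hdR.ne']

end Pool.Agent.Lib.MP_42948a_nt.OM
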