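import Pool.Agent.Lib.MP_42948a_nt.OM.Defs

/-!
# Removing the integers not coprime to `d` (job J2)

`∑_{RR} - ∑_{NN}` is the sum over the `n ∈ RR z x0 y'` not coprime to `d`; each such `n` is divisible by a prime `p ∣ d`, and `p > z` (`n` is
rough); the sum of the `1/n` is at most `∑_{p ∣ d, p > z} ∑_{n' ∈ RR z 0 y'} 1/(p n')` (`n = p n'`, `n'` rough, `n' ≤ y'`)
`≤ #{p ∣ d prime, p > z} (1/z) MM z y'`. The number `r` of prime divisors `p > z` of `d` satisfies `z^r ≤ d`, so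
`r ≤ log d/log z` (`z ≥ 2`).
-/

namespace Pool.Agent.Lib.MP_42948a_nt.OM

open Finset Pool.Agent.Lib.MP_42948a_nt.OA

theorem J2_card (d z : ℕ) (hd : 1 ≤ d) (hz : 2 ≤ z) :
    ((d.primeFactors.filter (fun p => z < p)).card : ℝ) ≤ Real.log d / Real.log z := by
  have hz1 : (1 : ℝ) < z := by
    have : 1 < z := by omega
    exact_mod_cast this
  have hlz : 0 < Real.log z := Real.log_pos hz1
  have h1 : ∏ p ∈ d.primeFactors.filter (fun p => z < p), p ∣ d :=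
    (Finset.prod_dvd_prod_of_subset _ _ _ (Finset.filter_subset _ _)).trans (Nat.prod_primeFactors_dvd d)
  have h2 : z ^ (d.primeFactors.filter (fun p => z < p)).card ≤ d := by
    calc z ^ (d.primeFactors.filter (fun p => z < p)).card
        = ∏ _p ∈ d.primeFactors.filter (fun p => z < p), z := by rw [Finset.prod_const]
      _ ≤ ∏ p ∈ d.primeFactors.filter (fun p => z < p), p :=
          Finset.prod_le_prod' fun p hp => (mem_filter.1 hp).2.le
      _ ≤ d := Nat.le_of_dvd (by omega) h1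
  rw [le_div_iff₀ hlz, ← Real.log_pow]
  refine Real.log_le_log (by positivity) ?_
  exact_mod_cast h2

theorem J2_fib (d z x0 y' p : ℕ) (hp : p.Prime) :
    ∑ n ∈ ((RR z x0 y').filter (fun n => ¬ n.Coprime d)).filter (fun n => p ∣ n), (1 : ℝ) / n ≤
      1 / (p : ℝ) * MM z y' := by
  classical
  have hinj : Set.InjOn (fun n : ℕ => p * n) (RR z 0 y' : Set ℕ) := by
    intro a _ b _ hab
    exact Nat.eq_of_mul_eq_mul_left hp.pos hab
  have h1 : 1 / (p : ℝ) * MM z y' = ∑ m ∈ (RR z 0 y').image (fun n => p * n), (1 : ℝ) / m := by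
    rw [Finset.sum_image hinj]
    unfold MM
    rw [Finset.mul_sum]
    refine Finset.sum_congr rfl fun n _ => ?_
    push_cast
    rw [one_div_mul_one_div]
  rw [h1]
  refine Finset.sum_le_sum_of_subset_of_nonneg ?_ (fun _ _ _ => by positivity)
  intro n hn
  obtain ⟨h2, h3⟩ := mem_filter.1 hn
  obtain ⟨h4, -⟩ := mem_filter.1 h2
  unfold RR at h4
  obtain ⟨h5, h6⟩ := mem_filter.1 h4
  obtain ⟨k, rfl⟩ := h3
  have hk : Rough z k := h6.of_dvd (dvd_mul_left k p)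
  refine mem_image.2 ⟨k, ?_, rfl⟩
  unfold RR
  refine mem_filter.2 ⟨mem_Ioc.2 ⟨hk.1, ?_⟩, hk⟩
  exact (Nat.le_mul_of_pos_left k hp.pos).trans (mem_Ioc.1 h5).2

theorem J2_non (d z x0 y' : ℕ) (hd : 1 ≤ d) (hz : 2 ≤ z) :
    ∑ n ∈ (RR z x0 y').filter (fun n => ¬ n.Coprime d), (1 : ℝ) / n ≤
      Real.log d / Real.log z * (1 / z) * MM z y' := by
  classical
  set P : Finset ℕ := d.primeFactors.filter (fun p => z < p) with hP
  have hMM : 0 ≤ MM z y' := Finset.sum_nonneg fun _ _ => by positivity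
  have hz0 : (0 : ℝ) < z := by
    have : 0 < z := by omega
    exact_mod_cast this
  have h1 : ∑ n ∈ (RR z x0 y').filter (fun n => ¬ n.Coprime d), (1 : ℝ) / n ≤
      ∑ n ∈ (RR z x0 y').filter (fun n => ¬ n.Coprime d), ∑ p ∈ P, (if p ∣ n then (1 : ℝ) / n else 0) := by
    refine Finset.sum_le_sum fun n hn => ?_
    obtain ⟨h2, h3⟩ := mem_filter.1 hn
    obtain ⟨p, hp, hpn, hpd⟩ := Nat.Prime.not_coprime_iff_dvd.1 h3
    unfold RR at h2
    have hpz : z < p := (mem_filter.1 h2).2.2 p hp hpn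
    have hpP : p ∈ P := mem_filter.2 ⟨Nat.mem_primeFactors.2 ⟨hp, hpd, by omega⟩, hpz⟩
    calc (1 : ℝ) / n = (if p ∣ n then (1 : ℝ) / n else 0) := by rw [if_pos hpn]
      _ ≤ ∑ p ∈ P, (if p ∣ n then (1 : ℝ) / n else 0) :=
          Finset.single_le_sum (f := fun p => if p ∣ n then (1 : ℝ) / n else 0)
            (fun q _ => by split_ifs <;> positivity) hpP
  refine h1.trans ?_
  rw [Finset.sum_comm]
  have h2 : ∀ p ∈ P, ∑ n ∈ (RR z x0 y').filter (fun n => ¬ n.Coprime d), (if p ∣ n then (1 : ℝ) / n else 0) ≤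
      1 / (z : ℝ) * MM z y' := by
    intro p hp
    obtain ⟨h3, h4⟩ := mem_filter.1 hp
    have hpp := Nat.prime_of_mem_primeFactors h3
    rw [← Finset.sum_filter]
    refine (J2_fib d z x0 y' p hpp).trans (mul_le_mul_of_nonneg_right ?_ hMM)
    refine one_div_le_one_div_of_le hz0 ?_
    exact_mod_cast h4.le
  refine (Finset.sum_le_sum h2).trans ?_
  rw [Finset.sum_const, nsmul_eq_mul]
  have h5 := J2_card d z hd hz
  calc (P.card : ℝ) * (1 / (z : ℝ) * MM z y') ≤ Real.log d / Real.log z * (1 / (z : ℝ) * MM z y') :=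
        mul_le_mul_of_nonneg_right h5 (by positivity)
    _ = Real.log d / Real.log z * (1 / z) * MM z y' := by ring

theorem J2_norm (ζ : ℂ) (hζ : ‖ζ‖ = 1) (N : Finset ℕ) :
    ‖∑ n ∈ N, ζ ^ Om n / (n : ℂ)‖ ≤ ∑ n ∈ N, (1 : ℝ) / n := by
  refine (norm_sum_le _ _).trans (le_of_eq (Finset.sum_congr rfl fun n _ => ?_))
  rw [norm_div, norm_pow, hζ, one_pow, Complex.norm_natCast]

theorem removal (ζ : ℂ) (hζ : ‖ζ‖ = 1) (d z x0 y' : ℕ) (hd : 1 ≤ d) (hz : 2 ≤ z) :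
    ‖∑ n ∈ RR z x0 y', ζ ^ Om n / (n : ℂ)‖ - Real.log d / Real.log z * (1 / z) * MM z y' ≤
      ‖∑ n ∈ NN z d x0 y', ζ ^ Om n / (n : ℂ)‖ := by
  classical
  have h1 : ∑ n ∈ RR z x0 y', ζ ^ Om n / (n : ℂ) = ∑ n ∈ NN z d x0 y', ζ ^ Om n / (n : ℂ) +
      ∑ n ∈ (RR z x0 y').filter (fun n => ¬ n.Coprime d), ζ ^ Om n / (n : ℂ) := by
    unfold NN
    rw [Finset.sum_filter_add_sum_filter_not]
  have h2 := (J2_norm ζ hζ ((RR z x0 y').filter (fun n => ¬ n.Coprime d))).trans (J2_non d z x0 y' hd hz)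
  have h3 := norm_add_le (∑ n ∈ NN z d x0 y', ζ ^ Om n / (n : ℂ))
    (∑ n ∈ (RR z x0 y').filter (fun n => ¬ n.Coprime d), ζ ^ Om n / (n : ℂ))
  rw [← h1] at h3
  linarith

theorem WW_NN_le (d z x0 y' : ℕ) : WW (NN z d x0 y') ≤ MM z y' := by
  classical
  unfold WW MM
  refine Finset.sum_le_sum_of_subset_of_nonneg ?_ (fun _ _ _ => by positivity)
  intro n hn
  unfold NN RR at hn
  obtain ⟨h1, -⟩ := mem_filter.1 hn
  obtain ⟨h2, h3⟩ := mem_filter.1 h1
  unfold RR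
  exact mem_filter.2 ⟨mem_Ioc.2 ⟨h3.1, (mem_Ioc.1 h2).2⟩, h3⟩

theorem norm_sum_le_WW (ζ : ℂ) (hζ : ‖ζ‖ = 1) (N : Finset ℕ) :
    ‖∑ n ∈ N, ζ ^ Om n / (n : ℂ)‖ ≤ WW N := by
  exact J2_norm ζ hζ N

end Pool.Agent.Lib.MP_42948a_nt.OM
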