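import Pool.Agent.Lib.MP_42948a_nt.OM.A1

/-!
# The fourth moment (job G2)

`ac N v χ ^ 2 = ∑_{(n1, n2) ∈ N ×ˢ N} (v n1/n1)(v n2/n2) χ(n1 n2)`, so by `parseval_class` (`ι = ℕ × ℕ`, the classes are units as `n1 n2` is
coprime to `d`) `∑ χ, ‖ac N v χ‖^4 = φ(d) ∑ b, ‖cw b‖^2` and `‖cw b‖ ≤ r b = ∑_{n1 n2 ≡ b} 1/(n1 n2) ≤ R`. So the right side is
`≤ φ(d) R ∑ b, r b = φ(d) R (WW N)^2` (the classes partition `N ×ˢ N`; `∑_{(n1,n2)} 1/(n1 n2) = (WW N)^2`).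
-/

namespace Pool.Agent.Lib.MP_42948a_nt.OM

open Finset Pool.Agent.Lib.MP_42948a_nt.OA

theorem G2_sq (d : ℕ) (N : Finset ℕ) (v : ℕ → ℂ) (χ : DirichletCharacter ℂ d) :
    ac N v χ ^ 2 = ∑ x ∈ N ×ˢ N, (v x.1 / (x.1 : ℂ) * (v x.2 / (x.2 : ℂ))) *
      χ ((x.1 * x.2 : ℕ) : ZMod d) := by
  unfold ac
  rw [sq, Finset.sum_mul_sum, ← Finset.sum_product']
  refine Finset.sum_congr rfl (fun x _ => ?_)
  rw [Nat.cast_mul, map_mul]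
  ring

theorem G2_WW (N : Finset ℕ) :
    ∑ x ∈ N ×ˢ N, (1 : ℝ) / ((x.1 : ℝ) * x.2) = WW N ^ 2 := by
  unfold WW
  rw [sq, Finset.sum_mul_sum, ← Finset.sum_product']
  refine Finset.sum_congr rfl (fun x _ => ?_)
  rw [div_mul_div_comm, one_mul]

open Classical in
theorem G2_fiber (d : ℕ) [NeZero d] {ι : Type*} (S : Finset ι) (X : ι → ZMod d) (f : ι → ℝ)
    (hX : ∀ i ∈ S, IsUnit (X i)) :
    ∑ b : (ZMod d)ˣ, ∑ x ∈ S.filter (fun x => X x = (b : ZMod d)), f x = ∑ x ∈ S, f x := by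
  calc ∑ b : (ZMod d)ˣ, ∑ x ∈ S.filter (fun x => X x = (b : ZMod d)), f x
      = ∑ b : (ZMod d)ˣ, ∑ x ∈ S, if X x = (b : ZMod d) then f x else 0 := by
        refine Finset.sum_congr rfl (fun b _ => ?_)
        rw [Finset.sum_filter]
    _ = ∑ x ∈ S, ∑ b : (ZMod d)ˣ, if X x = (b : ZMod d) then f x else 0 := Finset.sum_comm
    _ = ∑ x ∈ S, f x := by
        refine Finset.sum_congr rfl (fun x hx => ?_)
        obtain ⟨u, hu⟩ := hX x hx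
        rw [Finset.sum_eq_single u]
        · rw [if_pos hu.symm]
        · intro b _ hb
          rw [if_neg]
          intro h
          exact hb (Units.ext (by rw [hu, h]))
        · intro h
          exact absurd (Finset.mem_univ u) h

open Classical in
theorem fourth_moment (d : ℕ) [NeZero d] (N : Finset ℕ) (hN : ∀ n ∈ N, n.Coprime d) (R : ℝ)
    (hR : ∀ b : (ZMod d)ˣ, ∑ x ∈ (N ×ˢ N).filter (fun x => ((x.1 * x.2 : ℕ) : ZMod d) = (b : ZMod d)),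
      (1 : ℝ) / ((x.1 : ℝ) * x.2) ≤ R) (v : ℕ → ℂ) (hv : ∀ n, ‖v n‖ ≤ 1) :
    ∑ χ : DirichletCharacter ℂ d, ‖ac N v χ‖ ^ 4 ≤ (d.totient : ℝ) * R * WW N ^ 2 := by
  have hX : ∀ x ∈ N ×ˢ N, IsUnit (((x.1 * x.2 : ℕ) : ZMod d)) := by
    intro x hx
    rw [Finset.mem_product] at hx
    rw [ZMod.isUnit_iff_coprime]
    exact Nat.Coprime.mul_left (hN _ hx.1) (hN _ hx.2)
  have h1 : ∑ χ : DirichletCharacter ℂ d, ‖ac N v χ‖ ^ 4 =
      ∑ χ : DirichletCharacter ℂ d, ‖∑ x ∈ N ×ˢ N,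
        (v x.1 / (x.1 : ℂ) * (v x.2 / (x.2 : ℂ))) * χ ((x.1 * x.2 : ℕ) : ZMod d)‖ ^ 2 := by
    refine Finset.sum_congr rfl (fun χ _ => ?_)
    rw [← G2_sq, norm_pow, ← pow_mul]
  rw [h1, parseval_class d (N ×ˢ N) (fun x => ((x.1 * x.2 : ℕ) : ZMod d))
    (fun x => v x.1 / (x.1 : ℂ) * (v x.2 / (x.2 : ℂ))) hX, mul_assoc]
  refine mul_le_mul_of_nonneg_left ?_ (Nat.cast_nonneg _)
  rw [← G2_WW, ← G2_fiber d (N ×ˢ N) (fun x => ((x.1 * x.2 : ℕ) : ZMod d)) _ hX, Finset.mul_sum]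
  refine Finset.sum_le_sum (fun b _ => ?_)
  have hc : ∀ x : ℕ × ℕ, ‖v x.1 / (x.1 : ℂ) * (v x.2 / (x.2 : ℂ))‖ ≤
      (1 : ℝ) / ((x.1 : ℝ) * x.2) := by
    intro x
    rw [norm_mul, norm_div, norm_div, Complex.norm_natCast, Complex.norm_natCast,
      div_mul_div_comm]
    refine div_le_div_of_nonneg_right ?_ (by positivity)
    exact mul_le_one₀ (hv _) (norm_nonneg _) (hv _)
  have h2 : ‖cw (N ×ˢ N) (fun x => ((x.1 * x.2 : ℕ) : ZMod d))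
      (fun x => v x.1 / (x.1 : ℂ) * (v x.2 / (x.2 : ℂ))) b‖ ≤
      ∑ x ∈ (N ×ˢ N).filter (fun x => ((x.1 * x.2 : ℕ) : ZMod d) = (b : ZMod d)),
        (1 : ℝ) / ((x.1 : ℝ) * x.2) := by
    unfold cw
    refine (norm_sum_le _ _).trans ?_
    refine le_trans (Finset.sum_le_sum (fun x _ => hc x)) (le_of_eq ?_)
    refine Finset.sum_congr ?_ (fun _ _ => rfl)
    ext x
    simp
  have h3 := hR b
  have h4 : 0 ≤ ‖cw (N ×ˢ N) (fun x => ((x.1 * x.2 : ℕ) : ZMod d))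
      (fun x => v x.1 / (x.1 : ℂ) * (v x.2 / (x.2 : ℂ))) b‖ := norm_nonneg _
  rw [sq]
  exact mul_le_mul (h2.trans h3) h2 h4 ((h4.trans h2).trans h3)

end Pool.Agent.Lib.MP_42948a_nt.OM
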