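import Pool.Agent.Lib.MP_42948a_nt.OM.Defs

/-!
# Choice of the sieve parameter (job J1)

With `A = 25`: for `b ≥ B`, `b ≥ 1`: `ν b ≤ b^(-25)`. And `16 b + 24 ≤ 40 b`, so the right side of the last inequality is
`≥ C^2 η^24 / (400 * 40^24 * b^24)`, which is `≥ b^(-25)` as soon as `b ≥ 400 * 40^24/(C^2 η^24)`. `ν b ≤ 1/2` for `b ≥ 2`.
-/

namespace Pool.Agent.Lib.MP_42948a_nt.OM

open Finset Pool.Agent.Lib.MP_42948a_nt.OA

theorem param (C η : ℝ) (hC : 0 < C) (hη : 0 < η) (m : ℕ) (ν : ℕ → ℝ)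
    (hν : ∀ A : ℕ, ∃ B : ℕ, ∀ b : ℕ, B ≤ b → ν b * (b : ℝ) ^ A ≤ 1) :
    ∃ b0 : ℕ, 1 ≤ b0 ∧ m ≤ b0 ∧ ν b0 ≤ 1 / 2 ∧
      ν b0 ≤ (C * (η / (16 * b0 + 24)) ^ 12) ^ 2 / 400 := by
  obtain ⟨B, hB⟩ := hν 25
  set T : ℝ := C ^ 2 * η ^ 24 with hT
  have hT0 : 0 < T := by positivity
  obtain ⟨M, hM⟩ := exists_nat_ge (400 * 40 ^ 24 / T)
  set b : ℕ := B + m + M + 2 with hb
  have hb2 : (2 : ℝ) ≤ b := by exact_mod_cast (show 2 ≤ b by omega)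
  have hbM : (M : ℝ) ≤ b := by exact_mod_cast (show M ≤ b by omega)
  have hb0 : (0 : ℝ) < b := by linarith
  have h1 := hB b (by omega)
  have h2 : ν b ≤ 1 / (b : ℝ) ^ 25 := by
    rw [le_div_iff₀ (by positivity)]
    exact h1
  refine ⟨b, by omega, by omega, h2.trans ?_, h2.trans ?_⟩
  · apply one_div_le_one_div_of_le (by norm_num)
    calc (2 : ℝ) ≤ (b : ℝ) ^ 1 := by simpa using hb2
      _ ≤ (b : ℝ) ^ 25 := pow_le_pow_right₀ (by linarith) (by norm_num)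
  · have h3 : (C * (η / (16 * (b : ℝ) + 24)) ^ 12) ^ 2 / 400 = T / ((16 * (b : ℝ) + 24) ^ 24 * 400) := by
      rw [hT, mul_pow, div_pow, div_pow, ← pow_mul, ← pow_mul]
      norm_num
      field_simp
    rw [h3, div_le_div_iff₀ (by positivity) (by positivity), one_mul]
    have h4 : (16 * (b : ℝ) + 24) ^ 24 ≤ (40 * (b : ℝ)) ^ 24 :=
      pow_le_pow_left₀ (by positivity) (by linarith) 24
    have h5 : 400 * 40 ^ 24 ≤ T * (b : ℝ) := by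
      have h6 : 400 * 40 ^ 24 / T ≤ (b : ℝ) := hM.trans hbM
      rw [div_le_iff₀ hT0] at h6
      linarith
    calc (16 * (b : ℝ) + 24) ^ 24 * 400 ≤ (40 * (b : ℝ)) ^ 24 * 400 :=
          mul_le_mul_of_nonneg_right h4 (by norm_num)
      _ = (400 * 40 ^ 24) * (b : ℝ) ^ 24 := by rw [mul_pow]; ring
      _ ≤ (T * (b : ℝ)) * (b : ℝ) ^ 24 := mul_le_mul_of_nonneg_right h5 (by positivity)
      _ = T * (b : ℝ) ^ 25 := by ring

end Pool.Agent.Lib.MP_42948a_nt.OM
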