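import Pool.Agent.Lib.MP_42948a_nt.OM.C2
import Pool.Agent.Lib.MP_42948a_nt.OM.C3
import Pool.Agent.Lib.MP_42948a_nt.OM.C4
import Pool.Agent.Lib.MP_42948a_nt.OM.D

/-!
# The large sieve for the rough numbers (job J3)

Let `K = 4 b0 + 6`, `W = WW (NN z d y y')`, `e = z^K (4 BB d / y)`, `Λ = φ(d)/d log(y'/y) ≥ 0`. `majorant_total`, `rough_total` and `hν` (with
`g = gd d`: `0 ≤ gd d p ≤ 1/p`): `(1 - ν)(Wp - e) ≤ (1 - ν) Λ BP ≤ Λ FF ≤ W + e` with `Wp = ∑_{II} wp n/n`. As `0 ≤ ν ≤ 1/2`,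
`1/(1-ν) ≤ 1 + 2 ν ≤ 2`, so `Wp ≤ (1 + 2 ν)(W + e) + e ≤ (1 + 2 ν) W + 3 e`. `large_sieve` (`I = II d y y'`, `N = NN z d y y' ⊆ I`,
`w = wp z b0`: `wp_nonneg`, `wp_rough`; `E = z^K (2 BB d / y)`: `majorant_char`) gives the bound
`W (Wp + #X E) ≤ W ((1 + 2 ν) W + 3 e + #X E)` and `3 e + #X E = z^K (BB d / y) (12 + 2 #X)`.
-/

namespace Pool.Agent.Lib.MP_42948a_nt.OM

open Finset Pool.Agent.Lib.MP_42948a_nt.OA

theorem J3_sub (z d y y' : ℕ) : NN z d y y' ⊆ II d y y' := by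
  classical
  intro n hn
  rw [NN, mem_filter] at hn
  obtain ⟨h1, h2⟩ := hn
  unfold RR at h1
  rw [II, mem_filter]
  exact ⟨(mem_filter.mp h1).1, h2⟩

theorem J3_II (d y y' : ℕ) : ∀ n ∈ II d y y', 0 < n ∧ n.Coprime d := by
  intro n hn
  rw [II, mem_filter, mem_Ioc] at hn
  exact ⟨by omega, hn.2⟩

theorem J3_one (z b0 d y y' n : ℕ) (hn : n ∈ NN z d y y') : 1 ≤ wp z b0 n := by
  classical
  rw [NN, mem_filter] at hn
  obtain ⟨h1, -⟩ := hn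
  unfold RR at h1
  exact wp_rough z b0 n (mem_filter.mp h1).2

theorem rough_large_sieve (d : ℕ) [NeZero d] (z b0 y y' : ℕ) (hz : 2 ≤ z)
    (hy : 2 * z ^ (4 * b0 + 6) ≤ y) (hyy : y ≤ y') (ν : ℝ) (hν0 : 0 ≤ ν) (hν1 : ν ≤ 1 / 2)
    (hν : ∀ g : ℕ → ℝ, (∀ p ∈ PP z, 0 ≤ g p ∧ g p ≤ 1 / (p : ℝ)) → (1 - ν) * BP z b0 g ≤ FF z b0 g)
    (X : Finset (DirichletCharacter ℂ d)) (v : ℕ → ℂ) (hv : ∀ n, ‖v n‖ ≤ 1) :
    ∑ χ ∈ X, ‖ac (NN z d y y') v χ‖ ^ 2 ≤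
      WW (NN z d y y') * ((1 + 2 * ν) * WW (NN z d y y') +
        (z : ℝ) ^ (4 * b0 + 6) * (BB d / y) * (12 + 2 * X.card)) := by
  have hz1 : 1 ≤ z := by omega
  have hzK : 1 ≤ z ^ (4 * b0 + 6) := Nat.one_le_pow _ _ hz1
  have hy1 : 1 ≤ y := by omega
  have hyR : (0 : ℝ) < y := by exact_mod_cast hy1
  have hM := majorant_total d z b0 y y' hz1 hy hyy
  have hR := rough_total d z b0 y y' hz1 hy hyy
  have hgd : ∀ p ∈ PP z, 0 ≤ gd d p ∧ gd d p ≤ 1 / (p : ℝ) := by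
    intro p _
    rw [gd]
    split_ifs
    · exact ⟨le_refl _, by positivity⟩
    · exact ⟨by positivity, le_refl _⟩
  have hν' := hν (gd d) hgd
  have hBB : 0 ≤ BB d := by
    rw [BB]
    have : 0 ≤ Real.log (d : ℝ) := Real.log_natCast_nonneg d
    positivity
  have hL0 : 0 ≤ (d.totient : ℝ) / d * Real.log ((y' : ℝ) / y) := by
    apply mul_nonneg (by positivity)
    apply Real.log_nonneg
    rw [le_div_iff₀ hyR, one_mul]
    exact_mod_cast hyy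
  have hLS := large_sieve d (II d y y') (NN z d y y') (J3_sub z d y y') (J3_II d y y')
    (wp z b0) (fun n _ => wp_nonneg z b0 n) (fun n hn => J3_one z b0 d y y' n hn)
    ((z : ℝ) ^ (4 * b0 + 6) * (2 * BB d / y)) (by positivity)
    (fun ψ hψ => majorant_char d z b0 y y' hz1 hy1 ψ hψ) X v (fun n _ => hv n)
  have hW0 : 0 ≤ WW (NN z d y y') := by
    rw [WW]
    exact Finset.sum_nonneg (fun n _ => by positivity)
  refine hLS.trans (mul_le_mul_of_nonneg_left ?_ hW0)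
  generalize (d.totient : ℝ) / d * Real.log ((y' : ℝ) / y) = Λ at hM hR hL0
  generalize WW (NN z d y y') = W at hR hW0 hLS ⊢
  generalize ∑ n ∈ II d y y', wp z b0 n / n = Wp at hM hLS ⊢
  generalize BP z b0 (gd d) = bp at hM hν'
  generalize FF z b0 (gd d) = ff at hR hν'
  have he0 : 0 ≤ (z : ℝ) ^ (4 * b0 + 6) * (BB d / y) := by positivity
  have e1 : (z : ℝ) ^ (4 * b0 + 6) * (4 * BB d / y) = 4 * ((z : ℝ) ^ (4 * b0 + 6) * (BB d / y)) := by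
    ring
  have e2 : (z : ℝ) ^ (4 * b0 + 6) * (2 * BB d / y) = 2 * ((z : ℝ) ^ (4 * b0 + 6) * (BB d / y)) := by
    ring
  rw [e1] at hM hR
  rw [e2]
  generalize (z : ℝ) ^ (4 * b0 + 6) * (BB d / y) = e at he0 hM hR ⊢
  have h1 : (1 - ν) * (Wp - 4 * e) ≤ W + 4 * e := by
    have h2 : (1 - ν) * (Wp - 4 * e) ≤ (1 - ν) * (Λ * bp) :=
      mul_le_mul_of_nonneg_left (by linarith) (by linarith)
    have h3 : Λ * ((1 - ν) * bp) ≤ Λ * ff := mul_le_mul_of_nonneg_left hν' hL0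
    have h4 : (1 - ν) * (Λ * bp) = Λ * ((1 - ν) * bp) := by ring
    linarith
  have h5 : Wp - 4 * e ≤ (1 + 2 * ν) * (W + 4 * e) := by
    have h6 : 0 ≤ W + 4 * e := by linarith
    have h7 : (1 + 2 * ν) * ((1 - ν) * (Wp - 4 * e)) ≤ (1 + 2 * ν) * (W + 4 * e) :=
      mul_le_mul_of_nonneg_left h1 (by linarith)
    by_cases h8 : 0 ≤ Wp - 4 * e
    · have h9 : 1 ≤ (1 + 2 * ν) * (1 - ν) := by nlinarith
      nlinarith
    · push Not at h8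
      nlinarith
  have hX : (0 : ℝ) ≤ (X.card : ℝ) := Nat.cast_nonneg _
  nlinarith [mul_nonneg hν0 he0]

end Pool.Agent.Lib.MP_42948a_nt.OM
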