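import Pool.Agent.Lib.MP_42948a_nt.OM.Defs
import Pool.Agent.Lib.MP_42948a_nt.OA.ZA

/-!
# Inequalities for large `d` (job J4)

`z = ⌊d^δ⌋₊`, `x0 = ⌈d^(1/2+η)⌉₊`, `L = log d`. `d^δ/2 ≤ z ≤ d^δ` and `d^(1/2+η) ≤ x0 ≤ 2 d^(1/2+η)`, for `d` large. So
`log z ≥ δ L - log 2 ≥ (3/4) δ L`, `log z ≤ δ L`, `(1/2) L ≤ log x0 ≤ (1/2 + η) L + log 2 ≤ (3/4) L` (`η ≤ 1/8`).
(3) `δ log x0 ≤ (3/4) δ L ≤ log z`; (4) `log z ≤ δ L ≤ (η/8) L ≤ (η/4) log x0`; (5) for `y ≤ x0^(1+η)`: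
`x0^(1+η) ≤ 4 d^((1/2+η)(1+η))` and `(1/2+η)(1+η) = 1/2 + (3/2) η + η^2 ≤ 1/2 + (13/8) η`, so `≤ d^(1/2+2η)` for `d` large; (6) from (5),
`log y ≤ (1/2 + 2η) L ≤ (3/4) L ≤ log z/δ`; (7) `log d/log z ≤ (4/3)/δ`, `log y/log z ≤ 1/δ`, `1/z → 0`; (8) `z^(4 b0+6) ≤ d^(η/4)` as
`δ (4 b0 + 6) = η/4`, `x0 ≥ d^(1/2+η)`; (9) `BB d ≤ d^(1/2+η/8)` (`BB_le`), so the left side is at most
`d^(η/4) d^(1/2+η/8) d^(-1/2-η) (12 + 4 d^(η/4)) ≤ 16 d^(η/4 + η/8 - η + η/4) = 16 d^(-3η/8) → 0`; (10), (11) clear.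
Use `Filter.eventually_atTop` and combine finitely many eventual statements (`tendsto_rpow_atTop`, `tendsto_rpow_neg_atTop`,
`isLittleO_log_rpow_atTop`).
-/

namespace Pool.Agent.Lib.MP_42948a_nt.OM

open Finset Pool.Agent.Lib.MP_42948a_nt.OA

theorem large_d (η δ : ℝ) (b0 z0 d1 : ℕ) (hη : 0 < η) (hη1 : η ≤ 1 / 8) (hδ : δ * (16 * b0 + 24) = η)
    (e1 : ℝ) (he1 : 0 < e1) :
    ∃ d0 : ℕ, ∀ d : ℕ, d0 ≤ d → ∀ z x0 : ℕ, z = ⌊(d : ℝ) ^ δ⌋₊ → x0 = ⌈(d : ℝ) ^ (1 / 2 + η)⌉₊ →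
      d1 ≤ d ∧ 2 ≤ d ∧ z0 ≤ z ∧ 2 ≤ z ∧
      δ * Real.log x0 ≤ Real.log z ∧ Real.log z ≤ η / 4 * Real.log x0 ∧
      (∀ y : ℕ, x0 ≤ y → (y : ℝ) ≤ (x0 : ℝ) ^ (1 + η) →
        (y : ℝ) ≤ (d : ℝ) ^ (1 / 2 + 2 * η) ∧ δ * Real.log y ≤ Real.log z ∧
        Real.log d / Real.log z * (1 / z) * (Real.log y / Real.log z) ≤ e1) ∧
      2 * z ^ (4 * b0 + 6) ≤ x0 ∧
      (∀ N : ℝ, N ≤ 2 * (d : ℝ) ^ (2 * (η / 8)) →
        (z : ℝ) ^ (4 * b0 + 6) * (BB d / x0) * (12 + 2 * N) ≤ e1) ∧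
      d ≤ x0 ^ 2 ∧ (d : ℝ) ^ (1 / 2 + 2 * η) ≤ (d : ℝ) ^ 2 := by
  have hb : (0 : ℝ) < 16 * b0 + 24 := by positivity
  have hδ0 : 0 < δ := by
    by_contra hcon
    rw [not_lt] at hcon
    have := mul_nonpos_of_nonpos_of_nonneg hcon hb.le
    linarith
  have hδ24 : 24 * δ ≤ η := by
    have : 0 ≤ δ * (16 * b0) := by positivity
    nlinarith
  have hδ4 : δ * (4 * b0 + 6) = η / 4 := by
    rw [← hδ]
    ring
  obtain ⟨d2, hd2⟩ := BB_le (η / 8) (by positivity)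
  have hcast := tendsto_natCast_atTop_atTop (R := ℝ)
  have hev : ∀ᶠ d : ℕ in Filter.atTop, d1 ≤ d ∧ 4 ≤ d ∧ d2 ≤ d ∧ 2 * (z0 : ℝ) + 4 ≤ (d : ℝ) ^ δ ∧
      8 / (3 * δ ^ 2 * e1) ≤ (d : ℝ) ^ δ ∧ 4 * Real.log 2 ≤ δ * Real.log d ∧
      16 / e1 ≤ (d : ℝ) ^ (3 * η / 8) := by
    have t1 := (tendsto_rpow_atTop hδ0).comp hcast
    have t2 := (Real.tendsto_log_atTop.const_mul_atTop hδ0).comp hcast
    have t3 := (tendsto_rpow_atTop (show 0 < 3 * η / 8 by positivity)).comp hcast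
    filter_upwards [Filter.eventually_ge_atTop d1, Filter.eventually_ge_atTop 4,
      Filter.eventually_ge_atTop d2, t1.eventually_ge_atTop (2 * (z0 : ℝ) + 4),
      t1.eventually_ge_atTop (8 / (3 * δ ^ 2 * e1)), t2.eventually_ge_atTop (4 * Real.log 2),
      t3.eventually_ge_atTop (16 / e1)] with d a b c e f g h
    exact ⟨a, b, c, e, f, g, h⟩
  obtain ⟨d0, hd0⟩ := Filter.eventually_atTop.1 hev
  refine ⟨d0, fun d hd z x0 hz hx0 => ?_⟩
  obtain ⟨g1, g2, g3, g4, g5, g6, g7⟩ := hd0 d hd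
  have hD4 : (4 : ℝ) ≤ d := by exact_mod_cast g2
  have hD1 : (1 : ℝ) ≤ d := by linarith
  have hD0 : (0 : ℝ) < d := by linarith
  set L : ℝ := Real.log d with hL
  have hlog2 : 0 < Real.log 2 := Real.log_pos (by norm_num)
  have hL0 : 0 < L := Real.log_pos (by linarith)
  -- `z`
  set Z : ℝ := (d : ℝ) ^ δ with hZ
  have hZ0 : 0 < Z := Real.rpow_pos_of_pos hD0 _
  have hz0' : (0 : ℝ) ≤ z0 := Nat.cast_nonneg _
  have hzZ : (z : ℝ) ≤ Z := by
    rw [hz]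
    exact Nat.floor_le hZ0.le
  have hZz : Z < z + 1 := by
    rw [hz]
    exact Nat.lt_floor_add_one Z
  have hZ2 : Z / 2 ≤ z := by linarith
  have hzpos : (0 : ℝ) < z := by linarith
  have hlogZ : Real.log Z = δ * L := by rw [hZ, Real.log_rpow hD0]
  have hlz1 : 3 / 4 * (δ * L) ≤ Real.log z := by
    have e2 : Real.log (Z / 2) ≤ Real.log z := Real.log_le_log (by positivity) hZ2
    rw [Real.log_div hZ0.ne' (by norm_num), hlogZ] at e2
    linarith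
  have hlz2 : Real.log z ≤ δ * L := by
    rw [← hlogZ]
    exact Real.log_le_log hzpos hzZ
  have hδL : 0 < δ * L := mul_pos hδ0 hL0
  have hlz0 : 0 < Real.log z := by linarith
  -- `x0`
  set X : ℝ := (d : ℝ) ^ (1 / 2 + η) with hX
  have hX0 : 0 < X := Real.rpow_pos_of_pos hD0 _
  have hX1 : 1 ≤ X := Real.one_le_rpow hD1 (by linarith)
  have hXx : X ≤ x0 := by
    rw [hx0]
    exact Nat.le_ceil X
  have hxX : (x0 : ℝ) ≤ 2 * X := by
    have := Nat.ceil_lt_add_one hX0.le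
    rw [← hx0] at this
    linarith
  have hx00 : (0 : ℝ) < x0 := by linarith
  have hlogX : Real.log X = (1 / 2 + η) * L := by rw [hX, Real.log_rpow hD0]
  have hlx1 : (1 / 2 + η) * L ≤ Real.log x0 := by
    rw [← hlogX]
    exact Real.log_le_log hX0 hXx
  have hlx2 : Real.log x0 ≤ (1 / 2 + η) * L + Real.log 2 := by
    have e2 : Real.log x0 ≤ Real.log (2 * X) := Real.log_le_log hx00 hxX
    rw [Real.log_mul (by norm_num) hX0.ne', hlogX] at e2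
    linarith
  have hηL : 0 < η * L := mul_pos hη hL0
  have hδηL : 24 * (δ * L) ≤ η * L := by
    rw [← mul_assoc]
    exact mul_le_mul_of_nonneg_right hδ24 hL0.le
  have hη8L : η * L ≤ 1 / 8 * L := mul_le_mul_of_nonneg_right hη1 hL0.le
  have hz2 : z0 + 2 ≤ z := by
    have : (z0 : ℝ) + 2 ≤ z := by linarith
    exact_mod_cast this
  have hzpow : (z : ℝ) ^ (4 * b0 + 6) ≤ (d : ℝ) ^ (η / 4) := by
    calc (z : ℝ) ^ (4 * b0 + 6) ≤ Z ^ (4 * b0 + 6) := by gcongr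
      _ = (d : ℝ) ^ (η / 4) := by
          rw [hZ, ← Real.rpow_natCast, ← Real.rpow_mul hD0.le]
          congr 1
          push_cast
          exact hδ4
  refine ⟨g1, by omega, by omega, by omega, ?_, ?_, ?_, ?_, ?_, ?_, ?_⟩
  · -- `δ log x0 ≤ log z`
    have e1' : Real.log x0 ≤ 3 / 4 * L := by nlinarith
    calc δ * Real.log x0 ≤ δ * (3 / 4 * L) := mul_le_mul_of_nonneg_left e1' hδ0.le
      _ = 3 / 4 * (δ * L) := by ring
      _ ≤ Real.log z := hlz1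
  · have e2 : η / 4 * ((1 / 2 + η) * L) ≤ η / 4 * Real.log x0 :=
      mul_le_mul_of_nonneg_left hlx1 (by positivity)
    have e3 : 0 ≤ η * (η * L) := by positivity
    nlinarith
  · intro y hy1 hy2
    have hy1r : (x0 : ℝ) ≤ y := by exact_mod_cast hy1
    have hy0 : (0 : ℝ) < y := by linarith
    have hly : Real.log y ≤ (1 + η) * Real.log x0 := by
      rw [← Real.log_rpow hx00]
      exact Real.log_le_log hy0 hy2
    have hly2 : Real.log y ≤ (1 / 2 + 2 * η) * L := by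
      have e2 : (1 + η) * Real.log x0 ≤ (1 + η) * ((1 / 2 + η) * L + Real.log 2) :=
        mul_le_mul_of_nonneg_left hlx2 (by linarith)
      have e3 : η * (η * L) ≤ 1 / 8 * (η * L) := mul_le_mul_of_nonneg_right hη1 hηL.le
      have e4 : η * Real.log 2 ≤ 1 / 8 * Real.log 2 := mul_le_mul_of_nonneg_right hη1 hlog2.le
      nlinarith
    have hyd : δ * Real.log y ≤ Real.log z := by
      have e2 : Real.log y ≤ 3 / 4 * L := by linarith
      calc δ * Real.log y ≤ δ * (3 / 4 * L) := mul_le_mul_of_nonneg_left e2 hδ0.le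
        _ = 3 / 4 * (δ * L) := by ring
        _ ≤ Real.log z := hlz1
    refine ⟨?_, hyd, ?_⟩
    · rw [← Real.log_le_log_iff hy0 (Real.rpow_pos_of_pos hD0 _), Real.log_rpow hD0]
      exact hly2
    · have e2 : L / Real.log z ≤ 4 / (3 * δ) := by
        rw [div_le_div_iff₀ hlz0 (by positivity)]
        nlinarith
      have e3 : Real.log y / Real.log z ≤ 1 / δ := by
        rw [div_le_div_iff₀ hlz0 hδ0]
        linarith
      have e4 : (1 : ℝ) / z ≤ 2 / Z := by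
        rw [div_le_div_iff₀ hzpos hZ0]
        linarith
      have hly0 : 0 ≤ Real.log y := Real.log_nonneg (by linarith)
      calc L / Real.log z * (1 / z) * (Real.log y / Real.log z)
          ≤ 4 / (3 * δ) * (2 / Z) * (1 / δ) := by gcongr
        _ = 8 / (3 * δ ^ 2 * e1) / Z * e1 := by
            field_simp
            norm_num
        _ ≤ 1 * e1 := by
            refine mul_le_mul_of_nonneg_right ?_ he1.le
            rw [div_le_one hZ0]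
            exact g5
        _ = e1 := one_mul _
  · have e2 : (2 : ℝ) * (z : ℝ) ^ (4 * b0 + 6) ≤ x0 := by
      have e3 : (2 : ℝ) ≤ (d : ℝ) ^ ((1 : ℝ) / 2 + 3 * η / 4) := by
        have e4 : (4 : ℝ) ^ ((1 : ℝ) / 2) = 2 := by
          rw [← Real.sqrt_eq_rpow, show (4 : ℝ) = 2 ^ 2 by norm_num,
            Real.sqrt_sq (by norm_num)]
        calc (2 : ℝ) = (4 : ℝ) ^ ((1 : ℝ) / 2) := e4.symm
          _ ≤ (d : ℝ) ^ ((1 : ℝ) / 2) := Real.rpow_le_rpow (by norm_num) hD4 (by norm_num)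
          _ ≤ (d : ℝ) ^ ((1 : ℝ) / 2 + 3 * η / 4) :=
              Real.rpow_le_rpow_of_exponent_le hD1 (by linarith)
      calc (2 : ℝ) * (z : ℝ) ^ (4 * b0 + 6)
          ≤ (d : ℝ) ^ ((1 : ℝ) / 2 + 3 * η / 4) * (d : ℝ) ^ (η / 4) := by gcongr
        _ = X := by
            rw [← Real.rpow_add hD0, hX]
            congr 1
            ring
        _ ≤ x0 := hXx
    exact_mod_cast e2
  · intro N hN
    have hBB := (hd2 d g3).1
    have hη4 : (1 : ℝ) ≤ (d : ℝ) ^ (η / 4) := Real.one_le_rpow hD1 (by positivity)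
    have e0 : 2 * (η / 8) = η / 4 := by ring
    rw [e0] at hN
    have e2 : 12 + 2 * N ≤ 16 * (d : ℝ) ^ (η / 4) := by linarith
    have hBB0 : 0 ≤ BB d := by
      unfold BB
      positivity
    have e3 : BB d / x0 ≤ (d : ℝ) ^ (1 / 2 + η / 8) / X := by
      gcongr
    have e4 : 0 ≤ BB d / x0 := by positivity
    calc (z : ℝ) ^ (4 * b0 + 6) * (BB d / x0) * (12 + 2 * N)
        ≤ (z : ℝ) ^ (4 * b0 + 6) * (BB d / x0) * (16 * (d : ℝ) ^ (η / 4)) :=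
          mul_le_mul_of_nonneg_left e2 (by positivity)
      _ ≤ (d : ℝ) ^ (η / 4) * ((d : ℝ) ^ (1 / 2 + η / 8) / X) * (16 * (d : ℝ) ^ (η / 4)) := by
          gcongr
      _ = 16 * ((d : ℝ) ^ (3 * η / 8))⁻¹ := by
          have e5 : (d : ℝ) ^ (η / 4) * (d : ℝ) ^ (1 / 2 + η / 8) * (d : ℝ) ^ (η / 4) *
              (d : ℝ) ^ (3 * η / 8) = X := by
            rw [← Real.rpow_add hD0, ← Real.rpow_add hD0, ← Real.rpow_add hD0, hX]
            congr 1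
            ring
          have e6 : (d : ℝ) ^ (3 * η / 8) ≠ 0 := (Real.rpow_pos_of_pos hD0 _).ne'
          rw [eq_mul_inv_iff_mul_eq₀ e6]
          have e7 : (d : ℝ) ^ (η / 4) * ((d : ℝ) ^ (1 / 2 + η / 8) / X) *
              (16 * (d : ℝ) ^ (η / 4)) * (d : ℝ) ^ (3 * η / 8) =
              16 * ((d : ℝ) ^ (η / 4) * (d : ℝ) ^ (1 / 2 + η / 8) * (d : ℝ) ^ (η / 4) *
              (d : ℝ) ^ (3 * η / 8)) / X := by ring
          rw [e7, e5, mul_div_assoc, div_self hX0.ne', mul_one]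
      _ ≤ e1 := by
          have e6 : 0 < (d : ℝ) ^ (3 * η / 8) := Real.rpow_pos_of_pos hD0 _
          rw [← div_eq_mul_inv, div_le_iff₀ e6]
          rw [div_le_iff₀ he1] at g7
          linarith
  · have e2 : (d : ℝ) ≤ (x0 : ℝ) ^ 2 := by
      have e3 : (d : ℝ) ^ ((1 : ℝ) / 2) ≤ x0 :=
        (Real.rpow_le_rpow_of_exponent_le hD1 (by linarith)).trans hXx
      calc (d : ℝ) = ((d : ℝ) ^ ((1 : ℝ) / 2)) ^ 2 := by
            rw [← Real.rpow_natCast, ← Real.rpow_mul hD0.le]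
            norm_num
        _ ≤ (x0 : ℝ) ^ 2 := by gcongr
    exact_mod_cast e2
  · rw [← Real.rpow_natCast]
    refine Real.rpow_le_rpow_of_exponent_le hD1 ?_
    push_cast
    linarith

end Pool.Agent.Lib.MP_42948a_nt.OM
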