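import Pool.Agent.Lib.MP_42948a_nt.OM.E9
import Pool.Agent.Lib.MP_42948a_nt.OM.F4
import Pool.Agent.Lib.MP_42948a_nt.OM.G1
import Pool.Agent.Lib.MP_42948a_nt.OM.G2
import Pool.Agent.Lib.MP_42948a_nt.OM.I1
import Pool.Agent.Lib.MP_42948a_nt.OM.J1
import Pool.Agent.Lib.MP_42948a_nt.OM.J2
import Pool.Agent.Lib.MP_42948a_nt.OM.J3
import Pool.Agent.Lib.MP_42948a_nt.OM.J4

/-!
# Existence of the data (assembly)
-/

namespace Pool.Agent.Lib.MP_42948a_nt.OM

open Finset Pool.Agent.Lib.MP_42948a_nt.OA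

theorem J5_mem {z d x0 y' n : ℕ} (h : n ∈ NN z d x0 y') :
    x0 < n ∧ n ≤ y' ∧ Rough z n ∧ n.Coprime d := by
  classical
  unfold NN at h
  obtain ⟨h1, h2⟩ := mem_filter.1 h
  unfold RR at h1
  obtain ⟨h3, h4⟩ := mem_filter.1 h1
  exact ⟨(mem_Ioc.1 h3).1, (mem_Ioc.1 h3).2, h4, h2⟩

theorem dat_exists (m : ℕ) (hm : 3 ≤ m) (η : ℝ) (hη : 0 < η) (hη1 : η ≤ 1 / 8) :
    ∃ δ β c : ℝ, 0 < δ ∧ 0 < β ∧ 0 < c ∧ c < 1 ∧ ∃ d0 : ℕ, 2 ≤ d0 ∧ ∀ d : ℕ, d0 ≤ d →
      Nonempty (Dat m d ⌊(d : ℝ) ^ δ⌋₊ η β c) := by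
  obtain ⟨c0, hc0, hbias⟩ := bias η hη (by linarith)
  obtain ⟨C1, hC1, hMM⟩ := MM_le
  obtain ⟨ν, hν0, hνA, hνFF⟩ := FF_near
  have hC1pos : 0 < C1 := by linarith
  set C : ℝ := c0 / (2 * C1) with hC
  have hCpos : 0 < C := by positivity
  obtain ⟨b0, hb1, hbm, hν1, hν2⟩ := param C η hCpos hη m ν hνA
  set δ : ℝ := η / (16 * b0 + 24) with hδ
  have hden : (0 : ℝ) < 16 * b0 + 24 := by positivity
  have hδpos : 0 < δ := by positivity
  have hδeq : δ * (16 * b0 + 24) = η := by rw [hδ]; field_simp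
  have hδη : δ ≤ η / 4 := by
    rw [hδ]
    apply div_le_div_of_nonneg_left hη.le (by norm_num)
    have : (0 : ℝ) ≤ b0 := Nat.cast_nonneg _
    linarith
  have hδ1 : δ ≤ 1 := by linarith
  set β : ℝ := C * δ ^ 12 with hβ
  have hβpos : 0 < β := by positivity
  set κ : ℝ := η / 8 with hκ
  have hκpos : 0 < κ := by positivity
  set K : ℕ := ⌈(m : ℝ) / η⌉₊ with hK
  have hmpos : (0 : ℝ) < m := by exact_mod_cast (by omega : 0 < m)
  have hKm : (m : ℝ) ≤ η * K := by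
    have h1 : (m : ℝ) / η ≤ K := Nat.le_ceil _
    rw [div_le_iff₀ hη] at h1
    linarith
  have hK1 : 1 ≤ K := by
    rw [hK]
    exact Nat.one_le_ceil_iff.2 (by positivity)
  have hKpos : (0 : ℝ) < K := by exact_mod_cast hK1
  have hKup : η * K ≤ m + η := by
    have h1 : (K : ℝ) < (m : ℝ) / η + 1 := Nat.ceil_lt_add_one (by positivity)
    have h2 : η * K ≤ η * ((m : ℝ) / η + 1) := mul_le_mul_of_nonneg_left h1.le hη.le
    refine h2.trans (le_of_eq ?_)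
    field_simp
  set c : ℝ := κ / (2 * K) with hc
  have hcpos : 0 < c := by positivity
  have hc1 : c < 1 := by
    have hK1' : (1 : ℝ) ≤ K := by exact_mod_cast hK1
    rw [hc, div_lt_one (by positivity)]
    linarith
  have hδK : δ ≤ 1 / (2 * (K : ℝ)) := by
    rw [hδ, div_le_div_iff₀ hden (by positivity)]
    have h1 : (m : ℝ) ≤ b0 := by exact_mod_cast hbm
    have h2 : η * (2 * (K : ℝ)) = 2 * (η * K) := by ring
    rw [h2]
    linarith
  obtain ⟨z0, hz0⟩ := hbias δ hδpos hδη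
  obtain ⟨d2, hd2, hsm⟩ := small_rough m (by omega) η hη K hK1 hKm κ hκpos (by linarith)
  obtain ⟨d3, hpc⟩ := pair_class c hcpos
  set e1 : ℝ := min (c0 / 2 * δ ^ 11 / C1) (β ^ 3 / 200) with he1
  have he1pos : 0 < e1 := by
    rw [he1]
    exact lt_min (by positivity) (by positivity)
  obtain ⟨d4, hd4⟩ := large_d η δ b0 z0 (max d2 d3) hη hη1 hδeq e1 he1pos
  refine ⟨δ, β, c, hδpos, hβpos, hcpos, hc1, max d4 2, le_max_right _ _, fun d hd => ?_⟩
  have hdd4 : d4 ≤ d := (le_max_left _ _).trans hd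
  have hd2' : 2 ≤ d := (le_max_right _ _).trans hd
  have : NeZero d := ⟨by omega⟩
  have hdR : (1 : ℝ) ≤ d := by exact_mod_cast (by omega : 1 ≤ d)
  have hdpos : (0 : ℝ) < d := by linarith
  obtain ⟨z, hz⟩ : ∃ z : ℕ, z = ⌊(d : ℝ) ^ δ⌋₊ := ⟨_, rfl⟩
  obtain ⟨x0, hx0⟩ : ∃ x0 : ℕ, x0 = ⌈(d : ℝ) ^ (1 / 2 + η)⌉₊ := ⟨_, rfl⟩
  obtain ⟨g1, g2, g3, g4, g5, g6, g7, g8, g9, g10, g11⟩ := hd4 d hdd4 z x0 hz hx0
  obtain ⟨y', hy1, hy2, hy3⟩ := hz0 z x0 g3 g5 g6 (ze m) (ze_norm m) (ze_re m hm)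
  obtain ⟨g7a, g7b, g7c⟩ := g7 y' hy1 hy2
  have hzd : (z : ℝ) ≤ (d : ℝ) ^ (1 / (2 * (K : ℝ))) := by
    rw [hz]
    exact (Nat.floor_le (Real.rpow_nonneg hdpos.le _)).trans (Real.rpow_le_rpow_of_exponent_le hdR hδK)
  obtain ⟨U, p, X, u1, u2, u3, u4, u5, u6, u7, u8, u9, u10⟩ :=
    hsm d ((le_max_left _ _).trans g1) z hzd
  have hlogz : 0 < Real.log z := Real.log_pos (by exact_mod_cast g4)
  have hx0pos : 0 < x0 := by
    have : 0 < z ^ (4 * b0 + 6) := Nat.pow_pos (by omega)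
    omega
  -- `y' ≥ z`
  have hzx : z ≤ y' := by
    have h1 : z ≤ z ^ (4 * b0 + 6) := Nat.le_self_pow (by omega) z
    omega
  obtain ⟨W, hW⟩ : ∃ W : ℝ, W = WW (NN z d x0 y') := ⟨_, rfl⟩
  have hMMy := hMM z y' g4 hzx
  have hWle : W ≤ C1 / δ := by
    rw [hW]
    refine (WW_NN_le d z x0 y').trans (hMMy.trans ?_)
    rw [div_eq_mul_inv C1 δ]
    apply mul_le_mul_of_nonneg_left _ hC1pos.le
    rw [div_le_iff₀ hlogz, inv_mul_eq_div, le_div_iff₀ hδpos]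
    linarith
  have hA : c0 / 2 * δ ^ 11 ≤ ‖∑ n ∈ NN z d x0 y', ze m ^ Om n / (n : ℂ)‖ := by
    have h1 := removal (ze m) (ze_norm m) d z x0 y' (by omega) g4
    refine le_trans ?_ h1
    have h2 : Real.log d / Real.log z * (1 / z) * MM z y' ≤ c0 / 2 * δ ^ 11 := by
      have h3 : 0 ≤ Real.log d / Real.log z * (1 / (z : ℝ)) := by
        have : 0 ≤ Real.log d := Real.log_nonneg hdR
        positivity
      calc Real.log d / Real.log z * (1 / z) * MM z y' ≤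
          Real.log d / Real.log z * (1 / z) * (C1 * (Real.log y' / Real.log z)) :=
            mul_le_mul_of_nonneg_left hMMy h3
        _ = C1 * (Real.log d / Real.log z * (1 / z) * (Real.log y' / Real.log z)) := by ring
        _ ≤ C1 * (c0 / 2 * δ ^ 11 / C1) :=
            mul_le_mul_of_nonneg_left (g7c.trans (min_le_left _ _)) hC1pos.le
        _ = c0 / 2 * δ ^ 11 := by field_simp
    linarith
  have hAW : ‖∑ n ∈ NN z d x0 y', ze m ^ Om n / (n : ℂ)‖ ≤ W := by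
    rw [hW]
    exact norm_sum_le_WW (ze m) (ze_norm m) _
  have hβle : β ≤ c0 / 2 * δ ^ 11 := by
    have h1 : β = c0 / 2 * δ ^ 11 * (δ / C1) := by
      rw [hβ, hC]
      field_simp
    rw [h1]
    have h2 : δ / C1 ≤ 1 := by
      rw [div_le_one hC1pos]
      linarith
    have h3 : 0 ≤ c0 / 2 * δ ^ 11 := by positivity
    exact mul_le_of_le_one_right h3 h2
  have hWβ : β ≤ W := hβle.trans (hA.trans hAW)
  have hWpos : 0 < W := lt_of_lt_of_le hβpos hWβ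
  have hbiasW : β * W ≤ ‖∑ n ∈ NN z d x0 y', ze m ^ Om n / (n : ℂ)‖ := by
    refine le_trans ?_ hA
    calc β * W ≤ β * (C1 / δ) := mul_le_mul_of_nonneg_left hWle hβpos.le
      _ = c0 / 2 * δ ^ 11 := by
          rw [hβ, hC]
          field_simp
  have hLS : ∀ v : ℕ → ℂ, (∀ n, ‖v n‖ ≤ 1) →
      ∑ χ ∈ X, ‖ac (NN z d x0 y') v χ‖ ^ 2 ≤ (1 + β ^ 2 / 100) * W ^ 2 := by
    intro v hv
    have h1 := rough_large_sieve d z b0 x0 y' g4 g8 hy1 (ν b0) (hν0 b0) hν1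
      (fun g hg => hνFF z b0 g hg) X v hv
    rw [← hW] at h1
    refine h1.trans ?_
    have h2 : (z : ℝ) ^ (4 * b0 + 6) * (BB d / x0) * (12 + 2 * (X.card : ℝ)) ≤ β ^ 3 / 200 :=
      (g9 _ u8).trans (min_le_right _ _)
    have h3 : β ^ 3 / 200 ≤ β ^ 2 / 200 * W := by
      have : β ^ 3 / 200 = β ^ 2 / 200 * β := by ring
      rw [this]
      exact mul_le_mul_of_nonneg_left hWβ (by positivity)
    have h4 : 2 * ν b0 ≤ β ^ 2 / 200 := by
      have : ν b0 ≤ β ^ 2 / 400 := hν2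
      linarith
    have h5 : (1 + 2 * ν b0) * W + (z : ℝ) ^ (4 * b0 + 6) * (BB d / x0) * (12 + 2 * (X.card : ℝ)) ≤
        (1 + β ^ 2 / 100) * W := by
      have h6 : 2 * ν b0 * W ≤ β ^ 2 / 200 * W := mul_le_mul_of_nonneg_right h4 hWpos.le
      linarith
    calc W * ((1 + 2 * ν b0) * W + (z : ℝ) ^ (4 * b0 + 6) * (BB d / x0) * (12 + 2 * (X.card : ℝ))) ≤
        W * ((1 + β ^ 2 / 100) * W) := mul_le_mul_of_nonneg_left h5 hWpos.le
      _ = (1 + β ^ 2 / 100) * W ^ 2 := by ring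
  have hfourth : ∀ v : ℕ → ℂ, (∀ n, ‖v n‖ ≤ 1) →
      ∑ χ : DirichletCharacter ℂ d, ‖ac (NN z d x0 y') v χ‖ ^ 4 ≤ (d : ℝ) ^ c * W ^ 2 := by
    intro v hv
    have h1 := fourth_moment d (NN z d x0 y') (fun n hn => (J5_mem hn).2.2.2) ((d : ℝ) ^ (c - 1))
      (hpc d ((le_max_right _ _).trans g1) (NN z d x0 y') (fun n hn => by
        obtain ⟨a1, a2, a3, a4⟩ := J5_mem hn
        refine ⟨a3.1, ?_, ?_⟩
        · exact g10.trans (Nat.pow_le_pow_left a1.le 2)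
        · have h5 : (n : ℝ) ≤ (d : ℝ) ^ 2 := by
            have h6 : (n : ℝ) ≤ (y' : ℝ) := by exact_mod_cast a2
            exact h6.trans (g7a.trans g11)
          exact_mod_cast h5)) v hv
    rw [← hW] at h1
    refine h1.trans ?_
    apply mul_le_mul_of_nonneg_right _ (by positivity)
    have h2 : (d.totient : ℝ) ≤ d := by exact_mod_cast Nat.totient_le d
    calc (d.totient : ℝ) * (d : ℝ) ^ (c - 1) ≤ d * (d : ℝ) ^ (c - 1) :=
          mul_le_mul_of_nonneg_right h2 (Real.rpow_nonneg hdpos.le _)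
      _ = (d : ℝ) ^ c := by
          rw [Real.rpow_sub_one hdpos.ne']
          field_simp
  rw [← hz]
  exact ⟨{ N := NN z d x0 y', U := U, p := p, X := X
           N_rough := fun n hn => (J5_mem hn).2.2.1
           N_cop := fun n hn => (J5_mem hn).2.2.2
           N_le := fun n hn => by
             have h6 : (n : ℝ) ≤ (y' : ℝ) := by exact_mod_cast (J5_mem hn).2.1
             exact h6.trans g7a
           U_rough := u1, U_cop := u2, U_le := u3, p_nonneg := u4, p_sum := u5, p_zero := u6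
           X_f := u9, X_1 := u10, one_mem := u7
           W_pos := by rw [← hW]; exact hWpos
           W_ge := by rw [← hW]; exact hWβ
           bias := by rw [← hW]; exact hbiasW
           large_sieve := by rw [← hW]; exact hLS
           fourth := by rw [← hW]; exact hfourth }⟩

end Pool.Agent.Lib.MP_42948a_nt.OM
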