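import Pool.Agent.Lib.MP_42948a_nt.OM.H1

/-!
# The step count (job H2)

Notation as in `H1.lean`: `f n = ze m ^ Om n`, `W`, `a χ`, `M χ`; `ν = β^2/8`. For a unit `b`, `n ∈ N`, `u ∈ U` let `x(n,u) = b (n u)⁻¹` (a unit).
`F b = ∑_{n ∈ N, u ∈ U} (1/n) p u f n f u κ(x(n,u))`, `e b = ∑_{(n,u) : x(n,u) ∈ E} (1/n) p u`.
(1) `∑_b e b = #E W` (for fixed `(n, u)`, `b ↦ x` is a bijection; `∑ p = 1`), so at most `#E/ν` units have `e b > ν W`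
(`Finset.card_nsmul_le_sum`-type Markov).
(2) With `k` from `inversion` for `κ`: `κ(x(n,u)) = ∑ χ, k χ χ(b⁻¹) χ(n) χ(u)`, so `F b = ∑ χ, k χ χ(b⁻¹) a χ M χ`. Let `R b` be the part `χ ∉ X`:
`∑_b ‖R b‖^2 = φ ∑_{χ ∉ X} ‖k χ‖^2 ‖a χ‖^2 ‖M χ‖^2 ≤ d^(-2c) W^2 φ ∑ ‖k χ‖^2 ≤ d^(-2c) W^2 φ ≤ d^(1-2c) W^2` (`parseval_char`; `‖a χ‖ ≤ W`; `X_f`;
`φ ∑ ‖k‖^2 = ∑_y ‖κ y‖^2 ≤ φ`), so at most `d^(1-2c)/ν^2` units have `‖R b‖ ≥ ν W` (`card_large`).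
(3) The part `χ ∈ X`: `M 1 = 0`, `‖M χ‖ ≤ 1`, Cauchy-Schwarz, `∑ ‖k χ‖^2 ≤ 1`, `∑_{X \ 1} ‖a χ‖^2 ≤ (1 + β^2/100 - β^2) W^2` (`large_sieve`, `bias`):
norm `≤ √(1 - (99/100) β^2) W`. (4) For `b ∈ B` outside the two exceptional sets: the terms with `x(n,u) ∉ E` contribute
`v * (W - e b)` and the others at most `e b` in norm, so `‖F b‖ ≥ W - 2 e b ≥ (1 - 2 ν) W`. Hence `(1 - 3 ν) W ≤ √(1 - (99/100) β^2) W`,
but `(1 - 3 β^2/8)^2 ≥ 1 - (3/4) β^2 > 1 - (99/100) β^2`, a contradiction (`β ≤ 1` follows from `bias`; `1 - 3 ν > 0`).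
So `#B ≤ 8 #E/β^2 + 64 d^(1-2c)/β^4`.
-/

namespace Pool.Agent.Lib.MP_42948a_nt.OM

open Finset Pool.Agent.Lib.MP_42948a_nt.OA

/-- the class of `n` as a unit (junk value `1` when `n` is not coprime to `d`) -/
noncomputable def H2_iu (d n : ℕ) : (ZMod d)ˣ :=
  if h : n.Coprime d then ZMod.unitOfCoprime n h else 1

theorem H2_iu_coe {d n : ℕ} (h : n.Coprime d) : ((H2_iu d n : (ZMod d)ˣ) : ZMod d) = (n : ZMod d) := by
  rw [H2_iu, dif_pos h, ZMod.coe_unitOfCoprime]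

/-- the unit `x` with `n u x = b` -/
noncomputable def H2_x (d : ℕ) (b : (ZMod d)ˣ) (n u : ℕ) : (ZMod d)ˣ := b * (H2_iu d n * H2_iu d u)⁻¹

theorem H2_x_spec {d : ℕ} (b : (ZMod d)ˣ) {n u : ℕ} (hn : n.Coprime d) (hu : u.Coprime d) :
    ((n * u : ℕ) : ZMod d) * (H2_x d b n u : ZMod d) = (b : ZMod d) := by
  have h1 : ((n * u : ℕ) : ZMod d) = ((H2_iu d n * H2_iu d u : (ZMod d)ˣ) : ZMod d) := by
    rw [Nat.cast_mul, Units.val_mul, H2_iu_coe hn, H2_iu_coe hu]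
  rw [h1, ← Units.val_mul, H2_x, mul_comm b, mul_inv_cancel_left]

theorem H2_expand {d : ℕ} [NeZero d] (N U : Finset ℕ) (p : ℕ → ℝ) (g : ℕ → ℂ)
    (hN : ∀ n ∈ N, n.Coprime d) (hU : ∀ u ∈ U, u.Coprime d)
    (κ : (ZMod d)ˣ → ℂ) (k : DirichletCharacter ℂ d → ℂ)
    (hk : ∀ x : (ZMod d)ˣ, κ x = ∑ χ : DirichletCharacter ℂ d, k χ * χ ((x⁻¹ : (ZMod d)ˣ) : ZMod d))
    (b : (ZMod d)ˣ) :
    ∑ χ : DirichletCharacter ℂ d, (k χ * (ac N g χ * mc U p g χ)) * χ ((b⁻¹ : (ZMod d)ˣ) : ZMod d) =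
      ∑ n ∈ N, ∑ u ∈ U, g n / (n : ℂ) * ((p u : ℂ) * g u) * κ (H2_x d b n u) := by
  have h : ∀ χ : DirichletCharacter ℂ d,
      (k χ * (ac N g χ * mc U p g χ)) * χ ((b⁻¹ : (ZMod d)ˣ) : ZMod d) =
      ∑ n ∈ N, ∑ u ∈ U, g n / (n : ℂ) * ((p u : ℂ) * g u) *
        (k χ * χ (((H2_x d b n u)⁻¹ : (ZMod d)ˣ) : ZMod d)) := by
    intro χ
    rw [ac, mc, Finset.sum_mul_sum, Finset.mul_sum, Finset.sum_mul]
    refine sum_congr rfl fun n hn => ?_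
    rw [Finset.mul_sum, Finset.sum_mul]
    refine sum_congr rfl fun u hu => ?_
    rw [H2_x, mul_inv_rev, inv_inv, Units.val_mul, Units.val_mul, H2_iu_coe (hN n hn), H2_iu_coe (hU u hu),
      map_mul, map_mul]
    ring
  rw [sum_congr rfl fun χ _ => h χ, sum_comm]
  refine sum_congr rfl fun n _ => ?_
  rw [sum_comm]
  refine sum_congr rfl fun u _ => ?_
  rw [← mul_sum, hk]

open Classical in
/-- the weight of the pairs whose partner is exceptional -/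
noncomputable def H2_e (d : ℕ) (N U : Finset ℕ) (p : ℕ → ℝ) (E : Finset (ZMod d)ˣ) (b : (ZMod d)ˣ) : ℝ :=
  ∑ n ∈ N, ∑ u ∈ U, if H2_x d b n u ∈ E then 1 / (n : ℝ) * p u else 0

theorem H2_e_nonneg (d : ℕ) (N U : Finset ℕ) (p : ℕ → ℝ) (hp : ∀ u ∈ U, 0 ≤ p u)
    (E : Finset (ZMod d)ˣ) (b : (ZMod d)ˣ) : 0 ≤ H2_e d N U p E b := by
  refine sum_nonneg fun n _ => sum_nonneg fun u hu => ?_
  split_ifs
  · exact mul_nonneg (by positivity) (hp u hu)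
  · exact le_refl _

theorem H2_e_sum (d : ℕ) [NeZero d] (N U : Finset ℕ) (p : ℕ → ℝ) (hp1 : ∑ u ∈ U, p u = 1)
    (E : Finset (ZMod d)ˣ) : ∑ b : (ZMod d)ˣ, H2_e d N U p E b = E.card * WW N := by
  classical
  simp only [H2_e]
  rw [sum_comm, WW, mul_sum]
  refine sum_congr rfl fun n _ => ?_
  rw [sum_comm]
  have h : ∀ u ∈ U, ∑ b : (ZMod d)ˣ, (if H2_x d b n u ∈ E then 1 / (n : ℝ) * p u else 0) =
      (E.card : ℝ) * (1 / (n : ℝ)) * p u := by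
    intro u _
    have h1 : ∑ b : (ZMod d)ˣ, (if H2_x d b n u ∈ E then 1 / (n : ℝ) * p u else 0) =
        ∑ x : (ZMod d)ˣ, (if x ∈ E then 1 / (n : ℝ) * p u else 0) :=
      Equiv.sum_comp (Equiv.mulRight (H2_iu d n * H2_iu d u)⁻¹)
        (fun x => if x ∈ E then 1 / (n : ℝ) * p u else 0)
    rw [h1, Finset.sum_ite_mem, Finset.univ_inter, sum_const, nsmul_eq_mul]
    ring
  rw [sum_congr rfl h, ← mul_sum, hp1, mul_one]

open Classical in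
theorem H2_markov (d : ℕ) [NeZero d] (N U : Finset ℕ) (p : ℕ → ℝ) (hp : ∀ u ∈ U, 0 ≤ p u)
    (hp1 : ∑ u ∈ U, p u = 1) (E : Finset (ZMod d)ˣ) (hW : 0 < WW N) (ν : ℝ) (hν : 0 < ν) :
    ((univ.filter (fun b => ν * WW N < H2_e d N U p E b)).card : ℝ) ≤ E.card / ν := by
  rw [le_div_iff₀ hν]
  have h1 : ((univ.filter (fun b => ν * WW N < H2_e d N U p E b)).card : ℝ) * (ν * WW N) ≤
      E.card * WW N := by
    rw [← H2_e_sum d N U p hp1 E, ← nsmul_eq_mul, ← sum_const]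
    refine (sum_le_sum fun b hb => ((mem_filter.mp hb).2).le).trans ?_
    exact sum_le_sum_of_subset_of_nonneg (filter_subset _ _) fun b _ _ => H2_e_nonneg d N U p hp E b
  have h2 : ((univ.filter (fun b => ν * WW N < H2_e d N U p E b)).card : ℝ) * ν * WW N ≤
      E.card * WW N := by
    rw [mul_assoc]; exact h1
  exact le_of_mul_le_mul_right h2 hW

/-- lower bound for the sum when the values agree outside the exceptional pairs -/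
theorem H2_lower (d : ℕ) [NeZero d] (N U : Finset ℕ) (p : ℕ → ℝ) (hp : ∀ u ∈ U, 0 ≤ p u)
    (hp1 : ∑ u ∈ U, p u = 1) (E : Finset (ZMod d)ˣ) (b : (ZMod d)ˣ) (G : ℕ → ℕ → ℂ)
    (hG : ∀ n u, ‖G n u‖ ≤ 1) (v : ℂ) (hv : ‖v‖ = 1)
    (h : ∀ n ∈ N, ∀ u ∈ U, H2_x d b n u ∉ E → G n u = v) :
    WW N - 2 * H2_e d N U p E b ≤ ‖∑ n ∈ N, ∑ u ∈ U, ((1 / (n : ℝ) * p u : ℝ) : ℂ) * G n u‖ := by
  classical
  have h1 : ∑ n ∈ N, ∑ u ∈ U, ((1 / (n : ℝ) * p u : ℝ) : ℂ) * v = (WW N : ℂ) * v := by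
    have h2 : ∀ n ∈ N, ∑ u ∈ U, ((1 / (n : ℝ) * p u : ℝ) : ℂ) * v = ((1 / (n : ℝ) : ℝ) : ℂ) * v := by
      intro n _
      rw [← sum_mul, ← Complex.ofReal_sum, ← mul_sum, hp1, mul_one]
    rw [sum_congr rfl h2, ← sum_mul, ← Complex.ofReal_sum, WW]
  have h3 : ‖∑ n ∈ N, ∑ u ∈ U, ((1 / (n : ℝ) * p u : ℝ) : ℂ) * v -
      ∑ n ∈ N, ∑ u ∈ U, ((1 / (n : ℝ) * p u : ℝ) : ℂ) * G n u‖ ≤ 2 * H2_e d N U p E b := by
    rw [← sum_sub_distrib, H2_e, mul_sum]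
    refine (norm_sum_le _ _).trans (sum_le_sum fun n hn => ?_)
    rw [← sum_sub_distrib, mul_sum]
    refine (norm_sum_le _ _).trans (sum_le_sum fun u hu => ?_)
    rw [← mul_sub, norm_mul, Complex.norm_real, Real.norm_eq_abs,
      abs_of_nonneg (mul_nonneg (by positivity) (hp u hu))]
    have h0 : 0 ≤ 1 / (n : ℝ) * p u := mul_nonneg (by positivity) (hp u hu)
    by_cases hx : H2_x d b n u ∈ E
    · rw [if_pos hx]
      have h4 : ‖v - G n u‖ ≤ 2 := by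
        refine (norm_sub_le _ _).trans ?_
        have := hG n u
        linarith
      calc 1 / (n : ℝ) * p u * ‖v - G n u‖ ≤ 1 / (n : ℝ) * p u * 2 := mul_le_mul_of_nonneg_left h4 h0
        _ = 2 * (1 / (n : ℝ) * p u) := by ring
    · rw [if_neg hx, h n hn u hu hx, sub_self, norm_zero, mul_zero, mul_zero]
  have h5 : ‖(WW N : ℂ) * v‖ = WW N := by
    rw [norm_mul, hv, mul_one, Complex.norm_real, Real.norm_eq_abs, abs_of_nonneg]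
    exact sum_nonneg fun n _ => by positivity
  have h6 := norm_sub_norm_le (∑ n ∈ N, ∑ u ∈ U, ((1 / (n : ℝ) * p u : ℝ) : ℂ) * v)
    (∑ n ∈ N, ∑ u ∈ U, ((1 / (n : ℝ) * p u : ℝ) : ℂ) * G n u)
  rw [h1, h5] at h6
  rw [h1] at h3
  linarith

open Classical in
/-- few classes have a large contribution of the characters outside `X` -/
theorem H2_few {m d z : ℕ} [NeZero d] {η β c : ℝ} (D : Dat m d z η β c) (hβ : 0 < β)
    (k : DirichletCharacter ℂ d → ℂ)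
    (hk : ∑ χ : DirichletCharacter ℂ d, ‖k χ‖ ^ 2 ≤ 1) :
    ((univ.filter (fun b => β ^ 2 / 8 * WW D.N ≤
      ‖H1_R D.X (fun χ => k χ * (ac D.N (fun n => ze m ^ Om n) χ *
        mc D.U D.p (fun n => ze m ^ Om n) χ)) b‖)).card : ℝ) ≤
      64 * (d : ℝ) ^ (1 - 2 * c) / β ^ 4 := by
  have hW := D.W_pos
  have hf : ∀ n, ‖(fun n => ze m ^ Om n) n‖ ≤ 1 := fun n => by
    simp only [norm_pow, H1_norm_ze, one_pow, le_refl]
  have ht : 0 < β ^ 2 / 8 * WW D.N := by positivity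
  have h1 := card_large (fun b => H1_R D.X (fun χ => k χ * (ac D.N (fun n => ze m ^ Om n) χ *
        mc D.U D.p (fun n => ze m ^ Om n) χ)) b) _ ht
  have hd : (0 : ℝ) < d := Nat.cast_pos.mpr (Nat.pos_of_ne_zero (NeZero.ne d))
  have h2 : ∑ b : (ZMod d)ˣ, ‖H1_R D.X (fun χ => k χ * (ac D.N (fun n => ze m ^ Om n) χ *
        mc D.U D.p (fun n => ze m ^ Om n) χ)) b‖ ^ 2 ≤ (d : ℝ) ^ (1 - 2 * c) * WW D.N ^ 2 := by
    have h3 := parseval_char d (fun χ => if χ ∈ D.X then 0 else k χ * (ac D.N (fun n => ze m ^ Om n) χ *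
        mc D.U D.p (fun n => ze m ^ Om n) χ))
    simp only [H1_R]
    rw [h3]
    have h4 : ∑ χ : DirichletCharacter ℂ d,
        ‖(if χ ∈ D.X then 0 else k χ * (ac D.N (fun n => ze m ^ Om n) χ *
        mc D.U D.p (fun n => ze m ^ Om n) χ) : ℂ)‖ ^ 2 ≤
        ((d : ℝ) ^ (-c)) ^ 2 * WW D.N ^ 2 := by
      calc ∑ χ : DirichletCharacter ℂ d,
            ‖(if χ ∈ D.X then 0 else k χ * (ac D.N (fun n => ze m ^ Om n) χ *
              mc D.U D.p (fun n => ze m ^ Om n) χ) : ℂ)‖ ^ 2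
          ≤ ∑ χ : DirichletCharacter ℂ d, ((d : ℝ) ^ (-c)) ^ 2 * WW D.N ^ 2 * ‖k χ‖ ^ 2 := by
            refine sum_le_sum fun χ _ => ?_
            by_cases h : χ ∈ D.X
            · rw [if_pos h, norm_zero, zero_pow two_ne_zero]
              positivity
            · rw [if_neg h, norm_mul, norm_mul, mul_pow, mul_pow]
              have h5 : ‖mc D.U D.p (fun n => ze m ^ Om n) χ‖ ^ 2 ≤ ((d : ℝ) ^ (-c)) ^ 2 :=
                pow_le_pow_left₀ (norm_nonneg _) (D.X_f χ h) 2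
              have h6 : ‖ac D.N (fun n => ze m ^ Om n) χ‖ ^ 2 ≤ WW D.N ^ 2 :=
                pow_le_pow_left₀ (norm_nonneg _) (H1_ac_le D.N _ hf χ) 2
              calc ‖k χ‖ ^ 2 * (‖ac D.N (fun n => ze m ^ Om n) χ‖ ^ 2 *
                    ‖mc D.U D.p (fun n => ze m ^ Om n) χ‖ ^ 2)
                  ≤ ‖k χ‖ ^ 2 * (WW D.N ^ 2 * ((d : ℝ) ^ (-c)) ^ 2) := by
                    apply mul_le_mul_of_nonneg_left _ (by positivity)
                    exact mul_le_mul h6 h5 (by positivity) (by positivity)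
                _ = ((d : ℝ) ^ (-c)) ^ 2 * WW D.N ^ 2 * ‖k χ‖ ^ 2 := by ring
        _ = ((d : ℝ) ^ (-c)) ^ 2 * WW D.N ^ 2 * ∑ χ : DirichletCharacter ℂ d, ‖k χ‖ ^ 2 := by
            rw [mul_sum]
        _ ≤ ((d : ℝ) ^ (-c)) ^ 2 * WW D.N ^ 2 * 1 := mul_le_mul_of_nonneg_left hk (by positivity)
        _ = ((d : ℝ) ^ (-c)) ^ 2 * WW D.N ^ 2 := by ring
    have h5 : (d.totient : ℝ) ≤ d := by exact_mod_cast Nat.totient_le d
    have h7 : (d : ℝ) ^ (1 - 2 * c) = d * ((d : ℝ) ^ (-c)) ^ 2 := by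
      rw [show (1 - 2 * c : ℝ) = 1 + (-c) + (-c) by ring, Real.rpow_add hd, Real.rpow_add hd, Real.rpow_one]
      ring
    calc (d.totient : ℝ) * ∑ χ : DirichletCharacter ℂ d,
          ‖(if χ ∈ D.X then 0 else k χ * (ac D.N (fun n => ze m ^ Om n) χ *
              mc D.U D.p (fun n => ze m ^ Om n) χ) : ℂ)‖ ^ 2
        ≤ d * (((d : ℝ) ^ (-c)) ^ 2 * WW D.N ^ 2) :=
          mul_le_mul h5 h4 (sum_nonneg fun _ _ => by positivity) hd.le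
      _ = (d : ℝ) ^ (1 - 2 * c) * WW D.N ^ 2 := by rw [h7]; ring
  have h8 := h1.trans h2
  obtain ⟨K, hK⟩ : ∃ K : ℝ, K = ((univ.filter (fun b => β ^ 2 / 8 * WW D.N ≤
      ‖H1_R D.X (fun χ => k χ * (ac D.N (fun n => ze m ^ Om n) χ *
        mc D.U D.p (fun n => ze m ^ Om n) χ)) b‖)).card : ℝ) := ⟨_, rfl⟩
  rw [← hK] at h8 ⊢
  rw [le_div_iff₀ (by positivity)]
  have h9 : K * (β ^ 4 / 64) * WW D.N ^ 2 ≤ (d : ℝ) ^ (1 - 2 * c) * WW D.N ^ 2 := by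
    calc K * (β ^ 4 / 64) * WW D.N ^ 2 = K * (β ^ 2 / 8 * WW D.N) ^ 2 := by ring
      _ ≤ _ := h8
  have h10 := le_of_mul_le_mul_right h9 (by positivity)
  linarith

theorem step_count {m d z : ℕ} [NeZero d] {η β c : ℝ} (D : Dat m d z η β c) (hβ : 0 < β)
    (κ : (ZMod d)ˣ → ℂ) (hκ : ∀ x, ‖κ x‖ ≤ 1) (E B : Finset (ZMod d)ˣ)
    (hB : ∀ b ∈ B, ∃ v : ℂ, ‖v‖ = 1 ∧ ∀ n ∈ D.N, ∀ u ∈ D.U, ∀ x : (ZMod d)ˣ, x ∉ E →
      ((n * u : ℕ) : ZMod d) * (x : ZMod d) = (b : ZMod d) → ze m ^ (Om n + Om u) * κ x = v) :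
    (B.card : ℝ) ≤ 8 / β ^ 2 * E.card + 64 * (d : ℝ) ^ (1 - 2 * c) / β ^ 4 := by
  classical
  have hW := D.W_pos
  have hf : ∀ n, ‖(fun n => ze m ^ Om n) n‖ ≤ 1 := fun n => by
    simp only [norm_pow, H1_norm_ze, one_pow, le_refl]
  have hone : ∀ n : ℕ, n.Coprime d → (1 : DirichletCharacter ℂ d) (n : ZMod d) = 1 := by
    intro n hn
    have := MulChar.one_apply_coe (R' := ℂ) (ZMod.unitOfCoprime n hn)
    rwa [ZMod.coe_unitOfCoprime] at this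
  obtain ⟨k, hk, hk2⟩ := inversion d κ
  have hφ : (0 : ℝ) < d.totient := by
    exact_mod_cast Nat.totient_pos.mpr (Nat.pos_of_ne_zero (NeZero.ne d))
  have hk1 : ∑ χ : DirichletCharacter ℂ d, ‖k χ‖ ^ 2 ≤ 1 := by
    have h1 : ∑ y : (ZMod d)ˣ, ‖κ y‖ ^ 2 ≤ d.totient := by
      calc ∑ y : (ZMod d)ˣ, ‖κ y‖ ^ 2 ≤ ∑ y : (ZMod d)ˣ, (1 : ℝ) :=
            sum_le_sum fun y _ => pow_le_one₀ (norm_nonneg _) (hκ y)
        _ = d.totient := by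
            rw [sum_const, card_univ, ZMod.card_units_eq_totient, nsmul_eq_mul, mul_one]
    rw [← hk2] at h1
    exact le_of_mul_le_mul_left (by rw [mul_one]; exact h1) hφ
  have e1 := H2_markov d D.N D.U D.p D.p_nonneg D.p_sum E hW (β ^ 2 / 8) (by positivity)
  have e2 := H2_few D hβ k hk1
  have z1 : mc D.U D.p (fun n => ze m ^ Om n) (1 : DirichletCharacter ℂ d) = 0 := by
    rw [← D.p_zero, mc]
    refine sum_congr rfl fun u hu => ?_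
    rw [hone u (D.U_cop u hu), mul_one]
  have z4 : β * WW D.N ≤ ‖ac D.N (fun n => ze m ^ Om n) (1 : DirichletCharacter ℂ d)‖ := by
    refine D.bias.trans (le_of_eq ?_)
    congr 1
    rw [ac]
    refine sum_congr rfl fun n hn => ?_
    rw [hone n (D.N_cop n hn), mul_one]
  have hβ1 : β ≤ 1 := by
    have h1 := z4.trans (H1_ac_le D.N _ hf 1)
    exact le_of_mul_le_mul_right (by rw [one_mul]; exact h1) hW
  -- the part of the characters of `X`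
  have hXpart : ∀ b : (ZMod d)ˣ, ‖∑ χ ∈ D.X, (k χ * (ac D.N (fun n => ze m ^ Om n) χ *
      mc D.U D.p (fun n => ze m ^ Om n) χ)) * χ ((b⁻¹ : (ZMod d)ˣ) : ZMod d)‖ ^ 2 ≤
      (1 + β ^ 2 / 100 - β ^ 2) * WW D.N ^ 2 := by
    intro b
    rw [← add_sum_erase D.X _ D.one_mem, z1, mul_zero, mul_zero, zero_mul, zero_add]
    have h1 : ‖∑ χ ∈ D.X.erase 1, (k χ * (ac D.N (fun n => ze m ^ Om n) χ *
        mc D.U D.p (fun n => ze m ^ Om n) χ)) * χ ((b⁻¹ : (ZMod d)ˣ) : ZMod d)‖ ≤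
        ∑ χ ∈ D.X.erase 1, ‖k χ‖ * ‖ac D.N (fun n => ze m ^ Om n) χ‖ := by
      refine (norm_sum_le _ _).trans (sum_le_sum fun χ _ => ?_)
      rw [norm_mul, norm_mul, norm_mul]
      have h4 := H1_char_le χ ((b⁻¹ : (ZMod d)ˣ) : ZMod d)
      have h5 := H1_mc_le D.U D.p D.p_nonneg D.p_sum _ hf χ
      calc ‖k χ‖ * (‖ac D.N (fun n => ze m ^ Om n) χ‖ * ‖mc D.U D.p (fun n => ze m ^ Om n) χ‖) *
            ‖χ ((b⁻¹ : (ZMod d)ˣ) : ZMod d)‖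
          ≤ ‖k χ‖ * (‖ac D.N (fun n => ze m ^ Om n) χ‖ * 1) * 1 := by
            apply mul_le_mul _ h4 (norm_nonneg _) (by positivity)
            apply mul_le_mul_of_nonneg_left _ (norm_nonneg _)
            exact mul_le_mul_of_nonneg_left h5 (norm_nonneg _)
        _ = ‖k χ‖ * ‖ac D.N (fun n => ze m ^ Om n) χ‖ := by ring
    have h2 : (∑ χ ∈ D.X.erase 1, ‖k χ‖ * ‖ac D.N (fun n => ze m ^ Om n) χ‖) ^ 2 ≤
        (∑ χ ∈ D.X.erase 1, ‖k χ‖ ^ 2) * ∑ χ ∈ D.X.erase 1, ‖ac D.N (fun n => ze m ^ Om n) χ‖ ^ 2 :=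
      Finset.sum_mul_sq_le_sq_mul_sq _ _ _
    have h3 : ∑ χ ∈ D.X.erase 1, ‖k χ‖ ^ 2 ≤ 1 :=
      (sum_le_sum_of_subset_of_nonneg (subset_univ _) fun _ _ _ => by positivity).trans hk1
    have h4 := D.large_sieve _ hf
    rw [← add_sum_erase D.X _ D.one_mem] at h4
    have z5 : (β * WW D.N) ^ 2 ≤ ‖ac D.N (fun n => ze m ^ Om n) (1 : DirichletCharacter ℂ d)‖ ^ 2 :=
      pow_le_pow_left₀ (by positivity) z4 2
    have h5 : ∑ χ ∈ D.X.erase 1, ‖ac D.N (fun n => ze m ^ Om n) χ‖ ^ 2 ≤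
        (1 + β ^ 2 / 100 - β ^ 2) * WW D.N ^ 2 := by
      have : (β * WW D.N) ^ 2 = β ^ 2 * WW D.N ^ 2 := by ring
      rw [this] at z5
      linarith
    have h6 : 0 ≤ ∑ χ ∈ D.X.erase 1, ‖ac D.N (fun n => ze m ^ Om n) χ‖ ^ 2 :=
      sum_nonneg fun _ _ => by positivity
    calc ‖∑ χ ∈ D.X.erase 1, (k χ * (ac D.N (fun n => ze m ^ Om n) χ *
        mc D.U D.p (fun n => ze m ^ Om n) χ)) * χ ((b⁻¹ : (ZMod d)ˣ) : ZMod d)‖ ^ 2
        ≤ (∑ χ ∈ D.X.erase 1, ‖k χ‖ * ‖ac D.N (fun n => ze m ^ Om n) χ‖) ^ 2 :=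
          pow_le_pow_left₀ (norm_nonneg _) h1 2
      _ ≤ (∑ χ ∈ D.X.erase 1, ‖k χ‖ ^ 2) * ∑ χ ∈ D.X.erase 1, ‖ac D.N (fun n => ze m ^ Om n) χ‖ ^ 2 := h2
      _ ≤ 1 * ∑ χ ∈ D.X.erase 1, ‖ac D.N (fun n => ze m ^ Om n) χ‖ ^ 2 :=
          mul_le_mul_of_nonneg_right h3 h6
      _ ≤ (1 + β ^ 2 / 100 - β ^ 2) * WW D.N ^ 2 := by rw [one_mul]; exact h5
  have hsub : B ⊆ (univ.filter (fun b => β ^ 2 / 8 * WW D.N < H2_e d D.N D.U D.p E b)) ∪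
      (univ.filter (fun b => β ^ 2 / 8 * WW D.N ≤
      ‖H1_R D.X (fun χ => k χ * (ac D.N (fun n => ze m ^ Om n) χ *
        mc D.U D.p (fun n => ze m ^ Om n) χ)) b‖)) := by
    intro b hb
    rw [mem_union, mem_filter, mem_filter]
    by_contra hcon
    push Not at hcon
    have c1 := hcon.1 (mem_univ _)
    have c2 := hcon.2 (mem_univ _)
    obtain ⟨v, hv, hv'⟩ := hB b hb
    have l1 := H2_lower d D.N D.U D.p D.p_nonneg D.p_sum E b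
      (fun n u => ze m ^ (Om n + Om u) * κ (H2_x d b n u))
      (fun n u => by
        simp only [norm_mul, norm_pow, H1_norm_ze, one_pow, one_mul]
        exact hκ _) v hv
      (fun n hn u hu hx => hv' n hn u hu _ hx (H2_x_spec b (D.N_cop n hn) (D.U_cop u hu)))
    have l2 : ∑ n ∈ D.N, ∑ u ∈ D.U, ((1 / (n : ℝ) * D.p u : ℝ) : ℂ) *
        (ze m ^ (Om n + Om u) * κ (H2_x d b n u)) =
        ∑ χ ∈ D.X, (k χ * (ac D.N (fun n => ze m ^ Om n) χ *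
          mc D.U D.p (fun n => ze m ^ Om n) χ)) * χ ((b⁻¹ : (ZMod d)ˣ) : ZMod d) +
        H1_R D.X (fun χ => k χ * (ac D.N (fun n => ze m ^ Om n) χ *
          mc D.U D.p (fun n => ze m ^ Om n) χ)) b := by
      rw [← H1_split, H2_expand D.N D.U D.p _ D.N_cop D.U_cop κ k hk b]
      refine sum_congr rfl fun n _ => sum_congr rfl fun u _ => ?_
      push_cast
      rw [pow_add]
      ring
    rw [l2] at l1
    have l3 := norm_add_le (∑ χ ∈ D.X, (k χ * (ac D.N (fun n => ze m ^ Om n) χ *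
          mc D.U D.p (fun n => ze m ^ Om n) χ)) * χ ((b⁻¹ : (ZMod d)ˣ) : ZMod d))
        (H1_R D.X (fun χ => k χ * (ac D.N (fun n => ze m ^ Om n) χ *
          mc D.U D.p (fun n => ze m ^ Om n) χ)) b)
    have l4 := hXpart b
    obtain ⟨A, hA⟩ : ∃ A : ℝ, A = ‖∑ χ ∈ D.X, (k χ * (ac D.N (fun n => ze m ^ Om n) χ *
          mc D.U D.p (fun n => ze m ^ Om n) χ)) * χ ((b⁻¹ : (ZMod d)ˣ) : ZMod d)‖ := ⟨_, rfl⟩
    rw [← hA] at l3 l4
    have l5 : (1 - 3 * (β ^ 2 / 8)) * WW D.N ≤ A := by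
      have := l1.trans l3
      linarith
    have hb2 : β ^ 2 ≤ 1 := pow_le_one₀ hβ.le hβ1
    have l6 : 0 ≤ (1 - 3 * (β ^ 2 / 8)) * WW D.N := by
      apply mul_nonneg _ hW.le
      linarith
    have l7 : ((1 - 3 * (β ^ 2 / 8)) * WW D.N) ^ 2 ≤ A ^ 2 := pow_le_pow_left₀ l6 l5 2
    have l8 : ((1 - 3 * (β ^ 2 / 8)) * WW D.N) ^ 2 ≤ (1 + β ^ 2 / 100 - β ^ 2) * WW D.N ^ 2 := l7.trans l4
    have l9 : (1 - 3 * (β ^ 2 / 8)) ^ 2 * WW D.N ^ 2 ≤ (1 + β ^ 2 / 100 - β ^ 2) * WW D.N ^ 2 := by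
      rw [← mul_pow]; exact l8
    have l10 := le_of_mul_le_mul_right l9 (by positivity : 0 < WW D.N ^ 2)
    have hb3 : 0 < β ^ 2 := by positivity
    nlinarith [sq_nonneg (β ^ 2)]
  have h3 : (B.card : ℝ) ≤ (E.card : ℝ) / (β ^ 2 / 8) + 64 * (d : ℝ) ^ (1 - 2 * c) / β ^ 4 := by
    refine le_trans ?_ (add_le_add e1 e2)
    exact_mod_cast (card_le_card hsub).trans (card_union_le _ _)
  calc (B.card : ℝ) ≤ (E.card : ℝ) / (β ^ 2 / 8) + 64 * (d : ℝ) ^ (1 - 2 * c) / β ^ 4 := h3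
    _ = 8 / β ^ 2 * E.card + 64 * (d : ℝ) ^ (1 - 2 * c) / β ^ 4 := by
      congr 1
      field_simp

end Pool.Agent.Lib.MP_42948a_nt.OM
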