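import Pool.Agent.Lib.MP_42948a_nt.OM.H1
import Pool.Agent.Lib.MP_42948a_nt.OM.H2
import Pool.Agent.Lib.MP_42948a_nt.OM.I1

/-!
# The counts in terms of the sets of residues (job I2)

`base_sets`: `base_count`. Let `b ∈ B`, `C = OmSet m z'' X'' b`, `#C ≤ 1`. If there are no `n1, n2 ∈ N`, `u ∈ U` with `n1 n2 u ≡ b`, take
`v = 1`. Otherwise all such products are `z''`-rough (`D.N_rough`, `D.U_rough`, `Rough.mul`, `z'' ≤ z`), `≤ X''` and `≥ 1`, so the class of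
`Om (n1 n2 u) = Om n1 + Om n2 + Om u` (`ArithmeticFunction.cardFactors_mul`) lies in `C`, which has one element `j`: `v = ze m ^ j.val`
(`ze_pow_cast`).

`step_sets`: `step_count` with `A x = OmSet m z' X' x` and `κ x = τ(A x)/‖τ(A x)‖` if `#(A x) = k`, else `0`, where
`τ(A) = ∑_{x ∈ A} ze m ^ x.val`. For `b ∈ B` put `C = OmSet m z'' X'' b` (`#C ≤ k`), `v = τ(C)/‖τ(C)‖` if some triple `(n, u, x)` with `x ∉ E` and
`n u x ≡ b` exists, and `v = 1` otherwise. For such a triple, `A x + (Om n + Om u) ⊆ C` (if `n1 ≤ X'` is `z'`-rough, `≡ x`, then `n u n1` is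
`z''`-rough, `≤ X''`, `≡ b`), `#(A x) ≥ k ≥ #C`, so equality holds and `#(A x) = #C = k`, `0 < k < m`, `τ(C) = ze m ^ (Om n + Om u) τ(A x)`
(`tau_shift`, `ze_pow_cast`), `τ(A x) ≠ 0` (`tau_ne_zero`), and the norms agree, so `ze m ^ (Om n + Om u) κ x = v`.
-/

namespace Pool.Agent.Lib.MP_42948a_nt.OM

open Finset Pool.Agent.Lib.MP_42948a_nt.OA

theorem I2_mono {z z' n : ℕ} (h : z' ≤ z) (hn : Rough z n) : Rough z' n :=
  ⟨hn.1, fun p hp hpn => lt_of_le_of_lt h (hn.2 p hp hpn)⟩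

theorem I2_mem {m d z X n : ℕ} {b : (ZMod d)ˣ} (h1 : 1 ≤ n) (h2 : n ≤ X) (hr : Rough z n)
    (hb : (n : ZMod d) = (b : ZMod d)) : (Om n : ZMod m) ∈ OmSet m z X b := by
  classical
  unfold OmSet
  exact mem_image.2 ⟨n, mem_filter.2 ⟨mem_Icc.2 ⟨h1, h2⟩, hr, hb⟩, rfl⟩

theorem I2_Om {a b c : ℕ} (ha : 0 < a) (hb : 0 < b) (hc : 0 < c) :
    Om (a * b * c) = Om a + Om b + Om c := by
  show ArithmeticFunction.cardFactors (a * b * c) = ArithmeticFunction.cardFactors a +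
    ArithmeticFunction.cardFactors b + ArithmeticFunction.cardFactors c
  rw [ArithmeticFunction.cardFactors_mul (Nat.mul_pos ha hb).ne' hc.ne',
    ArithmeticFunction.cardFactors_mul ha.ne' hb.ne']

theorem base_sets {m d z : ℕ} [NeZero m] [NeZero d] {η β c : ℝ} (D : Dat m d z η β c) (hβ : 0 < β)
    (z'' X'' : ℕ) (hz : z'' ≤ z) (hX : ∀ n1 ∈ D.N, ∀ n2 ∈ D.N, ∀ u ∈ D.U, n1 * n2 * u ≤ X'')
    (B : Finset (ZMod d)ˣ) (hB : ∀ b ∈ B, (OmSet m z'' X'' b).card ≤ 1) :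
    (B.card : ℝ) ≤ 10 * (d : ℝ) ^ (1 - c) / β ^ 6 := by
  refine base_count D hβ B (fun b hb => ?_)
  have key : ∀ n1 ∈ D.N, ∀ n2 ∈ D.N, ∀ u ∈ D.U, ((n1 * n2 * u : ℕ) : ZMod d) = (b : ZMod d) →
      ((Om n1 + Om n2 + Om u : ℕ) : ZMod m) ∈ OmSet m z'' X'' b := by
    intro n1 h1 n2 h2 u hu he
    have p1 := (D.N_rough n1 h1).pos
    have p2 := (D.N_rough n2 h2).pos
    have p3 := (D.U_rough u hu).pos
    rw [← I2_Om p1 p2 p3]
    exact I2_mem (Nat.mul_pos (Nat.mul_pos p1 p2) p3) (hX n1 h1 n2 h2 u hu)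
      (I2_mono hz (((D.N_rough n1 h1).mul (D.N_rough n2 h2)).mul (D.U_rough u hu))) he
  by_cases hex : ∃ n1 ∈ D.N, ∃ n2 ∈ D.N, ∃ u ∈ D.U, ((n1 * n2 * u : ℕ) : ZMod d) = (b : ZMod d)
  · obtain ⟨n1, h1, n2, h2, u, hu, he⟩ := hex
    refine ⟨ze m ^ (Om n1 + Om n2 + Om u), by rw [norm_pow, ze_norm, one_pow], ?_⟩
    intro m1 g1 m2 g2 u' gu' he'
    have e1 := Finset.card_le_one.1 (hB b hb) _ (key m1 g1 m2 g2 u' gu' he') _
      (key n1 h1 n2 h2 u hu he)
    rw [← ze_pow_cast m (Om m1 + Om m2 + Om u'), ← ze_pow_cast m (Om n1 + Om n2 + Om u), e1]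
  · refine ⟨1, by simp, ?_⟩
    intro n1 h1 n2 h2 u hu he
    exact absurd ⟨n1, h1, n2, h2, u, hu, he⟩ hex

theorem step_sets {m d z : ℕ} (hm : m.Prime) [NeZero d] {η β c : ℝ} (D : Dat m d z η β c) (hβ : 0 < β)
    (k : ℕ) (hk1 : 1 ≤ k) (hkm : k < m) (z' z'' X' X'' : ℕ) (hz : z'' ≤ z) (hz' : z'' ≤ z')
    (hX : ∀ n ∈ D.N, ∀ u ∈ D.U, n * u * X' ≤ X'') (E B : Finset (ZMod d)ˣ)
    (hE : ∀ x : (ZMod d)ˣ, x ∉ E → k ≤ (OmSet m z' X' x).card)
    (hB : ∀ b ∈ B, (OmSet m z'' X'' b).card ≤ k) :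
    (B.card : ℝ) ≤ 8 / β ^ 2 * E.card + 64 * (d : ℝ) ^ (1 - 2 * c) / β ^ 4 := by
  classical
  have hm0 : NeZero m := ⟨hm.ne_zero⟩
  set τ : Finset (ZMod m) → ℂ := fun A => ∑ x ∈ A, ze m ^ x.val with hτ
  refine step_count D hβ (fun x => if (OmSet m z' X' x).card = k then
    τ (OmSet m z' X' x) / ((‖τ (OmSet m z' X' x)‖ : ℝ) : ℂ) else 0) (fun x => ?_) E B
    (fun b hb => ?_)
  · split_ifs
    · rw [norm_div, Complex.norm_real, norm_norm]
      exact div_self_le_one _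
    · simp
  · have key : ∀ n ∈ D.N, ∀ u ∈ D.U, ∀ x : (ZMod d)ˣ, x ∉ E →
        ((n * u : ℕ) : ZMod d) * (x : ZMod d) = (b : ZMod d) →
        (OmSet m z' X' x).card = k ∧ (OmSet m z'' X'' b).card = k ∧
        τ (OmSet m z'' X'' b) = ze m ^ (Om n + Om u) * τ (OmSet m z' X' x) := by
      intro n hn u hu x hx he
      have hsub : (OmSet m z' X' x).image (fun y => y + ((Om n + Om u : ℕ) : ZMod m)) ⊆
          OmSet m z'' X'' b := by
        intro y hy
        obtain ⟨y', hy', rfl⟩ := mem_image.1 hy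
        unfold OmSet at hy'
        obtain ⟨n1, hn1, rfl⟩ := mem_image.1 hy'
        obtain ⟨hn1a, hn1r, hn1x⟩ := mem_filter.1 hn1
        rw [mem_Icc] at hn1a
        have p1 := (D.N_rough n hn).pos
        have p2 := (D.U_rough u hu).pos
        have p3 : 0 < n1 := hn1a.1
        have e1 : ((Om n1 : ℕ) : ZMod m) + ((Om n + Om u : ℕ) : ZMod m) =
            ((Om (n * u * n1) : ℕ) : ZMod m) := by
          rw [I2_Om p1 p2 p3]
          push_cast
          ring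
        rw [e1]
        refine I2_mem (Nat.mul_pos (Nat.mul_pos p1 p2) p3)
          (le_trans (Nat.mul_le_mul_left _ hn1a.2) (hX n hn u hu)) ?_ ?_
        · exact ((I2_mono hz (D.N_rough n hn)).mul (I2_mono hz (D.U_rough u hu))).mul
            (I2_mono hz' hn1r)
        · rw [← he, ← hn1x]
          push_cast
          ring
      have hcard : ((OmSet m z' X' x).image
          (fun y => y + ((Om n + Om u : ℕ) : ZMod m))).card = (OmSet m z' X' x).card :=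
        card_image_of_injective _ (add_left_injective _)
      have hk := hE x hx
      have hC := hB b hb
      have hle := card_le_card hsub
      have heq := eq_of_subset_of_card_le hsub (by omega)
      refine ⟨by omega, by omega, ?_⟩
      have h1 := tau_shift m (OmSet m z' X' x) ((Om n + Om u : ℕ) : ZMod m)
      rw [heq, ze_pow_cast] at h1
      exact h1
    by_cases hex : ∃ n ∈ D.N, ∃ u ∈ D.U, ∃ x : (ZMod d)ˣ, x ∉ E ∧
        ((n * u : ℕ) : ZMod d) * (x : ZMod d) = (b : ZMod d)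
    · obtain ⟨n, hn, u, hu, x, hx, he⟩ := hex
      obtain ⟨k1, k2, k3⟩ := key n hn u hu x hx he
      have hne : τ (OmSet m z'' X'' b) ≠ 0 :=
        tau_ne_zero m hm _ (card_pos.1 (by omega)) (by omega)
      refine ⟨τ (OmSet m z'' X'' b) / ((‖τ (OmSet m z'' X'' b)‖ : ℝ) : ℂ), ?_, ?_⟩
      · rw [norm_div, Complex.norm_real, norm_norm]
        exact div_self (norm_ne_zero_iff.2 hne)
      · intro n' hn' u' hu' x' hx' he'
        obtain ⟨l1, l2, l3⟩ := key n' hn' u' hu' x' hx' he'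
        have hnorm : ‖τ (OmSet m z'' X'' b)‖ = ‖τ (OmSet m z' X' x')‖ := by
          rw [l3, norm_mul, norm_pow, ze_norm, one_pow, one_mul]
        rw [if_pos l1, hnorm, l3, mul_div_assoc]
    · refine ⟨1, by simp, ?_⟩
      intro n hn u hu x hx he
      exact absurd ⟨n, hn, u, hu, x, hx, he⟩ hex

end Pool.Agent.Lib.MP_42948a_nt.OM
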