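import Pool.Agent.Lib.MP_42948a_nt.OM.Defs
import Pool.Agent.Lib.MP_42948a_nt.OA.FB

/-!
# Every class: Cauchy-Davenport (job L1)

`totient_large`: `many_primes` with `k = 1`, `z = 0` or `1`: the primes `≤ d` not dividing `d` are at least `d^(1-κ)` many, all `< d` (for `d ≥ 2`,
a prime `p ≤ d`, `p ∤ d` is `< d`), coprime to `d`, so `φ(d) ≥ d^(1-κ)` (`Nat.totient_eq_card_coprime` / `Nat.totient` is a filter card).

`all_classes`: let `a` be a class. The number of `x` with `x ∈ E` or `a x⁻¹ ∈ E` is `≤ 2 #E < φ(d) = #(ZMod d)ˣ`, so some `x` has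
`x ∉ E`, `y = a x⁻¹ ∉ E`. `A = OmSet m z X x`, `A' = OmSet m z X y` have `≥ k` elements, `m ≤ 2 k - 1`, so `A + A'` is everything
(`ZMod.cauchy_davenport`, `m ≤ #A + #A' - 1`; `Finset.eq_univ_of_card`). If `n ≡ x`, `n' ≡ y` are `z`-rough and `≤ X` then `n n' ≡ a` is
`z`-rough, `≤ X * X ≤ X''`, `Om (n n') = Om n + Om n'` (`ArithmeticFunction.cardFactors_mul`).
-/

namespace Pool.Agent.Lib.MP_42948a_nt.OM

open Finset Pool.Agent.Lib.MP_42948a_nt.OA

theorem totient_large (κ : ℝ) (hκ : 0 < κ) (hκ1 : κ < 1) :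
    ∃ d0 : ℕ, ∀ d : ℕ, d0 ≤ d → (d : ℝ) ^ (1 - κ) ≤ (d.totient : ℝ) := by
  obtain ⟨d0, H⟩ := many_primes 1 le_rfl κ hκ hκ1
  refine ⟨d0, fun d hd => ?_⟩
  have h1 := H d hd 0 (by rw [Nat.cast_zero]; positivity)
  rw [Nat.cast_one, one_mul, div_one] at h1
  refine h1.trans ?_
  have h2 : ⌊(d : ℝ) ^ (1 / (1 : ℝ))⌋₊ = d := by
    rw [div_one, Real.rpow_one, Nat.floor_natCast]
  rw [h2]
  have h3 : (primesOff d 0 d).card ≤ d.totient := by
    rw [Nat.totient]
    apply card_le_card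
    intro p hp
    unfold primesOff at hp
    rw [mem_filter, mem_Icc] at hp
    obtain ⟨⟨_, h4⟩, h5, _, h6⟩ := hp
    rw [mem_filter, mem_range]
    refine ⟨lt_of_le_of_ne h4 (fun h => h6 (by rw [h])), ?_⟩
    exact ((Nat.Prime.coprime_iff_not_dvd h5).2 h6).symm
  exact_mod_cast h3

open scoped Pointwise in
theorem all_classes (m k z X X'' d : ℕ) (hm : m.Prime) [NeZero d] (hk : m ≤ 2 * k - 1) (hX : X * X ≤ X'')
    (E : Finset (ZMod d)ˣ) (hE : ∀ b : (ZMod d)ˣ, b ∉ E → k ≤ (OmSet m z X b).card)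
    (hcard : 2 * E.card < d.totient) (a : (ZMod d)ˣ) (j : ZMod m) : j ∈ OmSet m z X'' a := by
  classical
  have : NeZero m := ⟨hm.ne_zero⟩
  have hm2 := hm.two_le
  obtain ⟨x, hx⟩ : ∃ x : (ZMod d)ˣ, x ∉ E ∪ E.image (fun y => a * y⁻¹) := by
    by_contra hcon
    push Not at hcon
    have h1 : (E ∪ E.image (fun y => a * y⁻¹)) = Finset.univ := Finset.eq_univ_of_forall hcon
    have h2 : (E ∪ E.image (fun y => a * y⁻¹)).card ≤ 2 * E.card := by
      refine (card_union_le _ _).trans ?_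
      have := card_image_le (s := E) (f := fun y => a * y⁻¹)
      omega
    rw [h1, Finset.card_univ, ZMod.card_units_eq_totient] at h2
    omega
  rw [mem_union, not_or] at hx
  have hy : a * x⁻¹ ∉ E := by
    intro hy
    apply hx.2
    rw [mem_image]
    refine ⟨a * x⁻¹, hy, ?_⟩
    rw [mul_inv, inv_inv, ← mul_assoc, mul_inv_cancel, one_mul]
  have hA := hE x hx.1
  have hB := hE (a * x⁻¹) hy
  have hAne : (OmSet m z X x).Nonempty := card_pos.1 (by omega)
  have hBne : (OmSet m z X (a * x⁻¹)).Nonempty := card_pos.1 (by omega)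
  have hCD := ZMod.cauchy_davenport hm hAne hBne
  have huniv : OmSet m z X x + OmSet m z X (a * x⁻¹) = Finset.univ := by
    apply Finset.eq_univ_of_card
    rw [ZMod.card]
    apply le_antisymm
    · have := card_le_univ (OmSet m z X x + OmSet m z X (a * x⁻¹))
      rwa [ZMod.card] at this
    · refine le_trans ?_ hCD
      apply le_min le_rfl
      omega
  have hj : j ∈ OmSet m z X x + OmSet m z X (a * x⁻¹) := by rw [huniv]; exact mem_univ _
  obtain ⟨s, hs, t, ht, hst⟩ := mem_add.1 hj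
  unfold OmSet at hs ht ⊢
  obtain ⟨n, hn, rfl⟩ := mem_image.1 hs
  obtain ⟨n', hn', rfl⟩ := mem_image.1 ht
  rw [mem_filter, mem_Icc] at hn hn'
  rw [mem_image]
  refine ⟨n * n', ?_, ?_⟩
  · rw [mem_filter, mem_Icc]
    refine ⟨⟨Nat.mul_pos hn.1.1 hn'.1.1, (Nat.mul_le_mul hn.1.2 hn'.1.2).trans hX⟩, hn.2.1.mul hn'.2.1, ?_⟩
    rw [Nat.cast_mul, hn.2.2, hn'.2.2, ← Units.val_mul]
    congr 1
    rw [mul_comm, mul_assoc, inv_mul_cancel, mul_one]
  · rw [← hst, ← Nat.cast_add]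
    congr 1
    exact ArithmeticFunction.cardFactors_mul (by omega) (by omega)

end Pool.Agent.Lib.MP_42948a_nt.OM
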