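import Pool.Agent.Lib.MP_42948a_nt.OM.Defs

/-!
# The number of classes with a given residue (job L2)

`l` is a prime, `z < l`, `l ∤ d`. For a residue `i` let `B i` be the set of classes `b` with `i ∈ OmSet m z X b`; `∑_i #(B i) = ∑_b #(OmSet m z X b)
≥ k (φ(d) - #E)` (double counting; `(ZMod d)ˣ` has `φ(d)` elements). For the given `j` let `B' = {b : j ∈ OmSet m z X'' b}`. For every `i` put
`s = (j - i).val < m`: the map `b ↦ l^s b` is injective and sends `B i` into `B'` (`n ↦ l^s n` is `z`-rough, `≤ l^s X ≤ l^m X ≤ X''`, with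
`Om (l^s n) = s + Om n`: `ArithmeticFunction.cardFactors_mul`, `cardFactors_apply_prime_pow`). So `#(B i) ≤ #B'` and
`k (φ(d) - #E) ≤ m #B'`.
-/

namespace Pool.Agent.Lib.MP_42948a_nt.OM

open Finset Pool.Agent.Lib.MP_42948a_nt.OA

private theorem L2_mem {m z X d : ℕ} {b : (ZMod d)ˣ} {i : ZMod m} :
    i ∈ OmSet m z X b ↔ ∃ n : ℕ, 1 ≤ n ∧ n ≤ X ∧ Rough z n ∧ (n : ZMod d) = (b : ZMod d) ∧ (Om n : ZMod m) = i := by
  classical
  unfold OmSet
  rw [Finset.mem_image]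
  simp only [Finset.mem_filter, Finset.mem_Icc]
  constructor
  · rintro ⟨n, ⟨⟨h1, h2⟩, h3, h4⟩, h5⟩
    exact ⟨n, h1, h2, h3, h4, h5⟩
  · rintro ⟨n, h1, h2, h3, h4, h5⟩
    exact ⟨n, ⟨⟨h1, h2⟩, h3, h4⟩, h5⟩

private theorem L2_step (m z X X'' l d s : ℕ) [NeZero d] (hl : l.Prime) (hzl : z < l)
    (hld : ¬ l ∣ d) (hX : l ^ m * X ≤ X'') (hs : s ≤ m) (b : (ZMod d)ˣ) (i : ZMod m) (h : i ∈ OmSet m z X b) :
    ((s : ZMod m) + i) ∈ OmSet m z X''
      ((ZMod.unitOfCoprime l ((Nat.Prime.coprime_iff_not_dvd hl).2 hld)) ^ s * b) := by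
  rw [L2_mem] at h ⊢
  obtain ⟨n, h1, h2, h3, h4, h5⟩ := h
  have hl1 : 1 ≤ l ^ s := Nat.one_le_pow _ _ hl.pos
  refine ⟨l ^ s * n, Nat.one_le_iff_ne_zero.2 (Nat.mul_ne_zero (by omega) (by omega)), ?_, ?_, ?_, ?_⟩
  · calc l ^ s * n ≤ l ^ m * X := Nat.mul_le_mul (Nat.pow_le_pow_right hl.pos hs) h2
      _ ≤ X'' := hX
  · refine Rough.mul ⟨hl1, fun p hp hd => ?_⟩ h3
    have h6 := hp.dvd_of_dvd_pow hd
    rw [(Nat.prime_dvd_prime_iff_eq hp hl).1 h6]
    exact hzl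
  · push_cast
    rw [h4]
    rfl
  · have h6 : Om (l ^ s * n) = s + Om n := by
      unfold Om
      rw [ArithmeticFunction.cardFactors_mul (by omega) (by omega), ArithmeticFunction.cardFactors_apply_prime_pow hl]
    rw [h6, Nat.cast_add, h5]

theorem count_residue (m k z X X'' l d : ℕ) (hm : 1 ≤ m) [NeZero m] [NeZero d] (hl : l.Prime) (hzl : z < l)
    (hld : ¬ l ∣ d) (hX : l ^ m * X ≤ X'') (E : Finset (ZMod d)ˣ)
    (hE : ∀ b : (ZMod d)ˣ, b ∉ E → k ≤ (OmSet m z X b).card) (j : ZMod m) :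
    ∃ B : Finset (ZMod d)ˣ, (k : ℝ) / m * ((d.totient : ℝ) - E.card) ≤ B.card ∧
      ∀ b ∈ B, j ∈ OmSet m z X'' b := by
  classical
  refine ⟨univ.filter (fun b => j ∈ OmSet m z X'' b), ?_, fun b hb => (Finset.mem_filter.1 hb).2⟩
  set B' : Finset (ZMod d)ˣ := univ.filter (fun b => j ∈ OmSet m z X'' b) with hB'
  -- every residue
  have h1 : ∀ i : ZMod m, (univ.filter (fun b : (ZMod d)ˣ => i ∈ OmSet m z X b)).card ≤ B'.card := by
    intro i
    refine Finset.card_le_card_of_injOn (fun b =>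
      (ZMod.unitOfCoprime l ((Nat.Prime.coprime_iff_not_dvd hl).2 hld)) ^ ((j - i).val) * b) ?_ ?_
    · intro b hb
      have hb' := (Finset.mem_filter.1 hb).2
      have h2 := L2_step m z X X'' l d ((j - i).val) hl hzl hld hX (ZMod.val_lt _).le b i hb'
      rw [ZMod.natCast_zmod_val, sub_add_cancel] at h2
      rw [hB']
      exact Finset.mem_coe.2 (Finset.mem_filter.2 ⟨Finset.mem_univ _, h2⟩)
    · intro b _ b' _ h
      exact mul_left_cancel h
  -- double counting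
  have h2 : ∑ i : ZMod m, (univ.filter (fun b : (ZMod d)ˣ => i ∈ OmSet m z X b)).card =
      ∑ b : (ZMod d)ˣ, (OmSet m z X b).card := by
    simp_rw [Finset.card_filter]
    rw [Finset.sum_comm]
    refine Finset.sum_congr rfl fun b _ => ?_
    rw [← Finset.card_filter]
    congr 1
    ext i
    simp
  have h3 : ∑ i : ZMod m, (univ.filter (fun b : (ZMod d)ˣ => i ∈ OmSet m z X b)).card ≤ m * B'.card := by
    calc _ ≤ ∑ i : ZMod m, B'.card := Finset.sum_le_sum fun i _ => h1 i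
      _ = m * B'.card := by rw [Finset.sum_const, Finset.card_univ, ZMod.card, smul_eq_mul]
  have h4 : (Eᶜ).card * k ≤ ∑ b : (ZMod d)ˣ, (OmSet m z X b).card := by
    calc (Eᶜ).card * k = ∑ b ∈ Eᶜ, k := by rw [Finset.sum_const, smul_eq_mul]
      _ ≤ ∑ b ∈ Eᶜ, (OmSet m z X b).card := Finset.sum_le_sum fun b hb => hE b (Finset.mem_compl.1 hb)
      _ ≤ _ := Finset.sum_le_sum_of_subset (Finset.subset_univ _)
  have h5 : (Eᶜ).card + E.card = d.totient := by
    rw [← ZMod.card_units_eq_totient, Finset.card_compl_add_card]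
  have h6 : (Eᶜ).card * k ≤ m * B'.card := h4.trans (h2 ▸ h3)
  have h7 : (((Eᶜ).card : ℕ) : ℝ) = (d.totient : ℝ) - E.card := by
    rw [← h5]
    push_cast
    ring
  have hm0 : (0 : ℝ) < m := by exact_mod_cast hm
  rw [← h7, div_mul_eq_mul_div, div_le_iff₀ hm0]
  have h8 : (((Eᶜ).card * k : ℕ) : ℝ) ≤ ((m * B'.card : ℕ) : ℝ) := by exact_mod_cast h6
  push_cast at h8
  linarith

end Pool.Agent.Lib.MP_42948a_nt.OM
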