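import Pool.Agent.Lib.MP_42948a_nt.OM.K
import Pool.Agent.Lib.MP_42948a_nt.OM.L1
import Pool.Agent.Lib.MP_42948a_nt.OM.L2

/-!
# The final statement (assembly)
-/

namespace Pool.Agent.Lib.MP_42948a_nt.OM

open Finset Pool.Agent.Lib.MP_42948a_nt.OA

theorem M_mem {m z X d : ℕ} {b : (ZMod d)ˣ} {j : ZMod m} :
    j ∈ OmSet m z X b ↔ ∃ n : ℕ, 1 ≤ n ∧ n ≤ X ∧ Rough z n ∧ (n : ZMod d) = (b : ZMod d) ∧ (Om n : ZMod m) = j := by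
  classical
  unfold OmSet
  constructor
  · intro h
    obtain ⟨n, hn, hj⟩ := mem_image.1 h
    obtain ⟨h1, h2, h3⟩ := mem_filter.1 hn
    exact ⟨n, (mem_Icc.1 h1).1, (mem_Icc.1 h1).2, h2, h3, hj⟩
  · rintro ⟨n, h1, h2, h3, h4, h5⟩
    exact mem_image.2 ⟨n, mem_filter.2 ⟨mem_Icc.2 ⟨h1, h2⟩, h3, h4⟩, h5⟩

theorem M_mono {m z z' X X' d : ℕ} (hz : z' ≤ z) (hX : X ≤ X') (b : (ZMod d)ˣ) :
    OmSet m z X b ⊆ OmSet m z' X' b := by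
  intro j hj
  obtain ⟨n, h1, h2, h3, h4, h5⟩ := M_mem.1 hj
  exact M_mem.2 ⟨n, h1, h2.trans hX, ⟨h3.1, fun p hp hpn => lt_of_le_of_lt hz (h3.2 p hp hpn)⟩, h4, h5⟩

/-- from a set of residues with `k` elements to `k` numbers -/
theorem M_extract {m z X d k : ℕ} {b : (ZMod d)ˣ} (h : k ≤ (OmSet m z X b).card) :
    ∃ f : Fin k → ℕ, (∀ i, 1 ≤ f i ∧ f i ≤ X ∧ Rough z (f i) ∧ ((f i : ℕ) : ZMod d) = (b : ZMod d)) ∧
      ∀ i j, i ≠ j → ¬ Om (f i) ≡ Om (f j) [MOD m] := by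
  obtain ⟨T, hT, hTc⟩ := Finset.exists_subset_card_eq h
  have e : Fin k ≃ T := (Finset.equivFinOfCardEq hTc).symm
  have h1 : ∀ i : Fin k, ∃ n : ℕ, 1 ≤ n ∧ n ≤ X ∧ Rough z n ∧ (n : ZMod d) = (b : ZMod d) ∧
      (Om n : ZMod m) = (e i : ZMod m) := fun i => M_mem.1 (hT (e i).2)
  choose f hf using h1
  refine ⟨f, fun i => ⟨(hf i).1, (hf i).2.1, (hf i).2.2.1, (hf i).2.2.2.1⟩, fun i j hij hmod => ?_⟩
  have h2 : (Om (f i) : ZMod m) = (Om (f j) : ZMod m) := (ZMod.natCast_eq_natCast_iff _ _ _).2 hmod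
  rw [(hf i).2.2.2.2, (hf j).2.2.2.2] at h2
  exact hij (e.injective (Subtype.ext h2))

/-- uniform constants for all `k ≤ K` -/
theorem M_uniform (m : ℕ) (hm : m.Prime) (hm3 : 3 ≤ m) (ε : ℝ) (hε : 0 < ε) (δ1 : ℝ) (hδ1 : 0 < δ1) (K : ℕ)
    (hK : K ≤ m) :
    ∃ δ c : ℝ, 0 < δ ∧ δ ≤ δ1 ∧ 0 < c ∧ c < 1 ∧ ∃ d0 : ℕ, ∀ d : ℕ, d0 ≤ d → ∀ k : ℕ, 2 ≤ k → k ≤ K →
      ∃ E : Finset (ZMod d)ˣ, (E.card : ℝ) ≤ (d : ℝ) ^ (1 - c) ∧
        ∀ b : (ZMod d)ˣ, b ∉ E → k ≤ (OmSet m ⌊(d : ℝ) ^ δ⌋₊ ⌊(d : ℝ) ^ ((k : ℝ) / 2 + ε)⌋₊ b).card := by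
  induction K with
  | zero =>
    exact ⟨δ1, 1 / 2, hδ1, le_rfl, by norm_num, by norm_num, 0, fun d _ k h2 h0 => by omega⟩
  | succ K ih =>
    obtain ⟨δ, c, hδ, hδ', hc, hc1, d0, hd0⟩ := ih (by omega)
    by_cases hK2 : 2 ≤ K + 1
    · obtain ⟨δ', c', h1, h2, h3, d0', hd0'⟩ := PK_all m hm hm3 (K + 1) hK2 hK ε hε
      refine ⟨min δ δ', min c c', lt_min hδ h1, (min_le_left _ _).trans hδ', lt_min hc h2,
        lt_of_le_of_lt (min_le_left _ _) hc1, max (max d0 d0') 1, fun d hd k hk2 hkK => ?_⟩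
      have hdd0 : d0 ≤ d := (le_max_left _ _).trans ((le_max_left _ _).trans hd)
      have hdd0' : d0' ≤ d := (le_max_right _ _).trans ((le_max_left _ _).trans hd)
      have hd1 : (1 : ℝ) ≤ d := by exact_mod_cast (le_max_right _ _).trans hd
      have hz1 : ⌊(d : ℝ) ^ (min δ δ')⌋₊ ≤ ⌊(d : ℝ) ^ δ⌋₊ :=
        Nat.floor_le_floor (Real.rpow_le_rpow_of_exponent_le hd1 (min_le_left _ _))
      have hz2 : ⌊(d : ℝ) ^ (min δ δ')⌋₊ ≤ ⌊(d : ℝ) ^ δ'⌋₊ :=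
        Nat.floor_le_floor (Real.rpow_le_rpow_of_exponent_le hd1 (min_le_right _ _))
      rcases Nat.lt_or_ge K k with hk | hk
      · have hkk : k = K + 1 := by omega
        subst hkk
        obtain ⟨E, hE1, hE2⟩ := hd0' d hdd0'
        refine ⟨E, hE1.trans (Real.rpow_le_rpow_of_exponent_le hd1 ?_), fun b hb => ?_⟩
        · linarith [min_le_right c c']
        · exact (hE2 b hb).trans (card_le_card (M_mono hz2 le_rfl b))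
      · obtain ⟨E, hE1, hE2⟩ := hd0 d hdd0 k hk2 hk
        refine ⟨E, hE1.trans (Real.rpow_le_rpow_of_exponent_le hd1 ?_), fun b hb => ?_⟩
        · linarith [min_le_left c c']
        · exact (hE2 b hb).trans (card_le_card (M_mono hz1 le_rfl b))
    · exact ⟨δ, c, hδ, hδ', hc, hc1, d0, fun d hd k hk2 hkK => absurd hk2 (by omega)⟩

/-- `2 d^(1-c) < φ(d)` for large `d` -/
theorem M_two (c : ℝ) (hc : 0 < c) (hc1 : c < 1) :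
    ∃ d0 : ℕ, ∀ d : ℕ, d0 ≤ d → 2 * (d : ℝ) ^ (1 - c) < (d.totient : ℝ) := by
  obtain ⟨d0, hd0⟩ := totient_large (c / 2) (by linarith) (by linarith)
  have h1 : ∀ᶠ x : ℝ in Filter.atTop, 2 < x ^ (c / 2) :=
    (tendsto_rpow_atTop (by linarith : 0 < c / 2)).eventually_gt_atTop _
  have h2 : ∀ᶠ d : ℕ in Filter.atTop, 2 < (d : ℝ) ^ (c / 2) := tendsto_natCast_atTop_atTop.eventually h1
  obtain ⟨d1, hd1⟩ := Filter.eventually_atTop.1 h2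
  refine ⟨max (max d0 d1) 1, fun d hd => ?_⟩
  have hdd0 : d0 ≤ d := (le_max_left _ _).trans ((le_max_left _ _).trans hd)
  have hdd1 : d1 ≤ d := (le_max_right _ _).trans ((le_max_left _ _).trans hd)
  have hdpos : (0 : ℝ) < d := by exact_mod_cast (le_max_right _ _).trans hd
  have h3 := hd0 d hdd0
  have h4 := hd1 d hdd1
  refine lt_of_lt_of_le ?_ h3
  have h5 : (d : ℝ) ^ (1 - c / 2) = (d : ℝ) ^ (c / 2) * (d : ℝ) ^ (1 - c) := by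
    rw [← Real.rpow_add hdpos]
    congr 1
    ring
  rw [h5]
  exact mul_lt_mul_of_pos_right h4 (Real.rpow_pos_of_pos hdpos _)

theorem M_rough {d z n : ℕ} {δ : ℝ} (hz : z = ⌊(d : ℝ) ^ δ⌋₊) (h : Rough z n) :
    ∀ p : ℕ, p.Prime → p ∣ n → (d : ℝ) ^ δ < p := by
  intro p hp hpn
  have h1 := h.2 p hp hpn
  rw [hz] at h1
  exact (Nat.floor_lt' hp.ne_zero).1 h1

theorem M_floor_mul {a b : ℝ} (ha : 0 ≤ a) (hb : 0 ≤ b) : ⌊a⌋₊ * ⌊b⌋₊ ≤ ⌊a * b⌋₊ := by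
  apply Nat.le_floor
  push_cast
  exact mul_le_mul (Nat.floor_le ha) (Nat.floor_le hb) (Nat.cast_nonneg _) ha

theorem main (m : ℕ) (hm : m.Prime) (hm2 : m ≠ 2) (ε : ℝ) (hε : 0 < ε) :
    ∃ δ c : ℝ, 0 < δ ∧ 0 < c ∧ ∃ d₀ : ℕ, ∀ d : ℕ, d₀ ≤ d →
      (∀ k : ℕ, 2 ≤ k → k ≤ m →
        (∃ E : Finset (ZMod d)ˣ, (E.card : ℝ) ≤ (d : ℝ) ^ (1 - c) ∧ ∀ b : (ZMod d)ˣ, b ∉ E →
          ∃ f : Fin k → ℕ, (∀ i, 0 < f i ∧ (f i : ℝ) ≤ (d : ℝ) ^ ((k : ℝ) / 2 + ε) ∧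
              ((f i : ℕ) : ZMod d) = (b : ZMod d) ∧
              ∀ p : ℕ, p.Prime → p ∣ f i → (d : ℝ) ^ δ < p) ∧
            ∀ i j, i ≠ j →
              ¬ ArithmeticFunction.cardFactors (f i) ≡ ArithmeticFunction.cardFactors (f j) [MOD m]) ∧
        ∀ j : ℕ, ∃ B : Finset (ZMod d)ˣ,
          (k : ℝ) / m * (d.totient : ℝ) - (d : ℝ) ^ (1 - c) ≤ B.card ∧ ∀ b ∈ B,
            ∃ n : ℕ, 0 < n ∧ (n : ℝ) ≤ (d : ℝ) ^ ((k : ℝ) / 2 + ε) ∧ (n : ZMod d) = (b : ZMod d) ∧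
              (∀ p : ℕ, p.Prime → p ∣ n → (d : ℝ) ^ δ < p) ∧
              ArithmeticFunction.cardFactors n ≡ j [MOD m]) ∧
      ∀ (b : (ZMod d)ˣ) (j : ℕ),
        ∃ n : ℕ, 0 < n ∧ (n : ℝ) ≤ (d : ℝ) ^ (((m : ℝ) + 1) / 2 + ε) ∧ (n : ZMod d) = (b : ZMod d) ∧
          (∀ p : ℕ, p.Prime → p ∣ n → (d : ℝ) ^ δ < p) ∧
          ArithmeticFunction.cardFactors n ≡ j [MOD m] := by
  have hm3 : 3 ≤ m := by
    have := hm.two_le
    omega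
  have hmodd : m % 2 = 1 := (hm.eq_two_or_odd).resolve_left hm2
  have : NeZero m := ⟨by omega⟩
  -- the number of small primes
  obtain ⟨K, hK⟩ := exists_nat_ge (2 * (m : ℝ) / ε)
  set K1 : ℕ := K + 1 with hK1
  have hK1pos : (0 : ℝ) < K1 := by exact_mod_cast Nat.succ_pos K
  have hmK : (m : ℝ) / K1 ≤ ε / 2 := by
    rw [div_le_iff₀ hK1pos]
    have h1 : (K : ℝ) ≤ K1 := by rw [hK1]; push_cast; linarith
    have h2 : 2 * (m : ℝ) / ε ≤ K1 := hK.trans h1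
    rw [div_le_iff₀ hε] at h2
    linarith
  have hδ1 : 0 < 1 / (2 * (K1 : ℝ)) := by positivity
  obtain ⟨δ, c, hδ, hδ', hc, hc1, d1, hd1⟩ := M_uniform m hm hm3 (ε / 2) (by linarith) (1 / (2 * (K1 : ℝ))) hδ1 m le_rfl
  obtain ⟨d2, hd2⟩ := many_primes K1 (by omega) (1 / 2) (by norm_num) (by norm_num)
  obtain ⟨d3, hd3⟩ := M_two c hc hc1
  refine ⟨δ, c, hδ, hc, max (max d1 d2) (max d3 2), fun d hd => ?_⟩
  have hdd1 : d1 ≤ d := (le_max_left _ _).trans ((le_max_left _ _).trans hd)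
  have hdd2 : d2 ≤ d := (le_max_right _ _).trans ((le_max_left _ _).trans hd)
  have hdd3 : d3 ≤ d := (le_max_left _ _).trans ((le_max_right _ _).trans hd)
  have hd2' : 2 ≤ d := (le_max_right _ _).trans ((le_max_right _ _).trans hd)
  have : NeZero d := ⟨by omega⟩
  have hdR : (1 : ℝ) ≤ d := by exact_mod_cast (by omega : 1 ≤ d)
  have hd0 : (0 : ℝ) < d := by linarith
  set z : ℕ := ⌊(d : ℝ) ^ δ⌋₊ with hz
  have hE := hd1 d hdd1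
  -- a small prime
  obtain ⟨l, hl⟩ : ∃ l, l ∈ primesOff d z ⌊(d : ℝ) ^ (1 / (K1 : ℝ))⌋₊ := by
    have hzd : (z : ℝ) ≤ (d : ℝ) ^ (1 / (2 * (K1 : ℝ))) :=
      (Nat.floor_le (Real.rpow_nonneg hd0.le _)).trans (Real.rpow_le_rpow_of_exponent_le hdR hδ')
    have h1 := hd2 d hdd2 z hzd
    have h2 : (0 : ℝ) < (K1 : ℝ) * (d : ℝ) ^ ((1 - 1 / 2) / (K1 : ℝ)) :=
      mul_pos hK1pos (Real.rpow_pos_of_pos hd0 _)
    have h3 : 0 < (primesOff d z ⌊(d : ℝ) ^ (1 / (K1 : ℝ))⌋₊).card := by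
      exact_mod_cast lt_of_lt_of_le h2 h1
    exact Finset.card_pos.1 h3
  have hl' := hl
  unfold primesOff at hl'
  obtain ⟨hl1, hl2, hl3, hl4⟩ := mem_filter.1 hl'
  have hlle : l ≤ ⌊(d : ℝ) ^ (1 / (K1 : ℝ))⌋₊ := (mem_Icc.1 hl1).2
  have hlm : ((l ^ m : ℕ) : ℝ) ≤ (d : ℝ) ^ (ε / 2) := by
    have h1 : (l : ℝ) ≤ (d : ℝ) ^ (1 / (K1 : ℝ)) := by
      refine le_trans ?_ (Nat.floor_le (Real.rpow_nonneg hd0.le _))
      exact_mod_cast hlle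
    push_cast
    calc (l : ℝ) ^ m ≤ ((d : ℝ) ^ (1 / (K1 : ℝ))) ^ m := pow_le_pow_left₀ (Nat.cast_nonneg _) h1 _
      _ = (d : ℝ) ^ ((m : ℝ) / K1) := by
          rw [← Real.rpow_natCast, ← Real.rpow_mul hd0.le]
          congr 1
          ring
      _ ≤ (d : ℝ) ^ (ε / 2) := Real.rpow_le_rpow_of_exponent_le hdR hmK
  refine ⟨fun k hk2 hkm => ⟨?_, ?_⟩, ?_⟩
  · obtain ⟨E, hE1, hE2⟩ := hE k hk2 hkm
    refine ⟨E, hE1, fun b hb => ?_⟩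
    obtain ⟨f, hf1, hf2⟩ := M_extract (hE2 b hb)
    refine ⟨f, fun i => ⟨(hf1 i).1, ?_, (hf1 i).2.2.2, M_rough hz (hf1 i).2.2.1⟩, hf2⟩
    have h1 : (f i : ℝ) ≤ (⌊(d : ℝ) ^ ((k : ℝ) / 2 + ε / 2)⌋₊ : ℝ) := by exact_mod_cast (hf1 i).2.1
    refine h1.trans ((Nat.floor_le (Real.rpow_nonneg hd0.le _)).trans ?_)
    exact Real.rpow_le_rpow_of_exponent_le hdR (by linarith)
  · intro j
    obtain ⟨E, hE1, hE2⟩ := hE k hk2 hkm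
    have hX : l ^ m * ⌊(d : ℝ) ^ ((k : ℝ) / 2 + ε / 2)⌋₊ ≤ ⌊(d : ℝ) ^ ((k : ℝ) / 2 + ε)⌋₊ := by
      apply Nat.le_floor
      rw [Nat.cast_mul]
      calc ((l ^ m : ℕ) : ℝ) * (⌊(d : ℝ) ^ ((k : ℝ) / 2 + ε / 2)⌋₊ : ℝ) ≤
          (d : ℝ) ^ (ε / 2) * (d : ℝ) ^ ((k : ℝ) / 2 + ε / 2) :=
            mul_le_mul hlm (Nat.floor_le (Real.rpow_nonneg hd0.le _)) (Nat.cast_nonneg _)
              (Real.rpow_nonneg hd0.le _)
        _ = (d : ℝ) ^ ((k : ℝ) / 2 + ε) := by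
            rw [← Real.rpow_add hd0]
            congr 1
            ring
    obtain ⟨B, hB1, hB2⟩ := count_residue m k z _ _ l d (by omega) hl2 hl3 hl4 hX E hE2 (j : ZMod m)
    refine ⟨B, ?_, fun b hb => ?_⟩
    · refine le_trans ?_ hB1
      have hkm' : (k : ℝ) / m ≤ 1 := by
        rw [div_le_one (by exact_mod_cast (by omega : 0 < m))]
        exact_mod_cast hkm
      have hE0 : (0 : ℝ) ≤ E.card := Nat.cast_nonneg _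
      have h1 : (k : ℝ) / m * E.card ≤ E.card := by nlinarith
      rw [mul_sub]
      linarith
    · obtain ⟨n, h1, h2, h3, h4, h5⟩ := M_mem.1 (hB2 b hb)
      refine ⟨n, h1, ?_, h4, M_rough hz h3, (ZMod.natCast_eq_natCast_iff _ _ _).1 h5⟩
      exact (Nat.le_floor_iff (Real.rpow_nonneg hd0.le _)).1 h2
  · intro b j
    set k0 : ℕ := (m + 1) / 2 with hk0
    have hk0' : 2 * k0 = m + 1 := by omega
    obtain ⟨E, hE1, hE2⟩ := hE k0 (by omega) (by omega)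
    have hX : ⌊(d : ℝ) ^ ((k0 : ℝ) / 2 + ε / 2)⌋₊ * ⌊(d : ℝ) ^ ((k0 : ℝ) / 2 + ε / 2)⌋₊ ≤
        ⌊(d : ℝ) ^ (((m : ℝ) + 1) / 2 + ε)⌋₊ := by
      refine (M_floor_mul (Real.rpow_nonneg hd0.le _) (Real.rpow_nonneg hd0.le _)).trans (le_of_eq ?_)
      congr 1
      rw [← Real.rpow_add hd0]
      congr 1
      have h1 : 2 * (k0 : ℝ) = m + 1 := by exact_mod_cast hk0'
      linarith
    have hcard : 2 * E.card < d.totient := by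
      have h1 := hd3 d hdd3
      have h2 : 2 * (E.card : ℝ) < (d.totient : ℝ) := by linarith
      exact_mod_cast h2
    have hmem := all_classes m k0 z _ _ d hm (by omega) hX E hE2 hcard b (j : ZMod m)
    obtain ⟨n, h1, h2, h3, h4, h5⟩ := M_mem.1 hmem
    refine ⟨n, h1, ?_, h4, M_rough hz h3, (ZMod.natCast_eq_natCast_iff _ _ _).1 h5⟩
    exact (Nat.le_floor_iff (Real.rpow_nonneg hd0.le _)).1 h2

end Pool.Agent.Lib.MP_42948a_nt.OM
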