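import Pool.Agent.Lib.MP_42948a_nt.OM.B1
import Pool.Agent.Lib.MP_42948a_nt.OA.EF

/-!
# Harmonic sums over multiples of `e` coprime to `d` (job B5)

`coprime_count`: `coset_count` with `H = ⊤`, `q = 1`: the class of `n` lies in `cosetSet ⊤ 1` iff `n` is a unit mod `d` iff
`n.Coprime d` (`ZMod.isUnit_iff_coprime`), and `Nat.card ⊤ = φ(d)` (`ZMod.card_units_eq_totient`).

`coprime_multiples`: for `e` coprime to `d`, the multiples of `e` coprime to `d` in `(y, y']` are the `e k`, `k ∈ (a, b]`, `k` coprime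
to `d`, `a = y/e`, `b = y'/e` (natural division). Let `θ = φ(d)/d ≤ 1`. `∑_{k ∈ Ioc a b, (k,d)=1} 1/k - θ ∑_{k ∈ Ioc a b} 1/k` is, by
`abel_norm` (real numbers seen in `ℂ`, or `abel_mono` twice) with `a k = 1_{(k,d)=1} - θ`, partial sums over `Ioc a u` of absolute value
`≤ 2 BB d` (difference of two instances of `coprime_count`), `g k = 1/k`: at most `2 BB d/(a+1) ≤ 2 BB d e / y` in absolute value
(`e (a + 1) > y`). Finally `|∑_{k ∈ Ioc a b} 1/k - log(y'/y)| ≤ 2 e / y`: as `a e ≤ y < (a+1) e` and `b e ≤ y' < (b+1) e`, and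
`log((b+1)/(a+1)) ≤ ∑_{k ∈ Ioc a b} 1/k ≤ log(b/a)` (`a ≥ 1`; each `1/k` is between `log((k+1)/k)` and `log(k/(k-1))`), upper bound:
`log(b/a) ≤ log((y'/e)/(y/e - 1)) = log(y'/y) - log(1 - e/y) ≤ log(y'/y) + 2e/y` (`e/y ≤ 1/2`), lower bound:
`log((b+1)/(a+1)) ≥ log((y'/e)/(y/e + 1)) = log(y'/y) - log(1 + e/y) ≥ log(y'/y) - e/y`. Total, divided by `e`:
`(2 + 2 BB d)/y ≤ 4 BB d/y` (`BB d ≥ 1`: `√d ≥ 1`, `τ(d) ≥ 1`, `1 + log d ≥ 1`).
If `e` is not coprime to `d` then no multiple of `e` is coprime to `d`.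
-/

namespace Pool.Agent.Lib.MP_42948a_nt.OM

open Finset Pool.Agent.Lib.MP_42948a_nt.OA

theorem BB_ge_one (d : ℕ) [NeZero d] : 1 ≤ BB d := by
  have hd0 : 0 < d := Nat.pos_of_ne_zero (NeZero.ne d)
  have hd : (1 : ℝ) ≤ d := by exact_mod_cast hd0
  have h1 : (1 : ℝ) ≤ √(d : ℝ) := by
    rw [Real.one_le_sqrt]
    exact hd
  have h2 : (1 : ℝ) ≤ (d.divisors.card : ℝ) := by
    have : 0 < d.divisors.card := Finset.card_pos.mpr ⟨1, Nat.one_mem_divisors.mpr hd0.ne'⟩
    exact_mod_cast this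
  have h3 : (1 : ℝ) ≤ 1 + Real.log d := by
    have := Real.log_nonneg hd
    linarith
  unfold BB
  have h4 : (1 : ℝ) ≤ √(d : ℝ) * (d.divisors.card : ℝ) := one_le_mul_of_one_le_of_one_le h1 h2
  exact one_le_mul_of_one_le_of_one_le h4 h3

theorem coprime_count (d : ℕ) [NeZero d] (N : ℕ) :
    |(((Icc 1 N).filter (fun n => n.Coprime d)).card : ℝ) - (N : ℝ) * (d.totient : ℝ) / d| ≤ BB d := by
  classical
  have h := coset_count d ⊤ 1 N
  have h1 : cls N ∅ (cosetSet (⊤ : Subgroup (ZMod d)ˣ) 1) = (Icc 1 N).filter (fun n => n.Coprime d) := by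
    ext n
    unfold cls cosetSet
    simp only [mem_filter, notMem_empty, false_imp_iff, implies_true, true_and, Set.mem_ofPred_eq,
      Subgroup.mem_top, one_mul]
    constructor
    · rintro ⟨hn, u, hu⟩
      refine ⟨hn, ?_⟩
      rw [← ZMod.isUnit_iff_coprime, hu]
      exact u.isUnit
    · rintro ⟨hn, hc⟩
      refine ⟨hn, ?_⟩
      rw [← ZMod.isUnit_iff_coprime] at hc
      obtain ⟨u, hu⟩ := hc
      exact ⟨u, hu.symm⟩
  have h2 : Nat.card (⊤ : Subgroup (ZMod d)ˣ) = d.totient := by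
    rw [Subgroup.card_top, Nat.card_eq_fintype_card, ZMod.card_units_eq_totient]
  rw [h1, h2] at h
  exact h

theorem B5_sum_le (a b : ℕ) (ha : 1 ≤ a) (hab : a ≤ b) :
    ∑ k ∈ Ioc a b, (1 : ℝ) / k ≤ Real.log b - Real.log a := by
  induction b, hab using Nat.le_induction with
  | base => simp
  | succ b hb ih =>
    have hb0 : (0 : ℝ) < b := by
      have : 0 < b := by omega
      exact_mod_cast this
    rw [Finset.sum_Ioc_succ_top (by omega)]
    have h1 := Real.one_sub_inv_le_log_of_pos (x := ((b + 1 : ℕ) : ℝ) / b) (by positivity)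
    rw [Real.log_div (by positivity) hb0.ne'] at h1
    have h2 : 1 - (((b + 1 : ℕ) : ℝ) / b)⁻¹ = 1 / ((b + 1 : ℕ) : ℝ) := by
      push_cast
      field_simp
      ring
    rw [h2] at h1
    linarith

theorem B5_le_sum (a b : ℕ) (hab : a ≤ b) :
    Real.log ((b : ℝ) + 1) - Real.log ((a : ℝ) + 1) ≤ ∑ k ∈ Ioc a b, (1 : ℝ) / k := by
  induction b, hab using Nat.le_induction with
  | base => simp
  | succ b hb ih =>
    rw [Finset.sum_Ioc_succ_top (by omega)]
    have hb0 : (0 : ℝ) < (b : ℝ) + 1 := by positivity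
    have h1 := Real.log_le_sub_one_of_pos (x := ((b : ℝ) + 1 + 1) / ((b : ℝ) + 1)) (by positivity)
    rw [Real.log_div (by positivity) hb0.ne'] at h1
    have h2 : ((b : ℝ) + 1 + 1) / ((b : ℝ) + 1) - 1 = 1 / ((b + 1 : ℕ) : ℝ) := by
      push_cast
      field_simp
      ring
    rw [h2] at h1
    push_cast at h1 ⊢
    linarith

theorem B5_log_bound (e y y' : ℕ) (he : 1 ≤ e) (hy : 2 * e ≤ y) (hyy : y ≤ y') :
    |∑ k ∈ Ioc (y / e) (y' / e), (1 : ℝ) / k - Real.log ((y' : ℝ) / y)| ≤ 2 * e / y := by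
  obtain ⟨a, ha⟩ : ∃ a, a = y / e := ⟨_, rfl⟩
  obtain ⟨b, hb⟩ : ∃ b, b = y' / e := ⟨_, rfl⟩
  rw [← ha, ← hb]
  have he0 : (0 : ℝ) < e := by exact_mod_cast he
  have hy0 : (0 : ℝ) < y := by
    have : 0 < y := by omega
    exact_mod_cast this
  have hy'0 : (0 : ℝ) < y' := by
    have : 0 < y' := by omega
    exact_mod_cast this
  have hab : a ≤ b := by
    rw [ha, hb]
    exact Nat.div_le_div_right hyy
  have ha2 : 2 ≤ a := by
    rw [ha, Nat.le_div_iff_mul_le (by omega)]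
    exact hy
  have ha1 : a * e ≤ y := by
    rw [ha]
    exact Nat.div_mul_le_self y e
  have hb1 : b * e ≤ y' := by
    rw [hb]
    exact Nat.div_mul_le_self y' e
  have ha3 : y < (a + 1) * e := by
    rw [ha, mul_comm]
    exact Nat.lt_mul_div_succ y (by omega)
  have hb3 : y' < (b + 1) * e := by
    rw [hb, mul_comm]
    exact Nat.lt_mul_div_succ y' (by omega)
  have ha1r : (a : ℝ) * e ≤ y := by exact_mod_cast ha1
  have hb1r : (b : ℝ) * e ≤ y' := by exact_mod_cast hb1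
  have ha3r : (y : ℝ) < ((a : ℝ) + 1) * e := by exact_mod_cast ha3
  have hb3r : (y' : ℝ) < ((b : ℝ) + 1) * e := by exact_mod_cast hb3
  have hyr : 2 * (e : ℝ) ≤ y := by exact_mod_cast hy
  have ha0 : (0 : ℝ) < a := by
    have : 0 < a := by omega
    exact_mod_cast this
  have hb0 : (0 : ℝ) < b := by
    have : 0 < b := by omega
    exact_mod_cast this
  have hup := B5_sum_le a b (by omega) hab
  have hlo := B5_le_sum a b hab
  have hlog : Real.log ((y' : ℝ) / y) = Real.log y' - Real.log y := Real.log_div hy'0.ne' hy0.ne'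
  obtain ⟨t, ht⟩ : ∃ t : ℝ, t = e / y := ⟨_, rfl⟩
  have ht0 : 0 < t := by rw [ht]; positivity
  have ht2 : t ≤ 1 / 2 := by
    rw [ht, div_le_iff₀ hy0]
    linarith
  have hty : t * y = e := by
    rw [ht]
    field_simp
  have h1 : Real.log b ≤ Real.log y' - Real.log e := by
    rw [← Real.log_div hy'0.ne' he0.ne']
    apply Real.log_le_log hb0
    rw [le_div_iff₀ he0]
    exact hb1r
  have h2 : Real.log y - Real.log e - 2 * t ≤ Real.log a := by
    have h3 : (1 - t) * (y / e) ≤ a := by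
      rw [← mul_div_assoc, div_le_iff₀ he0]
      nlinarith
    have h4 : Real.log ((1 - t) * (y / e)) ≤ Real.log a :=
      Real.log_le_log (mul_pos (by linarith) (by positivity)) h3
    rw [Real.log_mul (by linarith) (by positivity), Real.log_div hy0.ne' he0.ne'] at h4
    have h5 := Real.one_sub_inv_le_log_of_pos (x := 1 - t) (by linarith)
    have h6 : -(2 * t) ≤ 1 - (1 - t)⁻¹ := by
      have h7 : (1 - t)⁻¹ ≤ 1 + 2 * t := by
        rw [inv_le_iff_one_le_mul₀ (by linarith)]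
        nlinarith
      linarith
    linarith
  have h3 : Real.log y' - Real.log e ≤ Real.log ((b : ℝ) + 1) := by
    rw [← Real.log_div hy'0.ne' he0.ne']
    apply Real.log_le_log (by positivity)
    rw [div_le_iff₀ he0]
    exact hb3r.le
  have h4 : Real.log ((a : ℝ) + 1) ≤ Real.log y - Real.log e + t := by
    have h5 : (a : ℝ) + 1 ≤ (1 + t) * (y / e) := by
      rw [← mul_div_assoc, le_div_iff₀ he0]
      nlinarith
    have h6 : Real.log ((a : ℝ) + 1) ≤ Real.log ((1 + t) * (y / e)) :=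
      Real.log_le_log (by positivity) h5
    rw [Real.log_mul (by positivity) (by positivity), Real.log_div hy0.ne' he0.ne'] at h6
    have h7 := Real.log_le_sub_one_of_pos (x := 1 + t) (by positivity)
    linarith
  have h5 : 2 * (e : ℝ) / y = 2 * t := by rw [ht]; ring
  rw [h5, hlog, abs_le]
  constructor
  · linarith
  · linarith

theorem B5_partial (d : ℕ) [NeZero d] (a u : ℕ) :
    |∑ k ∈ Ioc a u, ((if k.Coprime d then (1 : ℝ) else 0) - (d.totient : ℝ) / d)| ≤ 2 * BB d := by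
  rcases lt_or_ge u a with hua | hau
  · rw [Finset.Ioc_eq_empty (by omega), Finset.sum_empty, abs_zero]
    have := BB_ge_one d
    linarith
  · have hB : ∀ N : ℕ, ∑ k ∈ Icc 1 N, ((if k.Coprime d then (1 : ℝ) else 0) - (d.totient : ℝ) / d) =
        (((Icc 1 N).filter (fun n => n.Coprime d)).card : ℝ) - (N : ℝ) * (d.totient : ℝ) / d := by
      intro N
      rw [Finset.sum_sub_distrib, Finset.sum_const, Nat.card_Icc, Finset.sum_boole, nsmul_eq_mul,
        Nat.add_sub_cancel]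
      ring
    have h1 : ∑ k ∈ Ioc a u, ((if k.Coprime d then (1 : ℝ) else 0) - (d.totient : ℝ) / d) =
        ∑ k ∈ Icc 1 u, ((if k.Coprime d then (1 : ℝ) else 0) - (d.totient : ℝ) / d) -
        ∑ k ∈ Icc 1 a, ((if k.Coprime d then (1 : ℝ) else 0) - (d.totient : ℝ) / d) := by
      rw [eq_sub_iff_add_eq, add_comm]
      have h2 : Icc 1 u = Icc 1 a ∪ Ioc a u := by
        ext k
        simp only [mem_union, mem_Icc, mem_Ioc]
        omega
      rw [h2, Finset.sum_union]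
      rw [Finset.disjoint_left]
      intro k hk hk'
      rw [mem_Icc] at hk
      rw [mem_Ioc] at hk'
      omega
    rw [h1, hB, hB]
    have h2 := coprime_count d u
    have h3 := coprime_count d a
    calc |((((Icc 1 u).filter (fun n => n.Coprime d)).card : ℝ) - (u : ℝ) * (d.totient : ℝ) / d) -
          ((((Icc 1 a).filter (fun n => n.Coprime d)).card : ℝ) - (a : ℝ) * (d.totient : ℝ) / d)|
        ≤ |(((Icc 1 u).filter (fun n => n.Coprime d)).card : ℝ) - (u : ℝ) * (d.totient : ℝ) / d| +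
          |(((Icc 1 a).filter (fun n => n.Coprime d)).card : ℝ) - (a : ℝ) * (d.totient : ℝ) / d| :=
            abs_sub _ _
      _ ≤ 2 * BB d := by linarith

theorem B5_abel (d : ℕ) [NeZero d] (a b : ℕ) :
    |∑ k ∈ (Ioc a b).filter (fun k => k.Coprime d), (1 : ℝ) / k -
      (d.totient : ℝ) / d * ∑ k ∈ Ioc a b, (1 : ℝ) / k| ≤ 2 * BB d * (1 / ((a + 1 : ℕ) : ℝ)) := by
  have hB := BB_ge_one d
  have h1 : ∑ k ∈ (Ioc a b).filter (fun k => k.Coprime d), (1 : ℝ) / k -
      (d.totient : ℝ) / d * ∑ k ∈ Ioc a b, (1 : ℝ) / k =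
      ∑ k ∈ Ioc a b, ((if k.Coprime d then (1 : ℝ) else 0) - (d.totient : ℝ) / d) * (1 / (k : ℝ)) := by
    rw [Finset.sum_filter, Finset.mul_sum, ← Finset.sum_sub_distrib]
    apply Finset.sum_congr rfl
    intro k _
    split_ifs <;> ring
  rw [h1, abs_le]
  have hg0 : ∀ n : ℕ, a < n → (0 : ℝ) ≤ 1 / (n : ℝ) := by
    intro n _
    positivity
  have hanti : ∀ n : ℕ, a < n → (1 : ℝ) / ((n + 1 : ℕ) : ℝ) ≤ 1 / (n : ℝ) := by
    intro n hn
    have hn0 : (0 : ℝ) < n := by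
      have : 0 < n := by omega
      exact_mod_cast this
    apply one_div_le_one_div_of_le hn0
    push_cast
    linarith
  constructor
  · have h2 := abel_mono (fun k => -((if k.Coprime d then (1 : ℝ) else 0) - (d.totient : ℝ) / d))
      (fun k => 1 / (k : ℝ)) (2 * BB d) (by linarith) a b hg0 hanti (fun u _ => by
        have h3 := B5_partial d a u
        rw [abs_le] at h3
        rw [Finset.sum_neg_distrib]
        linarith [h3.1])
    have h4 : ∑ k ∈ Ioc a b, -((if k.Coprime d then (1 : ℝ) else 0) - (d.totient : ℝ) / d) * (1 / (k : ℝ)) =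
        -∑ k ∈ Ioc a b, ((if k.Coprime d then (1 : ℝ) else 0) - (d.totient : ℝ) / d) * (1 / (k : ℝ)) := by
      rw [← Finset.sum_neg_distrib]
      apply Finset.sum_congr rfl
      intro k _
      ring
    rw [h4] at h2
    linarith
  · exact abel_mono (fun k => (if k.Coprime d then (1 : ℝ) else 0) - (d.totient : ℝ) / d)
      (fun k => 1 / (k : ℝ)) (2 * BB d) (by linarith) a b hg0 hanti (fun u _ => by
        have h3 := B5_partial d a u
        rw [abs_le] at h3
        exact h3.2)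

theorem B5_reindex (d e y y' : ℕ) (he : 1 ≤ e) (hed : e.Coprime d) :
    ∑ n ∈ (II d y y').filter (fun n => e ∣ n), (1 : ℝ) / n =
      (1 / (e : ℝ)) * ∑ k ∈ (Ioc (y / e) (y' / e)).filter (fun k => k.Coprime d), (1 : ℝ) / k := by
  rw [Finset.mul_sum]
  apply Finset.sum_nbij' (fun n => n / e) (fun k => e * k)
  · intro n hn
    unfold II at hn
    rw [mem_filter, mem_filter, mem_Ioc] at hn
    obtain ⟨⟨⟨h1, h2⟩, h3⟩, k, rfl⟩ := hn
    rw [Nat.mul_div_cancel_left k (by omega), mem_filter, mem_Ioc]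
    refine ⟨⟨Nat.div_lt_of_lt_mul h1, ?_⟩, Nat.Coprime.coprime_dvd_left (Dvd.intro_left e rfl) h3⟩
    rw [Nat.le_div_iff_mul_le (by omega), mul_comm]
    exact h2
  · intro k hk
    rw [mem_filter, mem_Ioc] at hk
    obtain ⟨⟨h1, h2⟩, h3⟩ := hk
    unfold II
    rw [mem_filter, mem_filter, mem_Ioc]
    refine ⟨⟨⟨?_, ?_⟩, Nat.Coprime.mul_left hed h3⟩, Dvd.intro k rfl⟩
    · rw [Nat.div_lt_iff_lt_mul (by omega), mul_comm] at h1
      exact h1
    · rw [Nat.le_div_iff_mul_le (by omega), mul_comm] at h2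
      exact h2
  · intro n hn
    rw [mem_filter] at hn
    exact Nat.mul_div_cancel' hn.2
  · intro k _
    exact Nat.mul_div_cancel_left k (by omega)
  · intro n hn
    rw [mem_filter] at hn
    obtain ⟨_, k, rfl⟩ := hn
    rw [Nat.mul_div_cancel_left k (by omega)]
    push_cast
    rw [one_div_mul_one_div]

theorem coprime_multiples (d : ℕ) [NeZero d] (e y y' : ℕ) (he : 1 ≤ e) (hed : e.Coprime d)
    (hy : 2 * e ≤ y) (hyy : y ≤ y') :
    |∑ n ∈ (II d y y').filter (fun n => e ∣ n), (1 : ℝ) / n -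
      (d.totient : ℝ) / d * Real.log ((y' : ℝ) / y) * (1 / (e : ℝ))| ≤ 4 * BB d / y := by
  have hB := BB_ge_one d
  have hd0 : (0 : ℝ) < d := by
    have : 0 < d := Nat.pos_of_ne_zero (NeZero.ne d)
    exact_mod_cast this
  have he0 : (0 : ℝ) < e := by exact_mod_cast he
  have hy0 : (0 : ℝ) < y := by
    have : 0 < y := by omega
    exact_mod_cast this
  obtain ⟨θ, hθ⟩ : ∃ θ : ℝ, θ = (d.totient : ℝ) / d := ⟨_, rfl⟩
  have hθ0 : 0 ≤ θ := by rw [hθ]; positivity
  have hθ1 : θ ≤ 1 := by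
    rw [hθ, div_le_one hd0]
    exact_mod_cast Nat.totient_le d
  rw [B5_reindex d e y y' he hed]
  have h1 := B5_abel d (y / e) (y' / e)
  have h2 := B5_log_bound e y y' he hy hyy
  rw [← hθ] at h1 ⊢
  obtain ⟨A, hA⟩ : ∃ A : ℝ, A = ∑ k ∈ (Ioc (y / e) (y' / e)).filter (fun k => k.Coprime d), (1 : ℝ) / k :=
    ⟨_, rfl⟩
  obtain ⟨S, hS⟩ : ∃ S : ℝ, S = ∑ k ∈ Ioc (y / e) (y' / e), (1 : ℝ) / k := ⟨_, rfl⟩
  obtain ⟨Lg, hLg⟩ : ∃ Lg : ℝ, Lg = Real.log ((y' : ℝ) / y) := ⟨_, rfl⟩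
  rw [← hA, ← hS] at h1
  rw [← hS, ← hLg] at h2
  rw [← hA, ← hLg]
  have h3 : (1 : ℝ) / ((y / e + 1 : ℕ) : ℝ) ≤ e / y := by
    rw [div_le_div_iff₀ (by positivity) hy0, one_mul]
    have h4 : y < e * (y / e + 1) := Nat.lt_mul_div_succ y (by omega)
    have h5 : (y : ℝ) < e * ((y / e + 1 : ℕ) : ℝ) := by exact_mod_cast h4
    exact h5.le
  have h4 : |A - θ * S| ≤ 2 * BB d * (e / y) :=
    le_trans h1 (mul_le_mul_of_nonneg_left h3 (by linarith))
  have h5 : |θ * S - θ * Lg| ≤ 2 * (e / y) := by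
    rw [← mul_sub, abs_mul, abs_of_nonneg hθ0]
    calc θ * |S - Lg| ≤ 1 * |S - Lg| := mul_le_mul_of_nonneg_right hθ1 (abs_nonneg _)
      _ = |S - Lg| := one_mul _
      _ ≤ 2 * e / y := h2
      _ = 2 * (e / y) := by ring
  have h6 : |A - θ * Lg| ≤ (2 * BB d + 2) * (e / y) := by
    calc |A - θ * Lg| = |(A - θ * S) + (θ * S - θ * Lg)| := by
          congr 1
          ring
      _ ≤ |A - θ * S| + |θ * S - θ * Lg| := abs_add_le _ _
      _ ≤ 2 * BB d * (e / y) + 2 * (e / y) := add_le_add h4 h5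
      _ = (2 * BB d + 2) * (e / y) := by ring
  have h7 : 1 / (e : ℝ) * A - θ * Lg * (1 / (e : ℝ)) = (1 / (e : ℝ)) * (A - θ * Lg) := by ring
  rw [h7, abs_mul, abs_of_nonneg (by positivity)]
  calc 1 / (e : ℝ) * |A - θ * Lg| ≤ 1 / (e : ℝ) * ((2 * BB d + 2) * (e / y)) :=
        mul_le_mul_of_nonneg_left h6 (by positivity)
    _ = (2 * BB d + 2) / y := by
        field_simp
    _ ≤ 4 * BB d / y := by
        apply div_le_div_of_nonneg_right _ hy0.le
        linarith

theorem noncoprime_multiples (d : ℕ) (e y y' : ℕ) (hed : ¬ e.Coprime d) :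
    ∑ n ∈ (II d y y').filter (fun n => e ∣ n), (1 : ℝ) / n = 0 := by
  apply Finset.sum_eq_zero
  intro n hn
  exfalso
  unfold II at hn
  rw [mem_filter, mem_filter] at hn
  exact hed (Nat.Coprime.coprime_dvd_left hn.2 hn.1.2)

end Pool.Agent.Lib.MP_42948a_nt.OM
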