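import Pool.Agent.Lib.MP_42948a_nt.OM.B2
import Pool.Agent.Lib.MP_42948a_nt.OA.ED
import Pool.Agent.Lib.MP_42948a_nt.OA.EE

/-!
# Polya-Vinogradov (job B3)

Follow `OA/EF.lean` (`EF_reindex`, `EF_gcd_unit` are private there: copy them). For `x : ZMod d`,
`d * χ x = ∑_a χ a ∑_t e(t (x - a))` (`AddChar.sum_mulShift`). Summing over `x = n`, `1 ≤ n ≤ N`:
`d ∑_{n ≤ N} χ n = ∑_t (∑_{n ≤ N} e(t n)) (∑_a χ(a) e(-t a))`. For `t = 0` the second factor is `∑_a χ a = 0`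
(`MulChar.sum_eq_zero_of_ne_one`). For `t ≠ 0`: the first factor is `≤ d/(2 min(t, d - t))` (`geom_bound`), the second is
`≤ √(d gcd(t.val, d))` (`gauss_bound` at `-t`; `gcd((-t).val, d) = gcd(t.val, d)` as in `EF_gcd_unit` with the unit `-1`). Sum over `t`
with `gcd_sum`: the total is `≤ d √d τ(d) (1 + log d) = d BB d`.
-/

namespace Pool.Agent.Lib.MP_42948a_nt.OM

open Finset Pool.Agent.Lib.MP_42948a_nt.OA

private theorem B3_reindex (d : ℕ) [NeZero d] (f : ℕ → ℝ) :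
    ∑ t ∈ (univ : Finset (ZMod d)).erase 0, f t.val = ∑ t ∈ Icc 1 (d - 1), f t := by
  refine Finset.sum_nbij' (fun t : ZMod d => t.val) (fun j => (j : ZMod d)) ?_ ?_ ?_ ?_ ?_
  · intro t ht
    rw [mem_erase] at ht
    rw [mem_Icc]
    have h1 := ZMod.val_lt t
    have h0 : t.val ≠ 0 := (ZMod.val_ne_zero t).2 ht.1
    omega
  · intro j hj
    rw [mem_Icc] at hj
    rw [mem_erase]
    refine ⟨?_, mem_univ _⟩
    intro h
    have h2 := congrArg ZMod.val h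
    rw [ZMod.val_natCast_of_lt (by omega), ZMod.val_zero] at h2
    omega
  · intro t _
    exact ZMod.natCast_zmod_val t
  · intro j hj
    rw [mem_Icc] at hj
    exact ZMod.val_natCast_of_lt (by omega)
  · intro t _
    rfl

private theorem B3_gcd_dvd (d : ℕ) [NeZero d] (x u : ZMod d) :
    Nat.gcd x.val d ∣ Nat.gcd (x * u).val d := by
  apply Nat.dvd_gcd _ (Nat.gcd_dvd_right _ _)
  rw [ZMod.val_mul]
  exact (Nat.dvd_mod_iff (Nat.gcd_dvd_right _ _)).2 (Dvd.dvd.mul_right (Nat.gcd_dvd_left _ _) _)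

private theorem B3_gcd_neg (d : ℕ) [NeZero d] (x : ZMod d) :
    Nat.gcd (-x).val d = Nat.gcd x.val d := by
  apply Nat.dvd_antisymm
  · have h := B3_gcd_dvd d (-x) (-1)
    rwa [neg_mul_neg, mul_one] at h
  · have h := B3_gcd_dvd d x (-1)
    rwa [mul_neg, mul_one] at h

private theorem B3_ind (d : ℕ) [NeZero d] (χ : DirichletCharacter ℂ d) (x : ZMod d) :
    ∑ a : ZMod d, ∑ t : ZMod d, χ a * ZMod.stdAddChar (t * (x - a)) = (d : ℂ) * χ x := by
  have h1 : ∀ a : ZMod d, ∑ t : ZMod d, χ a * ZMod.stdAddChar (t * (x - a)) =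
      if a = x then χ x * (d : ℂ) else 0 := by
    intro a
    rw [← Finset.mul_sum, AddChar.sum_mulShift _ (ZMod.isPrimitive_stdAddChar d), ZMod.card]
    by_cases hh : a = x
    · rw [if_pos hh, if_pos (by rw [hh, sub_self]), hh]
    · rw [if_neg hh, if_neg, Nat.cast_zero, mul_zero]
      intro h0
      exact hh (sub_eq_zero.1 h0).symm
  rw [Finset.sum_congr rfl fun a _ => h1 a, Finset.sum_ite_eq' univ x, if_pos (mem_univ _), mul_comm]

private theorem B3_card (d : ℕ) [NeZero d] (χ : DirichletCharacter ℂ d) (N : ℕ) :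
    (d : ℂ) * ∑ n ∈ Icc 1 N, χ (n : ZMod d) =
      ∑ t : ZMod d, (∑ n ∈ Icc 1 N, ZMod.stdAddChar (t * (n : ZMod d))) *
        ∑ a : ZMod d, χ a * ZMod.stdAddChar ((-t) * a) := by
  classical
  rw [Finset.mul_sum]
  have h2 : ∀ n ∈ Icc 1 N, (d : ℂ) * χ (n : ZMod d) =
      ∑ t : ZMod d, ∑ a : ZMod d, ZMod.stdAddChar (t * (n : ZMod d)) *
        (χ a * ZMod.stdAddChar ((-t) * a)) := by
    intro n _
    rw [← B3_ind d χ n, Finset.sum_comm]
    apply Finset.sum_congr rfl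
    intro t _
    apply Finset.sum_congr rfl
    intro a _
    have h3 : t * ((n : ZMod d) - a) = t * (n : ZMod d) + (-t) * a := by ring
    rw [h3, AddChar.map_add_eq_mul]
    ring
  rw [Finset.sum_congr rfl h2, Finset.sum_comm]
  apply Finset.sum_congr rfl
  intro t _
  rw [Finset.sum_mul_sum]

theorem polya (d : ℕ) [NeZero d] (χ : DirichletCharacter ℂ d) (hχ : χ ≠ 1) (N : ℕ) :
    ‖∑ n ∈ Icc 1 N, χ (n : ZMod d)‖ ≤ BB d := by
  classical
  have hd0 : 0 < d := Nat.pos_of_ne_zero (NeZero.ne d)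
  have hd : (0 : ℝ) < d := by exact_mod_cast hd0
  obtain ⟨a, ha⟩ : ∃ a : ZMod d → ℂ, a = fun t => ∑ n ∈ Icc 1 N, ZMod.stdAddChar (t * (n : ZMod d)) :=
    ⟨_, rfl⟩
  obtain ⟨b, hb⟩ : ∃ b : ZMod d → ℂ, b = fun t =>
      ∑ a : ZMod d, χ a * ZMod.stdAddChar ((-t) * a) := ⟨_, rfl⟩
  have hcard : (d : ℂ) * ∑ n ∈ Icc 1 N, χ (n : ZMod d) = ∑ t : ZMod d, a t * b t := by
    rw [B3_card, ha, hb]
  have hb0 : b 0 = 0 := by
    rw [hb]
    dsimp only
    have : ∀ x ∈ (univ : Finset (ZMod d)), χ x * (ZMod.stdAddChar ((-(0 : ZMod d)) * x) : ℂ) = χ x := by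
      intro x _
      rw [neg_zero, zero_mul, AddChar.map_zero_eq_one, mul_one]
    rw [Finset.sum_congr rfl this]
    exact MulChar.sum_eq_zero_of_ne_one hχ
  have hsplit : (d : ℂ) * ∑ n ∈ Icc 1 N, χ (n : ZMod d) =
      ∑ t ∈ (univ : Finset (ZMod d)).erase 0, a t * b t := by
    rw [hcard, ← Finset.add_sum_erase univ (fun t => a t * b t) (mem_univ (0 : ZMod d)), hb0,
      mul_zero, zero_add]
  have hbt : ∀ t : ZMod d, ‖b t‖ ≤ √(d : ℝ) * √(Nat.gcd t.val d : ℝ) := by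
    intro t
    have h1 := gauss_bound d χ (-t)
    rw [B3_gcd_neg] at h1
    rw [← Real.sqrt_mul hd.le]
    apply Real.le_sqrt_of_sq_le
    rw [hb]
    exact h1
  have hterm : ∀ t ∈ (univ : Finset (ZMod d)).erase 0, ‖a t * b t‖ ≤
      (d : ℝ) * √(d : ℝ) * (√(Nat.gcd t.val d : ℝ) / (2 * (min t.val (d - t.val) : ℕ))) := by
    intro t ht
    rw [mem_erase] at ht
    have h1 := geom_bound d t ht.1 N
    have h2 := hbt t
    rw [norm_mul]
    have h3 : ‖a t‖ ≤ (d : ℝ) / (2 * (min t.val (d - t.val) : ℕ)) := by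
      rw [ha]
      exact h1
    calc ‖a t‖ * ‖b t‖ ≤ (d : ℝ) / (2 * (min t.val (d - t.val) : ℕ)) *
          (√(d : ℝ) * √(Nat.gcd t.val d : ℝ)) := by
          apply mul_le_mul h3 h2 (norm_nonneg _)
          positivity
      _ = _ := by ring
  have hnorm : ‖(d : ℂ) * ∑ n ∈ Icc 1 N, χ (n : ZMod d)‖ ≤
      (d : ℝ) * √(d : ℝ) * ((d.divisors.card : ℝ) * (1 + Real.log d)) := by
    rw [hsplit]
    refine le_trans (norm_sum_le _ _) (le_trans (Finset.sum_le_sum hterm) ?_)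
    rw [← Finset.mul_sum]
    apply mul_le_mul_of_nonneg_left _ (by positivity)
    rw [B3_reindex d (fun t => √(Nat.gcd t d : ℝ) / (2 * (min t (d - t) : ℕ)))]
    exact gcd_sum d hd0
  rw [norm_mul, Complex.norm_natCast] at hnorm
  unfold BB
  have h5 : (d : ℝ) * ‖∑ n ∈ Icc 1 N, χ (n : ZMod d)‖ ≤
      (d : ℝ) * (√(d : ℝ) * (d.divisors.card : ℝ) * (1 + Real.log d)) := by
    refine le_trans hnorm (le_of_eq ?_)
    ring
  exact le_of_mul_le_mul_left h5 hd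

end Pool.Agent.Lib.MP_42948a_nt.OM
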