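import Pool.Agent.Lib.MP_42948a_nt.OM.B1
import Pool.Agent.Lib.MP_42948a_nt.OM.B3

/-!
# Character sums over multiples of `e` (job B4)

The multiples of `e` in `(y, y']` are the `e k`, `k ∈ (y/e, y'/e]` (natural division; `Nat.div_lt_iff_lt_mul`,
`Nat.le_div_iff_mul_le`), so the sum is `(χ(e)/e) ∑_{k ∈ Ioc (y/e) (y'/e)} χ(k)/k`. Apply `abel_norm` with `a k = χ k`,
`g k = 1/k`, `C = 2 BB d` (`∑_{k ∈ Ioc a u} χ k` is the difference of two sums over `Icc 1 _`, each `≤ BB d` by `polya`):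
the inner sum is `≤ 2 BB d / (y/e + 1)`, and `e (y/e + 1) > y` (`Nat.lt_mul_div_succ`-type lemma), `‖χ e‖ ≤ 1`
(`DirichletCharacter.norm_le_one`).
-/

namespace Pool.Agent.Lib.MP_42948a_nt.OM

open Finset Pool.Agent.Lib.MP_42948a_nt.OA

theorem B4_interval (d : ℕ) [NeZero d] (χ : DirichletCharacter ℂ d) (hχ : χ ≠ 1) (a u : ℕ) :
    ‖∑ n ∈ Ioc a u, χ (n : ZMod d)‖ ≤ 2 * BB d := by
  have h0 : 0 ≤ BB d := le_trans (norm_nonneg _) (polya d χ hχ 0)
  rcases le_total a u with h | h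
  · have h1 : ∑ n ∈ Icc 1 u, χ (n : ZMod d) = ∑ n ∈ Icc 1 a, χ (n : ZMod d) +
        ∑ n ∈ Ioc a u, χ (n : ZMod d) := by
      have e1 : Icc 1 u = Ioc 0 u := by ext x; simp only [mem_Icc, mem_Ioc]; omega
      have e2 : Icc 1 a = Ioc 0 a := by ext x; simp only [mem_Icc, mem_Ioc]; omega
      rw [e1, e2]
      exact (Finset.sum_Ioc_consecutive _ (Nat.zero_le a) h).symm
    have h2 : ∑ n ∈ Ioc a u, χ (n : ZMod d) = ∑ n ∈ Icc 1 u, χ (n : ZMod d) -
        ∑ n ∈ Icc 1 a, χ (n : ZMod d) := by rw [h1]; ring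
    rw [h2]
    calc ‖∑ n ∈ Icc 1 u, χ (n : ZMod d) - ∑ n ∈ Icc 1 a, χ (n : ZMod d)‖
        ≤ ‖∑ n ∈ Icc 1 u, χ (n : ZMod d)‖ + ‖∑ n ∈ Icc 1 a, χ (n : ZMod d)‖ := norm_sub_le _ _
      _ ≤ BB d + BB d := add_le_add (polya d χ hχ u) (polya d χ hχ a)
      _ = 2 * BB d := by ring
  · rw [Finset.Ioc_eq_empty (by omega), Finset.sum_empty, norm_zero]
    linarith

theorem char_multiples (d : ℕ) [NeZero d] (χ : DirichletCharacter ℂ d) (hχ : χ ≠ 1) (e y y' : ℕ)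
    (he : 1 ≤ e) (hy : 1 ≤ y) :
    ‖∑ n ∈ (Ioc y y').filter (fun n => e ∣ n), χ (n : ZMod d) / (n : ℂ)‖ ≤ 2 * BB d / y := by
  have h0 : 0 ≤ BB d := le_trans (norm_nonneg _) (polya d χ hχ 0)
  have he0 : 0 < e := he
  have heR : (0 : ℝ) < e := by exact_mod_cast he0
  have heC : (e : ℂ) ≠ 0 := by exact_mod_cast he0.ne'
  have h1 : ∑ n ∈ (Ioc y y').filter (fun n => e ∣ n), χ (n : ZMod d) / (n : ℂ) =
      χ (e : ZMod d) / (e : ℂ) * ∑ k ∈ Ioc (y / e) (y' / e), χ (k : ZMod d) * (((1 / (k : ℝ) : ℝ)) : ℂ) := by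
    rw [Finset.mul_sum]
    refine Finset.sum_nbij' (fun n => n / e) (fun k => e * k) ?_ ?_ ?_ ?_ ?_
    · intro n hn
      rw [mem_filter, mem_Ioc] at hn
      obtain ⟨⟨h1, h2⟩, k, rfl⟩ := hn
      rw [mem_Ioc, Nat.mul_div_cancel_left k he0]
      constructor
      · rw [Nat.div_lt_iff_lt_mul he0]
        linarith [mul_comm e k]
      · rw [Nat.le_div_iff_mul_le he0]
        linarith [mul_comm e k]
    · intro k hk
      rw [mem_Ioc] at hk
      rw [mem_filter, mem_Ioc]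
      have h1 := (Nat.div_lt_iff_lt_mul he0).1 hk.1
      have h2 := (Nat.le_div_iff_mul_le he0).1 hk.2
      refine ⟨⟨?_, ?_⟩, Dvd.intro _ rfl⟩
      · linarith [mul_comm e k]
      · linarith [mul_comm e k]
    · intro n hn
      rw [mem_filter] at hn
      exact Nat.mul_div_cancel' hn.2
    · intro k _
      exact Nat.mul_div_cancel_left k he0
    · intro n hn
      rw [mem_filter, mem_Ioc] at hn
      obtain ⟨⟨h1, h2⟩, k, rfl⟩ := hn
      rw [Nat.mul_div_cancel_left k he0]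
      push_cast
      rw [map_mul]
      have hk : (k : ℂ) ≠ 0 := by
        rintro hk0
        have : k = 0 := by exact_mod_cast hk0
        subst this
        omega
      field_simp
  rw [h1, norm_mul, norm_div]
  have h2 : ‖∑ k ∈ Ioc (y / e) (y' / e), χ (k : ZMod d) * (((1 / (k : ℝ) : ℝ)) : ℂ)‖ ≤
      2 * BB d * (1 / ((y / e + 1 : ℕ) : ℝ)) := by
    refine abel_norm (fun k => χ (k : ZMod d)) (fun k => 1 / (k : ℝ)) (2 * BB d) (y / e) (y' / e)
      (fun n _ => by positivity) (fun n hn => ?_) (fun u => B4_interval d χ hχ (y / e) u)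
    have hn0 : (0 : ℝ) < n := by exact_mod_cast lt_of_le_of_lt (Nat.zero_le _) hn
    apply one_div_le_one_div_of_le hn0
    push_cast
    linarith
  have h3 : ‖χ (e : ZMod d)‖ ≤ 1 := DirichletCharacter.norm_le_one χ _
  have h4 : ‖(e : ℂ)‖ = e := by simp
  rw [h4]
  have h5 : (y : ℝ) ≤ e * ((y / e + 1 : ℕ) : ℝ) := by
    exact_mod_cast (Nat.lt_mul_div_succ y he0).le
  have hyR : (0 : ℝ) < y := by exact_mod_cast hy
  calc ‖χ (e : ZMod d)‖ / e * ‖∑ k ∈ Ioc (y / e) (y' / e), χ (k : ZMod d) * (((1 / (k : ℝ) : ℝ)) : ℂ)‖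
      ≤ 1 / e * (2 * BB d * (1 / ((y / e + 1 : ℕ) : ℝ))) := by
        apply mul_le_mul _ h2 (norm_nonneg _) (by positivity)
        exact div_le_div_of_nonneg_right h3 heR.le
    _ = 2 * BB d / (e * ((y / e + 1 : ℕ) : ℝ)) := by
        have : ((y / e + 1 : ℕ) : ℝ) ≠ 0 := by positivity
        field_simp
    _ ≤ 2 * BB d / y := by
        apply div_le_div_of_nonneg_left (by linarith) hyR h5

end Pool.Agent.Lib.MP_42948a_nt.OM
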