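import Pool.Agent.Lib.MP_42948a_nt.OM.Defs

/-!
# Abel summation with a decreasing weight (job B1)

Let `A u = ∑ n ∈ Ioc y u, a n`. By induction on `N ≥ y`:
`∑ n ∈ Ioc y N, a n * g n = A N * g (N+1) + ∑ n ∈ Ioc y N, A n * (g n - g (n+1))`
(step: `A (N+1) = A N + a (N+1)`; both sides increase by `a (N+1) g (N+1)`). All `g n - g (n+1) ≥ 0`, `g (N+1) ≥ 0`, so the
norm (resp. the value, in the real case, using `A n ≤ C` for all `n > y`, and `A y = 0 ≤ C`) is at most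
`C g (N+1) + C ∑ n ∈ Ioc y N, (g n - g (n+1)) = C g (y+1)` (telescoping). If `N ≤ y` the sum is empty and `C g (y+1) ≥ 0`.
-/

namespace Pool.Agent.Lib.MP_42948a_nt.OM

open Finset Pool.Agent.Lib.MP_42948a_nt.OA

theorem B1_ident {R : Type*} [CommRing R] (a g : ℕ → R) (y N : ℕ) (hyN : y ≤ N) :
    ∑ n ∈ Ioc y N, a n * g n = (∑ n ∈ Ioc y N, a n) * g (N + 1) +
      ∑ n ∈ Ioc y N, (∑ m ∈ Ioc y n, a m) * (g n - g (n + 1)) := by
  induction N, hyN using Nat.le_induction with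
  | base => simp
  | succ N hN ih =>
    rw [sum_Ioc_succ_top hN, sum_Ioc_succ_top hN, sum_Ioc_succ_top hN, ih, sum_Ioc_succ_top hN]
    ring

theorem B1_tele (g : ℕ → ℝ) (y N : ℕ) (hyN : y ≤ N) :
    ∑ n ∈ Ioc y N, (g n - g (n + 1)) = g (y + 1) - g (N + 1) := by
  induction N, hyN using Nat.le_induction with
  | base => simp
  | succ N hN ih =>
    rw [sum_Ioc_succ_top hN, ih]
    ring

theorem abel_norm (a : ℕ → ℂ) (g : ℕ → ℝ) (C : ℝ) (y N : ℕ) (hg0 : ∀ n, y < n → 0 ≤ g n)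
    (hanti : ∀ n, y < n → g (n + 1) ≤ g n) (h : ∀ u, ‖∑ n ∈ Ioc y u, a n‖ ≤ C) :
    ‖∑ n ∈ Ioc y N, a n * (g n : ℂ)‖ ≤ C * g (y + 1) := by
  have hC : 0 ≤ C := (norm_nonneg _).trans (h 0)
  rcases le_total y N with hyN | hyN
  · rw [B1_ident a (fun n => (g n : ℂ)) y N hyN]
    have h1 : ‖(∑ n ∈ Ioc y N, a n) * (g (N + 1) : ℂ)‖ ≤ C * g (N + 1) := by
      rw [norm_mul, Complex.norm_real, Real.norm_of_nonneg (hg0 (N + 1) (by omega))]
      exact mul_le_mul_of_nonneg_right (h N) (hg0 (N + 1) (by omega))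
    have h2 : ‖∑ n ∈ Ioc y N, (∑ m ∈ Ioc y n, a m) * ((g n : ℂ) - (g (n + 1) : ℂ))‖ ≤
        ∑ n ∈ Ioc y N, C * (g n - g (n + 1)) := by
      refine norm_sum_le_of_le _ (fun n hn => ?_)
      have hn' : y < n := (mem_Ioc.1 hn).1
      have h3 : 0 ≤ g n - g (n + 1) := sub_nonneg.2 (hanti n hn')
      have h4 : ((g n : ℂ) - (g (n + 1) : ℂ)) = ((g n - g (n + 1) : ℝ) : ℂ) := by push_cast; rfl
      rw [h4, norm_mul, Complex.norm_real, Real.norm_of_nonneg h3]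
      exact mul_le_mul_of_nonneg_right (h n) h3
    rw [← mul_sum, B1_tele g y N hyN] at h2
    refine (norm_add_le _ _).trans ((add_le_add h1 h2).trans (le_of_eq ?_))
    ring
  · rw [Ioc_eq_empty (by omega), sum_empty, norm_zero]
    exact mul_nonneg hC (hg0 (y + 1) (by omega))

theorem abel_mono (a g : ℕ → ℝ) (C : ℝ) (hC : 0 ≤ C) (y N : ℕ) (hg0 : ∀ n, y < n → 0 ≤ g n)
    (hanti : ∀ n, y < n → g (n + 1) ≤ g n) (h : ∀ u, y < u → ∑ n ∈ Ioc y u, a n ≤ C) :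
    ∑ n ∈ Ioc y N, a n * g n ≤ C * g (y + 1) := by
  have h' : ∀ u, ∑ n ∈ Ioc y u, a n ≤ C := by
    intro u
    rcases lt_or_ge y u with hu | hu
    · exact h u hu
    · rw [Ioc_eq_empty (by omega), sum_empty]
      exact hC
  rcases le_total y N with hyN | hyN
  · rw [B1_ident a g y N hyN]
    have h1 : (∑ n ∈ Ioc y N, a n) * g (N + 1) ≤ C * g (N + 1) :=
      mul_le_mul_of_nonneg_right (h' N) (hg0 (N + 1) (by omega))
    have h2 : ∑ n ∈ Ioc y N, (∑ m ∈ Ioc y n, a m) * (g n - g (n + 1)) ≤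
        ∑ n ∈ Ioc y N, C * (g n - g (n + 1)) := by
      refine sum_le_sum (fun n hn => ?_)
      have hn' : y < n := (mem_Ioc.1 hn).1
      have h3 : 0 ≤ g n - g (n + 1) := sub_nonneg.2 (hanti n hn')
      exact mul_le_mul_of_nonneg_right (h' n) h3
    rw [← mul_sum, B1_tele g y N hyN] at h2
    refine (add_le_add h1 h2).trans (le_of_eq ?_)
    ring
  · rw [Ioc_eq_empty (by omega), sum_empty]
    exact mul_nonneg hC (hg0 (y + 1) (by omega))

end Pool.Agent.Lib.MP_42948a_nt.OM
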