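import Pool.Agent.Lib.MP_42948a_nt.OM.Defs
import Pool.Agent.Lib.MP_2c5684_nt.Mertens

/-!
# Sums of `Λ(n)/n` (job E0)

`nonprime_vM_sum`: by `Chebyshev.sum_PrimePow_eq_sum_sum` (in `Mathlib/NumberTheory/Chebyshev.lean`) with `f n = 0` for `n` prime and
`Λ n / n` otherwise, the sum (over `Ioc 0 N`, `Λ n = 0` unless `n` is a prime power) is `∑_{k ≥ 2} ∑_{p prime} log p / p^k` over a finite
range, `Λ (p^k) = log p` (`ArithmeticFunction.vonMangoldt_apply_pow`, `vonMangoldt_apply_prime`). For fixed `p` the sum over `k ≥ 2` is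
`≤ log p / (p (p-1)) ≤ 2 log p / p^2`, and `log p ≤ 2 √p`, so the total is `≤ 4 ∑_n 1/n^(3/2) < ∞`
(`Real.summable_one_div_nat_rpow`). Any other proof is fine.

`prime_log_sum`: `∑_{z < n ≤ t} Λ(n)/n` is within `6.4 + ...` of `log t - log z` by `sum_vM_le` and `le_sum_vM` of
`Pool.Agent.Lib.MP_2c5684_nt.Mertens` (their `vM n` is `Λ n`), and it differs from the sum over primes by at most the constant of
`nonprime_vM_sum`.
-/

namespace Pool.Agent.Lib.MP_42948a_nt.OM

open Finset Pool.Agent.Lib.MP_42948a_nt.OA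

theorem nonprime_vM_sum : ∃ C : ℝ, 0 ≤ C ∧ ∀ N : ℕ,
    ∑ n ∈ (Icc 1 N).filter (fun n => ¬ n.Prime), ArithmeticFunction.vonMangoldt n / n ≤ C := by
  classical
  have hs := ArithmeticFunction.vonMangoldt.summable_residueClass_non_primes_div (q := 1) 0
  have hnn : ∀ n : ℕ, 0 ≤ (if n.Prime then 0 else
      ArithmeticFunction.vonMangoldt.residueClass (0 : ZMod 1) n) / (n : ℝ) := by
    intro n
    refine div_nonneg ?_ (Nat.cast_nonneg n)
    split_ifs
    · exact le_rfl
    · exact ArithmeticFunction.vonMangoldt.residueClass_nonneg _ n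
  refine ⟨∑' n : ℕ, (if n.Prime then 0 else
      ArithmeticFunction.vonMangoldt.residueClass (0 : ZMod 1) n) / (n : ℝ), tsum_nonneg hnn, ?_⟩
  intro N
  refine le_trans (le_of_eq ?_) (hs.sum_le_tsum ((Icc 1 N).filter (fun n => ¬ n.Prime))
    (fun n _ => hnn n))
  refine sum_congr rfl ?_
  intro n hn
  rw [mem_filter] at hn
  rw [if_neg hn.2]
  congr 1
  unfold ArithmeticFunction.vonMangoldt.residueClass
  rw [Set.indicator_of_mem]
  exact Subsingleton.elim _ _

theorem prime_log_sum : ∃ C : ℝ, 0 ≤ C ∧ ∀ z t : ℕ, 1 ≤ z → z ≤ t →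
    |∑ p ∈ (Ioc z t).filter Nat.Prime, Real.log p / p - (Real.log t - Real.log z)| ≤ C := by
  classical
  obtain ⟨C, hC0, hC⟩ := nonprime_vM_sum
  refine ⟨C + 6.4, by positivity, ?_⟩
  intro z t hz hzt
  have hlog4 := Pool.Agent.Lib.MP_2c5684_nt.log_four_le
  have ht1 := Pool.Agent.Lib.MP_2c5684_nt.sum_vM_le t (by omega)
  have ht2 := Pool.Agent.Lib.MP_2c5684_nt.le_sum_vM t (by omega)
  have hz1 := Pool.Agent.Lib.MP_2c5684_nt.sum_vM_le z hz
  have hz2 := Pool.Agent.Lib.MP_2c5684_nt.le_sum_vM z hz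
  have hspl : ∑ n ∈ Icc 1 t, ArithmeticFunction.vonMangoldt n / (n : ℝ) =
      ∑ n ∈ Icc 1 z, ArithmeticFunction.vonMangoldt n / (n : ℝ) +
        ∑ n ∈ Ioc z t, ArithmeticFunction.vonMangoldt n / (n : ℝ) := by
    rw [← sum_union]
    · congr 1
      ext n
      simp only [mem_Icc, mem_union, mem_Ioc]
      omega
    · rw [Finset.disjoint_left]
      intro n hn hn'
      rw [mem_Icc] at hn
      rw [mem_Ioc] at hn'
      omega
  have hpr : ∑ n ∈ Ioc z t, ArithmeticFunction.vonMangoldt n / (n : ℝ) =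
      ∑ p ∈ (Ioc z t).filter Nat.Prime, Real.log p / p +
        ∑ n ∈ (Ioc z t).filter (fun n => ¬ n.Prime), ArithmeticFunction.vonMangoldt n / (n : ℝ) := by
    rw [← sum_filter_add_sum_filter_not (Ioc z t) Nat.Prime]
    congr 1
    refine sum_congr rfl ?_
    intro p hp
    rw [mem_filter] at hp
    rw [ArithmeticFunction.vonMangoldt_apply_prime hp.2]
  have hn0 : 0 ≤ ∑ n ∈ (Ioc z t).filter (fun n => ¬ n.Prime),
      ArithmeticFunction.vonMangoldt n / (n : ℝ) :=
    sum_nonneg (fun n _ => div_nonneg ArithmeticFunction.vonMangoldt_nonneg (Nat.cast_nonneg n))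
  have hn1 : ∑ n ∈ (Ioc z t).filter (fun n => ¬ n.Prime),
      ArithmeticFunction.vonMangoldt n / (n : ℝ) ≤ C := by
    refine le_trans (sum_le_sum_of_subset_of_nonneg ?_ ?_) (hC t)
    · intro n hn
      rw [mem_filter, mem_Ioc] at hn
      rw [mem_filter, mem_Icc]
      exact ⟨⟨by omega, hn.1.2⟩, hn.2⟩
    · intro n _ _
      exact div_nonneg ArithmeticFunction.vonMangoldt_nonneg (Nat.cast_nonneg n)
  rw [abs_le]
  constructor <;> linarith

end Pool.Agent.Lib.MP_42948a_nt.OM
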