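import Pool.Agent.Lib.MP_42948a_nt.OM.B1
import Pool.Agent.Lib.MP_42948a_nt.OM.E0

/-!
# Sums of reciprocals of primes (job E1)

Let `C` be from `prime_log_sum`, `a n = (if n.Prime then log n / n else 0) - (log n - log (n-1))`. For `z ≥ 2` all partial sums
`∑_{n ∈ Ioc z u} a n ≤ C` (telescoping of `log n - log (n-1)`). By `abel_mono` with a nonnegative decreasing `g`:
`∑_{z < p ≤ N} (log p / p) g p ≤ ∑_{n ∈ Ioc z N} (log n - log (n-1)) g n + C g (z+1)`.

(1) `g n = 1 / log n` (`n ≥ 3`, so `0 ≤ g n ≤ 1`): `(log n - log (n-1))/log n = 1 - log (n-1)/log n ≤ - log (log (n-1) / log n) =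
log (log n) - log (log (n-1))` (`Real.one_sub_inv_le_log_of_pos` / `Real.log_le_sub_one_of_pos`), which telescopes to
`log (log N) - log (log z)`.

(2) `g n = n^(-σ) / log n ≤ 1`. Let `v = log (n-1) ≤ u = log n`. If `σ log n ≤ 1`: the term `(u - v) n^(-σ) / u ≤ (u - v)/u ≤
log u - log v`; these `n` form an initial segment `z < n ≤ Y` (`Y ≤ N` the largest with `σ log Y ≤ 1`; empty segment allowed) and the sum
is `≤ log (log Y) - log (log z) ≤ log (1/σ) - log (log z) = log (1/(σ log z))`. If `σ log n > 1` then `1/log n ≤ σ` and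
`σ (u - v) exp(-σ u) ≤ exp(-σ v) - exp(-σ u)` (`exp x ≥ 1 + x`), telescoping to `≤ 1`. Total
`≤ log (1/(σ log z)) + 1 + C` (note `log (1/(σ log z)) ≥ 0`, needed when the first segment is empty).
-/

namespace Pool.Agent.Lib.MP_42948a_nt.OM

open Finset Pool.Agent.Lib.MP_42948a_nt.OA

private theorem E1_tel (z : ℕ) (f : ℕ → ℝ) (u : ℕ) (hu : z ≤ u) :
    ∑ n ∈ Ioc z u, (f n - f (n - 1)) = f u - f z := by
  induction u, hu using Nat.le_induction with
  | base => simp
  | succ n hn ih =>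
    rw [Finset.sum_Ioc_succ_top (by omega), ih]
    simp

private theorem E1_key : ∃ C : ℝ, 0 ≤ C ∧ ∀ (z N : ℕ) (g Ψ : ℕ → ℝ), 2 ≤ z → z ≤ N →
    (∀ n, z < n → 0 ≤ g n) → (∀ n, z < n → g (n + 1) ≤ g n) →
    (∀ n, z ≤ n → (Real.log ((n + 1 : ℕ) : ℝ) - Real.log (n : ℝ)) * g (n + 1) ≤ Ψ (n + 1) - Ψ n) →
    g (z + 1) ≤ 1 →
    ∑ p ∈ (Ioc z N).filter Nat.Prime, Real.log p / p * g p ≤ Ψ N - Ψ z + C := by
  obtain ⟨C, hC0, hC⟩ := prime_log_sum
  refine ⟨C, hC0, ?_⟩
  intro z N g Ψ hz hN hg0 hanti hΨ hg1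
  have h1 := abel_mono (fun n => (if n.Prime then Real.log n / n else 0) -
    (Real.log (n : ℝ) - Real.log ((n - 1 : ℕ) : ℝ))) g C hC0 z N hg0 hanti ?_
  · have h2 : ∑ n ∈ Ioc z N, ((if n.Prime then Real.log n / n else 0) -
        (Real.log (n : ℝ) - Real.log ((n - 1 : ℕ) : ℝ))) * g n =
        ∑ p ∈ (Ioc z N).filter Nat.Prime, Real.log p / p * g p -
        ∑ n ∈ Ioc z N, (Real.log (n : ℝ) - Real.log ((n - 1 : ℕ) : ℝ)) * g n := by
      rw [Finset.sum_filter, ← Finset.sum_sub_distrib]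
      refine Finset.sum_congr rfl fun n _ => ?_
      split_ifs <;> ring
    rw [h2] at h1
    have h3 : ∑ n ∈ Ioc z N, (Real.log (n : ℝ) - Real.log ((n - 1 : ℕ) : ℝ)) * g n ≤ Ψ N - Ψ z := by
      rw [← E1_tel z Ψ N hN]
      refine Finset.sum_le_sum fun n hn => ?_
      rw [mem_Ioc] at hn
      obtain ⟨m, rfl⟩ : ∃ m, n = m + 1 := ⟨n - 1, by omega⟩
      have h4 := hΨ m (by omega)
      simpa using h4
    have h5 : C * g (z + 1) ≤ C := by
      calc C * g (z + 1) ≤ C * 1 := mul_le_mul_of_nonneg_left hg1 hC0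
        _ = C := mul_one C
    linarith
  · intro u hu
    rw [Finset.sum_sub_distrib, ← Finset.sum_filter, E1_tel z (fun n => Real.log (n : ℝ)) u hu.le]
    exact (abs_le.1 (hC z u (by omega) hu.le)).2

private theorem E1_log_pos {n : ℕ} (hn : 2 ≤ n) : 0 < Real.log (n : ℝ) := by
  apply Real.log_pos
  exact_mod_cast (show 1 < n by omega)

private theorem E1_log_three {n : ℕ} (hn : 3 ≤ n) : 1 ≤ Real.log (n : ℝ) := by
  have h1 : (3 : ℝ) ≤ n := by exact_mod_cast hn
  rw [Real.le_log_iff_exp_le (by linarith)]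
  have := Real.exp_one_lt_d9
  linarith

private theorem E1_log_mono (n : ℕ) (hn : 1 ≤ n) : Real.log (n : ℝ) ≤ Real.log ((n + 1 : ℕ) : ℝ) := by
  apply Real.log_le_log
  · exact_mod_cast hn
  · exact_mod_cast Nat.le_succ n

theorem prime_recip : ∃ C : ℝ, 0 ≤ C ∧ ∀ z N : ℕ, 2 ≤ z → z ≤ N →
    ∑ p ∈ (Ioc z N).filter Nat.Prime, (1 : ℝ) / p ≤ Real.log (Real.log N / Real.log z) + C := by
  obtain ⟨C, hC0, hC⟩ := E1_key
  refine ⟨C, hC0, ?_⟩
  intro z N hz hN
  have h1 := hC z N (fun n => 1 / Real.log (n : ℝ)) (fun n => Real.log (Real.log (n : ℝ))) hz hN ?_ ?_ ?_ ?_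
  · have h2 : ∑ p ∈ (Ioc z N).filter Nat.Prime, (1 : ℝ) / p =
        ∑ p ∈ (Ioc z N).filter Nat.Prime, Real.log p / p * (1 / Real.log (p : ℝ)) := by
      refine Finset.sum_congr rfl fun p hp => ?_
      have hp2 := (mem_filter.1 hp).2.two_le
      have h3 := (E1_log_pos hp2).ne'
      have h4 : (p : ℝ) ≠ 0 := by
        have : p ≠ 0 := by omega
        exact_mod_cast this
      field_simp
    rw [h2, Real.log_div (E1_log_pos (le_trans hz hN)).ne' (E1_log_pos hz).ne']
    exact h1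
  · intro n hn
    exact div_nonneg zero_le_one (E1_log_pos (by omega)).le
  · intro n hn
    exact one_div_le_one_div_of_le (E1_log_pos (by omega)) (E1_log_mono n (by omega))
  · intro n hn
    have hv := E1_log_pos (show 2 ≤ n by omega)
    have hu := E1_log_pos (show 2 ≤ n + 1 by omega)
    have h2 := Real.log_le_sub_one_of_pos (div_pos hv hu)
    rw [Real.log_div hv.ne' hu.ne'] at h2
    have h3 : (Real.log ((n + 1 : ℕ) : ℝ) - Real.log (n : ℝ)) * (1 / Real.log ((n + 1 : ℕ) : ℝ)) =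
        1 - Real.log (n : ℝ) / Real.log ((n + 1 : ℕ) : ℝ) := by
      field_simp
    rw [h3]
    linarith
  · have h2 := E1_log_three (show 3 ≤ z + 1 by omega)
    rw [div_le_one (by linarith)]
    exact h2

theorem prime_recip_sigma : ∃ C : ℝ, 0 ≤ C ∧ ∀ (z N : ℕ) (σ : ℝ), 2 ≤ z → 0 < σ → σ * Real.log z ≤ 1 →
    ∑ p ∈ (Ioc z N).filter Nat.Prime, (p : ℝ) ^ (-(1 + σ)) ≤ Real.log (1 / (σ * Real.log z)) + C := by
  obtain ⟨C, hC0, hC⟩ := E1_key
  refine ⟨Real.log 2 + C, add_nonneg (Real.log_nonneg (by norm_num)) hC0, ?_⟩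
  intro z N σ hz hσ hσz
  have hlz := E1_log_pos hz
  have hlogn : 0 ≤ Real.log (1 / (σ * Real.log z)) := by
    apply Real.log_nonneg
    rw [le_div_iff₀ (by positivity)]
    linarith
  rcases Nat.lt_or_ge N z with hN | hN
  · rw [Finset.Ioc_eq_empty (by omega), Finset.filter_empty, Finset.sum_empty]
    have h2 : 0 ≤ Real.log 2 := Real.log_nonneg (by norm_num)
    linarith
  have hg : ∀ n : ℕ, 2 ≤ n → 0 < (n : ℝ) ^ (-σ) / Real.log (n : ℝ) := by
    intro n hn
    have h1 := E1_log_pos hn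
    have h2 : (0 : ℝ) < n := by
      have : 0 < n := by omega
      exact_mod_cast this
    positivity
  have h1 := hC z N (fun n => (n : ℝ) ^ (-σ) / Real.log (n : ℝ))
    (fun n => Real.log (Real.log (n : ℝ)) - Real.log (1 + σ * Real.log (n : ℝ))) hz hN ?_ ?_ ?_ ?_
  · have h2 : ∑ p ∈ (Ioc z N).filter Nat.Prime, (p : ℝ) ^ (-(1 + σ)) =
        ∑ p ∈ (Ioc z N).filter Nat.Prime, Real.log p / p * ((p : ℝ) ^ (-σ) / Real.log (p : ℝ)) := by
      refine Finset.sum_congr rfl fun p hp => ?_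
      have hp2 := (mem_filter.1 hp).2.two_le
      have h3 := (E1_log_pos hp2).ne'
      have h4 : (0 : ℝ) < p := by
        have : 0 < p := by omega
        exact_mod_cast this
      rw [show -(1 + σ) = -σ + -1 by ring, Real.rpow_add h4, Real.rpow_neg_one]
      field_simp
    rw [h2]
    have hlN := E1_log_pos (le_trans hz hN)
    have h3 : Real.log (Real.log (N : ℝ)) - Real.log (1 + σ * Real.log (N : ℝ)) ≤ Real.log (1 / σ) := by
      rw [← Real.log_div hlN.ne' (by positivity)]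
      apply Real.log_le_log (by positivity)
      rw [div_le_div_iff₀ (by positivity) hσ]
      linarith
    have h4 : Real.log (1 + σ * Real.log (z : ℝ)) ≤ Real.log 2 := by
      apply Real.log_le_log (by positivity)
      linarith
    have h5 : Real.log (1 / (σ * Real.log z)) = Real.log (1 / σ) - Real.log (Real.log z) := by
      rw [← Real.log_div (by positivity) hlz.ne', div_div]
    rw [h5]
    linarith
  · intro n hn
    exact (hg n (by omega)).le
  · intro n hn
    have h2 := E1_log_pos (show 2 ≤ n by omega)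
    have h3 : (0 : ℝ) < n := by
      have : 0 < n := by omega
      exact_mod_cast this
    have h4 : ((n + 1 : ℕ) : ℝ) ^ (-σ) ≤ (n : ℝ) ^ (-σ) := by
      apply Real.rpow_le_rpow_of_nonpos h3
      · push_cast
        linarith
      · linarith
    exact div_le_div₀ (by positivity) h4 h2 (E1_log_mono n (by omega))
  · intro n hn
    have hv := E1_log_pos (show 2 ≤ n by omega)
    have hu := E1_log_pos (show 2 ≤ n + 1 by omega)
    have huv := E1_log_mono n (by omega)
    have hn0 : (0 : ℝ) < ((n + 1 : ℕ) : ℝ) := by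
      have : 0 < n + 1 := by omega
      exact_mod_cast this
    have he : ((n + 1 : ℕ) : ℝ) ^ (-σ) ≤ 1 / (1 + σ * Real.log ((n + 1 : ℕ) : ℝ)) := by
      rw [Real.rpow_def_of_pos hn0, show Real.log ((n + 1 : ℕ) : ℝ) * -σ =
        -(σ * Real.log ((n + 1 : ℕ) : ℝ)) by ring, Real.exp_neg, ← one_div]
      apply one_div_le_one_div_of_le (by positivity)
      have := Real.add_one_le_exp (σ * Real.log ((n + 1 : ℕ) : ℝ))
      linarith
    set u := Real.log ((n + 1 : ℕ) : ℝ) with hudef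
    set v := Real.log (n : ℝ) with hvdef
    have h2 : Real.log (v * (1 + σ * u) / (u * (1 + σ * v))) ≤ v * (1 + σ * u) / (u * (1 + σ * v)) - 1 :=
      Real.log_le_sub_one_of_pos (by positivity)
    rw [Real.log_div (by positivity) (by positivity), Real.log_mul (by positivity) (by positivity),
      Real.log_mul (by positivity) (by positivity)] at h2
    have h3 : (u - v) * (((n + 1 : ℕ) : ℝ) ^ (-σ) / u) ≤ (u - v) * (1 / (1 + σ * u) / u) := by
      refine mul_le_mul_of_nonneg_left ?_ (by linarith)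
      exact div_le_div_of_nonneg_right he hu.le
    have h4 : (u - v) * (1 / (1 + σ * u) / u) ≤ (u - v) * (1 / (1 + σ * v) / u) := by
      refine mul_le_mul_of_nonneg_left ?_ (by linarith)
      refine div_le_div_of_nonneg_right ?_ hu.le
      apply one_div_le_one_div_of_le (by positivity)
      have := mul_le_mul_of_nonneg_left huv hσ.le
      linarith
    have h5 : (u - v) * (1 / (1 + σ * v) / u) = 1 - v * (1 + σ * u) / (u * (1 + σ * v)) := by
      have h6 : 1 + σ * v ≠ 0 := by positivity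
      field_simp
      ring
    linarith
  · have h2 := E1_log_three (show 3 ≤ z + 1 by omega)
    rw [div_le_one (by linarith)]
    have h3 : ((z + 1 : ℕ) : ℝ) ^ (-σ) ≤ 1 := by
      apply Real.rpow_le_one_of_one_le_of_nonpos
      · have : 1 ≤ z + 1 := by omega
        exact_mod_cast this
      · linarith
    linarith

end Pool.Agent.Lib.MP_42948a_nt.OM
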