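import Pool.Agent.Lib.MP_42948a_nt.OM.E3

/-!
# The logarithmic identity (job E4)

Write `f n = ζ^(Om n)/n` if `n` is rough and `0` otherwise: completely multiplicative on positive integers
(`ArithmeticFunction.cardFactors_mul`; `m n` is rough iff `m` and `n` are). All sums are over `Icc 1 N` (= `Ioc 0 N`).

(a) `GG ζ z N = ∑_{n ≤ N} f n log (N/n)`: `log (N/n) = ∑_{n ≤ k < N} log ((k+1)/k)`, exchange the sums (`SS ζ z k = ∑_{n ≤ k} f n`).
(b) `∑_{n ≤ N} f n log n = SS ζ z N * log N - GG ζ z N` by (a).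
(c) `∑_{n ≤ N} f n log n = ∑_{n ≤ N} ∑_{l ∣ n} f (n/l) f l Λ l = ∑_{m ≤ N} f m ∑_{l ≤ N/m} f l Λ l` (`ArithmeticFunction.vonMangoldt_sum`;
`ArithmeticFunction.sum_Ioc_mul_eq_sum_sum` applied to the arithmetic functions `f` and `f Λ`, with `(f * (fΛ)) n = f n log n`, or
`Nat.sum_divisorsAntidiagonal`).
(d) by `vM_rough` with `t = N/m` (natural division), the inner sum is `ζ max 0 (log ((N/m)/z)) + O(C)`; the total error is `≤ C MM z N`.
(e) `∑_{m ≤ N} f m max 0 (log ((N/m)/z))` differs from `GG ζ z (N/z) = ∑_{m ≤ N/z} f m log ((N/z)/m)` by at most `MM z N * log 2`: for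
`m > N/z`, `N/m < z`, both terms vanish; for `m ≤ N/z`, `m z ≤ N`, both `(N/m)/z` and `(N/z)/m` (real quotients of the natural quotients)
lie between `N/(2 m z)` and `N/(m z)` (`k = ⌊x⌋ ≥ x/2` for `x ≥ 1`), so the logarithms differ by at most `log 2 ≤ 1`.
So the constant is `C + 1`.
-/

namespace Pool.Agent.Lib.MP_42948a_nt.OM

open Finset Pool.Agent.Lib.MP_42948a_nt.OA

open Classical in
/-- the completely multiplicative function `ζ ^ Ω n / n` on rough numbers -/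
noncomputable def E4_f (ζ : ℂ) (z : ℕ) : ArithmeticFunction ℂ where
  toFun n := if Rough z n then ζ ^ Om n / (n : ℂ) else 0
  map_zero' := by simp [Rough]

/-- `E4_f` times the von Mangoldt function -/
noncomputable def E4_g (ζ : ℂ) (z : ℕ) : ArithmeticFunction ℂ where
  toFun n := E4_f ζ z n * ((ArithmeticFunction.vonMangoldt n : ℝ) : ℂ)
  map_zero' := by simp

theorem E4_f_rough (ζ : ℂ) {z n : ℕ} (h : Rough z n) : E4_f ζ z n = ζ ^ Om n / (n : ℂ) :=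
  if_pos h

theorem E4_f_not (ζ : ℂ) {z n : ℕ} (h : ¬ Rough z n) : E4_f ζ z n = 0 := if_neg h

theorem E4_f_mul (ζ : ℂ) (z : ℕ) {a b : ℕ} (hab : a * b ≠ 0) :
    E4_f ζ z a * E4_f ζ z b = E4_f ζ z (a * b) := by
  have ha : a ≠ 0 := left_ne_zero_of_mul hab
  have hb : b ≠ 0 := right_ne_zero_of_mul hab
  by_cases h : Rough z (a * b)
  · rw [E4_f_rough ζ h, E4_f_rough ζ (h.of_dvd (Dvd.intro b rfl)),
      E4_f_rough ζ (h.of_dvd (Dvd.intro_left a rfl))]
    unfold Om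
    rw [ArithmeticFunction.cardFactors_mul ha hb, pow_add, div_mul_div_comm]
    push_cast
    rfl
  · rw [E4_f_not ζ h]
    by_cases h1 : Rough z a
    · have h2 : ¬ Rough z b := fun h2 => h (h1.mul h2)
      rw [E4_f_not ζ h2, mul_zero]
    · rw [E4_f_not ζ h1, zero_mul]

theorem E4_conv (ζ : ℂ) (z n : ℕ) :
    (E4_f ζ z * E4_g ζ z) n = E4_f ζ z n * ((Real.log n : ℝ) : ℂ) := by
  rw [ArithmeticFunction.mul_apply, Nat.sum_divisorsAntidiagonal'
    (f := fun a b => E4_f ζ z a * E4_g ζ z b)]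
  rw [← ArithmeticFunction.vonMangoldt_sum (n := n)]
  push_cast
  rw [Finset.mul_sum]
  refine Finset.sum_congr rfl fun d hd => ?_
  have hdn := Nat.dvd_of_mem_divisors hd
  have hn0 : n ≠ 0 := (Nat.mem_divisors.mp hd).2
  have e : n / d * d = n := Nat.div_mul_cancel hdn
  have h1 := E4_f_mul ζ z (a := n / d) (b := d) (by rw [e]; exact hn0)
  rw [e] at h1
  show E4_f ζ z (n / d) * (E4_f ζ z d * ((ArithmeticFunction.vonMangoldt d : ℝ) : ℂ)) = _
  rw [← mul_assoc, h1]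

theorem E4_SS (ζ : ℂ) (z N : ℕ) : SS ζ z N = ∑ n ∈ Ioc 0 N, E4_f ζ z n := by
  classical
  unfold SS RR
  rw [Finset.sum_filter]
  refine Finset.sum_congr rfl fun n _ => ?_
  show _ = if Rough z n then ζ ^ Om n / (n : ℂ) else 0
  split_ifs <;> rfl

theorem E4_MM (ζ : ℂ) (hζ : ‖ζ‖ = 1) (z N : ℕ) : ∑ n ∈ Ioc 0 N, ‖E4_f ζ z n‖ = MM z N := by
  classical
  unfold MM RR
  rw [Finset.sum_filter]
  refine Finset.sum_congr rfl fun n _ => ?_
  by_cases h : Rough z n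
  · rw [E4_f_rough ζ h, if_pos h, norm_div, norm_pow, hζ, one_pow]
    simp
  · rw [E4_f_not ζ h, if_neg h, norm_zero]

theorem E4_inner (ζ : ℂ) (z t : ℕ) : ∑ n ∈ Ioc 0 t, E4_g ζ z n =
    ∑ n ∈ RR z 0 t, ζ ^ Om n / (n : ℂ) * ((ArithmeticFunction.vonMangoldt n : ℝ) : ℂ) := by
  classical
  unfold RR
  rw [Finset.sum_filter]
  refine Finset.sum_congr rfl fun n _ => ?_
  show E4_f ζ z n * ((ArithmeticFunction.vonMangoldt n : ℝ) : ℂ) = _
  by_cases h : Rough z n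
  · rw [E4_f_rough ζ h, if_pos h]
  · rw [E4_f_not ζ h, if_neg h, zero_mul]

/-- (a): partial summation -/
theorem E4_GG (ζ : ℂ) (z N : ℕ) : GG ζ z N =
    SS ζ z N * ((Real.log N : ℝ) : ℂ) - ∑ n ∈ Ioc 0 N, E4_f ζ z n * ((Real.log n : ℝ) : ℂ) := by
  induction N with
  | zero => simp [GG]
  | succ N ih =>
    rcases Nat.eq_zero_or_pos N with h0 | hpos
    · subst h0
      simp [GG]
    · have e1 : GG ζ z (N + 1) = GG ζ z N +
          SS ζ z N * ((Real.log (((N + 1 : ℕ) : ℝ) / N) : ℝ) : ℂ) := by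
        unfold GG
        rw [Finset.sum_Ico_succ_top (by omega)]
      have e2 : SS ζ z (N + 1) = SS ζ z N + E4_f ζ z (N + 1) := by
        rw [E4_SS, E4_SS, Finset.sum_Ioc_succ_top (by omega)]
      rw [e1, ih, e2, Finset.sum_Ioc_succ_top (by omega)]
      have hN0 : (N : ℝ) ≠ 0 := by exact_mod_cast hpos.ne'
      have hN1 : ((N + 1 : ℕ) : ℝ) ≠ 0 := by positivity
      rw [Real.log_div hN1 hN0]
      push_cast
      ring

theorem E4_GG' (ζ : ℂ) (z N : ℕ) : GG ζ z N =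
    ∑ n ∈ Ioc 0 N, E4_f ζ z n * ((Real.log N - Real.log n : ℝ) : ℂ) := by
  rw [E4_GG, E4_SS, Finset.sum_mul, ← Finset.sum_sub_distrib]
  refine Finset.sum_congr rfl fun n _ => ?_
  push_cast
  ring

/-- (e) for one `m` -/
theorem E4_log {z m N : ℕ} (hz : 0 < z) (hm : 0 < m) (h : m ≤ N / z) :
    |max 0 (Real.log (((N / m : ℕ) : ℝ) / z)) - (Real.log ((N / z : ℕ) : ℝ) - Real.log m)| ≤ 1 := by
  have hmz : m * z ≤ N := (Nat.le_div_iff_mul_le hz).mp h
  have hz' : (0 : ℝ) < z := by exact_mod_cast hz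
  have hm' : (0 : ℝ) < m := by exact_mod_cast hm
  have k1 : z ≤ N / m := (Nat.le_div_iff_mul_le hm).mpr (by rw [mul_comm]; exact hmz)
  have k1' : (z : ℝ) ≤ ((N / m : ℕ) : ℝ) := by exact_mod_cast k1
  have k2' : (m : ℝ) ≤ ((N / z : ℕ) : ℝ) := by exact_mod_cast h
  have hk1 : (0 : ℝ) < ((N / m : ℕ) : ℝ) := hz'.trans_le k1'
  have hk2 : (0 : ℝ) < ((N / z : ℕ) : ℝ) := hm'.trans_le k2'
  have hmax : max 0 (Real.log (((N / m : ℕ) : ℝ) / z)) =
      Real.log ((N / m : ℕ) : ℝ) - Real.log z := by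
    rw [max_eq_right (Real.log_nonneg ((one_le_div hz').mpr k1')),
      Real.log_div hk1.ne' hz'.ne']
  have a1 : N / m * m ≤ N := Nat.div_mul_le_self N m
  have a2 : N / z * z ≤ N := Nat.div_mul_le_self N z
  have b1 : N < 2 * (N / m * m) := by
    have : N < (N / m + 1) * m := by
      have := Nat.lt_succ_iff.mpr (le_refl (N / m))
      exact (Nat.div_lt_iff_lt_mul hm).mp this
    have h3 : 1 ≤ N / m := le_trans hz k1
    nlinarith
  have b2 : N < 2 * (N / z * z) := by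
    have : N < (N / z + 1) * z := by
      have := Nat.lt_succ_iff.mpr (le_refl (N / z))
      exact (Nat.div_lt_iff_lt_mul hz).mp this
    have h3 : 1 ≤ N / z := le_trans hm h
    nlinarith
  have c1 : ((N / m : ℕ) : ℝ) * m ≤ 2 * (((N / z : ℕ) : ℝ) * z) := by
    exact_mod_cast a1.trans b2.le
  have c2 : ((N / z : ℕ) : ℝ) * z ≤ 2 * (((N / m : ℕ) : ℝ) * m) := by
    exact_mod_cast a2.trans b1.le
  have l1 := Real.log_le_log (by positivity) c1
  have l2 := Real.log_le_log (by positivity) c2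
  rw [Real.log_mul hk1.ne' hm'.ne', Real.log_mul (by norm_num) (by positivity),
    Real.log_mul hk2.ne' hz'.ne'] at l1
  rw [Real.log_mul hk2.ne' hz'.ne', Real.log_mul (by norm_num) (by positivity),
    Real.log_mul hk1.ne' hm'.ne'] at l2
  have hlog2 : Real.log 2 ≤ 1 := by
    have := Real.log_le_sub_one_of_pos (show (0 : ℝ) < 2 by norm_num)
    linarith
  rw [hmax, abs_le]
  constructor <;> linarith

theorem E4_max {z m N : ℕ} (hz : 0 < z) (hm : 0 < m) (h : N / z < m) :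
    max 0 (Real.log (((N / m : ℕ) : ℝ) / z)) = 0 := by
  have h1 : N < m * z := (Nat.div_lt_iff_lt_mul hz).mp h
  have h2 : N / m < z := (Nat.div_lt_iff_lt_mul hm).mpr (by rw [mul_comm]; exact h1)
  have hz' : (0 : ℝ) < z := by exact_mod_cast hz
  refine max_eq_left (Real.log_nonpos (by positivity) ?_)
  rw [div_le_one hz']
  exact_mod_cast h2.le

theorem log_identity : ∃ C : ℝ, 0 ≤ C ∧ ∀ (ζ : ℂ), ‖ζ‖ = 1 → ∀ z N : ℕ, 2 ≤ z → 1 ≤ N →
    ‖SS ζ z N * ((Real.log N : ℝ) : ℂ) - GG ζ z N - ζ * GG ζ z (N / z)‖ ≤ C * MM z N := by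
  obtain ⟨C, hC, hvM⟩ := vM_rough
  refine ⟨C + 1, by linarith, fun ζ hζ z N hz hN => ?_⟩
  have hz0 : 0 < z := by omega
  have e1 : SS ζ z N * ((Real.log N : ℝ) : ℂ) - GG ζ z N =
      ∑ m ∈ Ioc 0 N, E4_f ζ z m * ∑ l ∈ Ioc 0 (N / m), E4_g ζ z l := by
    rw [E4_GG, sub_sub_cancel, ← ArithmeticFunction.sum_Ioc_mul_eq_sum_sum]
    exact (Finset.sum_congr rfl fun n _ => E4_conv ζ z n).symm
  have hsub : Ioc 0 (N / z) ⊆ Ioc 0 N := by
    intro n hn
    rw [Finset.mem_Ioc] at hn ⊢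
    exact ⟨hn.1, hn.2.trans (Nat.div_le_self N z)⟩
  have e2 : GG ζ z (N / z) = ∑ m ∈ Ioc 0 N, if m ∈ Ioc 0 (N / z) then
      E4_f ζ z m * ((Real.log ((N / z : ℕ) : ℝ) - Real.log m : ℝ) : ℂ) else 0 := by
    rw [E4_GG', Finset.sum_ite_mem, Finset.inter_eq_right.mpr hsub]
  have e3 : SS ζ z N * ((Real.log N : ℝ) : ℂ) - GG ζ z N - ζ * GG ζ z (N / z) =
      ∑ m ∈ Ioc 0 N, (E4_f ζ z m * (∑ l ∈ Ioc 0 (N / m), E4_g ζ z l -
        ζ * ((max 0 (Real.log (((N / m : ℕ) : ℝ) / z)) : ℝ) : ℂ)) +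
        ζ * (E4_f ζ z m * ((max 0 (Real.log (((N / m : ℕ) : ℝ) / z)) : ℝ) : ℂ) -
        if m ∈ Ioc 0 (N / z) then
          E4_f ζ z m * ((Real.log ((N / z : ℕ) : ℝ) - Real.log m : ℝ) : ℂ) else 0)) := by
    rw [e1, e2, Finset.mul_sum, ← Finset.sum_sub_distrib]
    refine Finset.sum_congr rfl fun m _ => ?_
    ring
  rw [e3, ← E4_MM ζ hζ z N, Finset.mul_sum]
  refine (norm_sum_le _ _).trans (Finset.sum_le_sum fun m hm => ?_)
  rw [Finset.mem_Ioc] at hm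
  refine (norm_add_le _ _).trans ?_
  have p1 : ‖E4_f ζ z m * (∑ l ∈ Ioc 0 (N / m), E4_g ζ z l -
        ζ * ((max 0 (Real.log (((N / m : ℕ) : ℝ) / z)) : ℝ) : ℂ))‖ ≤ ‖E4_f ζ z m‖ * C := by
    rw [norm_mul]
    refine mul_le_mul_of_nonneg_left ?_ (norm_nonneg _)
    rw [E4_inner]
    exact hvM ζ hζ z (N / m) hz
  have p2 : ‖ζ * (E4_f ζ z m * ((max 0 (Real.log (((N / m : ℕ) : ℝ) / z)) : ℝ) : ℂ) -
        if m ∈ Ioc 0 (N / z) then
          E4_f ζ z m * ((Real.log ((N / z : ℕ) : ℝ) - Real.log m : ℝ) : ℂ) else 0)‖ ≤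
        ‖E4_f ζ z m‖ * 1 := by
    rw [norm_mul, hζ, one_mul]
    by_cases hc : m ≤ N / z
    · rw [if_pos (Finset.mem_Ioc.mpr ⟨hm.1, hc⟩), ← mul_sub, norm_mul]
      refine mul_le_mul_of_nonneg_left ?_ (norm_nonneg _)
      rw [← Complex.ofReal_sub, Complex.norm_real, Real.norm_eq_abs]
      exact E4_log hz0 hm.1 hc
    · push Not at hc
      rw [if_neg (fun hh => absurd (Finset.mem_Ioc.mp hh).2 (by omega)),
        E4_max hz0 hm.1 hc]
      simp
  linarith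

end Pool.Agent.Lib.MP_42948a_nt.OM
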