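import Pool.Agent.Lib.MP_42948a_nt.OM.Defs

/-!
# Small increments imply small values (job E5)

`hid` is `log_identity` for this `ζ`, `z`. Put `s = SS ζ z x0`, `x1 = z x2`, `xb = z x0` (`x0 ≤ xb ≤ x1`). Subtract the identities at
`N = x1` and `N = xb` (`x1/z = x2`, `xb/z = x0`):
`S(x1) log x1 - S(xb) log xb = (G(x1) - G(xb)) + ζ (G(x2) - G(x0)) + error`, error `≤ 2 K`. For `x0 ≤ a ≤ b ≤ x1`:
`G(b) - G(a) = ∑_{a ≤ n < b} S(n) log((n+1)/n) = s log(b/a) + O(η log(b/a))` as `‖S(n) - s‖ ≤ η` for `n ∈ [x0, x1]` (telescoping: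
`∑_{a ≤ n < b} log((n+1)/n) = log b - log a`). The left side is `s (log x1 - log xb) + O(η (log x1 + log xb))`. So
`‖ζ s‖ log(x2/x0) ≤ η (log x1 + log xb + (log x1 - log xb) + log(x2/x0)) + 2 K ≤ 3 η log x1 + 2 K`
(`log (x2/x0) ≤ log x1`).
-/

namespace Pool.Agent.Lib.MP_42948a_nt.OM

open Finset Pool.Agent.Lib.MP_42948a_nt.OA

theorem E5_G (ζ : ℂ) (z a : ℕ) (ha : 1 ≤ a) (η : ℝ) (s : ℂ) (b : ℕ) (hab : a ≤ b) :
    (∀ n : ℕ, a ≤ n → n < b → ‖SS ζ z n - s‖ ≤ η) →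
    ‖GG ζ z b - GG ζ z a - s * ((Real.log b - Real.log a : ℝ) : ℂ)‖ ≤ η * (Real.log b - Real.log a) := by
  induction b, hab using Nat.le_induction with
  | base =>
    intro _
    simp
  | succ b hab ih =>
    intro hinc
    have h1 := ih (fun n hn hnb => hinc n hn (by omega))
    have h2 : GG ζ z (b + 1) = GG ζ z b + SS ζ z b * ((Real.log (((b + 1 : ℕ) : ℝ) / b) : ℝ) : ℂ) := by
      unfold GG
      rw [Finset.sum_Ico_succ_top (by omega)]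
    have hb : (0 : ℝ) < b := by
      have h0 : 0 < b := by omega
      exact_mod_cast h0
    have hb1 : (0 : ℝ) < ((b + 1 : ℕ) : ℝ) := by positivity
    have h3 : Real.log (((b + 1 : ℕ) : ℝ) / b) = Real.log ((b + 1 : ℕ) : ℝ) - Real.log b :=
      Real.log_div hb1.ne' hb.ne'
    have h4 : 0 ≤ Real.log ((b + 1 : ℕ) : ℝ) - Real.log b := by
      refine sub_nonneg.2 (Real.log_le_log hb ?_)
      push_cast
      linarith
    have h5 : GG ζ z (b + 1) - GG ζ z a - s * ((Real.log ((b + 1 : ℕ) : ℝ) - Real.log a : ℝ) : ℂ) =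
        (GG ζ z b - GG ζ z a - s * ((Real.log b - Real.log a : ℝ) : ℂ)) +
          (SS ζ z b - s) * ((Real.log ((b + 1 : ℕ) : ℝ) - Real.log b : ℝ) : ℂ) := by
      rw [h2, h3]
      push_cast
      ring
    rw [h5]
    refine (norm_add_le _ _).trans ?_
    rw [norm_mul, Complex.norm_real, Real.norm_eq_abs, abs_of_nonneg h4]
    have h6 := mul_le_mul_of_nonneg_right (hinc b hab (by omega)) h4
    linarith

theorem E5_S (s t : ℂ) (η L : ℝ) (hL : 0 ≤ L) (h : ‖t - s‖ ≤ η) :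
    ‖t * (L : ℂ) - s * (L : ℂ)‖ ≤ η * L := by
  rw [← sub_mul, norm_mul, Complex.norm_real, Real.norm_eq_abs, abs_of_nonneg hL]
  exact mul_le_mul_of_nonneg_right h hL

theorem small_value (ζ : ℂ) (hζ : ‖ζ‖ = 1) (z x0 x2 : ℕ) (hz : 2 ≤ z) (hx0 : 1 ≤ x0) (hx2 : x0 ≤ x2)
    (η K : ℝ) (hinc : ∀ n : ℕ, x0 ≤ n → n ≤ z * x2 → ‖SS ζ z n - SS ζ z x0‖ ≤ η)
    (hid : ∀ N : ℕ, 1 ≤ N → N ≤ z * x2 →
      ‖SS ζ z N * ((Real.log N : ℝ) : ℂ) - GG ζ z N - ζ * GG ζ z (N / z)‖ ≤ K) :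
    ‖SS ζ z x0‖ * (Real.log x2 - Real.log x0) ≤ 3 * η * Real.log ((z * x2 : ℕ) : ℝ) + 2 * K := by
  have hz0 : 0 < z := by omega
  have hx01 : x0 ≤ z * x0 := Nat.le_mul_of_pos_left x0 hz0
  have hx12 : z * x0 ≤ z * x2 := Nat.mul_le_mul_left z hx2
  have hx2' : x2 ≤ z * x2 := Nat.le_mul_of_pos_left x2 hz0
  have hη : 0 ≤ η := (norm_nonneg _).trans (hinc x0 (le_refl _) (hx01.trans hx12))
  have h1 := hid (z * x2) (by omega) (le_refl _)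
  have h2 := hid (z * x0) (by omega) hx12
  rw [Nat.mul_div_cancel_left x2 hz0] at h1
  rw [Nat.mul_div_cancel_left x0 hz0] at h2
  have hG1 := E5_G ζ z (z * x0) (by omega) η (SS ζ z x0) (z * x2) hx12
    (fun n hn hn2 => hinc n (by omega) (by omega))
  have hG2 := E5_G ζ z x0 hx0 η (SS ζ z x0) x2 hx2 (fun n hn hn2 => hinc n hn (by omega))
  have hpos0 : (1 : ℝ) ≤ (x0 : ℝ) := by exact_mod_cast hx0
  have hpos2 : (1 : ℝ) ≤ (x2 : ℝ) := by exact_mod_cast hx0.trans hx2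
  have hposA : (1 : ℝ) ≤ ((z * x0 : ℕ) : ℝ) := by exact_mod_cast hx0.trans hx01
  have hposB : (1 : ℝ) ≤ ((z * x2 : ℕ) : ℝ) := by exact_mod_cast (hx0.trans hx2).trans hx2'
  have hl0 : 0 ≤ Real.log (x0 : ℝ) := Real.log_nonneg hpos0
  have hlA : 0 ≤ Real.log ((z * x0 : ℕ) : ℝ) := Real.log_nonneg hposA
  have hlB : 0 ≤ Real.log ((z * x2 : ℕ) : ℝ) := Real.log_nonneg hposB
  have hl2 : Real.log (x2 : ℝ) ≤ Real.log ((z * x2 : ℕ) : ℝ) :=
    Real.log_le_log (by linarith) (by exact_mod_cast hx2')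
  have hl02 : Real.log (x0 : ℝ) ≤ Real.log (x2 : ℝ) := Real.log_le_log (by linarith) (by exact_mod_cast hx2)
  have hS1 := E5_S (SS ζ z x0) (SS ζ z (z * x2)) η _ hlB (hinc _ (by omega) (le_refl _))
  have hS2 := E5_S (SS ζ z x0) (SS ζ z (z * x0)) η _ hlA (hinc _ hx01 hx12)
  have hkey : ζ * SS ζ z x0 * ((Real.log x2 - Real.log x0 : ℝ) : ℂ) =
      (SS ζ z (z * x2) * ((Real.log ((z * x2 : ℕ) : ℝ) : ℝ) : ℂ) -
        SS ζ z x0 * ((Real.log ((z * x2 : ℕ) : ℝ) : ℝ) : ℂ)) -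
      (SS ζ z (z * x0) * ((Real.log ((z * x0 : ℕ) : ℝ) : ℝ) : ℂ) -
        SS ζ z x0 * ((Real.log ((z * x0 : ℕ) : ℝ) : ℝ) : ℂ)) -
      (GG ζ z (z * x2) - GG ζ z (z * x0) -
        SS ζ z x0 * ((Real.log ((z * x2 : ℕ) : ℝ) - Real.log ((z * x0 : ℕ) : ℝ) : ℝ) : ℂ)) -
      ζ * (GG ζ z x2 - GG ζ z x0 - SS ζ z x0 * ((Real.log x2 - Real.log x0 : ℝ) : ℂ)) -
      ((SS ζ z (z * x2) * ((Real.log ((z * x2 : ℕ) : ℝ) : ℝ) : ℂ) - GG ζ z (z * x2) - ζ * GG ζ z x2) -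
        (SS ζ z (z * x0) * ((Real.log ((z * x0 : ℕ) : ℝ) : ℝ) : ℂ) - GG ζ z (z * x0) -
          ζ * GG ζ z x0)) := by
    push_cast
    ring
  have hn : ‖SS ζ z x0‖ * (Real.log x2 - Real.log x0) =
      ‖ζ * SS ζ z x0 * ((Real.log x2 - Real.log x0 : ℝ) : ℂ)‖ := by
    rw [norm_mul, norm_mul, hζ, one_mul, Complex.norm_real, Real.norm_eq_abs,
      abs_of_nonneg (by linarith : (0 : ℝ) ≤ Real.log x2 - Real.log x0)]
  rw [hn, hkey]
  refine (norm_sub_le _ _).trans ?_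
  refine (add_le_add (norm_sub_le _ _) (norm_sub_le _ _)).trans ?_
  refine (add_le_add (add_le_add (norm_sub_le _ _) (le_refl _)) (le_refl _)).trans ?_
  refine (add_le_add (add_le_add (add_le_add (norm_sub_le _ _) (le_refl _)) (le_refl _))
    (le_refl _)).trans ?_
  rw [norm_mul ζ, hζ, one_mul]
  have h3 : η * (Real.log x2 - Real.log x0) ≤ η * Real.log ((z * x2 : ℕ) : ℝ) :=
    mul_le_mul_of_nonneg_left (by linarith) hη
  linarith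

end Pool.Agent.Lib.MP_42948a_nt.OM
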