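import Pool.Agent.Lib.MP_42948a_nt.OM.Defs

/-!
# Propagation to large arguments (job E6)

`L N = log N / log x0 ≥ 1` for `N ≥ x0`, `B = 2 A + 4 θ`. Strong induction on `N ≥ x0`. For `N ≤ z x0`: `‖S(N)‖ ≤ A ≤ B ≤ B L^3`.
For `N > xb = z x0`: subtract the identities `hid` at `N` and at `xb` (`xb/z = x0`; `N/z ≥ x0`, `N/z + 1 ≤ N`):
`S(N) log N = S(xb) log xb + (G(N) - G(xb)) + ζ (G(N/z) - G(x0)) + error`, error `≤ 2 θ log N L(N)^3` (`hid` at both, monotone).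
For `x0 ≤ a ≤ b ≤ N`: `‖G(b) - G(a)‖ ≤ ∑_{a ≤ n < b} ‖S(n)‖ (log(n+1) - log n) ≤ (B/log^3 x0) ∑_{a ≤ n < b} (log n)^3 (log(n+1) - log n) ≤
(B/(4 log^3 x0)) (log^4 b - log^4 a)` by induction (all `n < b ≤ N`) and `u^3 (v - u) ≤ (v^4 - u^4)/4` for `0 ≤ u ≤ v`. So
`‖S(N)‖ log N ≤ A log xb + (B/(4 log^3 x0)) (log^4 N + log^4 N) + 2 θ log N L^3 ≤ log N L^3 (A + B/2 + 2 θ) = B log N L^3`. Divide by
`log N > 0`.
-/

namespace Pool.Agent.Lib.MP_42948a_nt.OM

open Finset Pool.Agent.Lib.MP_42948a_nt.OA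

theorem E6_GG_sub (ζ : ℂ) (z a b : ℕ) (ha : 1 ≤ a) (hab : a ≤ b) :
    GG ζ z b - GG ζ z a =
      ∑ n ∈ Ico a b, SS ζ z n * ((Real.log (((n + 1 : ℕ) : ℝ) / n) : ℝ) : ℂ) := by
  unfold GG
  rw [← Finset.sum_Ico_consecutive _ ha hab]
  ring

theorem E6_poly {u v : ℝ} (hu : 0 ≤ u) (huv : u ≤ v) : u ^ 3 * (v - u) ≤ (v ^ 4 - u ^ 4) / 4 := by
  have hv : 0 ≤ v := hu.trans huv
  have e : (v ^ 4 - u ^ 4) / 4 - u ^ 3 * (v - u) =
      (v - u) * ((v ^ 3 - u ^ 3) + (v ^ 2 - u ^ 2) * u + (v - u) * u ^ 2) / 4 := by ring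
  have h1 : 0 ≤ v ^ 3 - u ^ 3 := sub_nonneg.mpr (pow_le_pow_left₀ hu huv 3)
  have h2 : 0 ≤ v ^ 2 - u ^ 2 := sub_nonneg.mpr (pow_le_pow_left₀ hu huv 2)
  have h3 : 0 ≤ v - u := sub_nonneg.mpr huv
  have : 0 ≤ (v - u) * ((v ^ 3 - u ^ 3) + (v ^ 2 - u ^ 2) * u + (v - u) * u ^ 2) / 4 := by
    positivity
  linarith

theorem E6_sum (ζ : ℂ) (z a b : ℕ) (ha : 1 ≤ a) (hab : a ≤ b) (B l : ℝ) (hB : 0 ≤ B) (hl : 0 < l)
    (h : ∀ n : ℕ, a ≤ n → n < b → ‖SS ζ z n‖ ≤ B * (Real.log n / l) ^ 3) :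
    ‖GG ζ z b - GG ζ z a‖ ≤ B / (4 * l ^ 3) * (Real.log b ^ 4 - Real.log a ^ 4) := by
  rw [E6_GG_sub ζ z a b ha hab]
  have key : ∑ n ∈ Ico a b, ‖SS ζ z n * ((Real.log (((n + 1 : ℕ) : ℝ) / n) : ℝ) : ℂ)‖ ≤
      ∑ n ∈ Ico a b, (B / (4 * l ^ 3) * Real.log ((n + 1 : ℕ) : ℝ) ^ 4 -
        B / (4 * l ^ 3) * Real.log (n : ℝ) ^ 4) := by
    refine Finset.sum_le_sum fun n hn => ?_
    rw [Finset.mem_Ico] at hn
    have hn1 : 1 ≤ n := ha.trans hn.1
    have hn0 : (0 : ℝ) < n := by exact_mod_cast hn1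
    have hn0' : (0 : ℝ) < ((n + 1 : ℕ) : ℝ) := by positivity
    have hle : Real.log (n : ℝ) ≤ Real.log ((n + 1 : ℕ) : ℝ) :=
      Real.log_le_log hn0 (by push_cast; linarith)
    have hu : 0 ≤ Real.log (n : ℝ) := Real.log_nonneg (by exact_mod_cast hn1)
    rw [norm_mul, Complex.norm_real, Real.norm_eq_abs, Real.log_div hn0'.ne' hn0.ne',
      abs_of_nonneg (sub_nonneg.mpr hle)]
    have h1 := h n hn.1 hn.2
    have h2 := E6_poly hu hle
    have hd : 0 ≤ Real.log ((n + 1 : ℕ) : ℝ) - Real.log (n : ℝ) := sub_nonneg.mpr hle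
    calc ‖SS ζ z n‖ * (Real.log ((n + 1 : ℕ) : ℝ) - Real.log (n : ℝ))
        ≤ B * (Real.log n / l) ^ 3 * (Real.log ((n + 1 : ℕ) : ℝ) - Real.log (n : ℝ)) :=
          mul_le_mul_of_nonneg_right h1 hd
      _ = B / l ^ 3 * (Real.log (n : ℝ) ^ 3 *
            (Real.log ((n + 1 : ℕ) : ℝ) - Real.log (n : ℝ))) := by
          field_simp
      _ ≤ B / l ^ 3 * ((Real.log ((n + 1 : ℕ) : ℝ) ^ 4 - Real.log (n : ℝ) ^ 4) / 4) := by
          exact mul_le_mul_of_nonneg_left h2 (by positivity)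
      _ = _ := by
          field_simp
  have tel : ∑ n ∈ Ico a b, (B / (4 * l ^ 3) * Real.log ((n + 1 : ℕ) : ℝ) ^ 4 -
        B / (4 * l ^ 3) * Real.log (n : ℝ) ^ 4) =
        B / (4 * l ^ 3) * (Real.log b ^ 4 - Real.log a ^ 4) := by
    rw [Finset.sum_Ico_sub (fun n : ℕ => B / (4 * l ^ 3) * Real.log (n : ℝ) ^ 4) hab]
    ring
  exact (norm_sum_le _ _).trans (key.trans tel.le)

theorem growth (ζ : ℂ) (hζ : ‖ζ‖ = 1) (z x0 : ℕ) (hz : 2 ≤ z) (hx0 : 2 ≤ x0) (A θ : ℝ) (hA : 0 ≤ A)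
    (hθ : 0 ≤ θ) (hsmall : ∀ n : ℕ, x0 ≤ n → n ≤ z * x0 → ‖SS ζ z n‖ ≤ A)
    (hid : ∀ N : ℕ, x0 ≤ N →
      ‖SS ζ z N * ((Real.log N : ℝ) : ℂ) - GG ζ z N - ζ * GG ζ z (N / z)‖ ≤ θ * Real.log N) :
    ∀ N : ℕ, x0 ≤ N → ‖SS ζ z N‖ ≤ (2 * A + 4 * θ) * (Real.log N / Real.log x0) ^ 3 := by
  have hl : 0 < Real.log x0 := Real.log_pos (by exact_mod_cast hx0)
  set l := Real.log x0 with hldef
  set B := 2 * A + 4 * θ with hBdef
  have hB : 0 ≤ B := by positivity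
  have hx0z : x0 ≤ z * x0 := Nat.le_mul_of_pos_left x0 (by omega)
  intro N
  induction N using Nat.strong_induction_on with
  | _ N ih =>
    intro hN
    have hx0pos : (0 : ℝ) < x0 := by exact_mod_cast (by omega : 0 < x0)
    have hNpos : (0 : ℝ) < N := by exact_mod_cast (by omega : 0 < N)
    have hlN : l ≤ Real.log N := Real.log_le_log hx0pos (by exact_mod_cast hN)
    have hLN : 0 < Real.log N := hl.trans_le hlN
    have hL1 : 1 ≤ Real.log N / l := (one_le_div hl).mpr hlN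
    have hL3 : 1 ≤ (Real.log N / l) ^ 3 := one_le_pow₀ hL1
    by_cases hc : N ≤ z * x0
    · have h1 := hsmall N hN hc
      have h2 : A ≤ B := by rw [hBdef]; linarith
      calc ‖SS ζ z N‖ ≤ A := h1
        _ ≤ B * 1 := by rw [mul_one]; exact h2
        _ ≤ _ := mul_le_mul_of_nonneg_left hL3 hB
    · push Not at hc
      have hxb : x0 ≤ N / z := by
        rw [Nat.le_div_iff_mul_le (by omega)]
        rw [mul_comm]; exact hc.le
      have hdiv : z * x0 / z = x0 := Nat.mul_div_cancel_left x0 (by omega)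
      have hNz : N / z ≤ N := Nat.div_le_self N z
      have e1 := hid N hN
      have e2 := hid (z * x0) hx0z
      rw [hdiv] at e2
      have s1 := E6_sum ζ z (z * x0) N (by omega) hc.le B l hB hl
        (fun n hn hn' => ih n hn' (hx0z.trans hn))
      have s2 := E6_sum ζ z x0 (N / z) (by omega) hxb B l hB hl
        (fun n hn hn' => ih n (hn'.trans_le hNz) hn)
      have hxbA := hsmall (z * x0) hx0z le_rfl
      have hlb : Real.log ((z * x0 : ℕ) : ℝ) ≤ Real.log N :=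
        Real.log_le_log (by exact_mod_cast (by positivity : 0 < z * x0)) (by exact_mod_cast hc.le)
      have hlb0 : 0 ≤ Real.log ((z * x0 : ℕ) : ℝ) :=
        Real.log_nonneg (by exact_mod_cast (by omega : 1 ≤ z * x0))
      have hlz : Real.log ((N / z : ℕ) : ℝ) ≤ Real.log N :=
        Real.log_le_log (by exact_mod_cast (by omega : 0 < N / z)) (by exact_mod_cast hNz)
      have hlz0 : 0 ≤ Real.log ((N / z : ℕ) : ℝ) :=
        Real.log_nonneg (by exact_mod_cast (by omega : 1 ≤ N / z))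
      have hq : Real.log ((N / z : ℕ) : ℝ) ^ 4 ≤ Real.log N ^ 4 := pow_le_pow_left₀ hlz0 hlz 4
      have hc0 : 0 ≤ B / (4 * l ^ 3) := by positivity
      have t1 : ‖GG ζ z N - GG ζ z (z * x0)‖ ≤ B / (4 * l ^ 3) * Real.log N ^ 4 := by
        refine s1.trans (mul_le_mul_of_nonneg_left ?_ hc0)
        have : 0 ≤ Real.log ((z * x0 : ℕ) : ℝ) ^ 4 := by positivity
        linarith
      have t2 : ‖GG ζ z (N / z) - GG ζ z x0‖ ≤ B / (4 * l ^ 3) * Real.log N ^ 4 := by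
        refine s2.trans (mul_le_mul_of_nonneg_left ?_ hc0)
        have : 0 ≤ Real.log ((x0 : ℕ) : ℝ) ^ 4 := by positivity
        linarith
      have ident : SS ζ z N * ((Real.log N : ℝ) : ℂ) =
          (SS ζ z N * ((Real.log N : ℝ) : ℂ) - GG ζ z N - ζ * GG ζ z (N / z)) -
          (SS ζ z (z * x0) * ((Real.log ((z * x0 : ℕ) : ℝ) : ℝ) : ℂ) - GG ζ z (z * x0)
            - ζ * GG ζ z x0) +
          SS ζ z (z * x0) * ((Real.log ((z * x0 : ℕ) : ℝ) : ℝ) : ℂ) +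
          (GG ζ z N - GG ζ z (z * x0)) + ζ * (GG ζ z (N / z) - GG ζ z x0) := by ring
      have hn : ‖SS ζ z N‖ * Real.log N ≤ θ * Real.log N + θ * Real.log N + A * Real.log N +
          B / (4 * l ^ 3) * Real.log N ^ 4 + B / (4 * l ^ 3) * Real.log N ^ 4 := by
        have hnorm : ‖SS ζ z N * ((Real.log N : ℝ) : ℂ)‖ = ‖SS ζ z N‖ * Real.log N := by
          rw [norm_mul, Complex.norm_real, Real.norm_eq_abs, abs_of_pos hLN]
        rw [← hnorm, ident]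
        refine (norm_add_le _ _).trans (add_le_add ((norm_add_le _ _).trans (add_le_add
          ((norm_add_le _ _).trans (add_le_add ((norm_sub_le _ _).trans (add_le_add e1 ?_)) ?_))
          t1)) ?_)
        · exact e2.trans (mul_le_mul_of_nonneg_left hlb hθ)
        · rw [norm_mul, Complex.norm_real, Real.norm_eq_abs, abs_of_nonneg hlb0]
          exact mul_le_mul hxbA hlb hlb0 hA
        · rw [norm_mul, hζ, one_mul]; exact t2
      have hfin : θ * Real.log N + θ * Real.log N + A * Real.log N +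
          B / (4 * l ^ 3) * Real.log N ^ 4 + B / (4 * l ^ 3) * Real.log N ^ 4 ≤
          B * (Real.log N / l) ^ 3 * Real.log N := by
        have e : B / (4 * l ^ 3) * Real.log N ^ 4 =
            B / 4 * (Real.log N / l) ^ 3 * Real.log N := by
          field_simp
        rw [e]
        have h5 : (2 * θ + A) * Real.log N ≤ (2 * θ + A) * Real.log N * (Real.log N / l) ^ 3 :=
          le_mul_of_one_le_right (by positivity) hL3
        have h6 : B / 2 = A + 2 * θ := by rw [hBdef]; ring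
        nlinarith [h5, h6]
      have := hn.trans hfin
      exact le_of_mul_le_mul_right this hLN

end Pool.Agent.Lib.MP_42948a_nt.OM
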