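import Pool.Agent.Lib.MP_42948a_nt.OM.Defs

/-!
# The Dirichlet series from the partial sums (job E7)

Abel summation: with `S = SS ζ z`, `TT ζ σ z N = S(N) N^(-σ) + ∑_{1 ≤ n < N} S(n) (n^(-σ) - (n+1)^(-σ))` (for `N ≥ 1`; induction on `N`:
`ζ^(Om n) n^(-(1+σ)) = (S(n) - S(n-1)) n^(-σ)`, both sides vanish at non-rough `n`). Let `κ = σ log x0`.
Terms `n < x0`: `‖S(n)‖ ≤ MM z n ≤ MM z x0`, sum `≤ MM z x0 (1 - x0^(-σ)) ≤ MM z x0 κ` (`1 - exp(-κ) ≤ κ`).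
Terms `n ≥ x0`: `‖S(n)‖ ≤ B (log n/log x0)^3`, and `(σ log n)^3 ≤ 48 exp(σ log n/2) = 48 n^(σ/2)` (`x^3/3! ≤ exp x` at `x = σ log n/2`),
so `‖S(n)‖ ≤ 48 B κ^(-3) n^(σ/2)`; with `a = n^(-σ/2) ≥ b = (n+1)^(-σ/2)`: `n^(σ/2) (n^(-σ) - (n+1)^(-σ)) = (a^2 - b^2)/a ≤ 2 (a - b)`,
telescoping to `≤ 2`, in total `≤ 96 B κ^(-3)`. The boundary term: `‖S(N)‖ N^(-σ) ≤ 48 B κ^(-3) N^(-σ/2) ≤ 48 B κ^(-3)`.
-/

namespace Pool.Agent.Lib.MP_42948a_nt.OM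

open Finset Pool.Agent.Lib.MP_42948a_nt.OA

theorem E7_abel (a : ℕ → ℂ) (w : ℕ → ℝ) (N : ℕ) (hN : 1 ≤ N) :
    ∑ n ∈ Ioc 0 N, a n * (w n : ℂ) = (∑ n ∈ Ioc 0 N, a n) * (w N : ℂ) +
      ∑ n ∈ Ico 1 N, (∑ k ∈ Ioc 0 n, a k) * ((w n - w (n + 1) : ℝ) : ℂ) := by
  induction N, hN using Nat.le_induction with
  | base => simp
  | succ k hk ih =>
    rw [Finset.sum_Ioc_succ_top (Nat.zero_le k), Finset.sum_Ioc_succ_top (Nat.zero_le k),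
      Finset.sum_Ico_succ_top hk, ih]
    push_cast
    ring

theorem E7_tel (f : ℕ → ℝ) {m N : ℕ} (h : m ≤ N) :
    ∑ n ∈ Ico m N, (f n - f (n + 1)) = f m - f N := by
  induction N, h using Nat.le_induction with
  | base => simp
  | succ k hk ih =>
    rw [Finset.sum_Ico_succ_top hk, ih]
    ring

theorem E7_SS_le (ζ : ℂ) (hζ : ‖ζ‖ = 1) (z n : ℕ) : ‖SS ζ z n‖ ≤ MM z n := by
  unfold SS MM
  refine (norm_sum_le _ _).trans (Finset.sum_le_sum fun k _ => ?_)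
  rw [norm_div, norm_pow, hζ, one_pow, Complex.norm_natCast]

theorem E7_MM_mono (z : ℕ) {n m : ℕ} (h : n ≤ m) : MM z n ≤ MM z m := by
  classical
  unfold MM RR
  refine Finset.sum_le_sum_of_subset_of_nonneg ?_ (fun k _ _ => by positivity)
  intro k hk
  rw [Finset.mem_filter, Finset.mem_Ioc] at hk ⊢
  exact ⟨⟨hk.1.1, hk.1.2.trans h⟩, hk.2⟩

theorem E7_TT_eq (ζ : ℂ) (σ : ℝ) (z N : ℕ) (hN : 1 ≤ N) :
    TT ζ σ z N = SS ζ z N * (((N : ℝ) ^ (-σ) : ℝ) : ℂ) +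
      ∑ n ∈ Ico 1 N, SS ζ z n * (((n : ℝ) ^ (-σ) - ((n + 1 : ℕ) : ℝ) ^ (-σ) : ℝ) : ℂ) := by
  classical
  have h1 : ∀ n : ℕ, SS ζ z n = ∑ k ∈ Ioc 0 n, if Rough z k then ζ ^ Om k / (k : ℂ) else 0 := by
    intro n
    unfold SS RR
    rw [Finset.sum_filter]
  have h2 : TT ζ σ z N = ∑ k ∈ Ioc 0 N, (if Rough z k then ζ ^ Om k / (k : ℂ) else 0) *
      (((k : ℝ) ^ (-σ) : ℝ) : ℂ) := by
    unfold TT RR
    rw [Finset.sum_filter]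
    refine Finset.sum_congr rfl fun k hk => ?_
    have hk0 : (0 : ℝ) < k := by
      have := (Finset.mem_Ioc.1 hk).1
      exact_mod_cast this
    split_ifs with h
    · have e1 : (k : ℝ) ^ (-(1 + σ)) = (k : ℝ)⁻¹ * (k : ℝ) ^ (-σ) := by
        rw [neg_add, Real.rpow_add hk0, Real.rpow_neg_one]
      rw [e1]
      push_cast
      rw [div_eq_mul_inv]
      ring
    · rw [zero_mul]
  rw [h2, E7_abel (fun k => if Rough z k then ζ ^ Om k / (k : ℂ) else 0)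
    (fun k => (k : ℝ) ^ (-σ)) N hN, h1 N]
  congr 1
  refine Finset.sum_congr rfl fun n _ => ?_
  rw [h1 n]

theorem E7_cube {x : ℝ} (hx : 0 ≤ x) : (2 * x) ^ 3 ≤ 48 * Real.exp x := by
  have h := Real.pow_div_factorial_le_exp x hx 3
  have h3 : ((Nat.factorial 3 : ℕ) : ℝ) = 6 := by norm_num [Nat.factorial]
  rw [h3] at h
  nlinarith

theorem E7_diff {n : ℕ} (hn : 1 ≤ n) {σ : ℝ} (hσ : 0 < σ) :
    (n : ℝ) ^ (σ / 2) * ((n : ℝ) ^ (-σ) - ((n + 1 : ℕ) : ℝ) ^ (-σ)) ≤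
      2 * ((n : ℝ) ^ (-(σ / 2)) - ((n + 1 : ℕ) : ℝ) ^ (-(σ / 2))) := by
  have hn0 : (0 : ℝ) < n := by exact_mod_cast hn
  have hn1 : (0 : ℝ) < ((n + 1 : ℕ) : ℝ) := by positivity
  have hle : (n : ℝ) ≤ ((n + 1 : ℕ) : ℝ) := by
    push_cast
    linarith
  set a : ℝ := (n : ℝ) ^ (-(σ / 2)) with ha
  set b : ℝ := ((n + 1 : ℕ) : ℝ) ^ (-(σ / 2)) with hb
  have ha0 : 0 < a := Real.rpow_pos_of_pos hn0 _
  have hb0 : 0 < b := Real.rpow_pos_of_pos hn1 _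
  have hab : b ≤ a := Real.rpow_le_rpow_of_nonpos hn0 hle (by linarith)
  have e1 : (n : ℝ) ^ (-σ) = a * a := by
    rw [ha, ← Real.rpow_add hn0]
    congr 1
    ring
  have e2 : ((n + 1 : ℕ) : ℝ) ^ (-σ) = b * b := by
    rw [hb, ← Real.rpow_add hn1]
    congr 1
    ring
  have e3 : (n : ℝ) ^ (σ / 2) = a⁻¹ := by
    rw [ha, ← Real.rpow_neg hn0.le, neg_neg]
  rw [e1, e2, e3, inv_mul_le_iff₀ ha0]
  nlinarith

theorem TT_bound (ζ : ℂ) (hζ : ‖ζ‖ = 1) (z x0 : ℕ) (hx0 : 2 ≤ x0) (B κ σ : ℝ) (hB : 0 ≤ B)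
    (hκ : 0 < κ) (hσ : σ * Real.log x0 = κ)
    (hS : ∀ N : ℕ, x0 ≤ N → ‖SS ζ z N‖ ≤ B * (Real.log N / Real.log x0) ^ 3) (N : ℕ) (hN : x0 ≤ N) :
    ‖TT ζ σ z N‖ ≤ MM z x0 * κ + 144 * B / κ ^ 3 := by
  have hx0r : (2 : ℝ) ≤ x0 := by exact_mod_cast hx0
  have hlog : 0 < Real.log x0 := Real.log_pos (by linarith)
  have hσ0 : 0 < σ := by
    by_contra hcon
    rw [not_lt] at hcon
    have := mul_nonpos_of_nonpos_of_nonneg hcon hlog.le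
    linarith
  have hκ3 : 0 < κ ^ 3 := by positivity
  set K : ℝ := 48 * B / κ ^ 3 with hK
  have hK0 : 0 ≤ K := by positivity
  have hM0 : 0 ≤ MM z x0 := (norm_nonneg _).trans (E7_SS_le ζ hζ z x0)
  -- large arguments
  have hbig : ∀ n : ℕ, x0 ≤ n → ‖SS ζ z n‖ ≤ K * (n : ℝ) ^ (σ / 2) := by
    intro n hn
    have hnr : (x0 : ℝ) ≤ n := by exact_mod_cast hn
    have hn0 : (0 : ℝ) < n := by linarith
    have hln : 0 ≤ Real.log n := Real.log_nonneg (by linarith)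
    refine (hS n hn).trans ?_
    have e1 : Real.log n / Real.log x0 = σ * Real.log n / κ := by
      rw [← hσ, mul_div_mul_left _ _ hσ0.ne']
    have e2 : (n : ℝ) ^ (σ / 2) = Real.exp (σ * Real.log n / 2) := by
      rw [Real.rpow_def_of_pos hn0]
      congr 1
      ring
    have e3 := E7_cube (x := σ * Real.log n / 2) (by positivity)
    have e4 : 2 * (σ * Real.log n / 2) = σ * Real.log n := by ring
    rw [e4] at e3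
    rw [e1, e2, div_pow, hK]
    calc B * ((σ * Real.log n) ^ 3 / κ ^ 3) ≤ B * (48 * Real.exp (σ * Real.log n / 2) / κ ^ 3) := by
          gcongr
      _ = 48 * B / κ ^ 3 * Real.exp (σ * Real.log n / 2) := by ring
  have hdiff0 : ∀ n : ℕ, 1 ≤ n → 0 ≤ (n : ℝ) ^ (-σ) - ((n + 1 : ℕ) : ℝ) ^ (-σ) := by
    intro n hn
    have hn0 : (0 : ℝ) < n := by exact_mod_cast hn
    have hle : (n : ℝ) ≤ ((n + 1 : ℕ) : ℝ) := by
      push_cast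
      linarith
    have := Real.rpow_le_rpow_of_nonpos hn0 hle (show -σ ≤ 0 by linarith)
    linarith
  have hN1 : 1 ≤ N := by omega
  have hNr : (0 : ℝ) < N := by exact_mod_cast hN1
  have hnorm : ∀ n ∈ Ico 1 N, ‖SS ζ z n * (((n : ℝ) ^ (-σ) - ((n + 1 : ℕ) : ℝ) ^ (-σ) : ℝ) : ℂ)‖ =
      ‖SS ζ z n‖ * ((n : ℝ) ^ (-σ) - ((n + 1 : ℕ) : ℝ) ^ (-σ)) := by
    intro n hn
    rw [norm_mul, Complex.norm_real, Real.norm_eq_abs,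
      abs_of_nonneg (hdiff0 n (Finset.mem_Ico.1 hn).1)]
  have h1 : ‖TT ζ σ z N‖ ≤ ‖SS ζ z N‖ * (N : ℝ) ^ (-σ) +
      ∑ n ∈ Ico 1 N, ‖SS ζ z n‖ * ((n : ℝ) ^ (-σ) - ((n + 1 : ℕ) : ℝ) ^ (-σ)) := by
    rw [E7_TT_eq ζ σ z N hN1]
    refine (norm_add_le _ _).trans (add_le_add ?_ ?_)
    · rw [norm_mul, Complex.norm_real, Real.norm_eq_abs, abs_of_nonneg (by positivity)]
    · refine (norm_sum_le _ _).trans (le_of_eq ?_)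
      exact Finset.sum_congr rfl hnorm
  -- small arguments
  have h2 : ∑ n ∈ Ico 1 x0, ‖SS ζ z n‖ * ((n : ℝ) ^ (-σ) - ((n + 1 : ℕ) : ℝ) ^ (-σ)) ≤
      MM z x0 * κ := by
    have e1 : ∑ n ∈ Ico 1 x0, ‖SS ζ z n‖ * ((n : ℝ) ^ (-σ) - ((n + 1 : ℕ) : ℝ) ^ (-σ)) ≤
        ∑ n ∈ Ico 1 x0, MM z x0 * ((n : ℝ) ^ (-σ) - ((n + 1 : ℕ) : ℝ) ^ (-σ)) := by
      refine Finset.sum_le_sum fun n hn => ?_
      rw [Finset.mem_Ico] at hn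
      exact mul_le_mul_of_nonneg_right ((E7_SS_le ζ hζ z n).trans (E7_MM_mono z hn.2.le))
        (hdiff0 n hn.1)
    refine e1.trans ?_
    rw [← Finset.mul_sum]
    refine mul_le_mul_of_nonneg_left ?_ hM0
    have e2 := E7_tel (fun n : ℕ => (n : ℝ) ^ (-σ)) (show 1 ≤ x0 by omega)
    rw [e2]
    have e3 : (x0 : ℝ) ^ (-σ) = Real.exp (-κ) := by
      rw [Real.rpow_def_of_pos (by linarith), ← hσ]
      congr 1
      ring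
    rw [Nat.cast_one, Real.one_rpow, e3]
    have e4 := Real.add_one_le_exp (-κ)
    linarith
  have h3 : ∑ n ∈ Ico x0 N, ‖SS ζ z n‖ * ((n : ℝ) ^ (-σ) - ((n + 1 : ℕ) : ℝ) ^ (-σ)) ≤
      2 * K * ((x0 : ℝ) ^ (-(σ / 2)) - (N : ℝ) ^ (-(σ / 2))) := by
    have e2 := E7_tel (fun n : ℕ => (n : ℝ) ^ (-(σ / 2))) hN
    rw [← e2, Finset.mul_sum]
    refine Finset.sum_le_sum fun n hn => ?_
    rw [Finset.mem_Ico] at hn
    have hn1 : 1 ≤ n := by omega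
    calc ‖SS ζ z n‖ * ((n : ℝ) ^ (-σ) - ((n + 1 : ℕ) : ℝ) ^ (-σ))
        ≤ K * (n : ℝ) ^ (σ / 2) * ((n : ℝ) ^ (-σ) - ((n + 1 : ℕ) : ℝ) ^ (-σ)) :=
          mul_le_mul_of_nonneg_right (hbig n hn.1) (hdiff0 n hn1)
      _ = K * ((n : ℝ) ^ (σ / 2) * ((n : ℝ) ^ (-σ) - ((n + 1 : ℕ) : ℝ) ^ (-σ))) := by ring
      _ ≤ K * (2 * ((n : ℝ) ^ (-(σ / 2)) - ((n + 1 : ℕ) : ℝ) ^ (-(σ / 2)))) :=
          mul_le_mul_of_nonneg_left (E7_diff hn1 hσ0) hK0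
      _ = 2 * K * ((n : ℝ) ^ (-(σ / 2)) - ((n + 1 : ℕ) : ℝ) ^ (-(σ / 2))) := by ring
  have h4 : ‖SS ζ z N‖ * (N : ℝ) ^ (-σ) ≤ K * (N : ℝ) ^ (-(σ / 2)) := by
    have e1 : (N : ℝ) ^ (σ / 2) * (N : ℝ) ^ (-σ) = (N : ℝ) ^ (-(σ / 2)) := by
      rw [← Real.rpow_add hNr]
      congr 1
      ring
    calc ‖SS ζ z N‖ * (N : ℝ) ^ (-σ) ≤ K * (N : ℝ) ^ (σ / 2) * (N : ℝ) ^ (-σ) :=
          mul_le_mul_of_nonneg_right (hbig N hN) (by positivity)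
      _ = K * (N : ℝ) ^ (-(σ / 2)) := by rw [mul_assoc, e1]
  have h5 : (x0 : ℝ) ^ (-(σ / 2)) ≤ 1 :=
    Real.rpow_le_one_of_one_le_of_nonpos (by linarith) (by linarith)
  have h6 : 0 ≤ (N : ℝ) ^ (-(σ / 2)) := by positivity
  have h7 : (N : ℝ) ^ (-(σ / 2)) ≤ 1 :=
    Real.rpow_le_one_of_one_le_of_nonpos (by exact_mod_cast hN1) (by linarith)
  have h8 : 144 * B / κ ^ 3 = 3 * K := by
    rw [hK]
    ring
  rw [← Finset.sum_Ico_consecutive _ (show 1 ≤ x0 by omega) hN] at h1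
  rw [h8]
  nlinarith [mul_le_mul_of_nonneg_left h5 hK0, mul_nonneg hK0 h6]

end Pool.Agent.Lib.MP_42948a_nt.OM
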