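import Pool.Agent.Lib.MP_42948a_nt.OM.E1

/-!
# The Euler product (job E8)

Let `f : ℕ →*₀ ℂ` be `n ↦ ζ^(Om n) n^(-(1+σ))` for rough `n`, `0` for the other `n` (a monoid-with-zero hom: `f 0 = 0`, `f 1 = 1`,
multiplicativity from `ArithmeticFunction.cardFactors_mul`, `Real.mul_rpow`, and `m n` rough iff `m`, `n` rough). `∑ ‖f n‖ ≤ ∑ n^(-(1+σ)) < ∞`
(`Real.summable_nat_rpow`). By `EulerProduct.eulerProduct_completely_multiplicative` the products
`∏_{p < n prime} (1 - f p)⁻¹` converge to `F = ∑' n, f n`. For `p ≤ z` the factor is `1`; for `p > z`, `f p = ζ x` with `x = p^(-(1+σ))`,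
`‖1 - ζ x‖^2 = 1 - 2 x Re ζ + x^2 ≤ 1 + x + x^2 ≤ exp(x + x^2)`, so `‖(1 - f p)⁻¹‖ ≥ exp(-(x + x^2)/2)` and every partial product has norm
`≥ exp(-(1/2) ∑_{p > z} (x + x^2)) ≥ exp(-(1/2) (log (1/(σ log z)) + C + 2)) = exp(-(C+2)/2) (σ log z)^(1/2)` (`prime_recip_sigma`;
`∑_p x^2 ≤ ∑_{n ≥ 2} 1/n^2 ≤ 2`). So `‖F‖` is at least this (`ge_of_tendsto`). Finally `TT ζ σ z N → F` (`HasSum.tendsto_sum_nat`:
`TT ζ σ z N = ∑_{n < N+1} f n`), so for every `t < ‖F‖` there is `N0` with `t ≤ ‖TT ζ σ z N‖` for `N ≥ N0`: take `t` = half of the lower bound.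
-/

namespace Pool.Agent.Lib.MP_42948a_nt.OM

open Finset Pool.Agent.Lib.MP_42948a_nt.OA

theorem E8_not_rough_zero (z : ℕ) : ¬ Rough z 0 := fun h => absurd h.1 (lt_irrefl 0)

open Classical in
/-- the completely multiplicative function `ζ ^ Ω n * n ^ (-(1 + σ))` on rough numbers -/
noncomputable def E8_f (ζ : ℂ) (σ : ℝ) (z : ℕ) : ℕ →*₀ ℂ where
  toFun n := if Rough z n then ζ ^ Om n * (((n : ℝ) ^ (-(1 + σ)) : ℝ) : ℂ) else 0
  map_zero' := if_neg (E8_not_rough_zero z)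
  map_one' := by
    rw [if_pos (Rough.one z)]
    simp [Om]
  map_mul' a b := by
    by_cases h : Rough z (a * b)
    · have ha : Rough z a := h.of_dvd (Dvd.intro b rfl)
      have hb : Rough z b := h.of_dvd (Dvd.intro_left a rfl)
      rw [if_pos h, if_pos ha, if_pos hb]
      have ha0 : a ≠ 0 := ha.1.ne'
      have hb0 : b ≠ 0 := hb.1.ne'
      unfold Om
      rw [ArithmeticFunction.cardFactors_mul ha0 hb0, pow_add]
      push_cast
      rw [Real.mul_rpow (Nat.cast_nonneg a) (Nat.cast_nonneg b)]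
      push_cast
      ring
    · rw [if_neg h]
      by_cases h1 : Rough z a
      · have h2 : ¬ Rough z b := fun h2 => h (h1.mul h2)
        rw [if_neg h2, mul_zero]
      · rw [if_neg h1, zero_mul]

theorem E8_f_rough (ζ : ℂ) (σ : ℝ) {z n : ℕ} (h : Rough z n) :
    E8_f ζ σ z n = ζ ^ Om n * (((n : ℝ) ^ (-(1 + σ)) : ℝ) : ℂ) := if_pos h

theorem E8_f_not (ζ : ℂ) (σ : ℝ) {z n : ℕ} (h : ¬ Rough z n) : E8_f ζ σ z n = 0 := if_neg h

theorem E8_summable (ζ : ℂ) (hζ : ‖ζ‖ = 1) (σ : ℝ) (hσ : 0 < σ) (z : ℕ) :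
    Summable (fun n => ‖E8_f ζ σ z n‖) := by
  have hs : Summable (fun n : ℕ => (n : ℝ) ^ (-(1 + σ))) :=
    Real.summable_nat_rpow.mpr (by linarith)
  refine Summable.of_nonneg_of_le (fun n => norm_nonneg _) (fun n => ?_) hs
  by_cases h : Rough z n
  · rw [E8_f_rough ζ σ h, norm_mul, norm_pow, hζ, one_pow, one_mul, Complex.norm_real,
      Real.norm_eq_abs, abs_of_nonneg (Real.rpow_nonneg (Nat.cast_nonneg n) _)]
  · rw [E8_f_not ζ σ h, norm_zero]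
    exact Real.rpow_nonneg (Nat.cast_nonneg n) _

theorem E8_TT (ζ : ℂ) (σ : ℝ) (z N : ℕ) : TT ζ σ z N = ∑ n ∈ range (N + 1), E8_f ζ σ z n := by
  classical
  unfold TT RR
  rw [Finset.sum_filter]
  have h1 : range (N + 1) = insert 0 (Ioc 0 N) := by
    ext n
    simp only [Finset.mem_range, Finset.mem_insert, Finset.mem_Ioc]
    omega
  rw [h1, Finset.sum_insert (by simp), map_zero, zero_add]
  refine Finset.sum_congr rfl fun n _ => ?_
  by_cases h : Rough z n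
  · rw [E8_f_rough ζ σ h, if_pos h]
  · rw [E8_f_not ζ σ h, if_neg h]

theorem E8_norm (ζ : ℂ) (hζ : ‖ζ‖ = 1) (hre : -(1 / 2) ≤ ζ.re) (x : ℝ) (hx : 0 ≤ x) :
    ‖1 - ζ * (x : ℂ)‖ ≤ Real.exp ((x + x ^ 2) / 2) := by
  have h1 : ‖1 - ζ * (x : ℂ)‖ ^ 2 ≤ (Real.exp ((x + x ^ 2) / 2)) ^ 2 := by
    rw [← Real.exp_nat_mul]
    have h2 : ‖1 - ζ * (x : ℂ)‖ ^ 2 = 1 - 2 * x * ζ.re + x ^ 2 := by
      have h3 : ζ.re * ζ.re + ζ.im * ζ.im = 1 := by
        have := Complex.sq_norm ζ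
        rw [hζ, Complex.normSq_apply] at this
        linarith
      rw [Complex.sq_norm, Complex.normSq_apply]
      simp only [Complex.sub_re, Complex.one_re, Complex.mul_re, Complex.ofReal_re,
        Complex.ofReal_im, mul_zero, sub_zero, Complex.sub_im, Complex.one_im, Complex.mul_im,
        zero_add, zero_sub]
      linear_combination x ^ 2 * h3
    rw [h2]
    have h4 : 1 - 2 * x * ζ.re + x ^ 2 ≤ (x + x ^ 2) + 1 := by nlinarith
    have h5 := Real.add_one_le_exp (x + x ^ 2)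
    have h6 : ((2 : ℕ) : ℝ) * ((x + x ^ 2) / 2) = x + x ^ 2 := by push_cast; ring
    rw [h6]
    linarith
  exact (pow_le_pow_iff_left₀ (norm_nonneg _) (Real.exp_nonneg _) two_ne_zero).mp h1

theorem E8_prime_not {z p : ℕ} (hp : p.Prime) (h : ¬ z < p) : ¬ Rough z p :=
  fun hr => h (hr.2 p hp dvd_rfl)

theorem E8_prime_rough {z p : ℕ} (hp : p.Prime) (h : z < p) : Rough z p := by
  refine ⟨hp.pos, fun q hq hqp => ?_⟩
  rw [(Nat.prime_dvd_prime_iff_eq hq hp).mp hqp]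
  exact h

theorem E8_factor (ζ : ℂ) (hζ : ‖ζ‖ = 1) (hre : -(1 / 2) ≤ ζ.re) (σ : ℝ) (z p : ℕ)
    (hp : p.Prime) : ‖1 - E8_f ζ σ z p‖ ≤ Real.exp (if z < p then
      ((p : ℝ) ^ (-(1 + σ)) + ((p : ℝ) ^ (-(1 + σ))) ^ 2) / 2 else 0) := by
  by_cases h : z < p
  · rw [if_pos h, E8_f_rough ζ σ (E8_prime_rough hp h)]
    have : Om p = 1 := ArithmeticFunction.cardFactors_apply_prime hp
    rw [this, pow_one]
    exact E8_norm ζ hζ hre _ (Real.rpow_nonneg (Nat.cast_nonneg p) _)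
  · rw [if_neg h, E8_f_not ζ σ (E8_prime_not hp h)]
    simp

theorem E8_sq {p : ℕ} (hp : 1 ≤ p) {σ : ℝ} (hσ : 0 < σ) :
    ((p : ℝ) ^ (-(1 + σ))) ^ 2 ≤ 1 / (p : ℝ) ^ 2 := by
  have hp' : (1 : ℝ) ≤ p := by exact_mod_cast hp
  have h0 : (0 : ℝ) < p := by linarith
  have h1 : (p : ℝ) ^ (-(1 + σ)) ≤ (p : ℝ) ^ (-1 : ℝ) :=
    Real.rpow_le_rpow_of_exponent_le hp' (by linarith)
  rw [Real.rpow_neg_one] at h1
  have h2 := pow_le_pow_left₀ (Real.rpow_nonneg h0.le _) h1 2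
  rwa [inv_pow, ← one_div] at h2

theorem E8_lt (ζ : ℂ) (hζ : ‖ζ‖ = 1) {σ : ℝ} (hσ : 0 < σ) {z p : ℕ} (hp : p.Prime) :
    ‖E8_f ζ σ z p‖ < 1 := by
  by_cases h : z < p
  · rw [E8_f_rough ζ σ (E8_prime_rough hp h), norm_mul, norm_pow, hζ, one_pow, one_mul,
      Complex.norm_real, Real.norm_eq_abs, abs_of_nonneg (Real.rpow_nonneg (Nat.cast_nonneg p) _)]
    exact Real.rpow_lt_one_of_one_lt_of_neg (by exact_mod_cast hp.one_lt) (by linarith)
  · rw [E8_f_not ζ σ (E8_prime_not hp h), norm_zero]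
    exact one_pos

theorem euler_lower : ∃ c : ℝ, 0 < c ∧ ∀ (ζ : ℂ), ‖ζ‖ = 1 → -(1 / 2) ≤ ζ.re → ∀ (z : ℕ) (σ : ℝ),
    2 ≤ z → 0 < σ → σ * Real.log z ≤ 1 → ∃ N0 : ℕ, ∀ N : ℕ, N0 ≤ N →
      c * √(σ * Real.log z) ≤ ‖TT ζ σ z N‖ := by
  obtain ⟨C, hC, hsum⟩ := prime_recip_sigma
  have hs2 : Summable (fun n : ℕ => 1 / (n : ℝ) ^ 2) :=
    Real.summable_one_div_nat_pow.mpr one_lt_two
  set K : ℝ := ∑' n : ℕ, 1 / (n : ℝ) ^ 2 with hK
  refine ⟨Real.exp (-(C + K) / 2) / 2, by positivity, fun ζ hζ hre z σ hz hσ hσz => ?_⟩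
  have hlz : 0 < Real.log z := Real.log_pos (by exact_mod_cast hz)
  have hpos : 0 < σ * Real.log z := mul_pos hσ hlz
  have hsq : 0 < √(σ * Real.log z) := Real.sqrt_pos.mpr hpos
  have hSf := E8_summable ζ hζ σ hσ z
  have hE := EulerProduct.eulerProduct_completely_multiplicative (f := E8_f ζ σ z) hSf
  set F : ℂ := ∑' n, E8_f ζ σ z n with hF
  set L : ℝ := Real.exp (-(C + K) / 2) * √(σ * Real.log z) with hL
  have hLpos : 0 < L := by positivity
  have hlower : ∀ n : ℕ, L ≤ ‖∏ p ∈ Nat.primesBelow n, (1 - E8_f ζ σ z p)⁻¹‖ := by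
    intro n
    have h1 : ∏ p ∈ Nat.primesBelow n, ‖1 - E8_f ζ σ z p‖ ≤
        Real.exp (∑ p ∈ Nat.primesBelow n, if z < p then
          ((p : ℝ) ^ (-(1 + σ)) + ((p : ℝ) ^ (-(1 + σ))) ^ 2) / 2 else 0) := by
      rw [Real.exp_sum]
      refine Finset.prod_le_prod (fun p _ => norm_nonneg _) fun p hp => ?_
      exact E8_factor ζ hζ hre σ z p (Nat.prime_of_mem_primesBelow hp)
    have h2 : (∑ p ∈ Nat.primesBelow n, if z < p then
          ((p : ℝ) ^ (-(1 + σ)) + ((p : ℝ) ^ (-(1 + σ))) ^ 2) / 2 else 0) ≤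
        (Real.log (1 / (σ * Real.log z)) + C + K) / 2 := by
      rw [← Finset.sum_filter]
      have hsub : (Nat.primesBelow n).filter (fun p => z < p) ⊆
          (Ioc z n).filter Nat.Prime := by
        intro p hp
        rw [Finset.mem_filter, Nat.mem_primesBelow] at hp
        rw [Finset.mem_filter, Finset.mem_Ioc]
        exact ⟨⟨hp.2, hp.1.1.le⟩, hp.1.2⟩
      have h3 := Finset.sum_le_sum_of_subset_of_nonneg
        (f := fun p : ℕ => ((p : ℝ) ^ (-(1 + σ)) + ((p : ℝ) ^ (-(1 + σ))) ^ 2) / 2) hsub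
        (fun p _ _ => by positivity)
      refine h3.trans ?_
      rw [← Finset.sum_div, Finset.sum_add_distrib]
      have h4 := hsum z n σ hz hσ hσz
      have h5 : ∑ p ∈ (Ioc z n).filter Nat.Prime, ((p : ℝ) ^ (-(1 + σ))) ^ 2 ≤ K := by
        refine (Finset.sum_le_sum fun p hp => ?_).trans
          (hs2.sum_le_tsum ((Ioc z n).filter Nat.Prime) (fun p _ => by positivity))
        exact E8_sq (Finset.mem_filter.mp hp).2.one_lt.le hσ
      linarith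
    have h3 : (∏ p ∈ Nat.primesBelow n, ‖1 - E8_f ζ σ z p‖) ≤
        Real.exp ((Real.log (1 / (σ * Real.log z)) + C + K) / 2) :=
      h1.trans (Real.exp_le_exp.mpr h2)
    have hfac : ∀ p ∈ Nat.primesBelow n, 0 < ‖1 - E8_f ζ σ z p‖ := by
      intro p hp
      have hlt : ‖E8_f ζ σ z p‖ < 1 := E8_lt ζ hζ hσ (Nat.prime_of_mem_primesBelow hp)
      rw [norm_pos_iff, sub_ne_zero]
      rintro h
      rw [← h, norm_one] at hlt
      exact lt_irrefl _ hlt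
    have hprod : 0 < ∏ p ∈ Nat.primesBelow n, ‖1 - E8_f ζ σ z p‖ := Finset.prod_pos hfac
    have h4 : ‖∏ p ∈ Nat.primesBelow n, (1 - E8_f ζ σ z p)⁻¹‖ =
        (∏ p ∈ Nat.primesBelow n, ‖1 - E8_f ζ σ z p‖)⁻¹ := by
      rw [norm_prod, ← Finset.prod_inv_distrib]
      exact Finset.prod_congr rfl fun p _ => norm_inv _
    rw [h4]
    have h5 : L = (Real.exp ((Real.log (1 / (σ * Real.log z)) + C + K) / 2))⁻¹ := by
      have h6 : Real.log (1 / (σ * Real.log z)) = - Real.log (σ * Real.log z) := by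
        rw [one_div, Real.log_inv]
      rw [h6, hL, ← Real.exp_neg, Real.sqrt_eq_rpow, Real.rpow_def_of_pos hpos, ← Real.exp_add]
      congr 1
      ring
    rw [h5]
    exact inv_anti₀ hprod h3
  have hFL : L ≤ ‖F‖ := ge_of_tendsto hE.norm (Filter.Eventually.of_forall hlower)
  have hT : Filter.Tendsto (fun N : ℕ => ‖TT ζ σ z N‖) Filter.atTop (nhds ‖F‖) := by
    have h1 := (Summable.of_norm hSf).hasSum.tendsto_sum_nat
    have h2 := (h1.comp (Filter.tendsto_add_atTop_nat 1)).norm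
    refine h2.congr fun N => ?_
    rw [E8_TT]
    rfl
  have hlt : L / 2 < ‖F‖ := by linarith
  obtain ⟨N0, hN0⟩ := Filter.eventually_atTop.mp (hT.eventually_const_lt hlt)
  refine ⟨N0, fun N hN => ?_⟩
  have := (hN0 N hN).le
  rw [hL] at this
  linarith

end Pool.Agent.Lib.MP_42948a_nt.OM
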