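import Pool.Agent.Lib.MP_42948a_nt.OM.E2
import Pool.Agent.Lib.MP_42948a_nt.OM.E4
import Pool.Agent.Lib.MP_42948a_nt.OM.E5
import Pool.Agent.Lib.MP_42948a_nt.OM.E6
import Pool.Agent.Lib.MP_42948a_nt.OM.E7
import Pool.Agent.Lib.MP_42948a_nt.OM.E8

/-!
# The bias of `ζ ^ Ω` on rough numbers in `(x0, x0 ^ (1 + η)]` (job E9)

Constants: `C1` from `MM_le`, `C2` from `log_identity`, `c6` from `euler_lower`; `k0 = min 1 ((c6/(2 C1))^2)`,
`c7 = (c6/288) k0^3 √k0`, `c = η c7 / 200`. Suppose `‖S(n) - S(x0)‖ < η' = c ρ^11` for all `n ∈ [x0, x0^(1+η)]`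
(`∑_{RR z x0 n} = SS ζ z n - SS ζ z x0`). Let `x2 = ⌊x0^(1+η/2)⌋₊ ≥ x0`, `x1 = z x2 ≤ x0^(1+η)` (`z ≤ x0^(η/4)`), `log x1 ≤ 2 log x0`,
`log x2 - log x0 ≥ (η/2) log x0 - log 2 ≥ (η/4) log x0` (`z` large). `log z > 0`, `MM z x1 ≤ 2 C1 log x0 / log z`.
(1) `small_value` with `K = C2 MM z x1` (`MM_mono`): `‖S(x0)‖ (η/4) log x0 ≤ 6 η' log x0 + 4 C1 C2 log x0/log z`, so
`‖S(x0)‖ ≤ 24 η'/η + 16 C1 C2/(η log z)`. (2) `growth` with `A = ‖S(x0)‖ + η'` (`z x0 ≤ x1`), `θ = C1 C2/log z` (`log_identity`, `MM_le`):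
`‖S(N)‖ ≤ B (log N/log x0)^3` for all `N ≥ x0`, `B = 2 A + 4 θ ≤ 50 η'/η + 36 C1 C2/(η log z)`. (3) `κ = k0 ρ^3 ≤ 1`,
`σ = κ/log x0`: `κ ρ ≤ σ log z ≤ 1`. `TT_bound` and `euler_lower` (for a common large `N`), `MM z x0 ≤ C1/ρ`:
`c6 √(κ ρ) ≤ C1 κ/ρ + 144 B/κ^3`, and `C1 κ/ρ ≤ (c6/2) √(κ ρ)` (i.e. `√κ ≤ (c6/(2 C1)) ρ^(3/2)`). So
`B ≥ (c6/288) κ^3 √(κ ρ) = c7 ρ^11` (`√(κ ρ) = √k0 ρ^2`, `κ^3 = k0^3 ρ^9`). (4) For `log z ≥ 72 C1 C2/(η c7 ρ^11)` this gives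
`50 η'/η ≥ (c7/2) ρ^11`, i.e. `η' ≥ (η c7/100) ρ^11 > c ρ^11`: contradiction.
-/

namespace Pool.Agent.Lib.MP_42948a_nt.OM

open Finset Pool.Agent.Lib.MP_42948a_nt.OA

private theorem E9_SS (ζ : ℂ) (z a b : ℕ) (h : a ≤ b) :
    ∑ n ∈ RR z a b, ζ ^ Om n / (n : ℂ) = SS ζ z b - SS ζ z a := by
  classical
  have h1 : RR z 0 b = RR z 0 a ∪ RR z a b := by
    unfold RR
    rw [← filter_union]
    congr 1
    ext n
    simp only [mem_Ioc, mem_union]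
    omega
  have h2 : Disjoint (RR z 0 a) (RR z a b) := by
    unfold RR
    refine disjoint_filter_filter ?_
    rw [Finset.disjoint_left]
    intro n hn hn'
    rw [mem_Ioc] at hn hn'
    omega
  unfold SS
  rw [h1, sum_union h2]
  ring

/-- the numerical conclusion -/
private theorem E9_num (C1 C2 c6 η ρ lz lx k0 κ B η' S0 M0 t c7 : ℝ) (hC1 : 1 ≤ C1) (hC2 : 0 ≤ C2)
    (hc6 : 0 < c6) (hη : 0 < η) (hη1 : η ≤ 1) (hρ : 0 < ρ) (hk0 : 0 < k0)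
    (hk0c : √k0 ≤ c6 / (2 * C1)) (hκ : κ = k0 * ρ ^ 3) (hlz : 0 < lz) (hlx : 0 < lx)
    (hρl : ρ * lx ≤ lz) (hc7 : c7 = c6 / 288 * k0 ^ 3 * √k0)
    (hη' : η' = η * c7 / 200 * ρ ^ 11)
    (hbig : 72 * C1 * C2 / (η * c7 * ρ ^ 11) ≤ lz)
    (hS0 : S0 * (η / 4 * lx) ≤ 6 * η' * lx + 4 * C1 * C2 * (lx / lz))
    (hB : B = 2 * (S0 + η') + 4 * (C1 * C2 / lz))
    (hM0 : M0 ≤ C1 * (lx / lz)) (ht : κ * ρ ≤ t)
    (hmain : c6 * √t ≤ M0 * κ + 144 * B / κ ^ 3) : False := by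
  have hC1' : 0 < C1 := by linarith
  have hsk0 : 0 < √k0 := Real.sqrt_pos.mpr hk0
  have hc7p : 0 < c7 := by rw [hc7]; positivity
  have hρ11 : 0 < ρ ^ 11 := by positivity
  have hκp : 0 < κ := by rw [hκ]; positivity
  have hS0' : S0 ≤ 24 * η' / η + 16 * C1 * C2 / (η * lz) := by
    have h1 : S0 ≤ (6 * η' * lx + 4 * C1 * C2 * (lx / lz)) / (η / 4 * lx) := by
      rw [le_div_iff₀ (by positivity)]
      exact hS0
    refine le_trans h1 (le_of_eq ?_)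
    field_simp
    ring
  have hη'p : 0 < η' := by rw [hη']; positivity
  have hη'le : η' ≤ η' / η := by
    rw [le_div_iff₀ hη]
    nlinarith
  have hCC : C1 * C2 / lz ≤ C1 * C2 / (η * lz) := by
    refine div_le_div_of_nonneg_left (by positivity) (by positivity) ?_
    nlinarith
  have hBle : B ≤ 50 * (η' / η) + 36 * (C1 * C2 / (η * lz)) := by
    rw [hB]
    have e1 : 24 * η' / η = 24 * (η' / η) := by ring
    have e2 : 16 * C1 * C2 / (η * lz) = 16 * (C1 * C2 / (η * lz)) := by ring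
    rw [e1, e2] at hS0'
    linarith
  have hlow : c7 * ρ ^ 11 ≤ B := by
    have hM0' : M0 * κ ≤ c6 / 2 * √k0 * ρ ^ 2 := by
      have h1 : lx / lz ≤ 1 / ρ := by
        rw [div_le_div_iff₀ hlz hρ]
        linarith
      have h2 : M0 * κ ≤ C1 * (1 / ρ) * κ := by
        refine mul_le_mul_of_nonneg_right ?_ hκp.le
        exact le_trans hM0 (mul_le_mul_of_nonneg_left h1 hC1'.le)
      have h3 : C1 * (1 / ρ) * κ = C1 * √k0 * √k0 * ρ ^ 2 := by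
        have hs : √k0 * √k0 = k0 := Real.mul_self_sqrt hk0.le
        have e : C1 * √k0 * √k0 * ρ ^ 2 = C1 * (√k0 * √k0) * ρ ^ 2 := by ring
        rw [e, hs, hκ]
        field_simp
      have h4 : C1 * √k0 ≤ c6 / 2 := by
        rw [le_div_iff₀ (by positivity)] at hk0c
        linarith
      rw [h3] at h2
      refine le_trans h2 ?_
      refine mul_le_mul_of_nonneg_right ?_ (by positivity)
      exact mul_le_mul_of_nonneg_right h4 hsk0.le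
    have hst : √k0 * ρ ^ 2 ≤ √t := by
      refine le_trans (le_of_eq ?_) (Real.sqrt_le_sqrt ht)
      have e : κ * ρ = k0 * (ρ ^ 2) ^ 2 := by rw [hκ]; ring
      rw [e, Real.sqrt_mul hk0.le, Real.sqrt_sq (by positivity)]
    have h5 : c6 * (√k0 * ρ ^ 2) ≤ c6 / 2 * √k0 * ρ ^ 2 + 144 * B / κ ^ 3 :=
      le_trans (mul_le_mul_of_nonneg_left hst hc6.le) (le_trans hmain (by linarith))
    have h6 : c6 / 2 * √k0 * ρ ^ 2 ≤ 144 * B / κ ^ 3 := by linarith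
    rw [le_div_iff₀ (by positivity)] at h6
    have h7 : c7 * ρ ^ 11 * 144 = c6 / 2 * √k0 * ρ ^ 2 * κ ^ 3 := by
      rw [hc7, hκ]
      ring
    linarith
  have hup : 36 * (C1 * C2 / (η * lz)) ≤ c7 / 2 * ρ ^ 11 := by
    rw [div_le_iff₀ (by positivity)] at hbig
    rw [mul_div_assoc', div_le_iff₀ (by positivity)]
    nlinarith
  have he : 50 * (η' / η) = c7 / 4 * ρ ^ 11 := by
    rw [hη']
    field_simp
    ring
  nlinarith

theorem bias (η : ℝ) (hη : 0 < η) (hη1 : η ≤ 1) : ∃ c : ℝ, 0 < c ∧ ∀ ρ : ℝ, 0 < ρ → ρ ≤ η / 4 →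
    ∃ z0 : ℕ, ∀ z x0 : ℕ, z0 ≤ z → ρ * Real.log x0 ≤ Real.log z → Real.log z ≤ η / 4 * Real.log x0 →
      ∀ ζ : ℂ, ‖ζ‖ = 1 → -(1 / 2) ≤ ζ.re →
        ∃ y' : ℕ, x0 ≤ y' ∧ (y' : ℝ) ≤ (x0 : ℝ) ^ (1 + η) ∧
          c * ρ ^ 11 ≤ ‖∑ n ∈ RR z x0 y', ζ ^ Om n / (n : ℂ)‖ := by
  obtain ⟨C1, hC1, hMM⟩ := MM_le
  obtain ⟨C2, hC2, hlog⟩ := log_identity
  obtain ⟨c6, hc6, heul⟩ := euler_lower
  have hC1' : 0 < C1 := by linarith
  obtain ⟨k0, hk0def⟩ : ∃ k0 : ℝ, k0 = min 1 ((c6 / (2 * C1)) ^ 2) := ⟨_, rfl⟩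
  have hk0 : 0 < k0 := by rw [hk0def]; positivity
  have hk01 : k0 ≤ 1 := by rw [hk0def]; exact min_le_left _ _
  have hk0c : √k0 ≤ c6 / (2 * C1) := by
    rw [hk0def]
    refine le_trans (Real.sqrt_le_sqrt (min_le_right _ _)) ?_
    rw [Real.sqrt_sq (by positivity)]
  obtain ⟨c7, hc7⟩ : ∃ c7 : ℝ, c7 = c6 / 288 * k0 ^ 3 * √k0 := ⟨_, rfl⟩
  have hsk0 : 0 < √k0 := Real.sqrt_pos.mpr hk0
  have hc7p : 0 < c7 := by rw [hc7]; positivity
  refine ⟨η * c7 / 200, by positivity, ?_⟩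
  intro ρ hρ hρη
  refine ⟨max 2 ⌈Real.exp (72 * C1 * C2 / (η * c7 * ρ ^ 11))⌉₊, ?_⟩
  intro z x0 hz0 hρl hlzx ζ hζ hζre
  by_contra hcon
  push Not at hcon
  have hz2 : 2 ≤ z := le_trans (le_max_left _ _) hz0
  have hzexp : Real.exp (72 * C1 * C2 / (η * c7 * ρ ^ 11)) ≤ z :=
    le_trans (Nat.le_ceil _) (by exact_mod_cast le_trans (le_max_right _ _) hz0)
  have hzpos : (0 : ℝ) < z := by
    have : (2 : ℝ) ≤ z := by exact_mod_cast hz2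
    linarith
  have hbig : 72 * C1 * C2 / (η * c7 * ρ ^ 11) ≤ Real.log z := by
    rw [Real.le_log_iff_exp_le hzpos]
    exact hzexp
  have hlz2 : Real.log 2 ≤ Real.log z := Real.log_le_log (by norm_num) (by exact_mod_cast hz2)
  have hl2 : 0 < Real.log 2 := Real.log_pos (by norm_num)
  have hlz : 0 < Real.log z := by linarith
  have hlx : 0 < Real.log x0 := by
    by_contra h0
    rw [not_lt] at h0
    have : η / 4 * Real.log x0 ≤ 0 := mul_nonpos_of_nonneg_of_nonpos (by positivity) h0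
    linarith
  have hx02 : 2 ≤ x0 := by
    by_contra h0
    have h1 : x0 = 0 ∨ x0 = 1 := by omega
    rcases h1 with h1 | h1 <;> rw [h1] at hlx <;> simp at hlx
  have hx0R : (2 : ℝ) ≤ x0 := by exact_mod_cast hx02
  have hx0pos : (0 : ℝ) < x0 := by linarith
  have hlzlx : Real.log z ≤ Real.log x0 := by nlinarith
  have hzx0 : z ≤ x0 := by
    have : (z : ℝ) ≤ x0 := (Real.log_le_log_iff hzpos hx0pos).mp hlzlx
    exact_mod_cast this
  -- the point `x2`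
  obtain ⟨x2, hx2def⟩ : ∃ x2 : ℕ, x2 = ⌊(x0 : ℝ) ^ (1 + η / 2)⌋₊ := ⟨_, rfl⟩
  have hpow1 : (x0 : ℝ) ≤ (x0 : ℝ) ^ (1 + η / 2) := by
    have := Real.rpow_le_rpow_of_exponent_le (x := (x0 : ℝ)) (by linarith) (show (1 : ℝ) ≤ 1 + η / 2 by linarith)
    rwa [Real.rpow_one] at this
  have hx02le : x0 ≤ x2 := by
    rw [hx2def]
    exact Nat.le_floor hpow1
  have hx2le : (x2 : ℝ) ≤ (x0 : ℝ) ^ (1 + η / 2) := by
    rw [hx2def]
    exact Nat.floor_le (by positivity)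
  have hx2ge : (x0 : ℝ) ^ (1 + η / 2) / 2 ≤ x2 := by
    have h1 : (x0 : ℝ) ^ (1 + η / 2) < x2 + 1 := by
      rw [hx2def]
      exact Nat.lt_floor_add_one _
    linarith
  have hzle : (z : ℝ) ≤ (x0 : ℝ) ^ (η / 4) := by
    rw [Real.le_rpow_iff_log_le hzpos hx0pos]
    exact hlzx
  have hx1le : ((z * x2 : ℕ) : ℝ) ≤ (x0 : ℝ) ^ (1 + η) := by
    push_cast
    calc (z : ℝ) * x2 ≤ (x0 : ℝ) ^ (η / 4) * (x0 : ℝ) ^ (1 + η / 2) :=
          mul_le_mul hzle hx2le (by positivity) (by positivity)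
      _ = (x0 : ℝ) ^ (η / 4 + (1 + η / 2)) := (Real.rpow_add hx0pos _ _).symm
      _ ≤ (x0 : ℝ) ^ (1 + η) := Real.rpow_le_rpow_of_exponent_le (by linarith) (by linarith)
  have hx1pos : (0 : ℝ) < ((z * x2 : ℕ) : ℝ) := by
    have : 0 < z * x2 := Nat.mul_pos (by omega) (by omega)
    exact_mod_cast this
  have hlx1 : Real.log ((z * x2 : ℕ) : ℝ) ≤ 2 * Real.log x0 := by
    have h1 := Real.log_le_log hx1pos hx1le
    rw [Real.log_rpow hx0pos] at h1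
    nlinarith
  have hlx2 : η / 4 * Real.log x0 ≤ Real.log x2 - Real.log x0 := by
    have h1 : Real.log ((x0 : ℝ) ^ (1 + η / 2) / 2) ≤ Real.log x2 :=
      Real.log_le_log (by positivity) hx2ge
    rw [Real.log_div (by positivity) (by norm_num), Real.log_rpow hx0pos] at h1
    nlinarith
  -- the increments
  obtain ⟨η', hη'⟩ : ∃ η' : ℝ, η' = η * c7 / 200 * ρ ^ 11 := ⟨_, rfl⟩
  have hη'p : 0 < η' := by rw [hη']; positivity
  have hinc : ∀ n : ℕ, x0 ≤ n → n ≤ z * x2 → ‖SS ζ z n - SS ζ z x0‖ ≤ η' := by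
    intro n hn hn'
    rw [← E9_SS ζ z x0 n hn, hη']
    refine (hcon n hn ?_).le
    exact le_trans (by exact_mod_cast hn') hx1le
  have hzx1 : z ≤ z * x2 := Nat.le_mul_of_pos_right z (by omega)
  have hsv := small_value ζ hζ z x0 x2 hz2 (by omega) hx02le η' (C2 * MM z (z * x2)) hinc (by
    intro N hN hN'
    refine le_trans (hlog ζ hζ z N hz2 hN) ?_
    exact mul_le_mul_of_nonneg_left (MM_mono z hN') hC2)
  have hMM1 : MM z (z * x2) ≤ 2 * C1 * (Real.log x0 / Real.log z) := by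
    refine le_trans (hMM z (z * x2) hz2 hzx1) ?_
    have h1 : Real.log ((z * x2 : ℕ) : ℝ) / Real.log z ≤ 2 * Real.log x0 / Real.log z :=
      div_le_div_of_nonneg_right hlx1 hlz.le
    calc C1 * (Real.log ((z * x2 : ℕ) : ℝ) / Real.log z) ≤ C1 * (2 * Real.log x0 / Real.log z) :=
          mul_le_mul_of_nonneg_left h1 hC1'.le
      _ = 2 * C1 * (Real.log x0 / Real.log z) := by ring
  have hS0 : ‖SS ζ z x0‖ * (η / 4 * Real.log x0) ≤
      6 * η' * Real.log x0 + 4 * C1 * C2 * (Real.log x0 / Real.log z) := by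
    have h1 : ‖SS ζ z x0‖ * (η / 4 * Real.log x0) ≤
        ‖SS ζ z x0‖ * (Real.log x2 - Real.log x0) :=
      mul_le_mul_of_nonneg_left hlx2 (norm_nonneg _)
    have h2 : 3 * η' * Real.log ((z * x2 : ℕ) : ℝ) ≤ 3 * η' * (2 * Real.log x0) :=
      mul_le_mul_of_nonneg_left hlx1 (by positivity)
    have h3 : C2 * MM z (z * x2) ≤ C2 * (2 * C1 * (Real.log x0 / Real.log z)) :=
      mul_le_mul_of_nonneg_left hMM1 hC2
    linarith
  -- growth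
  have hgr := growth ζ hζ z x0 hz2 hx02 (‖SS ζ z x0‖ + η') (C1 * C2 / Real.log z) (by positivity)
    (by positivity) (by
      intro n hn hn'
      have h1 : n ≤ z * x2 := le_trans hn' (Nat.mul_le_mul_left z hx02le)
      have h2 := hinc n hn h1
      calc ‖SS ζ z n‖ = ‖SS ζ z x0 + (SS ζ z n - SS ζ z x0)‖ := by congr 1; ring
        _ ≤ ‖SS ζ z x0‖ + ‖SS ζ z n - SS ζ z x0‖ := norm_add_le _ _
        _ ≤ ‖SS ζ z x0‖ + η' := by linarith) (by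
      intro N hN
      refine le_trans (hlog ζ hζ z N hz2 (by omega)) ?_
      refine le_trans (mul_le_mul_of_nonneg_left (hMM z N hz2 (by omega)) hC2) (le_of_eq ?_)
      ring)
  obtain ⟨B, hB⟩ : ∃ B : ℝ, B = 2 * (‖SS ζ z x0‖ + η') + 4 * (C1 * C2 / Real.log z) := ⟨_, rfl⟩
  rw [← hB] at hgr
  have hBpos : 0 ≤ B := by rw [hB]; positivity
  -- the Dirichlet series
  obtain ⟨κ, hκ⟩ : ∃ κ : ℝ, κ = k0 * ρ ^ 3 := ⟨_, rfl⟩
  have hκp : 0 < κ := by rw [hκ]; positivity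
  have hρ1 : ρ ≤ 1 := by linarith
  have hκ1 : κ ≤ 1 := by
    rw [hκ]
    have : ρ ^ 3 ≤ 1 := pow_le_one₀ hρ.le hρ1
    exact mul_le_one₀ hk01 (by positivity) this
  obtain ⟨σ, hσ⟩ : ∃ σ : ℝ, σ = κ / Real.log x0 := ⟨_, rfl⟩
  have hσp : 0 < σ := by rw [hσ]; positivity
  have hσx : σ * Real.log x0 = κ := by
    rw [hσ]
    field_simp
  have hσz : σ * Real.log z ≤ 1 := by
    have h1 : σ * Real.log z ≤ σ * Real.log x0 := mul_le_mul_of_nonneg_left hlzlx hσp.le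
    linarith
  have ht : κ * ρ ≤ σ * Real.log z := by
    have h1 : σ * (ρ * Real.log x0) ≤ σ * Real.log z := mul_le_mul_of_nonneg_left hρl hσp.le
    have h2 : σ * (ρ * Real.log x0) = κ * ρ := by rw [← hσx]; ring
    linarith
  obtain ⟨N0, hN0⟩ := heul ζ hζ hζre z σ hz2 hσp hσz
  have hTT := TT_bound ζ hζ z x0 hx02 B κ σ hBpos hκp hσx hgr (max N0 x0) (le_max_right _ _)
  have hEu := hN0 (max N0 x0) (le_max_left _ _)
  exact E9_num C1 C2 c6 η ρ (Real.log z) (Real.log x0) k0 κ B η' ‖SS ζ z x0‖ (MM z x0)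
    (σ * Real.log z) c7 hC1 hC2 hc6 hη hη1 hρ hk0 hk0c hκ hlz hlx hρl hc7 hη' hbig hS0 hB
    (hMM z x0 hz2 hzx0) ht (le_trans hEu hTT)

end Pool.Agent.Lib.MP_42948a_nt.OM
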