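import Pool.Agent.Lib.MP_42948a_nt.OM.Defs

/-!
# Orthogonality and Parseval for the classes (job A1)

`orth` is `DirichletCharacter.sum_char_inv_mul_char_eq` (with `a = b`, a unit; `((b⁻¹ : (ZMod d)ˣ) : ZMod d) = (b : ZMod d)⁻¹`).

`parseval_class`: for every unit `b`, by `orth`, `∑ χ, χ(b⁻¹) * (∑ i ∈ S, c i * χ (x i)) = φ(d) * cw S x c b`. Write
`‖z‖^2 = z * conj z`. For a character `χ` and a unit `u`: `conj (χ u) = χ (u⁻¹)` (`MulChar.star_apply'` / `MulChar.inv_apply'`, or: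
`χ u` has norm one, `DirichletCharacter.norm_eq_one`-type lemma or `MulChar` on a finite group, and `χ u * χ u⁻¹ = 1`). So
`∑ χ, ‖∑ i, c i χ(x i)‖^2 = ∑ i, ∑ j, c i * conj (c j) * ∑ χ, χ (x i) * χ ((x j)⁻¹) = φ(d) * ∑ i, ∑ j ∈ {x j = x i}, c i * conj (c j)`,
and the last double sum is `∑ b, (∑_{i : x i = b} c i) * conj (∑_{j : x j = b} c j)` (every `x i` is a unit; partition `S` by classes,
`Finset.sum_fiberwise`).
-/

namespace Pool.Agent.Lib.MP_42948a_nt.OM

open Finset Pool.Agent.Lib.MP_42948a_nt.OA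

theorem orth (d : ℕ) [NeZero d] (b : (ZMod d)ˣ) (x : ZMod d) :
    ∑ χ : DirichletCharacter ℂ d, χ ((b⁻¹ : (ZMod d)ˣ) : ZMod d) * χ x =
      if x = (b : ZMod d) then (d.totient : ℂ) else 0 := by
  have h := DirichletCharacter.sum_char_inv_mul_char_eq ℂ (Units.isUnit b) x
  rw [ZMod.inv_coe_unit] at h
  rw [h]
  simp only [eq_comm]

theorem norm_char_unit (d : ℕ) [NeZero d] (χ : DirichletCharacter ℂ d) (b : (ZMod d)ˣ) :
    ‖χ (b : ZMod d)‖ = 1 := by
  exact DirichletCharacter.unit_norm_eq_one χ b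

theorem conj_char_unit (d : ℕ) [NeZero d] (χ : DirichletCharacter ℂ d) (b : (ZMod d)ˣ) :
    (starRingEnd ℂ) (χ (b : ZMod d)) = χ ((b⁻¹ : (ZMod d)ˣ) : ZMod d) := by
  have h1 : χ ((b⁻¹ : (ZMod d)ˣ) : ZMod d) * χ (b : ZMod d) = 1 := by
    rw [← map_mul, Units.inv_mul, map_one]
  have h2 : (starRingEnd ℂ) (χ (b : ZMod d)) * χ (b : ZMod d) = 1 := by
    rw [Complex.conj_mul', norm_char_unit]
    simp
  have h3 : χ (b : ZMod d) ≠ 0 := by
    intro h
    rw [h, mul_zero] at h1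
    exact zero_ne_one h1
  exact mul_right_cancel₀ h3 (h2.trans h1.symm)

theorem parseval_class (d : ℕ) [NeZero d] {ι : Type*} (S : Finset ι) (x : ι → ZMod d) (c : ι → ℂ)
    (hx : ∀ i ∈ S, IsUnit (x i)) :
    ∑ χ : DirichletCharacter ℂ d, ‖∑ i ∈ S, c i * χ (x i)‖ ^ 2 =
      (d.totient : ℝ) * ∑ b : (ZMod d)ˣ, ‖cw S x c b‖ ^ 2 := by
  classical
  have hL : ((∑ χ : DirichletCharacter ℂ d, ‖∑ i ∈ S, c i * χ (x i)‖ ^ 2 : ℝ) : ℂ) =
      ∑ i ∈ S, ∑ j ∈ S, if x i = x j then (d.totient : ℂ) * (c i * (starRingEnd ℂ) (c j)) else 0 := by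
    have h1 : ∀ χ : DirichletCharacter ℂ d, ((‖∑ i ∈ S, c i * χ (x i)‖ ^ 2 : ℝ) : ℂ) =
        ∑ i ∈ S, ∑ j ∈ S, (c i * (starRingEnd ℂ) (c j)) * ((starRingEnd ℂ) (χ (x j)) * χ (x i)) := by
      intro χ
      rw [Complex.ofReal_pow, ← Complex.mul_conj', map_sum, Finset.sum_mul_sum]
      refine Finset.sum_congr rfl fun i _ => Finset.sum_congr rfl fun j _ => ?_
      rw [map_mul]
      ring
    rw [Complex.ofReal_sum, Finset.sum_congr rfl fun χ _ => h1 χ, Finset.sum_comm]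
    refine Finset.sum_congr rfl fun i _ => ?_
    rw [Finset.sum_comm]
    refine Finset.sum_congr rfl fun j hj => ?_
    obtain ⟨u, hu⟩ := hx j hj
    rw [← Finset.mul_sum, ← hu]
    simp only [conj_char_unit]
    rw [orth d u (x i)]
    split_ifs
    · ring
    · ring
  have hR : (((d.totient : ℝ) * ∑ b : (ZMod d)ˣ, ‖cw S x c b‖ ^ 2 : ℝ) : ℂ) =
      ∑ i ∈ S, ∑ j ∈ S, if x i = x j then (d.totient : ℂ) * (c i * (starRingEnd ℂ) (c j)) else 0 := by
    have h1 : ∀ b : (ZMod d)ˣ, ((‖cw S x c b‖ ^ 2 : ℝ) : ℂ) =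
        ∑ i ∈ S, ∑ j ∈ S, (if x i = (b : ZMod d) then c i else 0) *
          (if x j = (b : ZMod d) then (starRingEnd ℂ) (c j) else 0) := by
      intro b
      have h2 : cw S x c b = ∑ i ∈ S, if x i = (b : ZMod d) then c i else 0 := by
        unfold cw
        rw [Finset.sum_filter]
      rw [Complex.ofReal_pow, ← Complex.mul_conj', h2, map_sum, Finset.sum_mul_sum]
      refine Finset.sum_congr rfl fun i _ => Finset.sum_congr rfl fun j _ => ?_
      congr 1
      split_ifs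
      · rfl
      · exact map_zero _
    rw [Complex.ofReal_mul, Complex.ofReal_sum, Finset.sum_congr rfl fun b _ => h1 b, Finset.sum_comm,
      Finset.mul_sum]
    refine Finset.sum_congr rfl fun i _ => ?_
    rw [Finset.sum_comm, Finset.mul_sum]
    refine Finset.sum_congr rfl fun j hj => ?_
    obtain ⟨u, hu⟩ := hx j hj
    rw [Finset.sum_eq_single u]
    · rw [← hu, if_pos rfl]
      split_ifs
      · push_cast
        ring
      · ring
    · intro b _ hb
      rw [if_neg (fun h : x j = (b : ZMod d) => hb (Units.ext (by rw [hu, h]))), mul_zero]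
    · intro h
      exact absurd (Finset.mem_univ u) h
  have h := hL.trans hR.symm
  exact_mod_cast h

end Pool.Agent.Lib.MP_42948a_nt.OM
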