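import Pool.Agent.Lib.MP_42948a_nt.OM.A1
import Pool.Agent.Lib.MP_42948a_nt.OA.EC

/-!
# Gauss sums (job B2)

`S(t) = ∑_a χ(a) e(t a)`; follow `OA/EB.lean` and `OA/EC.lean` (the same proof with the weight `χ`; copy and adapt).
(a) For a unit `u`: `S(t u) = χ(u⁻¹) S(t)` (substitute `a ↦ u a`), so `‖S(t u)‖ = ‖S(t)‖` (`norm_char_unit`).
(b) `∑_t ‖S(t)‖^2 = d ∑_a ‖χ a‖^2 ≤ d φ(d)` (expand, `AddChar.sum_mulShift`; `‖χ a‖ = 1` for units, `0` for non-units).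
(c) The orbit `O = {t u : u unit}` satisfies `φ(d) ≤ #O * gcd(t.val, d)` (fibres: `EC_ker` of `OA/EC.lean`, applied to `u - u0`), and
`#O ‖S(t)‖^2 ≤ ∑_s ‖S(s)‖^2 ≤ d φ(d)`. Multiply and divide by `φ(d) > 0`. (Summary: `‖S(t)‖^2 φ(d) ≤ ‖S(t)‖^2 #O gcd ≤ d φ(d) gcd`.)
-/

namespace Pool.Agent.Lib.MP_42948a_nt.OM

open Finset Pool.Agent.Lib.MP_42948a_nt.OA

theorem B2_parseval (d : ℕ) [NeZero d] (c : ZMod d → ℂ) :
    ∑ t : ZMod d, ‖∑ h : ZMod d, c h * ZMod.stdAddChar (t * h)‖ ^ 2 = (d : ℝ) * ∑ h : ZMod d, ‖c h‖ ^ 2 := by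
  have hconj : ∀ x : ZMod d, (starRingEnd ℂ) (ZMod.stdAddChar x) = ZMod.stdAddChar (-x) := fun x =>
    (AddChar.map_neg_eq_conj (ZMod.stdAddChar : AddChar (ZMod d) ℂ) x).symm
  have h1 : ∀ t : ZMod d, ((‖∑ h : ZMod d, c h * ZMod.stdAddChar (t * h)‖ ^ 2 : ℝ) : ℂ) =
      ∑ h : ZMod d, ∑ h' : ZMod d, c h * (starRingEnd ℂ) (c h') * ZMod.stdAddChar (t * (h - h')) := by
    intro t
    rw [← Complex.normSq_eq_norm_sq, Complex.normSq_eq_conj_mul_self, map_sum, Finset.sum_mul_sum]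
    rw [Finset.sum_comm]
    refine Finset.sum_congr rfl fun h _ => Finset.sum_congr rfl fun h' _ => ?_
    rw [map_mul, hconj]
    have h3 : (ZMod.stdAddChar (t * (h - h')) : ℂ) =
        ZMod.stdAddChar (-(t * h')) * ZMod.stdAddChar (t * h) := by
      rw [← AddChar.map_add_eq_mul]
      congr 1
      ring
    rw [h3]
    ring
  have h2 : ((∑ t : ZMod d, ‖∑ h : ZMod d, c h * ZMod.stdAddChar (t * h)‖ ^ 2 : ℝ) : ℂ) =
      (((d : ℝ) * ∑ h : ZMod d, ‖c h‖ ^ 2 : ℝ) : ℂ) := by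
    rw [Complex.ofReal_sum]
    rw [Finset.sum_congr rfl fun t _ => h1 t, Finset.sum_comm]
    have h3 : ∀ h ∈ (Finset.univ : Finset (ZMod d)), ∑ t : ZMod d, ∑ h' : ZMod d,
        (c h * (starRingEnd ℂ) (c h') * ZMod.stdAddChar (t * (h - h')) : ℂ) = d * ((‖c h‖ ^ 2 : ℝ) : ℂ) := by
      intro h _
      rw [Finset.sum_comm]
      rw [Finset.sum_eq_single h]
      · rw [← Finset.mul_sum, AddChar.sum_mulShift (h - h) (ZMod.isPrimitive_stdAddChar d), sub_self,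
          if_pos rfl, ZMod.card, Complex.mul_conj, Complex.normSq_eq_norm_sq]
        ring
      · intro h' _ hne
        rw [← Finset.mul_sum, AddChar.sum_mulShift (h - h') (ZMod.isPrimitive_stdAddChar d),
          if_neg (sub_ne_zero.2 hne.symm), Nat.cast_zero, mul_zero]
      · intro hn
        exact absurd (Finset.mem_univ h) hn
    rw [Finset.sum_congr rfl h3, ← Finset.mul_sum]
    push_cast
    ring
  exact_mod_cast h2

theorem B2_inv {d : ℕ} [NeZero d] (χ : DirichletCharacter ℂ d) (t : ZMod d) (u : (ZMod d)ˣ) :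
    ‖∑ a : ZMod d, χ a * ZMod.stdAddChar (t * (u : ZMod d) * a)‖ =
      ‖∑ a : ZMod d, χ a * ZMod.stdAddChar (t * a)‖ := by
  have h1 : ∑ a : ZMod d, χ a * ZMod.stdAddChar (t * a) =
      χ (u : ZMod d) * ∑ a : ZMod d, χ a * ZMod.stdAddChar (t * (u : ZMod d) * a) := by
    rw [Finset.mul_sum]
    refine (Fintype.sum_equiv (Units.mulLeft u) _ _ fun a => ?_).symm
    show χ (u : ZMod d) * (χ a * ZMod.stdAddChar (t * (u : ZMod d) * a)) =
      χ ((u : ZMod d) * a) * ZMod.stdAddChar (t * ((u : ZMod d) * a))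
    have h2 : χ ((u : ZMod d) * a) = χ (u : ZMod d) * χ a := map_mul χ _ _
    rw [h2, mul_assoc t, ← mul_assoc (χ (u : ZMod d))]
  rw [h1, norm_mul, norm_char_unit, one_mul]

theorem B2_sum (d : ℕ) [NeZero d] (χ : DirichletCharacter ℂ d) :
    ∑ a : ZMod d, ‖χ a‖ ^ 2 ≤ ((Hset (⊤ : Subgroup (ZMod d)ˣ)).card : ℝ) := by
  classical
  have h1 : ∑ a : ZMod d, ‖χ a‖ ^ 2 = ∑ a ∈ Hset (⊤ : Subgroup (ZMod d)ˣ), ‖χ a‖ ^ 2 := by
    refine (Finset.sum_subset (Finset.subset_univ _) fun a _ ha => ?_).symm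
    have h2 : ¬ IsUnit a := by
      rintro ⟨u, rfl⟩
      exact ha ((EC_mem _ _).2 ⟨u, Subgroup.mem_top u, rfl⟩)
    rw [MulChar.map_nonunit χ h2, norm_zero]
    norm_num
  rw [h1]
  have h3 : ∀ a ∈ Hset (⊤ : Subgroup (ZMod d)ˣ), ‖χ a‖ ^ 2 = 1 := by
    intro a ha
    obtain ⟨u, _, rfl⟩ := (EC_mem _ _).1 ha
    rw [norm_char_unit, one_pow]
  rw [Finset.sum_congr rfl h3, Finset.sum_const, nsmul_eq_mul, mul_one]

theorem gauss_bound (d : ℕ) [NeZero d] (χ : DirichletCharacter ℂ d) (t : ZMod d) :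
    ‖∑ a : ZMod d, χ a * ZMod.stdAddChar (t * a)‖ ^ 2 ≤ (d : ℝ) * (Nat.gcd t.val d : ℝ) := by
  classical
  set H : Subgroup (ZMod d)ˣ := ⊤ with hHdef
  set S : ZMod d → ℂ := fun t => ∑ a : ZMod d, χ a * ZMod.stdAddChar (t * a) with hS
  set O : Finset (ZMod d) := (Hset H).image (fun x => t * x) with hO
  have hb : (O.card : ℝ) * ‖S t‖ ^ 2 ≤ (d : ℝ) * (Hset H).card := by
    refine le_trans ?_ (mul_le_mul_of_nonneg_left (B2_sum d χ) (Nat.cast_nonneg d))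
    rw [← B2_parseval d (fun a => χ a)]
    have h1 : (O.card : ℝ) * ‖S t‖ ^ 2 = ∑ s ∈ O, ‖S s‖ ^ 2 := by
      rw [Finset.sum_congr rfl (g := fun _ => ‖S t‖ ^ 2), Finset.sum_const, nsmul_eq_mul]
      intro s hs
      obtain ⟨x, hx, rfl⟩ := Finset.mem_image.1 hs
      obtain ⟨u, hu, rfl⟩ := (EC_mem H x).1 hx
      have h2 : ‖S (t * (u : ZMod d))‖ = ‖S t‖ := B2_inv χ t u
      show ‖S (t * (u : ZMod d))‖ ^ 2 = _
      rw [h2]
    rw [h1]
    exact Finset.sum_le_sum_of_subset_of_nonneg (Finset.subset_univ _) fun _ _ _ => by positivity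
  have hc : (Hset H).card ≤ Nat.gcd t.val d * O.card := by
    refine Finset.card_le_mul_card_image (f := fun x => t * x) (Hset H) (Nat.gcd t.val d) fun b hb => ?_
    obtain ⟨u0, _, rfl⟩ := Finset.mem_image.1 hb
    refine le_trans ?_ (EC_ker t)
    refine Finset.card_le_card_of_injOn (fun x => x - u0) (fun x hx => ?_) (fun x _ y _ hxy => ?_)
    · have h1 := (Finset.mem_filter.1 (Finset.mem_coe.1 hx)).2
      refine Finset.mem_coe.2 (Finset.mem_filter.2 ⟨Finset.mem_univ _, ?_⟩)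
      show t * (x - u0) = 0
      rw [mul_sub, sub_eq_zero]
      exact h1
    · exact sub_left_injective hxy
  have hH : 0 < (Hset H).card := Finset.card_pos.2 ⟨1, (EC_mem H 1).2 ⟨1, H.one_mem, by simp⟩⟩
  have hH' : (0 : ℝ) < (Hset H).card := by exact_mod_cast hH
  have hc' : ((Hset H).card : ℝ) ≤ (Nat.gcd t.val d : ℝ) * O.card := by exact_mod_cast hc
  have h3 : ‖S t‖ ^ 2 * (Hset H).card ≤ ((d : ℝ) * (Nat.gcd t.val d : ℝ)) * (Hset H).card := by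
    calc ‖S t‖ ^ 2 * (Hset H).card ≤ ‖S t‖ ^ 2 * ((Nat.gcd t.val d : ℝ) * O.card) :=
          mul_le_mul_of_nonneg_left hc' (by positivity)
      _ = (Nat.gcd t.val d : ℝ) * ((O.card : ℝ) * ‖S t‖ ^ 2) := by ring
      _ ≤ (Nat.gcd t.val d : ℝ) * ((d : ℝ) * (Hset H).card) := mul_le_mul_of_nonneg_left hb (by positivity)
      _ = _ := by ring
  exact le_of_mul_le_mul_right h3 hH'

end Pool.Agent.Lib.MP_42948a_nt.OM
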