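import Pool.Agent.Lib.MP_42948a_nt.OA.Defs

/-!
# `Ω` modulo an odd prime in arithmetic progressions: definitions
-/

namespace Pool.Agent.Lib.MP_42948a_nt.OM

open Finset Pool.Agent.Lib.MP_42948a_nt.OA

/-- the number of prime factors with multiplicity -/
noncomputable abbrev Om (n : ℕ) : ℕ := ArithmeticFunction.cardFactors n

/-! ## Rough numbers and the weighted sums of `ζ ^ Ω` -/

open Classical in
/-- the `z`-rough numbers in `(a, b]` -/
noncomputable def RR (z a b : ℕ) : Finset ℕ := (Ioc a b).filter (fun n => Rough z n)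

/-- the sum of `ζ ^ Ω n / n` over the rough numbers `≤ N` -/
noncomputable def SS (ζ : ℂ) (z N : ℕ) : ℂ := ∑ n ∈ RR z 0 N, ζ ^ Om n / (n : ℂ)

/-- the sum of `1 / n` over the rough numbers `≤ N` -/
noncomputable def MM (z N : ℕ) : ℝ := ∑ n ∈ RR z 0 N, (1 : ℝ) / n

/-- the smoothed sum -/
noncomputable def GG (ζ : ℂ) (z N : ℕ) : ℂ :=
  ∑ n ∈ Ico 1 N, SS ζ z n * ((Real.log (((n + 1 : ℕ) : ℝ) / n) : ℝ) : ℂ)

/-- the truncated Dirichlet series -/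
noncomputable def TT (ζ : ℂ) (σ : ℝ) (z N : ℕ) : ℂ :=
  ∑ n ∈ RR z 0 N, ζ ^ Om n * (((n : ℝ) ^ (-(1 + σ)) : ℝ) : ℂ)

/-! ## The upper bound sieve -/

/-- the Brun-Hooley upper bound functional -/
noncomputable def BP (z b0 : ℕ) (g : ℕ → ℝ) : ℝ := ∏ j ∈ range z, bon (Pj z j) g (2 * (b0 + j))

/-- the upper bound sieve weights: coefficient of the set `T` of primes in `BP z b0` -/
noncomputable def lp (z b0 : ℕ) (T : Finset ℕ) : ℝ := ∏ j ∈ range z, cc (b0 + j) ((T ∩ Pj z j).card)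

/-- the sieve majorant of the rough numbers -/
noncomputable def wp (z b0 n : ℕ) : ℝ := BP z b0 (fun p => if p ∣ n then 1 else 0)

/-- the integers of `(y, y']` coprime to `d` -/
def II (d y y' : ℕ) : Finset ℕ := (Ioc y y').filter (fun n => n.Coprime d)

/-- the rough integers of `(y, y']` coprime to `d` -/
noncomputable def NN (z d y y' : ℕ) : Finset ℕ := (RR z y y').filter (fun n => n.Coprime d)

/-- the density of multiples of `p` among the integers coprime to `d` -/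
noncomputable def gd (d p : ℕ) : ℝ := if p ∣ d then 0 else 1 / (p : ℝ)

/-! ## Characters -/

open Classical in
/-- the sum of `c i` over the `i ∈ S` with `x i` in the class `b` -/
noncomputable def cw {d : ℕ} {ι : Type*} (S : Finset ι) (x : ι → ZMod d) (c : ι → ℂ) (b : (ZMod d)ˣ) : ℂ :=
  ∑ i ∈ S.filter (fun i => x i = (b : ZMod d)), c i

/-- the character sum over `S` with coefficients `c n / n` -/
noncomputable def ac {d : ℕ} (S : Finset ℕ) (c : ℕ → ℂ) (χ : DirichletCharacter ℂ d) : ℂ :=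
  ∑ n ∈ S, c n / (n : ℂ) * χ (n : ZMod d)

/-- the character sum over `S` with coefficients `p n * c n` -/
noncomputable def mc {d : ℕ} (S : Finset ℕ) (p : ℕ → ℝ) (c : ℕ → ℂ) (χ : DirichletCharacter ℂ d) : ℂ :=
  ∑ n ∈ S, (p n : ℂ) * c n * χ (n : ZMod d)

/-- the total weight -/
noncomputable def WW (S : Finset ℕ) : ℝ := ∑ n ∈ S, (1 : ℝ) / n

/-- the primitive `m`-th root of unity `e(1/m)` -/
noncomputable def ze (m : ℕ) : ℂ := Complex.exp (2 * Real.pi * Complex.I / m)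

/-- the data used in the argument: rough numbers `N`, small rough numbers `U` with weights `p`, exceptional
characters `X` -/
structure Dat (m d z : ℕ) (η β c : ℝ) where
  /-- the rough numbers -/
  N : Finset ℕ
  /-- the small rough numbers -/
  U : Finset ℕ
  /-- the weights of the small rough numbers -/
  p : ℕ → ℝ
  /-- the exceptional characters -/
  X : Finset (DirichletCharacter ℂ d)
  N_rough : ∀ n ∈ N, Rough z n
  N_cop : ∀ n ∈ N, n.Coprime d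
  N_le : ∀ n ∈ N, (n : ℝ) ≤ (d : ℝ) ^ (1 / 2 + 2 * η)
  U_rough : ∀ u ∈ U, Rough z u
  U_cop : ∀ u ∈ U, u.Coprime d
  U_le : ∀ u ∈ U, (u : ℝ) ≤ (d : ℝ) ^ η
  p_nonneg : ∀ u ∈ U, 0 ≤ p u
  p_sum : ∑ u ∈ U, p u = 1
  p_zero : ∑ u ∈ U, (p u : ℂ) * ze m ^ Om u = 0
  X_f : ∀ χ : DirichletCharacter ℂ d, χ ∉ X → ‖mc U p (fun u => ze m ^ Om u) χ‖ ≤ (d : ℝ) ^ (-c)
  X_1 : ∀ χ : DirichletCharacter ℂ d, χ ∉ X → ‖mc U p (fun _ => 1) χ‖ ≤ (d : ℝ) ^ (-c)
  one_mem : (1 : DirichletCharacter ℂ d) ∈ X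
  W_pos : 0 < WW N
  W_ge : β ≤ WW N
  bias : β * WW N ≤ ‖∑ n ∈ N, ze m ^ Om n / (n : ℂ)‖
  large_sieve : ∀ v : ℕ → ℂ, (∀ n, ‖v n‖ ≤ 1) →
    ∑ χ ∈ X, ‖ac N v χ‖ ^ 2 ≤ (1 + β ^ 2 / 100) * WW N ^ 2
  fourth : ∀ v : ℕ → ℂ, (∀ n, ‖v n‖ ≤ 1) →
    ∑ χ : DirichletCharacter ℂ d, ‖ac N v χ‖ ^ 4 ≤ (d : ℝ) ^ c * WW N ^ 2

open Classical in
/-- the residues of `Ω n` modulo `m` for the `z`-rough `n ≤ X` in the class `b` -/
noncomputable def OmSet (m z X : ℕ) {d : ℕ} (b : (ZMod d)ˣ) : Finset (ZMod m) :=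
  ((Icc 1 X).filter (fun n => Rough z n ∧ (n : ZMod d) = (b : ZMod d))).image (fun n => (Om n : ZMod m))

/-- all but `d ^ (1 - c)` classes have at least `k` residues -/
def PK (m k : ℕ) (ε δ c : ℝ) : Prop :=
  ∃ d0 : ℕ, ∀ d : ℕ, d0 ≤ d → ∃ E : Finset (ZMod d)ˣ, (E.card : ℝ) ≤ (d : ℝ) ^ (1 - c) ∧
    ∀ b : (ZMod d)ˣ, b ∉ E → k ≤ (OmSet m ⌊(d : ℝ) ^ δ⌋₊ ⌊(d : ℝ) ^ ((k : ℝ) / 2 + ε)⌋₊ b).card

end Pool.Agent.Lib.MP_42948a_nt.OM
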