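import Pool.Agent.Lib.MP_42948a_nt.OM.E1

/-!
# The sum of `1/n` over rough numbers (job E2)

`RR z 0 N` consists of numbers all of whose prime factors lie in `s = Ioc z N`, i.e. it is contained in `Nat.factoredNumbers s`. By
`EulerProduct.summable_and_hasSum_factoredNumbers_prod_filter_prime_geometric` (with the monoid hom `n ↦ 1/n`, `‖1/p‖ < 1`), the sum
of `1/n` over `factoredNumbers s` is `∏_{p ∈ s prime} (1 - 1/p)⁻¹`, so `MM z N` is at most this product (a finite partial sum of a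
summable nonnegative family: `Summable.sum_le_tsum`). `(1 - 1/p)⁻¹ ≤ exp(1/p + 2/p^2)` for `p ≥ 2` (`(1-x)⁻¹ = 1 + x/(1-x) ≤
exp(x/(1-x))` and `x/(1-x) ≤ x + 2 x^2` for `x ≤ 1/2`), and `∑_p 2/p^2 ≤ 2 ∑_{n ≥ 2} 1/(n(n-1)) = 2`, so with `prime_recip`
`MM z N ≤ exp(log (log N/log z) + C + 2) = exp(C + 2) log N / log z`.
-/

namespace Pool.Agent.Lib.MP_42948a_nt.OM

open Finset Pool.Agent.Lib.MP_42948a_nt.OA

theorem E2_exp {x : ℝ} (h1 : x ≤ 1 / 2) : (1 - x)⁻¹ ≤ Real.exp (x + 2 * x ^ 2) := by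
  have h2 : (1 - x)⁻¹ ≤ x + 2 * x ^ 2 + 1 := by
    rw [inv_le_iff_one_le_mul₀ (by linarith)]
    nlinarith [mul_nonneg (sq_nonneg x) (by linarith : (0 : ℝ) ≤ 1 - 2 * x)]
  exact h2.trans (Real.add_one_le_exp _)

theorem E2_mem {z N n : ℕ} (hn : n ∈ RR z 0 N) : n ∈ Nat.factoredNumbers (Ioc z N) := by
  classical
  rw [RR, mem_filter, mem_Ioc] at hn
  rw [Nat.mem_factoredNumbers_iff_forall_le]
  refine ⟨by omega, fun p hp hpp hd => ?_⟩
  rw [mem_Ioc]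
  exact ⟨hn.2.2 p hpp hd, hp.trans hn.1.2⟩

/-- the completely multiplicative function `1/n` -/
noncomputable def E2_f : ℕ →* ℝ where
  toFun n := (n : ℝ)⁻¹
  map_one' := by simp
  map_mul' := by
    intro a b
    push_cast
    rw [mul_inv]

theorem E2_euler (z N : ℕ) : MM z N ≤ ∏ p ∈ (Ioc z N).filter Nat.Prime, (1 - (p : ℝ)⁻¹)⁻¹ := by
  classical
  have h := EulerProduct.summable_and_hasSum_factoredNumbers_prod_filter_prime_geometric (f := E2_f)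
    (by
      intro p hp
      show ‖(p : ℝ)⁻¹‖ < 1
      rw [Real.norm_eq_abs, abs_of_nonneg (by positivity)]
      exact inv_lt_one_of_one_lt₀ (by exact_mod_cast hp.one_lt)) (Ioc z N)
  have h1 := sum_le_hasSum ((RR z 0 N).subtype (· ∈ Nat.factoredNumbers (Ioc z N)))
    (fun i _ => by
      show 0 ≤ (((i : ℕ) : ℝ))⁻¹
      positivity) h.2
  rw [Finset.sum_subtype_of_mem (fun n => E2_f n) (fun n hn => E2_mem hn)] at h1
  unfold MM
  refine le_trans (le_of_eq ?_) h1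
  refine Finset.sum_congr rfl (fun n _ => ?_)
  rw [one_div]
  rfl

theorem MM_le : ∃ C : ℝ, 1 ≤ C ∧ ∀ z N : ℕ, 2 ≤ z → z ≤ N → MM z N ≤ C * (Real.log N / Real.log z) := by
  obtain ⟨C, hC, hp⟩ := prime_recip
  refine ⟨Real.exp (C + 2), ?_, fun z N hz hN => ?_⟩
  · rw [← Real.exp_zero]
    exact Real.exp_le_exp.2 (by linarith)
  have hlz : 0 < Real.log z := Real.log_pos (by exact_mod_cast (by omega : 1 < z))
  have hlN : 0 < Real.log N := Real.log_pos (by exact_mod_cast (by omega : 1 < N))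
  refine (E2_euler z N).trans ?_
  have h1 : ∏ p ∈ (Ioc z N).filter Nat.Prime, (1 - (p : ℝ)⁻¹)⁻¹ ≤
      ∏ p ∈ (Ioc z N).filter Nat.Prime, Real.exp ((p : ℝ)⁻¹ + 2 * ((p : ℝ)⁻¹) ^ 2) := by
    refine Finset.prod_le_prod (fun p hp' => ?_) (fun p hp' => ?_)
    · rw [mem_filter, mem_Ioc] at hp'
      have h2 : (p : ℝ)⁻¹ ≤ 1 := inv_le_one_of_one_le₀ (by exact_mod_cast (by omega : 1 ≤ p))
      exact inv_nonneg.2 (by linarith)
    · rw [mem_filter, mem_Ioc] at hp'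
      have h2 : (2 : ℝ) ≤ p := by exact_mod_cast (by omega : 2 ≤ p)
      have h3 : (p : ℝ)⁻¹ ≤ 1 / 2 := by
        rw [one_div]
        exact inv_anti₀ (by norm_num) h2
      exact E2_exp h3
  refine h1.trans ?_
  rw [← Real.exp_sum, Finset.sum_add_distrib]
  have h2 : ∑ p ∈ (Ioc z N).filter Nat.Prime, (p : ℝ)⁻¹ ≤
      Real.log (Real.log N / Real.log z) + C := by
    have h3 := hp z N hz hN
    simp only [one_div] at h3
    exact h3
  have h3 : ∑ p ∈ (Ioc z N).filter Nat.Prime, 2 * ((p : ℝ)⁻¹) ^ 2 ≤ 2 := by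
    rw [← Finset.mul_sum]
    have h4 : ∑ p ∈ (Ioc z N).filter Nat.Prime, ((p : ℝ)⁻¹) ^ 2 ≤ ∑ p ∈ Ioc z N, ((p : ℝ)⁻¹) ^ 2 :=
      Finset.sum_le_sum_of_subset_of_nonneg (Finset.filter_subset _ _) (fun p _ _ => by positivity)
    have h5 : ∑ p ∈ Ioc z N, ((p : ℝ)⁻¹) ^ 2 ≤ (z : ℝ)⁻¹ - (N : ℝ)⁻¹ := by
      have h6 := sum_Ioc_inv_sq_le_sub (α := ℝ) (k := z) (n := N) (by omega) hN
      simp only [inv_pow]
      exact h6
    have h6 : (z : ℝ)⁻¹ ≤ 1 := inv_le_one_of_one_le₀ (by exact_mod_cast (by omega : 1 ≤ z))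
    have h7 : 0 ≤ (N : ℝ)⁻¹ := by positivity
    linarith
  calc Real.exp (∑ p ∈ (Ioc z N).filter Nat.Prime, (p : ℝ)⁻¹ +
        ∑ p ∈ (Ioc z N).filter Nat.Prime, 2 * ((p : ℝ)⁻¹) ^ 2)
      ≤ Real.exp (Real.log (Real.log N / Real.log z) + (C + 2)) :=
        Real.exp_le_exp.2 (by linarith)
    _ = Real.exp (C + 2) * (Real.log N / Real.log z) := by
        rw [Real.exp_add, Real.exp_log (div_pos hlN hlz), mul_comm]

theorem MM_mono (z : ℕ) {a b : ℕ} (h : a ≤ b) : MM z a ≤ MM z b := by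
  classical
  unfold MM
  refine Finset.sum_le_sum_of_subset_of_nonneg (fun n hn => ?_) (fun n _ _ => by positivity)
  rw [RR, mem_filter, mem_Ioc] at hn ⊢
  exact ⟨⟨hn.1.1, hn.1.2.trans h⟩, hn.2⟩

end Pool.Agent.Lib.MP_42948a_nt.OM
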