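import Pool.Agent.Lib.MP_42948a_nt.OM.E0

/-!
# The twisted sum of `Λ(n)/n` over rough numbers (job E3)

Split `RR z 0 t` into primes and non-primes. Primes: `Om p = 1` (`ArithmeticFunction.cardFactors_apply_prime`), `Λ p = log p`; the rough
primes `≤ t` are those of `Ioc z t`, so this part is `ζ * ∑_{p ∈ Ioc z t prime} log p / p`: for `z ≤ t` within `C` of
`ζ (log t - log z)` (`prime_log_sum`, `‖ζ‖ = 1`), and `max 0 (log (t/z)) = log t - log z`; for `t < z` it is `0` (empty) and so is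
`max 0 (log (t/z))` (also for `t = 0`). Non-primes: norm `≤ ∑ Λ(n)/n ≤ C'` (`nonprime_vM_sum`, `Λ ≥ 0`, `‖ζ^k‖ = 1`).
-/

namespace Pool.Agent.Lib.MP_42948a_nt.OM

open Finset Pool.Agent.Lib.MP_42948a_nt.OA

theorem vM_rough : ∃ C : ℝ, 0 ≤ C ∧ ∀ (ζ : ℂ), ‖ζ‖ = 1 → ∀ z t : ℕ, 2 ≤ z →
    ‖∑ n ∈ RR z 0 t, ζ ^ Om n / (n : ℂ) * ((ArithmeticFunction.vonMangoldt n : ℝ) : ℂ) -
      ζ * ((max 0 (Real.log ((t : ℝ) / z)) : ℝ) : ℂ)‖ ≤ C := by
  obtain ⟨C1, hC1, h1⟩ := prime_log_sum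
  obtain ⟨C2, hC2, h2⟩ := nonprime_vM_sum
  refine ⟨C1 + C2, by positivity, ?_⟩
  intro ζ hζ z t hz
  classical
  have hset : (RR z 0 t).filter Nat.Prime = (Ioc z t).filter Nat.Prime := by
    ext n
    unfold RR
    simp only [mem_filter, mem_Ioc]
    constructor
    · rintro ⟨⟨⟨h3, h4⟩, h5⟩, h6⟩
      exact ⟨⟨h5.2 n h6 dvd_rfl, h4⟩, h6⟩
    · rintro ⟨⟨h3, h4⟩, h5⟩
      refine ⟨⟨⟨h5.pos, h4⟩, h5.pos, fun q hq hqn => ?_⟩, h5⟩
      rw [(Nat.prime_dvd_prime_iff_eq hq h5).1 hqn]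
      exact h3
  have hprime : ∑ n ∈ (RR z 0 t).filter Nat.Prime,
      ζ ^ Om n / (n : ℂ) * ((ArithmeticFunction.vonMangoldt n : ℝ) : ℂ) =
      ζ * ((∑ p ∈ (Ioc z t).filter Nat.Prime, Real.log p / p : ℝ) : ℂ) := by
    rw [hset, Complex.ofReal_sum, Finset.mul_sum]
    refine Finset.sum_congr rfl fun p hp => ?_
    have h3 := (mem_filter.1 hp).2
    rw [ArithmeticFunction.vonMangoldt_apply_prime h3]
    have h4 : Om p = 1 := ArithmeticFunction.cardFactors_apply_prime h3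
    rw [h4, pow_one]
    push_cast
    ring
  have hnon : ‖∑ n ∈ (RR z 0 t).filter (fun n => ¬ n.Prime),
      ζ ^ Om n / (n : ℂ) * ((ArithmeticFunction.vonMangoldt n : ℝ) : ℂ)‖ ≤ C2 := by
    refine (norm_sum_le _ _).trans ?_
    have h3 : ∀ n ∈ (RR z 0 t).filter (fun n => ¬ n.Prime),
        ‖ζ ^ Om n / (n : ℂ) * ((ArithmeticFunction.vonMangoldt n : ℝ) : ℂ)‖ =
          ArithmeticFunction.vonMangoldt n / n := by
      intro n _
      rw [norm_mul, norm_div, norm_pow, hζ, one_pow, Complex.norm_natCast, Complex.norm_real,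
        Real.norm_of_nonneg ArithmeticFunction.vonMangoldt_nonneg]
      ring
    rw [Finset.sum_congr rfl h3]
    refine le_trans ?_ (h2 t)
    refine Finset.sum_le_sum_of_subset_of_nonneg ?_ (fun n _ _ =>
      div_nonneg ArithmeticFunction.vonMangoldt_nonneg (Nat.cast_nonneg n))
    intro n hn
    obtain ⟨h4, h5⟩ := mem_filter.1 hn
    unfold RR at h4
    have h6 := mem_Ioc.1 (mem_filter.1 h4).1
    exact mem_filter.2 ⟨mem_Icc.2 ⟨by omega, h6.2⟩, h5⟩
  have hmain : ‖ζ * ((∑ p ∈ (Ioc z t).filter Nat.Prime, Real.log p / p : ℝ) : ℂ) -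
      ζ * ((max 0 (Real.log ((t : ℝ) / z)) : ℝ) : ℂ)‖ ≤ C1 := by
    rw [← mul_sub, norm_mul, hζ, one_mul, ← Complex.ofReal_sub, Complex.norm_real, Real.norm_eq_abs]
    have hz0 : (0 : ℝ) < z := by
      have : 0 < z := by omega
      exact_mod_cast this
    rcases Nat.lt_or_ge t z with hlt | hge
    · have h3 : (Ioc z t).filter Nat.Prime = ∅ := by
        rw [Finset.Ioc_eq_empty (by omega), Finset.filter_empty]
      have h4 : max 0 (Real.log ((t : ℝ) / z)) = 0 := by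
        refine max_eq_left (Real.log_nonpos (by positivity) ?_)
        rw [div_le_one hz0]
        exact_mod_cast hlt.le
      rw [h3, h4, Finset.sum_empty, sub_zero, abs_zero]
      exact hC1
    · have ht0 : (0 : ℝ) < t := lt_of_lt_of_le hz0 (by exact_mod_cast hge)
      have h4 : max 0 (Real.log ((t : ℝ) / z)) = Real.log t - Real.log z := by
        rw [Real.log_div ht0.ne' hz0.ne']
        refine max_eq_right (sub_nonneg.2 (Real.log_le_log hz0 ?_))
        exact_mod_cast hge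
      rw [h4]
      exact h1 z t (by omega) hge
  rw [← Finset.sum_filter_add_sum_filter_not (RR z 0 t) Nat.Prime, hprime, add_sub_right_comm]
  exact (norm_add_le _ _).trans (add_le_add hmain hnon)

end Pool.Agent.Lib.MP_42948a_nt.OM
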