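import Pool.Agent.Lib.MP_42948a_nt.OM.A1
import Pool.Agent.Lib.MP_42948a_nt.OA.FA

/-!
# Moments of character sums over small primes (job F1)

`tuple_count`: as in `OA/FA.lean`. All products `∏ v i` (with `v i ∈ primesOff d z Y`) are coprime to `d` and lie in `[1, d]`, hence are
`< d` (`d ≥ 2`; coprimality) and are determined by their class: they all equal `b.val` (if there is any). The number of `v` with
`∏ v i = m` is `≤ k^k` (`hfib` in the proof of `card_Hgen`: all `v i` are prime factors of `m`, which has at most `k` distinct ones).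
`moment`: `(∑_{q} χ q)^k = ∑_{v} χ (∏ v i)` (`Finset.prod_univ_sum` with constant family, or `Finset.sum_pow'`-type lemma:
`∏ i : Fin k, ∑ q ∈ Q, χ q = ∑ v ∈ piFinset, ∏ i, χ (v i)`), so by `parseval_class` with `ι = Fin k → ℕ`, `c = 1`:
`∑ χ, ‖∑ q, χ q‖^(2k) = φ(d) ∑ b, (count b)^2 ≤ φ(d) k^k ∑ b, count b ≤ φ(d) k^k #Q^k` (the total number of tuples is `#Q^k`;
`cw S x 1 b` is the number of tuples in the class `b`).
-/

namespace Pool.Agent.Lib.MP_42948a_nt.OM

open Finset Pool.Agent.Lib.MP_42948a_nt.OA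

theorem F1_mem {d z Y p : ℕ} (hp : p ∈ primesOff d z Y) : p.Prime ∧ p ≤ Y ∧ p.Coprime d := by
  unfold primesOff at hp
  rw [mem_filter, mem_Icc] at hp
  exact ⟨hp.2.1, hp.1.2, (Nat.Prime.coprime_iff_not_dvd hp.2.1).2 hp.2.2.2⟩

theorem F1_coprime {d z Y k : ℕ} {v : Fin k → ℕ} (hv : v ∈ Fintype.piFinset (fun _ : Fin k => primesOff d z Y)) :
    (∏ i, v i).Coprime d :=
  Nat.Coprime.prod_left fun i _ => (F1_mem ((Fintype.mem_piFinset.1 hv) i)).2.2

theorem F1_lt {d z Y k : ℕ} (hd : 2 ≤ d) (hY : Y ^ k ≤ d) {v : Fin k → ℕ}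
    (hv : v ∈ Fintype.piFinset (fun _ : Fin k => primesOff d z Y)) : ∏ i, v i < d := by
  have h1 : ∏ i, v i ≤ Y ^ k := by
    calc ∏ i, v i ≤ ∏ _i : Fin k, Y :=
          Finset.prod_le_prod' fun i _ => (F1_mem ((Fintype.mem_piFinset.1 hv) i)).2.1
      _ = Y ^ k := by simp
  rcases Nat.lt_or_ge (∏ i, v i) d with h2 | h2
  · exact h2
  · have h3 : ∏ i, v i = d := le_antisymm (h1.trans hY) h2
    have h4 := F1_coprime hv
    rw [h3, Nat.coprime_self] at h4
    omega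

theorem F1_fib (d z Y k : ℕ) (f0 : Fin k → ℕ)
    (hf0 : f0 ∈ Fintype.piFinset (fun _ : Fin k => primesOff d z Y)) (F : Finset (Fin k → ℕ))
    (hF : ∀ f ∈ F, f ∈ Fintype.piFinset (fun _ : Fin k => primesOff d z Y) ∧ ∏ i, f i = ∏ i, f0 i) :
    F.card ≤ k ^ k := by
  have h1 : (∏ i, f0 i).primeFactors ⊆ univ.image f0 := by
    intro p hp
    have hpp := Nat.prime_of_mem_primeFactors hp
    have hd := Nat.dvd_of_mem_primeFactors hp
    obtain ⟨i, _, hi⟩ := (hpp.prime.dvd_finsetProd_iff _).1 hd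
    have h2 := (F1_mem ((Fintype.mem_piFinset.1 hf0) i)).1
    exact mem_image.2 ⟨i, mem_univ _, ((Nat.prime_dvd_prime_iff_eq hpp h2).1 hi).symm⟩
  have h2 : (∏ i, f0 i).primeFactors.card ≤ k :=
    (card_le_card h1).trans (card_image_le.trans (by simp))
  have h3 : F ⊆ Fintype.piFinset (fun _ : Fin k => (∏ i, f0 i).primeFactors) := by
    intro f hf
    obtain ⟨hfS, hfP⟩ := hF f hf
    rw [Fintype.mem_piFinset]
    intro i
    have h4 := (F1_mem ((Fintype.mem_piFinset.1 hfS) i)).1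
    refine Nat.mem_primeFactors.2 ⟨h4, ?_, ?_⟩
    · rw [← hfP]
      exact Finset.dvd_prod_of_mem f (mem_univ i)
    · exact Finset.prod_ne_zero_iff.2 fun j _ => (F1_mem ((Fintype.mem_piFinset.1 hf0) j)).1.ne_zero
  calc F.card ≤ _ := card_le_card h3
    _ = (∏ i, f0 i).primeFactors.card ^ k := by rw [Fintype.card_piFinset_const]
    _ ≤ k ^ k := Nat.pow_le_pow_left h2 k

open Classical in
theorem tuple_count (d z Y k : ℕ) (hd : 2 ≤ d) (hY : Y ^ k ≤ d) (b : ZMod d) :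
    ((Fintype.piFinset (fun _ : Fin k => primesOff d z Y)).filter
      (fun v => ((∏ i, v i : ℕ) : ZMod d) = b)).card ≤ k ^ k := by
  rcases ((Fintype.piFinset (fun _ : Fin k => primesOff d z Y)).filter
      (fun v => ((∏ i, v i : ℕ) : ZMod d) = b)).eq_empty_or_nonempty with he | ⟨f0, hf0⟩
  · rw [he, card_empty]; exact Nat.zero_le _
  · obtain ⟨hf0S, hf0b⟩ := mem_filter.1 hf0
    refine F1_fib d z Y k f0 hf0S _ fun f hf => ?_
    obtain ⟨hfS, hfb⟩ := mem_filter.1 hf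
    refine ⟨hfS, ?_⟩
    have h1 : ((∏ i, f i : ℕ) : ZMod d) = ((∏ i, f0 i : ℕ) : ZMod d) := by rw [hfb, hf0b]
    rw [ZMod.natCast_eq_natCast_iff] at h1
    exact Nat.ModEq.eq_of_lt_of_lt h1 (F1_lt hd hY hfS) (F1_lt hd hY hf0S)

theorem moment (d z Y k : ℕ) [NeZero d] (hd : 2 ≤ d) (hY : Y ^ k ≤ d) :
    ∑ χ : DirichletCharacter ℂ d, ‖∑ q ∈ primesOff d z Y, χ (q : ZMod d)‖ ^ (2 * k) ≤
      (d.totient : ℝ) * (k : ℝ) ^ k * ((primesOff d z Y).card : ℝ) ^ k := by
  classical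
  set Q : Finset ℕ := primesOff d z Y with hQ
  set S : Finset (Fin k → ℕ) := Fintype.piFinset (fun _ : Fin k => Q) with hS
  set x : (Fin k → ℕ) → ZMod d := fun v => ((∏ i, v i : ℕ) : ZMod d) with hx
  have hunit : ∀ v ∈ S, IsUnit (x v) := by
    intro v hv
    rw [hx]
    exact (ZMod.isUnit_iff_coprime _ _).2 (F1_coprime hv)
  have hpow : ∀ χ : DirichletCharacter ℂ d, ‖∑ q ∈ Q, χ (q : ZMod d)‖ ^ (2 * k) =
      ‖∑ v ∈ S, (1 : ℂ) * χ (x v)‖ ^ 2 := by
    intro χ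
    have h1 : (∑ q ∈ Q, χ (q : ZMod d)) ^ k = ∑ v ∈ S, (1 : ℂ) * χ (x v) := by
      have h2 := Finset.prod_univ_sum (fun _ : Fin k => Q) (fun _ q => χ ((q : ℕ) : ZMod d))
      rw [Finset.prod_const, Finset.card_univ, Fintype.card_fin] at h2
      rw [h2]
      refine Finset.sum_congr rfl fun v _ => ?_
      rw [one_mul, hx]
      simp only
      rw [Nat.cast_prod, map_prod]
    rw [← h1, norm_pow, ← pow_mul, mul_comm k 2]
  rw [Finset.sum_congr rfl (fun χ _ => hpow χ), parseval_class d S x (fun _ => (1 : ℂ)) hunit]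
  have hcw : ∀ b : (ZMod d)ˣ, ‖cw S x (fun _ => (1 : ℂ)) b‖ =
      ((S.filter (fun v => x v = (b : ZMod d))).card : ℝ) := by
    intro b
    unfold cw
    rw [Finset.sum_const, nsmul_eq_mul, mul_one, Complex.norm_natCast]
  have hb : ∀ b : (ZMod d)ˣ, ‖cw S x (fun _ => (1 : ℂ)) b‖ ^ 2 ≤
      (k : ℝ) ^ k * ((S.filter (fun v => x v = (b : ZMod d))).card : ℝ) := by
    intro b
    rw [hcw, sq]
    refine mul_le_mul_of_nonneg_right ?_ (Nat.cast_nonneg _)
    have h1 := tuple_count d z Y k hd hY (b : ZMod d)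
    exact_mod_cast h1
  have hsum : ∑ b : (ZMod d)ˣ, ((S.filter (fun v => x v = (b : ZMod d))).card : ℝ) ≤ (Q.card : ℝ) ^ k := by
    have h1 : ∑ b : (ZMod d)ˣ, (S.filter (fun v => x v = (b : ZMod d))).card ≤ S.card := by
      rw [← Finset.card_biUnion]
      · refine card_le_card ?_
        intro v hv
        obtain ⟨b, -, hb⟩ := mem_biUnion.1 hv
        exact (mem_filter.1 hb).1
      · intro b _ b' _ hbb
        refine Finset.disjoint_left.2 ?_
        intro v hv hv'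
        apply hbb
        refine Units.ext ?_
        rw [← (mem_filter.1 hv).2, (mem_filter.1 hv').2]
    have h2 : S.card = Q.card ^ k := by rw [hS, Fintype.card_piFinset_const]
    rw [h2] at h1
    exact_mod_cast h1
  calc (d.totient : ℝ) * ∑ b : (ZMod d)ˣ, ‖cw S x (fun _ => (1 : ℂ)) b‖ ^ 2
      ≤ (d.totient : ℝ) * ∑ b : (ZMod d)ˣ, (k : ℝ) ^ k * ((S.filter (fun v => x v = (b : ZMod d))).card : ℝ) :=
        mul_le_mul_of_nonneg_left (Finset.sum_le_sum fun b _ => hb b) (Nat.cast_nonneg _)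
    _ = (d.totient : ℝ) * ((k : ℝ) ^ k * ∑ b : (ZMod d)ˣ, ((S.filter (fun v => x v = (b : ZMod d))).card : ℝ)) := by
        rw [← Finset.mul_sum]
    _ ≤ (d.totient : ℝ) * ((k : ℝ) ^ k * (Q.card : ℝ) ^ k) :=
        mul_le_mul_of_nonneg_left (mul_le_mul_of_nonneg_left hsum (by positivity)) (Nat.cast_nonneg _)
    _ = (d.totient : ℝ) * (k : ℝ) ^ k * (Q.card : ℝ) ^ k := by ring

end Pool.Agent.Lib.MP_42948a_nt.OM
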