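import Pool.Agent.Lib.MP_42948a_nt.OM.F1
import Pool.Agent.Lib.MP_42948a_nt.OA.FB

/-!
# The exceptional characters (job F2)

`d0 ≥ 2` from `many_primes k κ`. `Y = ⌊d^(1/k)⌋₊`, `Y^k ≤ d`, `Q = primesOff d z Y`, `#Q ≥ k d^((1-κ)/k)`, so `#Q^k ≥ k^k d^(1-κ)`. Let
`τ = d^(-(κ/(2k)))` and `X` the set of `χ` with `τ #Q < ‖∑_q χ q‖`. By `moment`:
`#X τ^(2k) #Q^(2k) ≤ φ(d) k^k #Q^k`, so `#X ≤ τ^(-2k) φ(d) k^k / #Q^k ≤ d^κ d / d^(1-κ) = d^(2κ)`. Add the trivial character: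
`#X + 1 ≤ 2 d^(2κ)`.
-/

namespace Pool.Agent.Lib.MP_42948a_nt.OM

open Finset Pool.Agent.Lib.MP_42948a_nt.OA

theorem exceptional (k : ℕ) (hk : 1 ≤ k) (κ : ℝ) (hκ : 0 < κ) (hκ1 : κ < 1) :
    ∃ d0 : ℕ, 2 ≤ d0 ∧ ∀ d : ℕ, d0 ≤ d → ∀ z : ℕ, (z : ℝ) ≤ (d : ℝ) ^ (1 / (2 * (k : ℝ))) →
      (primesOff d z ⌊(d : ℝ) ^ (1 / (k : ℝ))⌋₊).Nonempty ∧
      ∃ X : Finset (DirichletCharacter ℂ d), (1 : DirichletCharacter ℂ d) ∈ X ∧
        (X.card : ℝ) ≤ 2 * (d : ℝ) ^ (2 * κ) ∧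
        ∀ χ : DirichletCharacter ℂ d, χ ∉ X →
          ‖∑ q ∈ primesOff d z ⌊(d : ℝ) ^ (1 / (k : ℝ))⌋₊, χ (q : ZMod d)‖ ≤
            (d : ℝ) ^ (-(κ / (2 * k))) * ((primesOff d z ⌊(d : ℝ) ^ (1 / (k : ℝ))⌋₊).card : ℝ) := by
  classical
  obtain ⟨d1, hd1⟩ := many_primes k hk κ hκ hκ1
  refine ⟨max d1 2, le_max_right _ _, ?_⟩
  intro d hd z hz
  have hd2 : 2 ≤ d := (le_max_right _ _).trans hd
  have hQ := hd1 d ((le_max_left _ _).trans hd) z hz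
  have : NeZero d := ⟨by omega⟩
  have hx1 : (1 : ℝ) ≤ d := by exact_mod_cast (by omega : 1 ≤ d)
  have hx0 : (0 : ℝ) < d := by linarith
  have hk0 : (0 : ℝ) < k := by exact_mod_cast hk
  have hkne : k ≠ 0 := by omega
  set x : ℝ := (d : ℝ) with hx
  set Y : ℕ := ⌊x ^ (1 / (k : ℝ))⌋₊ with hY
  set Q : Finset ℕ := primesOff d z Y with hQdef
  have hYk : Y ^ k ≤ d := by
    have h1 : (Y : ℝ) ≤ x ^ (1 / (k : ℝ)) := Nat.floor_le (by positivity)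
    have h2 : (Y : ℝ) ^ k ≤ (x ^ (1 / (k : ℝ))) ^ k := pow_le_pow_left₀ (by positivity) h1 k
    rw [← Real.rpow_natCast (x ^ (1 / (k : ℝ))) k, ← Real.rpow_mul hx0.le, one_div,
      inv_mul_cancel₀ hk0.ne', Real.rpow_one, hx] at h2
    exact_mod_cast h2
  have hQpos : (0 : ℝ) < (Q.card : ℝ) := lt_of_lt_of_le (by positivity) hQ
  refine ⟨card_pos.1 (by exact_mod_cast hQpos), ?_⟩
  have hmom := moment d z Y k hd2 hYk
  rw [← hQdef] at hmom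
  set τ : ℝ := x ^ (-(κ / (2 * k))) with hτ
  have hτ0 : 0 < τ := Real.rpow_pos_of_pos hx0 _
  have hτk : τ ^ (2 * k) = x ^ (-κ) := by
    rw [hτ, ← Real.rpow_natCast, ← Real.rpow_mul hx0.le]
    congr 1
    push_cast
    field_simp
  let X0 : Finset (DirichletCharacter ℂ d) :=
    univ.filter (fun χ => τ * (Q.card : ℝ) < ‖∑ q ∈ Q, χ (q : ZMod d)‖)
  have hX0 : (X0.card : ℝ) * (τ * (Q.card : ℝ)) ^ (2 * k) ≤ (d.totient : ℝ) * (k : ℝ) ^ k * (Q.card : ℝ) ^ k := by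
    refine le_trans ?_ hmom
    calc (X0.card : ℝ) * (τ * (Q.card : ℝ)) ^ (2 * k)
        = ∑ _χ ∈ X0, (τ * (Q.card : ℝ)) ^ (2 * k) := by rw [sum_const, nsmul_eq_mul]
      _ ≤ ∑ χ ∈ X0, ‖∑ q ∈ Q, χ (q : ZMod d)‖ ^ (2 * k) := by
          refine sum_le_sum fun χ hχ => ?_
          exact pow_le_pow_left₀ (by positivity) (mem_filter.1 hχ).2.le _
      _ ≤ ∑ χ : DirichletCharacter ℂ d, ‖∑ q ∈ Q, χ (q : ZMod d)‖ ^ (2 * k) := by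
          refine sum_le_sum_of_subset_of_nonneg (subset_univ _) fun χ _ _ => by positivity
  have hQk : (k : ℝ) ^ k * x ^ (1 - κ) ≤ (Q.card : ℝ) ^ k := by
    have h1 : ((k : ℝ) * x ^ ((1 - κ) / k)) ^ k ≤ (Q.card : ℝ) ^ k := pow_le_pow_left₀ (by positivity) hQ k
    rw [mul_pow, ← Real.rpow_natCast (x ^ ((1 - κ) / k)) k, ← Real.rpow_mul hx0.le,
      div_mul_cancel₀ _ hk0.ne'] at h1
    exact h1
  have htot : (d.totient : ℝ) ≤ x := by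
    rw [hx]
    exact_mod_cast Nat.totient_le d
  have hX0c : (X0.card : ℝ) ≤ x ^ (2 * κ) := by
    have h1 : (τ * (Q.card : ℝ)) ^ (2 * k) = x ^ (-κ) * (Q.card : ℝ) ^ k * (Q.card : ℝ) ^ k := by
      rw [mul_pow, hτk, two_mul, pow_add]
      ring
    rw [h1] at hX0
    have hQkpos : 0 < (Q.card : ℝ) ^ k := by positivity
    have hkk : 0 < (k : ℝ) ^ k := by positivity
    have h2 : (X0.card : ℝ) * x ^ (-κ) * (Q.card : ℝ) ^ k ≤ (d.totient : ℝ) * (k : ℝ) ^ k := by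
      have : ((X0.card : ℝ) * x ^ (-κ) * (Q.card : ℝ) ^ k) * (Q.card : ℝ) ^ k ≤
          ((d.totient : ℝ) * (k : ℝ) ^ k) * (Q.card : ℝ) ^ k := by
        calc ((X0.card : ℝ) * x ^ (-κ) * (Q.card : ℝ) ^ k) * (Q.card : ℝ) ^ k
            = (X0.card : ℝ) * (x ^ (-κ) * (Q.card : ℝ) ^ k * (Q.card : ℝ) ^ k) := by ring
          _ ≤ _ := hX0
      exact le_of_mul_le_mul_right this hQkpos
    have hxk : 0 < x ^ (-κ) := Real.rpow_pos_of_pos hx0 _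
    have h3 : (X0.card : ℝ) * x ^ (-κ) * ((k : ℝ) ^ k * x ^ (1 - κ)) ≤ x * (k : ℝ) ^ k := by
      calc (X0.card : ℝ) * x ^ (-κ) * ((k : ℝ) ^ k * x ^ (1 - κ))
          ≤ (X0.card : ℝ) * x ^ (-κ) * (Q.card : ℝ) ^ k := by
            refine mul_le_mul_of_nonneg_left hQk (by positivity)
        _ ≤ (d.totient : ℝ) * (k : ℝ) ^ k := h2
        _ ≤ x * (k : ℝ) ^ k := mul_le_mul_of_nonneg_right htot hkk.le
    have h4 : (X0.card : ℝ) * (x ^ (-κ) * x ^ (1 - κ)) ≤ x := by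
      have : ((X0.card : ℝ) * (x ^ (-κ) * x ^ (1 - κ))) * (k : ℝ) ^ k ≤ x * (k : ℝ) ^ k := by
        calc ((X0.card : ℝ) * (x ^ (-κ) * x ^ (1 - κ))) * (k : ℝ) ^ k
            = (X0.card : ℝ) * x ^ (-κ) * ((k : ℝ) ^ k * x ^ (1 - κ)) := by ring
          _ ≤ _ := h3
      exact le_of_mul_le_mul_right this hkk
    rw [← Real.rpow_add hx0] at h4
    have h5 : (X0.card : ℝ) * x ^ (-κ + (1 - κ)) * x ^ (2 * κ) ≤ x * x ^ (2 * κ) :=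
      mul_le_mul_of_nonneg_right h4 (by positivity)
    rw [mul_assoc, ← Real.rpow_add hx0] at h5
    have h6 : -κ + (1 - κ) + 2 * κ = 1 := by ring
    rw [h6, Real.rpow_one, mul_comm] at h5
    exact le_of_mul_le_mul_left h5 hx0
  refine ⟨insert 1 X0, mem_insert_self _ _, ?_, ?_⟩
  · have h1 : ((insert (1 : DirichletCharacter ℂ d) X0).card : ℝ) ≤ (X0.card : ℝ) + 1 := by
      exact_mod_cast card_insert_le _ _
    have h2 : (1 : ℝ) ≤ x ^ (2 * κ) := Real.one_le_rpow hx1 (by positivity)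
    linarith
  · intro χ hχ
    by_contra hcon
    exact hχ (mem_insert_of_mem (mem_filter.2 ⟨mem_univ _, not_le.1 hcon⟩))

end Pool.Agent.Lib.MP_42948a_nt.OM
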