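import Pool.Agent.Lib.MP_42948a_nt.OM.A2

/-!
# The base count (job H1)

Write `f n = ze m ^ Om n` (norm one), `W = WW D.N`, `a χ = ac D.N f χ`, `n χ = ac D.N 1 χ`, `M χ = mc D.U D.p f χ`, `M1 χ = mc D.U D.p 1 χ`
(`‖M χ‖, ‖M1 χ‖ ≤ ∑ p = 1`). For `b` put `Γ b = ∑_{n1, n2 ∈ N, u ∈ U, n1 n2 u ≡ b} (1/(n1 n2)) p u f n1 f n2 f u` and `Γ0 b` the same without the
`f` (a real number `≥ 0`). By `orth`: `φ Γ b = ∑ χ, χ(b⁻¹) (a χ)^2 M χ`, `φ Γ0 b = ∑ χ, χ(b⁻¹) (n χ)^2 M1 χ`. For `b ∈ B` all the terms in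
`Γ b` have the same `f n1 f n2 f u = ze m ^ (Om n1 + Om n2 + Om u) = v`, so `‖Γ b‖ = Γ0 b`.
At `χ = 1`: `M 1 = ∑ p f = 0` (`p_zero`; `1 (u : ZMod d) = 1` for `u` coprime to `d`), `M1 1 = 1`, `n 1 = W`, `‖a 1‖ ≥ β W` (`bias`).
`large_sieve` for `v = f` and `v = 1`: `∑_{X \ 1} ‖a χ‖^2 ≤ (1 + β^2/100) W^2 - β^2 W^2`, `∑_{X \ 1} ‖n χ‖^2 ≤ (β^2/100) W^2`.
Let `R1 b = ∑_{χ ∉ X} χ(b⁻¹) (a χ)^2 M χ`, `R2 b` the same for `n`, `M1`. Then for `b ∈ B`: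
`W^2 - (β^2/100) W^2 - ‖R2 b‖ ≤ φ Γ0 b = φ ‖Γ b‖ ≤ (1 + β^2/100 - β^2) W^2 + ‖R1 b‖`, so `(98/100) β^2 W^2 ≤ ‖R1 b‖ + ‖R2 b‖` and one of them is
`≥ t = (49/100) β^2 W^2`. By `parseval_char` (coefficients `(a χ)^2 M χ` for `χ ∉ X`, `0` for `χ ∈ X`), `X_f` (`X_1`) and `fourth`:
`∑_b ‖R1 b‖^2 ≤ φ ∑_{χ ∉ X} ‖a χ‖^4 ‖M χ‖^2 ≤ d * d^(-2c) * d^c W^2 = d^(1-c) W^2`, the same for `R2`; by `card_large` each of the two sets
of `b` has at most `d^(1-c) W^2/t^2 ≤ d^(1-c) * 5/(β^4 W^2) ≤ 5 d^(1-c)/β^6` elements (`W ≥ β`).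
-/

namespace Pool.Agent.Lib.MP_42948a_nt.OM

open Finset Pool.Agent.Lib.MP_42948a_nt.OA

theorem H1_norm_ze (m : ℕ) : ‖ze m‖ = 1 := by
  rw [ze, show (2 * Real.pi * Complex.I / m : ℂ) = ((2 * Real.pi / m : ℝ) : ℂ) * Complex.I by
    push_cast; ring]
  exact Complex.norm_exp_ofReal_mul_I _

theorem H1_expand {d : ℕ} [NeZero d] (N U : Finset ℕ) (p : ℕ → ℝ) (g : ℕ → ℂ) (b : (ZMod d)ˣ) :
    ∑ χ : DirichletCharacter ℂ d, (ac N g χ ^ 2 * mc U p g χ) * χ ((b⁻¹ : (ZMod d)ˣ) : ZMod d) =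
      (d.totient : ℂ) * ∑ n1 ∈ N, ∑ n2 ∈ N, ∑ u ∈ U,
        (if ((n1 * n2 * u : ℕ) : ZMod d) = (b : ZMod d) then
          g n1 / (n1 : ℂ) * (g n2 / (n2 : ℂ)) * ((p u : ℂ) * g u) else 0) := by
  have e1 : ∀ (x : ℕ → ℂ) (y : ℕ → ℂ) (w : ℂ), (∑ n ∈ N, x n) ^ 2 * (∑ u ∈ U, y u) * w =
      ∑ n1 ∈ N, ∑ n2 ∈ N, ∑ u ∈ U, x n1 * x n2 * y u * w := by
    intro x y w
    rw [sq, Finset.sum_mul_sum, Finset.sum_mul, Finset.sum_mul]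
    refine sum_congr rfl fun n1 _ => ?_
    rw [Finset.sum_mul, Finset.sum_mul]
    refine sum_congr rfl fun n2 _ => ?_
    rw [Finset.mul_sum, Finset.sum_mul]
  have h : ∀ χ : DirichletCharacter ℂ d, (ac N g χ ^ 2 * mc U p g χ) * χ ((b⁻¹ : (ZMod d)ˣ) : ZMod d) =
      ∑ n1 ∈ N, ∑ n2 ∈ N, ∑ u ∈ U, (g n1 / (n1 : ℂ) * (g n2 / (n2 : ℂ)) * ((p u : ℂ) * g u)) *
        (χ ((b⁻¹ : (ZMod d)ˣ) : ZMod d) * χ ((n1 * n2 * u : ℕ) : ZMod d)) := by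
    intro χ
    rw [ac, mc, e1]
    refine sum_congr rfl fun n1 _ => sum_congr rfl fun n2 _ => sum_congr rfl fun u _ => ?_
    rw [Nat.cast_mul, Nat.cast_mul, map_mul, map_mul]
    ring
  rw [sum_congr rfl fun χ _ => h χ, sum_comm, mul_sum]
  refine sum_congr rfl fun n1 _ => ?_
  rw [sum_comm, mul_sum]
  refine sum_congr rfl fun n2 _ => ?_
  rw [sum_comm, mul_sum]
  refine sum_congr rfl fun u _ => ?_
  rw [← mul_sum, orth]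
  split_ifs
  · ring
  · ring

theorem H1_char_le {d : ℕ} [NeZero d] (χ : DirichletCharacter ℂ d) (x : ZMod d) : ‖χ x‖ ≤ 1 :=
  DirichletCharacter.norm_le_one χ x

theorem H1_ac_le {d : ℕ} [NeZero d] (N : Finset ℕ) (g : ℕ → ℂ) (hg : ∀ n, ‖g n‖ ≤ 1)
    (χ : DirichletCharacter ℂ d) : ‖ac N g χ‖ ≤ WW N := by
  rw [ac, WW]
  refine (norm_sum_le _ _).trans (sum_le_sum fun n _ => ?_)
  rw [norm_mul, norm_div, Complex.norm_natCast]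
  have h1 := H1_char_le χ (n : ZMod d)
  have h2 : ‖g n‖ / (n : ℝ) ≤ 1 / n := div_le_div_of_nonneg_right (hg n) (Nat.cast_nonneg n)
  have h3 : 0 ≤ ‖g n‖ / (n : ℝ) := by positivity
  calc ‖g n‖ / (n : ℝ) * ‖χ (n : ZMod d)‖ ≤ ‖g n‖ / (n : ℝ) * 1 := mul_le_mul_of_nonneg_left h1 h3
    _ ≤ 1 / n := by rw [mul_one]; exact h2

theorem H1_mc_le {d : ℕ} [NeZero d] (U : Finset ℕ) (p : ℕ → ℝ) (hp : ∀ u ∈ U, 0 ≤ p u)
    (hp1 : ∑ u ∈ U, p u = 1) (g : ℕ → ℂ) (hg : ∀ n, ‖g n‖ ≤ 1)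
    (χ : DirichletCharacter ℂ d) : ‖mc U p g χ‖ ≤ 1 := by
  rw [mc, ← hp1]
  refine (norm_sum_le _ _).trans (sum_le_sum fun n hn => ?_)
  rw [norm_mul, norm_mul, Complex.norm_real, Real.norm_eq_abs, abs_of_nonneg (hp n hn)]
  have h1 := H1_char_le χ (n : ZMod d)
  have h3 : 0 ≤ p n := hp n hn
  calc p n * ‖g n‖ * ‖χ (n : ZMod d)‖ ≤ p n * 1 * 1 := by
        apply mul_le_mul _ h1 (norm_nonneg _) (by positivity)
        exact mul_le_mul_of_nonneg_left (hg n) h3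
    _ = p n := by ring

/-- the part of the characters outside `X` -/
noncomputable def H1_R {d : ℕ} [NeZero d] (X : Finset (DirichletCharacter ℂ d))
    (k : DirichletCharacter ℂ d → ℂ) (b : (ZMod d)ˣ) : ℂ :=
  open Classical in
  ∑ χ : DirichletCharacter ℂ d, (if χ ∈ X then 0 else k χ) * χ ((b⁻¹ : (ZMod d)ˣ) : ZMod d)

theorem H1_split {d : ℕ} [NeZero d] (X : Finset (DirichletCharacter ℂ d))
    (k : DirichletCharacter ℂ d → ℂ) (b : (ZMod d)ˣ) :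
    ∑ χ : DirichletCharacter ℂ d, k χ * χ ((b⁻¹ : (ZMod d)ˣ) : ZMod d) =
      ∑ χ ∈ X, k χ * χ ((b⁻¹ : (ZMod d)ˣ) : ZMod d) + H1_R X k b := by
  classical
  have h1 : ∑ χ ∈ X, k χ * χ ((b⁻¹ : (ZMod d)ˣ) : ZMod d) =
      ∑ χ : DirichletCharacter ℂ d, if χ ∈ X then k χ * χ ((b⁻¹ : (ZMod d)ˣ) : ZMod d) else 0 := by
    rw [Finset.sum_ite_mem, Finset.univ_inter]
  rw [h1, H1_R, ← sum_add_distrib]
  refine sum_congr rfl fun χ _ => ?_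
  by_cases h : χ ∈ X
  · simp [h]
  · simp [h]

/-- the main comparison at a class `b` -/
theorem H1_main {m d z : ℕ} [NeZero d] {η β c : ℝ} (D : Dat m d z η β c)
    (g : ℕ → ℂ) (hg : ∀ n, ‖g n‖ ≤ 1) (b : (ZMod d)ˣ) :
    ‖∑ χ : DirichletCharacter ℂ d, (ac D.N g χ ^ 2 * mc D.U D.p g χ) * χ ((b⁻¹ : (ZMod d)ˣ) : ZMod d) -
      ac D.N g (1 : DirichletCharacter ℂ d) ^ 2 * mc D.U D.p g (1 : DirichletCharacter ℂ d)‖ ≤
      (1 + β ^ 2 / 100) * WW D.N ^ 2 - ‖ac D.N g (1 : DirichletCharacter ℂ d)‖ ^ 2 +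
        ‖H1_R D.X (fun χ => ac D.N g χ ^ 2 * mc D.U D.p g χ) b‖ := by
  classical
  rw [H1_split D.X, ← add_sum_erase D.X _ D.one_mem]
  have h1 : (1 : DirichletCharacter ℂ d) ((b⁻¹ : (ZMod d)ˣ) : ZMod d) = 1 := MulChar.one_apply_coe _
  rw [h1, mul_one]
  have h2 : ∀ (a s r : ℂ), a + s + r - a = s + r := fun a s r => by ring
  rw [h2]
  refine (norm_add_le _ _).trans (add_le_add_left ?_ _)
  have h3 := D.large_sieve g hg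
  rw [← add_sum_erase D.X _ D.one_mem] at h3
  refine le_trans ?_ (le_sub_iff_add_le'.mpr h3)
  refine (norm_sum_le _ _).trans (sum_le_sum fun χ _ => ?_)
  rw [norm_mul, norm_mul, norm_pow]
  have h4 := H1_char_le χ ((b⁻¹ : (ZMod d)ˣ) : ZMod d)
  have h5 := H1_mc_le D.U D.p D.p_nonneg D.p_sum g hg χ
  calc ‖ac D.N g χ‖ ^ 2 * ‖mc D.U D.p g χ‖ * ‖χ ((b⁻¹ : (ZMod d)ˣ) : ZMod d)‖
      ≤ ‖ac D.N g χ‖ ^ 2 * 1 * 1 := by
        apply mul_le_mul _ h4 (norm_nonneg _) (by positivity)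
        exact mul_le_mul_of_nonneg_left h5 (by positivity)
    _ = ‖ac D.N g χ‖ ^ 2 := by ring

open Classical in
/-- few classes have a large contribution of the characters outside `X` -/
theorem H1_few {m d z : ℕ} [NeZero d] {η β c : ℝ} (D : Dat m d z η β c) (hβ : 0 < β)
    (g : ℕ → ℂ) (hg : ∀ n, ‖g n‖ ≤ 1)
    (hX : ∀ χ : DirichletCharacter ℂ d, χ ∉ D.X → ‖mc D.U D.p g χ‖ ≤ (d : ℝ) ^ (-c)) :
    ((univ.filter (fun b => 49 / 100 * β ^ 2 * WW D.N ^ 2 ≤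
      ‖H1_R D.X (fun χ => ac D.N g χ ^ 2 * mc D.U D.p g χ) b‖)).card : ℝ) ≤
      5 * (d : ℝ) ^ (1 - c) / β ^ 6 := by
  have hW := D.W_pos
  have ht : 0 < 49 / 100 * β ^ 2 * WW D.N ^ 2 := by positivity
  have h1 := card_large (fun b => H1_R D.X (fun χ => ac D.N g χ ^ 2 * mc D.U D.p g χ) b) _ ht
  have hd : (0 : ℝ) < d := Nat.cast_pos.mpr (Nat.pos_of_ne_zero (NeZero.ne d))
  have h2 : ∑ b : (ZMod d)ˣ, ‖H1_R D.X (fun χ => ac D.N g χ ^ 2 * mc D.U D.p g χ) b‖ ^ 2 ≤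
      (d : ℝ) ^ (1 - c) * WW D.N ^ 2 := by
    have h3 := parseval_char d (fun χ => if χ ∈ D.X then 0 else ac D.N g χ ^ 2 * mc D.U D.p g χ)
    simp only [H1_R]
    rw [h3]
    have h4 : ∑ χ : DirichletCharacter ℂ d,
        ‖(if χ ∈ D.X then 0 else ac D.N g χ ^ 2 * mc D.U D.p g χ : ℂ)‖ ^ 2 ≤
        ((d : ℝ) ^ (-c)) ^ 2 * ((d : ℝ) ^ c * WW D.N ^ 2) := by
      calc ∑ χ : DirichletCharacter ℂ d,
            ‖(if χ ∈ D.X then 0 else ac D.N g χ ^ 2 * mc D.U D.p g χ : ℂ)‖ ^ 2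
          ≤ ∑ χ : DirichletCharacter ℂ d, ((d : ℝ) ^ (-c)) ^ 2 * ‖ac D.N g χ‖ ^ 4 := by
            refine sum_le_sum fun χ _ => ?_
            by_cases h : χ ∈ D.X
            · rw [if_pos h, norm_zero, zero_pow two_ne_zero]
              positivity
            · rw [if_neg h, norm_mul, norm_pow, mul_pow, ← pow_mul]
              have h5 : ‖mc D.U D.p g χ‖ ^ 2 ≤ ((d : ℝ) ^ (-c)) ^ 2 :=
                pow_le_pow_left₀ (norm_nonneg _) (hX χ h) 2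
              calc ‖ac D.N g χ‖ ^ (2 * 2) * ‖mc D.U D.p g χ‖ ^ 2
                  ≤ ‖ac D.N g χ‖ ^ (2 * 2) * ((d : ℝ) ^ (-c)) ^ 2 :=
                    mul_le_mul_of_nonneg_left h5 (by positivity)
                _ = ((d : ℝ) ^ (-c)) ^ 2 * ‖ac D.N g χ‖ ^ 4 := by ring
        _ = ((d : ℝ) ^ (-c)) ^ 2 * ∑ χ : DirichletCharacter ℂ d, ‖ac D.N g χ‖ ^ 4 := by
            rw [mul_sum]
        _ ≤ ((d : ℝ) ^ (-c)) ^ 2 * ((d : ℝ) ^ c * WW D.N ^ 2) :=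
            mul_le_mul_of_nonneg_left (D.fourth g hg) (by positivity)
    have h5 : (d.totient : ℝ) ≤ d := by exact_mod_cast Nat.totient_le d
    have h6 : (d : ℝ) ^ (-c) * (d : ℝ) ^ c = 1 := by
      rw [← Real.rpow_add hd, neg_add_cancel, Real.rpow_zero]
    have h7 : (d : ℝ) ^ (1 - c) = d * (d : ℝ) ^ (-c) := by
      rw [sub_eq_add_neg, Real.rpow_add hd, Real.rpow_one]
    calc (d.totient : ℝ) * ∑ χ : DirichletCharacter ℂ d,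
          ‖(if χ ∈ D.X then 0 else ac D.N g χ ^ 2 * mc D.U D.p g χ : ℂ)‖ ^ 2
        ≤ d * (((d : ℝ) ^ (-c)) ^ 2 * ((d : ℝ) ^ c * WW D.N ^ 2)) :=
          mul_le_mul h5 h4 (sum_nonneg fun _ _ => by positivity) hd.le
      _ = d * (d : ℝ) ^ (-c) * ((d : ℝ) ^ (-c) * (d : ℝ) ^ c) * WW D.N ^ 2 := by ring
      _ = (d : ℝ) ^ (1 - c) * WW D.N ^ 2 := by rw [h6, h7, mul_one]
  have h8 := h1.trans h2
  have hdp : 0 < (d : ℝ) ^ (1 - c) := Real.rpow_pos_of_pos hd _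
  obtain ⟨K, hK⟩ : ∃ K : ℝ, K = ((univ.filter (fun b => 49 / 100 * β ^ 2 * WW D.N ^ 2 ≤
      ‖H1_R D.X (fun χ => ac D.N g χ ^ 2 * mc D.U D.p g χ) b‖)).card : ℝ) := ⟨_, rfl⟩
  rw [← hK] at h8 ⊢
  have hK0 : 0 ≤ K := by rw [hK]; positivity
  have hWβ := D.W_ge
  rw [le_div_iff₀ (by positivity)]
  -- `K (49/100)^2 β^4 W^4 ≤ d^(1-c) W^2`
  have h9 : K * ((49 / 100) ^ 2 * β ^ 4 * WW D.N ^ 2) ≤ (d : ℝ) ^ (1 - c) := by
    have h10 : K * ((49 / 100) ^ 2 * β ^ 4 * WW D.N ^ 2) * WW D.N ^ 2 ≤ (d : ℝ) ^ (1 - c) * WW D.N ^ 2 := by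
      calc K * ((49 / 100) ^ 2 * β ^ 4 * WW D.N ^ 2) * WW D.N ^ 2 =
            K * (49 / 100 * β ^ 2 * WW D.N ^ 2) ^ 2 := by ring
        _ ≤ _ := h8
    exact le_of_mul_le_mul_right h10 (by positivity)
  have h11 : β ^ 2 ≤ WW D.N ^ 2 := pow_le_pow_left₀ hβ.le hWβ 2
  have h12 : K * ((49 / 100) ^ 2 * β ^ 4 * β ^ 2) ≤ K * ((49 / 100) ^ 2 * β ^ 4 * WW D.N ^ 2) :=
    mul_le_mul_of_nonneg_left (mul_le_mul_of_nonneg_left h11 (by positivity)) hK0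
  have h13 : K * ((49 / 100) ^ 2 * β ^ 4 * β ^ 2) = (49 / 100) ^ 2 * (K * β ^ 6) := by ring
  have h14 : 0 ≤ K * β ^ 6 := by positivity
  nlinarith

theorem base_count {m d z : ℕ} [NeZero d] {η β c : ℝ} (D : Dat m d z η β c) (hβ : 0 < β)
    (B : Finset (ZMod d)ˣ)
    (hB : ∀ b ∈ B, ∃ v : ℂ, ‖v‖ = 1 ∧ ∀ n1 ∈ D.N, ∀ n2 ∈ D.N, ∀ u ∈ D.U,
      ((n1 * n2 * u : ℕ) : ZMod d) = (b : ZMod d) → ze m ^ (Om n1 + Om n2 + Om u) = v) :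
    (B.card : ℝ) ≤ 10 * (d : ℝ) ^ (1 - c) / β ^ 6 := by
  classical
  have hW := D.W_pos
  have hf : ∀ n, ‖(fun n => ze m ^ Om n) n‖ ≤ 1 := fun n => by
    simp only [norm_pow, H1_norm_ze, one_pow, le_refl]
  have h1 : ∀ n : ℕ, ‖(fun _ => (1 : ℂ) : ℕ → ℂ) n‖ ≤ 1 := fun n => by simp
  have e1 := H1_few D hβ (fun n => ze m ^ Om n) hf D.X_f
  have e2 := H1_few D hβ (fun _ => 1) h1 D.X_1
  have hone : ∀ n : ℕ, n.Coprime d → (1 : DirichletCharacter ℂ d) (n : ZMod d) = 1 := by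
    intro n hn
    have := MulChar.one_apply_coe (R' := ℂ) (ZMod.unitOfCoprime n hn)
    rwa [ZMod.coe_unitOfCoprime] at this
  have hsub : B ⊆ (univ.filter (fun b => 49 / 100 * β ^ 2 * WW D.N ^ 2 ≤
      ‖H1_R D.X (fun χ => ac D.N (fun n => ze m ^ Om n) χ ^ 2 * mc D.U D.p (fun n => ze m ^ Om n) χ) b‖)) ∪
      (univ.filter (fun b => 49 / 100 * β ^ 2 * WW D.N ^ 2 ≤
      ‖H1_R D.X (fun χ => ac D.N (fun _ => 1) χ ^ 2 * mc D.U D.p (fun _ => 1) χ) b‖)) := by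
    intro b hb
    rw [mem_union, mem_filter, mem_filter]
    by_contra hcon
    push Not at hcon
    have c1 := hcon.1 (mem_univ _)
    have c2 := hcon.2 (mem_univ _)
    obtain ⟨v, hv, hv'⟩ := hB b hb
    have m1 := H1_main D (fun n => ze m ^ Om n) hf b
    have m2 := H1_main D (fun _ => 1) h1 b
    have z1 : mc D.U D.p (fun n => ze m ^ Om n) (1 : DirichletCharacter ℂ d) = 0 := by
      rw [← D.p_zero, mc]
      refine sum_congr rfl fun u hu => ?_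
      rw [hone u (D.U_cop u hu), mul_one]
    have z2 : mc D.U D.p (fun _ => 1) (1 : DirichletCharacter ℂ d) = 1 := by
      have : ((∑ u ∈ D.U, D.p u : ℝ) : ℂ) = 1 := by rw [D.p_sum, Complex.ofReal_one]
      rw [Complex.ofReal_sum] at this
      rw [mc]
      refine Eq.trans ?_ this
      refine sum_congr rfl fun u hu => ?_
      rw [hone u (D.U_cop u hu), mul_one, mul_one]
    have z3 : ac D.N (fun _ => 1) (1 : DirichletCharacter ℂ d) = (WW D.N : ℂ) := by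
      rw [WW, ac, Complex.ofReal_sum]
      refine sum_congr rfl fun n hn => ?_
      rw [hone n (D.N_cop n hn), mul_one]
      push_cast
      rfl
    have z4 : β * WW D.N ≤ ‖ac D.N (fun n => ze m ^ Om n) (1 : DirichletCharacter ℂ d)‖ := by
      refine D.bias.trans (le_of_eq ?_)
      congr 1
      rw [ac]
      refine sum_congr rfl fun n hn => ?_
      rw [hone n (D.N_cop n hn), mul_one]
    rw [z1, mul_zero, sub_zero] at m1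
    rw [z2, z3, mul_one, Complex.norm_real, Real.norm_eq_abs, abs_of_pos hW] at m2
    have z5 : (β * WW D.N) ^ 2 ≤ ‖ac D.N (fun n => ze m ^ Om n) (1 : DirichletCharacter ℂ d)‖ ^ 2 :=
      pow_le_pow_left₀ (by positivity) z4 2
    have key : ‖∑ χ : DirichletCharacter ℂ d, (ac D.N (fun n => ze m ^ Om n) χ ^ 2 *
        mc D.U D.p (fun n => ze m ^ Om n) χ) * χ ((b⁻¹ : (ZMod d)ˣ) : ZMod d)‖ =
        ‖∑ χ : DirichletCharacter ℂ d, (ac D.N (fun _ => 1) χ ^ 2 *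
        mc D.U D.p (fun _ => 1) χ) * χ ((b⁻¹ : (ZMod d)ˣ) : ZMod d)‖ := by
      rw [H1_expand, H1_expand, norm_mul, norm_mul]
      congr 1
      have k1 : ∑ n1 ∈ D.N, ∑ n2 ∈ D.N, ∑ u ∈ D.U,
          (if ((n1 * n2 * u : ℕ) : ZMod d) = (b : ZMod d) then
            ze m ^ Om n1 / (n1 : ℂ) * (ze m ^ Om n2 / (n2 : ℂ)) * ((D.p u : ℂ) * ze m ^ Om u) else 0) =
          v * ∑ n1 ∈ D.N, ∑ n2 ∈ D.N, ∑ u ∈ D.U,
          (if ((n1 * n2 * u : ℕ) : ZMod d) = (b : ZMod d) then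
            1 / (n1 : ℂ) * (1 / (n2 : ℂ)) * ((D.p u : ℂ) * 1) else 0) := by
        rw [mul_sum]
        refine sum_congr rfl fun n1 hn1 => ?_
        rw [mul_sum]
        refine sum_congr rfl fun n2 hn2 => ?_
        rw [mul_sum]
        refine sum_congr rfl fun u hu => ?_
        split_ifs with hh
        · rw [← hv' n1 hn1 n2 hn2 u hu hh, pow_add, pow_add]
          ring
        · rw [mul_zero]
      rw [k1, norm_mul, hv, one_mul]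
    rw [key] at m1
    have m3 : WW D.N ^ 2 - ‖∑ χ : DirichletCharacter ℂ d, (ac D.N (fun _ => 1) χ ^ 2 *
        mc D.U D.p (fun _ => 1) χ) * χ ((b⁻¹ : (ZMod d)ˣ) : ZMod d)‖ ≤
        ‖∑ χ : DirichletCharacter ℂ d, (ac D.N (fun _ => 1) χ ^ 2 *
        mc D.U D.p (fun _ => 1) χ) * χ ((b⁻¹ : (ZMod d)ˣ) : ZMod d) - (WW D.N : ℂ) ^ 2‖ := by
      rw [norm_sub_rev]
      refine le_trans (le_of_eq ?_) (norm_sub_norm_le _ _)
      rw [norm_pow, Complex.norm_real, Real.norm_eq_abs, abs_of_pos hW]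
    have hp : (β * WW D.N) ^ 2 = β ^ 2 * WW D.N ^ 2 := by ring
    rw [hp] at z5
    nlinarith [m1, m2, m3, z5, c1, c2]
  have h3 : (B.card : ℝ) ≤ 5 * (d : ℝ) ^ (1 - c) / β ^ 6 + 5 * (d : ℝ) ^ (1 - c) / β ^ 6 := by
    refine le_trans ?_ (add_le_add e1 e2)
    exact_mod_cast (card_le_card hsub).trans (card_union_le _ _)
  calc (B.card : ℝ) ≤ 5 * (d : ℝ) ^ (1 - c) / β ^ 6 + 5 * (d : ℝ) ^ (1 - c) / β ^ 6 := h3
    _ = 10 * (d : ℝ) ^ (1 - c) / β ^ 6 := by ring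

end Pool.Agent.Lib.MP_42948a_nt.OM
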