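import Pool.Agent.Lib.MP_42948a_nt.OM.I2
import Pool.Agent.Lib.MP_42948a_nt.OM.J5

/-!
# Almost all classes have `k` residues (job K)

`PK_two`: `η = min (ε/5) (1/8)`, `(δ, β, c)` from `dat_exists`, `B` = the classes with `#OmSet ≤ 1`, `X'' = ⌊d^(1 + ε)⌋₊`:
`n1 n2 u ≤ d^(2 (1/2 + 2η) + η) = d^(1 + 5η)`. `base_sets` gives `#B ≤ 10 d^(1-c)/β^6 ≤ d^(1-c/2)` for `d` large. So `PK m 2 ε δ (c/2)`
(`(2 : ℕ)/2 = 1` as reals).

`PK_succ`: given `δ'`, `c'` with `PK m k (ε/2) δ' c'`, take `η = min (ε/6) (1/8)`, `(δ1, β, c1)` from `dat_exists`, `δ = min δ' δ1`,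
`z' = ⌊d^δ'⌋₊`, `z = ⌊d^δ1⌋₊`, `z'' = ⌊d^δ⌋₊`, `X' = ⌊d^(k/2 + ε/2)⌋₊`, `X'' = ⌊d^((k+1)/2 + ε)⌋₊`:
`n u X' ≤ d^(1/2 + 2η + η + k/2 + ε/2) ≤ d^((k+1)/2 + ε)`. `step_sets` with `B` = the classes with `#OmSet m z'' X'' ≤ k`:
`#B ≤ (8/β^2) d^(1-c') + 64 d^(1-2 c1)/β^4 ≤ d^(1-c)` with `c = (min c' (2 c1))/2` and `d` large. Outside `B`, `k + 1 ≤ #OmSet`.

`PK_all`: induction from `k = 2`.
-/

namespace Pool.Agent.Lib.MP_42948a_nt.OM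

open Finset Pool.Agent.Lib.MP_42948a_nt.OA

theorem K_large (K c : ℝ) (hc : 0 < c) : ∃ d1 : ℕ, ∀ d : ℕ, d1 ≤ d → K ≤ (d : ℝ) ^ c := by
  have h := ((tendsto_rpow_atTop hc).comp tendsto_natCast_atTop_atTop).eventually_ge_atTop K
  obtain ⟨d1, hd1⟩ := Filter.eventually_atTop.mp h
  exact ⟨d1, fun d hd => hd1 d hd⟩

theorem K_prod_le {x y w D : ℝ} {a b c e : ℝ} (hD : 1 ≤ D) (hx0 : 0 ≤ x) (hy0 : 0 ≤ y)
    (hw0 : 0 ≤ w)
    (hx : x ≤ D ^ a) (hy : y ≤ D ^ b) (hw : w ≤ D ^ c) (h : a + b + c ≤ e) : x * y * w ≤ D ^ e := by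
  have hD0 : 0 < D := by linarith
  calc x * y * w ≤ D ^ a * D ^ b * D ^ c :=
        mul_le_mul (mul_le_mul hx hy hy0 (Real.rpow_nonneg hD0.le _)) hw hw0
          (mul_nonneg (Real.rpow_nonneg hD0.le _) (Real.rpow_nonneg hD0.le _))
    _ = D ^ (a + b + c) := by rw [Real.rpow_add hD0, Real.rpow_add hD0]
    _ ≤ D ^ e := Real.rpow_le_rpow_of_exponent_le hD h

theorem PK_two (m : ℕ) (hm : 3 ≤ m) (ε : ℝ) (hε : 0 < ε) :
    ∃ δ c : ℝ, 0 < δ ∧ 0 < c ∧ c < 1 ∧ PK m 2 ε δ c := by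
  classical
  obtain ⟨η, hη⟩ : ∃ η : ℝ, η = min (ε / 5) (1 / 8) := ⟨_, rfl⟩
  have hη0 : 0 < η := by rw [hη]; exact lt_min (by linarith) (by norm_num)
  have hη1 : η ≤ 1 / 8 := by rw [hη]; exact min_le_right _ _
  have hη2 : η ≤ ε / 5 := by rw [hη]; exact min_le_left _ _
  obtain ⟨δ, β, c, hδ, hβ, hc, hc1, d0, hd0, hdat⟩ := dat_exists m hm η hη0 hη1
  obtain ⟨d1, hd1⟩ := K_large (10 / β ^ 6) (c / 2) (by linarith)
  refine ⟨δ, c / 2, hδ, by linarith, by linarith, max d0 d1, fun d hd => ?_⟩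
  have hdd0 : d0 ≤ d := (le_max_left _ _).trans hd
  have hdd1 : d1 ≤ d := (le_max_right _ _).trans hd
  have hd2 : 2 ≤ d := hd0.trans hdd0
  have : NeZero d := ⟨by omega⟩
  have : NeZero m := ⟨by omega⟩
  obtain ⟨D⟩ := hdat d hdd0
  have hD1 : (1 : ℝ) ≤ d := by exact_mod_cast (by omega : 1 ≤ d)
  have hD0 : (0 : ℝ) < d := by linarith
  have hB := base_sets D hβ ⌊(d : ℝ) ^ δ⌋₊ ⌊(d : ℝ) ^ (((2 : ℕ) : ℝ) / 2 + ε)⌋₊ (le_refl _)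
    (by
      intro n1 hn1 n2 hn2 u hu
      apply Nat.le_floor
      push_cast
      apply K_prod_le hD1 (Nat.cast_nonneg _) (Nat.cast_nonneg _) (Nat.cast_nonneg _)
        (D.N_le n1 hn1) (D.N_le n2 hn2) (D.U_le u hu)
      linarith)
    (univ.filter fun b => (OmSet m ⌊(d : ℝ) ^ δ⌋₊ ⌊(d : ℝ) ^ (((2 : ℕ) : ℝ) / 2 + ε)⌋₊ b).card ≤ 1)
    (fun b hb => (mem_filter.mp hb).2)
  refine ⟨_, hB.trans ?_, fun b hb => ?_⟩
  · have h1 := hd1 d hdd1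
    calc 10 * (d : ℝ) ^ (1 - c) / β ^ 6 = 10 / β ^ 6 * (d : ℝ) ^ (1 - c) := by ring
      _ ≤ (d : ℝ) ^ (c / 2) * (d : ℝ) ^ (1 - c) :=
          mul_le_mul_of_nonneg_right h1 (Real.rpow_nonneg hD0.le _)
      _ = (d : ℝ) ^ (1 - c / 2) := by
          rw [← Real.rpow_add hD0]
          congr 1
          ring
  · by_contra hcon
    exact hb (mem_filter.mpr ⟨mem_univ _, by omega⟩)

theorem PK_succ (m : ℕ) (hm : m.Prime) (hm3 : 3 ≤ m) (k : ℕ) (hk1 : 1 ≤ k) (hkm : k < m)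
    (h : ∀ ε : ℝ, 0 < ε → ∃ δ c : ℝ, 0 < δ ∧ 0 < c ∧ c < 1 ∧ PK m k ε δ c) (ε : ℝ) (hε : 0 < ε) :
    ∃ δ c : ℝ, 0 < δ ∧ 0 < c ∧ c < 1 ∧ PK m (k + 1) ε δ c := by
  classical
  obtain ⟨δ', c', hδ', hc', hc'1, d2, hd2⟩ := h (ε / 2) (by linarith)
  obtain ⟨η, hη⟩ : ∃ η : ℝ, η = min (ε / 6) (1 / 8) := ⟨_, rfl⟩
  have hη0 : 0 < η := by rw [hη]; exact lt_min (by linarith) (by norm_num)
  have hη1 : η ≤ 1 / 8 := by rw [hη]; exact min_le_right _ _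
  have hη2 : η ≤ ε / 6 := by rw [hη]; exact min_le_left _ _
  obtain ⟨δ1, β, c1, hδ1, hβ, hc1, hc11, d0, hd0, hdat⟩ := dat_exists m hm3 η hη0 hη1
  obtain ⟨c, hc⟩ : ∃ c : ℝ, c = min c' (2 * c1) / 2 := ⟨_, rfl⟩
  have hc0 : 0 < c := by
    rw [hc]
    have := lt_min hc' (by linarith : 0 < 2 * c1)
    linarith
  have hcc' : 2 * c ≤ c' := by
    rw [hc]
    have := min_le_left c' (2 * c1)
    linarith
  have hcc1 : 2 * c ≤ 2 * c1 := by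
    rw [hc]
    have := min_le_right c' (2 * c1)
    linarith
  obtain ⟨d1, hd1⟩ := K_large (8 / β ^ 2 + 64 / β ^ 4) c hc0
  refine ⟨min δ' δ1, c, lt_min hδ' hδ1, hc0, by linarith, max d2 (max d0 d1), fun d hd => ?_⟩
  have hdd2 : d2 ≤ d := (le_max_left _ _).trans hd
  have hdd0 : d0 ≤ d := ((le_max_left _ _).trans (le_max_right _ _)).trans hd
  have hdd1 : d1 ≤ d := ((le_max_right _ _).trans (le_max_right _ _)).trans hd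
  have hd3 : 2 ≤ d := hd0.trans hdd0
  have : NeZero d := ⟨by omega⟩
  obtain ⟨D⟩ := hdat d hdd0
  obtain ⟨E, hE, hE'⟩ := hd2 d hdd2
  have hD1 : (1 : ℝ) ≤ d := by exact_mod_cast (by omega : 1 ≤ d)
  have hD0 : (0 : ℝ) < d := by linarith
  have hB := step_sets hm D hβ k hk1 hkm ⌊(d : ℝ) ^ δ'⌋₊ ⌊(d : ℝ) ^ (min δ' δ1)⌋₊
    ⌊(d : ℝ) ^ ((k : ℝ) / 2 + ε / 2)⌋₊ ⌊(d : ℝ) ^ (((k + 1 : ℕ) : ℝ) / 2 + ε)⌋₊
    (Nat.floor_le_floor (Real.rpow_le_rpow_of_exponent_le hD1 (min_le_right _ _)))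
    (Nat.floor_le_floor (Real.rpow_le_rpow_of_exponent_le hD1 (min_le_left _ _)))
    (by
      intro n hn u hu
      apply Nat.le_floor
      push_cast
      apply K_prod_le hD1 (Nat.cast_nonneg _) (Nat.cast_nonneg _) (Nat.cast_nonneg _)
        (D.N_le n hn) (D.U_le u hu) (Nat.floor_le (Real.rpow_nonneg hD0.le _))
      linarith)
    E (univ.filter fun b => (OmSet m ⌊(d : ℝ) ^ (min δ' δ1)⌋₊
      ⌊(d : ℝ) ^ (((k + 1 : ℕ) : ℝ) / 2 + ε)⌋₊ b).card ≤ k)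
    hE' (fun b hb => (mem_filter.mp hb).2)
  refine ⟨_, hB.trans ?_, fun b hb => ?_⟩
  · have h1 := hd1 d hdd1
    have h2 : (d : ℝ) ^ (1 - c') ≤ (d : ℝ) ^ (1 - 2 * c) :=
      Real.rpow_le_rpow_of_exponent_le hD1 (by linarith)
    have h3 : (d : ℝ) ^ (1 - 2 * c1) ≤ (d : ℝ) ^ (1 - 2 * c) :=
      Real.rpow_le_rpow_of_exponent_le hD1 (by linarith)
    calc 8 / β ^ 2 * (E.card : ℝ) + 64 * (d : ℝ) ^ (1 - 2 * c1) / β ^ 4
        ≤ 8 / β ^ 2 * (d : ℝ) ^ (1 - 2 * c) + 64 / β ^ 4 * (d : ℝ) ^ (1 - 2 * c) := by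
          apply add_le_add
          · exact mul_le_mul_of_nonneg_left (hE.trans h2) (by positivity)
          · rw [mul_div_right_comm]
            exact mul_le_mul_of_nonneg_left h3 (by positivity)
      _ = (8 / β ^ 2 + 64 / β ^ 4) * (d : ℝ) ^ (1 - 2 * c) := by ring
      _ ≤ (d : ℝ) ^ c * (d : ℝ) ^ (1 - 2 * c) :=
          mul_le_mul_of_nonneg_right h1 (Real.rpow_nonneg hD0.le _)
      _ = (d : ℝ) ^ (1 - c) := by
          rw [← Real.rpow_add hD0]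
          congr 1
          ring
  · by_contra hcon
    exact hb (mem_filter.mpr ⟨mem_univ _, by omega⟩)

theorem PK_all (m : ℕ) (hm : m.Prime) (hm3 : 3 ≤ m) (k : ℕ) (hk2 : 2 ≤ k) (hkm : k ≤ m) (ε : ℝ) (hε : 0 < ε) :
    ∃ δ c : ℝ, 0 < δ ∧ 0 < c ∧ c < 1 ∧ PK m k ε δ c := by
  induction k, hk2 using Nat.le_induction generalizing ε with
  | base => exact PK_two m hm3 ε hε
  | succ k hk ih =>
    exact PK_succ m hm hm3 k (by omega) (by omega) (fun ε' hε' => ih (by omega) ε' hε') ε hε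

end Pool.Agent.Lib.MP_42948a_nt.OM
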