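import Pool.Agent.Lib.MP_42948a_nt.OM.M

/-!
# Sets of residues: Cauchy-Davenport for classes
-/

namespace Pool.Agent.Lib.MP_42948a_nt.OM

open Finset Pool.Agent.Lib.MP_42948a_nt.OA

open scoped Pointwise in
theorem all_classes_J (m k1 k2 z X1 X2 X'' d : ℕ) (hm : m.Prime) [NeZero d] (h1 : 1 ≤ k1) (h2 : 1 ≤ k2)
    (hX : X1 * X2 ≤ X'') (E1 E2 : Finset (ZMod d)ˣ)
    (hE1 : ∀ b : (ZMod d)ˣ, b ∉ E1 → k1 ≤ (OmSet m z X1 b).card)
    (hE2 : ∀ b : (ZMod d)ˣ, b ∉ E2 → k2 ≤ (OmSet m z X2 b).card)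
    (hcard : E1.card + E2.card < d.totient) (J : Finset (ZMod m)) (hJ : J.Nonempty)
    (hk : m + 2 ≤ k1 + k2 + J.card) (a : (ZMod d)ˣ) : ∃ j ∈ J, j ∈ OmSet m z X'' a := by
  classical
  have : NeZero m := ⟨hm.ne_zero⟩
  obtain ⟨x, hx⟩ : ∃ x : (ZMod d)ˣ, x ∉ E1 ∪ E2.image (fun y => a * y⁻¹) := by
    by_contra hcon
    push Not at hcon
    have h1 : (E1 ∪ E2.image (fun y => a * y⁻¹)) = Finset.univ := Finset.eq_univ_of_forall hcon
    have h2 : (E1 ∪ E2.image (fun y => a * y⁻¹)).card ≤ E1.card + E2.card := by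
      refine (card_union_le _ _).trans ?_
      have := card_image_le (s := E2) (f := fun y => a * y⁻¹)
      omega
    rw [h1, Finset.card_univ, ZMod.card_units_eq_totient] at h2
    omega
  rw [mem_union, not_or] at hx
  have hy : a * x⁻¹ ∉ E2 := by
    intro hy
    apply hx.2
    rw [mem_image]
    refine ⟨a * x⁻¹, hy, ?_⟩
    rw [mul_inv, inv_inv, ← mul_assoc, mul_inv_cancel, one_mul]
  have hA := hE1 x hx.1
  have hB := hE2 (a * x⁻¹) hy
  have hAne : (OmSet m z X1 x).Nonempty := card_pos.1 (by omega)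
  have hBne : (OmSet m z X2 (a * x⁻¹)).Nonempty := card_pos.1 (by omega)
  have hCD := ZMod.cauchy_davenport hm hAne hBne
  obtain ⟨j, hjJ, hj⟩ : ∃ j ∈ J, j ∈ OmSet m z X1 x + OmSet m z X2 (a * x⁻¹) := by
    by_contra hcon
    push Not at hcon
    have hdis : Disjoint J (OmSet m z X1 x + OmSet m z X2 (a * x⁻¹)) := by
      rw [Finset.disjoint_left]
      exact hcon
    have h3 := card_le_univ (J ∪ (OmSet m z X1 x + OmSet m z X2 (a * x⁻¹)))
    rw [card_union_of_disjoint hdis, ZMod.card] at h3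
    have h4 := hJ.card_pos
    rcases le_total m ((OmSet m z X1 x).card + (OmSet m z X2 (a * x⁻¹)).card - 1) with h5 | h5
    · rw [min_eq_left h5] at hCD
      omega
    · rw [min_eq_right h5] at hCD
      omega
  obtain ⟨s, hs, t, ht, hst⟩ := mem_add.1 hj
  refine ⟨j, hjJ, ?_⟩
  obtain ⟨n, n1, n2, n3, n4, n5⟩ := M_mem.1 hs
  obtain ⟨n', n1', n2', n3', n4', n5'⟩ := M_mem.1 ht
  refine M_mem.2 ⟨n * n', Nat.mul_pos n1 n1', (Nat.mul_le_mul n2 n2').trans hX, n3.mul n3', ?_, ?_⟩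
  · rw [Nat.cast_mul, n4, n4', ← Units.val_mul]
    congr 1
    rw [mul_comm, mul_assoc, inv_mul_cancel, mul_one]
  · rw [← hst, ← n5, ← n5', ← Nat.cast_add]
    congr 1
    exact ArithmeticFunction.cardFactors_mul (by omega) (by omega)

theorem P1_step (m z X X'' l d s : ℕ) [NeZero d] (hl : l.Prime) (hzl : z < l)
    (hld : ¬ l ∣ d) (hX : l ^ m * X ≤ X'') (hs : s ≤ m) (b : (ZMod d)ˣ) (i : ZMod m) (h : i ∈ OmSet m z X b) :
    (i + (s : ZMod m)) ∈ OmSet m z X''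
      ((ZMod.unitOfCoprime l ((Nat.Prime.coprime_iff_not_dvd hl).2 hld)) ^ s * b) := by
  rw [M_mem] at h ⊢
  obtain ⟨n, h1, h2, h3, h4, h5⟩ := h
  have hl1 : 1 ≤ l ^ s := Nat.one_le_pow _ _ hl.pos
  refine ⟨l ^ s * n, Nat.one_le_iff_ne_zero.2 (Nat.mul_ne_zero (by omega) (by omega)), ?_, ?_, ?_, ?_⟩
  · calc l ^ s * n ≤ l ^ m * X := Nat.mul_le_mul (Nat.pow_le_pow_right hl.pos hs) h2
      _ ≤ X'' := hX
  · refine Rough.mul ⟨hl1, fun p hp hd => ?_⟩ h3
    have h6 := hp.dvd_of_dvd_pow hd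
    rw [(Nat.prime_dvd_prime_iff_eq hp hl).1 h6]
    exact hzl
  · push_cast
    rw [h4]
    rfl
  · have h6 : Om (l ^ s * n) = Om n + s := by
      unfold Om
      rw [ArithmeticFunction.cardFactors_mul (by omega) (by omega), ArithmeticFunction.cardFactors_apply_prime_pow hl,
        add_comm]
    rw [h6, Nat.cast_add, h5]

open scoped Pointwise in
theorem count_J (m k z X X'' l d : ℕ) (hm : m.Prime) [NeZero m] [NeZero d] (hk : 1 ≤ k) (hl : l.Prime) (hzl : z < l)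
    (hld : ¬ l ∣ d) (hX : l ^ m * X ≤ X'') (E : Finset (ZMod d)ˣ)
    (hE : ∀ b : (ZMod d)ˣ, b ∉ E → k ≤ (OmSet m z X b).card) (J : Finset (ZMod m)) (hJ : J.Nonempty) :
    ∃ B : Finset (ZMod d)ˣ, min 1 (((k : ℝ) + J.card - 1) / m) * ((d.totient : ℝ) - E.card) ≤ B.card ∧
      ∀ b ∈ B, ∃ j ∈ J, j ∈ OmSet m z X'' b := by
  classical
  refine ⟨univ.filter (fun b => ∃ j ∈ J, j ∈ OmSet m z X'' b), ?_, fun b hb => (Finset.mem_filter.1 hb).2⟩
  set B' : Finset (ZMod d)ˣ := univ.filter (fun b => ∃ j ∈ J, j ∈ OmSet m z X'' b) with hB'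
  have hmpos := hm.pos
  -- every shift
  have h1 : ∀ t : ZMod m, (univ.filter (fun b : (ZMod d)ˣ => ∃ i ∈ OmSet m z X b, i + t ∈ J)).card ≤ B'.card := by
    intro t
    refine Finset.card_le_card_of_injOn (fun b =>
      (ZMod.unitOfCoprime l ((Nat.Prime.coprime_iff_not_dvd hl).2 hld)) ^ (t.val) * b) ?_ ?_
    · intro b hb
      obtain ⟨i, hi, hit⟩ := (Finset.mem_filter.1 hb).2
      have h2 := P1_step m z X X'' l d t.val hl hzl hld hX (ZMod.val_lt _).le b i hi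
      rw [ZMod.natCast_zmod_val] at h2
      rw [hB']
      exact Finset.mem_coe.2 (Finset.mem_filter.2 ⟨Finset.mem_univ _, i + t, hit, h2⟩)
    · intro b _ b' _ h
      exact mul_left_cancel h
  -- double counting
  have h2 : ∑ t : ZMod m, (univ.filter (fun b : (ZMod d)ˣ => ∃ i ∈ OmSet m z X b, i + t ∈ J)).card =
      ∑ b : (ZMod d)ˣ, (univ.filter (fun t : ZMod m => ∃ i ∈ OmSet m z X b, i + t ∈ J)).card := by
    simp_rw [Finset.card_filter]
    rw [Finset.sum_comm]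
  have h2' : ∀ b : (ZMod d)ˣ, b ∉ E → min m (k + J.card - 1) ≤
      (univ.filter (fun t : ZMod m => ∃ i ∈ OmSet m z X b, i + t ∈ J)).card := by
    intro b hb
    have hA := hE b hb
    have hAne : (OmSet m z X b).Nonempty := card_pos.1 (by omega)
    have hnne : (-(OmSet m z X b)).Nonempty := hAne.neg
    have hCD := ZMod.cauchy_davenport hm hJ hnne
    rw [Finset.card_neg] at hCD
    have hsub : J + -(OmSet m z X b) ⊆ univ.filter (fun t : ZMod m => ∃ i ∈ OmSet m z X b, i + t ∈ J) := by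
      intro t ht
      obtain ⟨j, hj, y, hy, hjy⟩ := mem_add.1 ht
      rw [Finset.mem_neg] at hy
      obtain ⟨i, hi, hiy⟩ := hy
      refine mem_filter.2 ⟨mem_univ _, i, hi, ?_⟩
      rw [← hjy, ← hiy]
      have : i + (j + -i) = j := by ring
      rw [this]
      exact hj
    have h3 := card_le_card hsub
    refine le_trans (le_trans ?_ hCD) h3
    have hJ1 := hJ.card_pos
    apply min_le_min le_rfl
    omega
  have h3 : ∑ t : ZMod m, (univ.filter (fun b : (ZMod d)ˣ => ∃ i ∈ OmSet m z X b, i + t ∈ J)).card ≤ m * B'.card := by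
    calc _ ≤ ∑ t : ZMod m, B'.card := Finset.sum_le_sum fun i _ => h1 i
      _ = m * B'.card := by rw [Finset.sum_const, Finset.card_univ, ZMod.card, smul_eq_mul]
  have h4 : (Eᶜ).card * (min m (k + J.card - 1)) ≤
      ∑ b : (ZMod d)ˣ, (univ.filter (fun t : ZMod m => ∃ i ∈ OmSet m z X b, i + t ∈ J)).card := by
    calc (Eᶜ).card * (min m (k + J.card - 1)) = ∑ b ∈ Eᶜ, min m (k + J.card - 1) := by
          rw [Finset.sum_const, smul_eq_mul]
      _ ≤ ∑ b ∈ Eᶜ, (univ.filter (fun t : ZMod m => ∃ i ∈ OmSet m z X b, i + t ∈ J)).card :=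
          Finset.sum_le_sum fun b hb => h2' b (Finset.mem_compl.1 hb)
      _ ≤ _ := Finset.sum_le_sum_of_subset (Finset.subset_univ _)
  have h5 : (Eᶜ).card + E.card = d.totient := by
    rw [← ZMod.card_units_eq_totient, Finset.card_compl_add_card]
  have h6 : (Eᶜ).card * (min m (k + J.card - 1)) ≤ m * B'.card := h4.trans (h2 ▸ h3)
  have h7 : (((Eᶜ).card : ℕ) : ℝ) = (d.totient : ℝ) - E.card := by
    rw [← h5]
    push_cast
    ring
  have hm0 : (0 : ℝ) < m := by exact_mod_cast hmpos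
  have h8 : (((Eᶜ).card * (min m (k + J.card - 1)) : ℕ) : ℝ) ≤ ((m * B'.card : ℕ) : ℝ) := by exact_mod_cast h6
  have h9 : min 1 (((k : ℝ) + J.card - 1) / m) = ((min m (k + J.card - 1) : ℕ) : ℝ) / m := by
    have h10 : ((k + J.card - 1 : ℕ) : ℝ) = (k : ℝ) + J.card - 1 := by
      rw [Nat.cast_sub (by omega)]
      push_cast
      ring
    rw [Nat.cast_min, h10, ← min_div_div_right hm0.le, div_self hm0.ne']
  rw [h9, ← h7, div_mul_eq_mul_div, div_le_iff₀ hm0]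
  push_cast at h8 ⊢
  linarith

end Pool.Agent.Lib.MP_42948a_nt.OM
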